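import Pool.Agent.Lib.FCC.Base

/-!
# The region around the body centred orthorhombic forms, in Selling parameters
-/

namespace Pool.Agent.Lib.EPT

/-- the sums of opposite Selling parameters -/
def SP (l : Fin 6 → ℝ) : Fin 3 → ℝ
  | 0 => l 0 + l 1
  | 1 => l 2 + l 3
  | 2 => l 4 + l 5

/-- the sum of the Selling parameters -/
def Se (l : Fin 6 → ℝ) : ℝ := l 0 + l 1 + l 2 + l 3 + l 4 + l 5

/-- the region: `Se l - SP l k` are the norms `D_k` of three vectors which are orthogonal if opposite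
parameters are equal; after the normalisation `D_0 + D_1 + D_2 = 4`: `D_k ≥ 3/4`, `D_j - D_k ≤ 11/10`, and
`∑ (l_{2k} - l_{2k+1})² D_k ≤ D_0 D_1 D_2 / 200` -/
structure SReg (l : Fin 6 → ℝ) : Prop where
  d1 : ∀ k, 8 * SP l k ≤ 5 * Se l
  d2 : ∀ j k, 20 * SP l j ≤ 20 * SP l k + 11 * Se l
  off : 200 * ((l 0 - l 1) ^ 2 * (Se l - SP l 0) + (l 2 - l 3) ^ 2 * (Se l - SP l 1)
      + (l 4 - l 5) ^ 2 * (Se l - SP l 2)) ≤
    (Se l - SP l 0) * (Se l - SP l 1) * (Se l - SP l 2)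

end Pool.Agent.Lib.EPT
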