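import Pool.Agent.Lib.EPT.Fun

/-!
# The matrices

PROOF. All statements are explicit computations with 3 by 3 matrices.
* `qf_mat`, `qf_dmat`: expand (`qf`, `qr`, `dotProduct`, `mulVec`, `Fin.sum_univ_three`), `ring`.
* `det_mat`: `det_fin_three`, `ring`.
* `mat_inv`: show `q.mat * q.inv.dmat = 1` entry by entry (`field_simp`, `ring` after unfolding
  `dt`, `W`, `pp`), then `Matrix.inv_eq_right_inv`.
* `conj_dir`: the polynomial identity, entry by entry,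
  `mat * (dt • dM.dmat) * mat = -dt • dir.mat + (2 W - 6 pp - chi d0) • mat`,
  and `chi d0 = 2 (W - 3 pp)` (`d0 ≠ 0`); so `mat * dM.dmat * mat = -dir.mat`; multiply by the
  inverse on both sides.
* `trace_dir`: `trace (mat⁻¹ * dir.mat) = (2 W - 6 pp - chi d0) / dt` up to sign, `= 0`.
* `pd_mat`: `q.mat` is symmetric and `qr q.mat v = E + K >= (11/12) E` with
  `E = a n1² + b n2² + c n3²`, `n1 = (v0 + v1 - v2)/2` etc.; `K² ≤ E² / 144` because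
  `K = 2 (o3 n1 n2 + o2 n1 n3 + o1 n2 n3)`, Cauchy-Schwarz with the weights `a b`, `a c`, `b c`:
  `K² ≤ 4 (o3²/(ab) + o2²/(ac) + o1²/(bc)) (ab n1²n2² + ac n1²n3² + bc n2²n3²)
      ≤ 4 (W/(abc)) E²/3 ≤ E²/150`.  Positive unless `n1 = n2 = n3 = 0`, i.e. `v = 0`.
* `Th_dual_symm`: apply `Th_dual` with `X = (1/2) Q⁻¹ H`: `Hx Q X = H`, `X.trace = 0`,
  `Hx Q⁻¹ Xᵀ = Q⁻¹ H Q⁻¹` (`Q`, `H` symmetric).
* `Th_dir_dual`: combine; `Th q.inv.dmat (-q.dM.dmat)` is minus the sum (`qf_dmat`, `qf_neg`).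
-/

namespace Pool.Agent.Lib.EPT

open Matrix Pool.Agent.Lib.EpZ Pool.Agent.Lib.EPS Pool.Agent.Lib.EPL

namespace AlgAux

theorem mat_e (q : Par) : q.mat 0 0 = (q.a + q.b + q.c + 2 * (q.o1 + q.o2 + q.o3)) / 4 ∧
    q.mat 0 1 = (q.a - q.b - q.c - 2 * q.o1) / 4 ∧ q.mat 0 2 = (-q.a + q.b - q.c - 2 * q.o2) / 4 ∧
    q.mat 1 0 = (q.a - q.b - q.c - 2 * q.o1) / 4 ∧
    q.mat 1 1 = (q.a + q.b + q.c + 2 * (q.o1 - q.o2 - q.o3)) / 4 ∧
    q.mat 1 2 = (-q.a - q.b + q.c + 2 * q.o3) / 4 ∧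
    q.mat 2 0 = (-q.a + q.b - q.c - 2 * q.o2) / 4 ∧ q.mat 2 1 = (-q.a - q.b + q.c + 2 * q.o3) / 4 ∧
    q.mat 2 2 = (q.a + q.b + q.c + 2 * (-q.o1 + q.o2 - q.o3)) / 4 :=
  ⟨rfl, rfl, rfl, rfl, rfl, rfl, rfl, rfl, rfl⟩

theorem dmat_e (q : Par) : q.dmat 0 0 = q.a + q.b + 2 * q.o3 ∧
    q.dmat 0 1 = q.a + q.o3 - q.o2 - q.o1 ∧ q.dmat 0 2 = q.b + q.o3 - q.o2 - q.o1 ∧
    q.dmat 1 0 = q.a + q.o3 - q.o2 - q.o1 ∧ q.dmat 1 1 = q.a + q.c - 2 * q.o2 ∧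
    q.dmat 1 2 = q.c + q.o3 - q.o2 - q.o1 ∧ q.dmat 2 0 = q.b + q.o3 - q.o2 - q.o1 ∧
    q.dmat 2 1 = q.c + q.o3 - q.o2 - q.o1 ∧ q.dmat 2 2 = q.b + q.c - 2 * q.o1 :=
  ⟨rfl, rfl, rfl, rfl, rfl, rfl, rfl, rfl, rfl⟩

theorem qr_mat (q : Par) (v : Fin 3 → ℝ) : qr q.mat v =
    (q.a * (v 0 + v 1 - v 2) ^ 2 + q.b * (v 0 - v 1 + v 2) ^ 2 + q.c * (v 0 - v 1 - v 2) ^ 2) / 4 +
    (q.o3 * (v 0 + v 1 - v 2) * (v 0 - v 1 + v 2) + q.o2 * (v 0 + v 1 - v 2) * (v 0 - v 1 - v 2)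
      + q.o1 * (v 0 - v 1 + v 2) * (v 0 - v 1 - v 2)) / 2 := by
  obtain ⟨e1, e2, e3, e4, e5, e6, e7, e8, e9⟩ := mat_e q
  rw [qr_eq]
  simp only [Fin.sum_univ_three, e1, e2, e3, e4, e5, e6, e7, e8, e9]
  ring

theorem cs_ineq {a b c o1 o2 o3 x y z : ℝ} (ha : 0 < a) (hb : 0 < b) (hc : 0 < c)
    (hT : 200 * (a * o1 ^ 2 + b * o2 ^ 2 + c * o3 ^ 2) ≤ a * b * c) :
    150 * ((o3 * x * y + o2 * x * z + o1 * y * z) / 2) ^ 2 ≤
      ((a * x ^ 2 + b * y ^ 2 + c * z ^ 2) / 4) ^ 2 := by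
  have habc : 0 < a * b * c := by positivity
  have h1 : a * b * c * (o3 * (x * y) + o2 * (x * z) + o1 * (y * z)) ^ 2 ≤
      (a * o1 ^ 2 + b * o2 ^ 2 + c * o3 ^ 2) *
        (a * b * (x * y) ^ 2 + a * c * (x * z) ^ 2 + b * c * (y * z) ^ 2) := by
    have e1 := mul_nonneg ha.le (sq_nonneg (c * o3 * (x * z) - b * o2 * (x * y)))
    have e2 := mul_nonneg hb.le (sq_nonneg (c * o3 * (y * z) - a * o1 * (x * y)))
    have e3 := mul_nonneg hc.le (sq_nonneg (b * o2 * (y * z) - a * o1 * (x * z)))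
    nlinarith [e1, e2, e3]
  have h2 : 3 * (a * b * (x * y) ^ 2 + a * c * (x * z) ^ 2 + b * c * (y * z) ^ 2) ≤
      (a * x ^ 2 + b * y ^ 2 + c * z ^ 2) ^ 2 := by
    nlinarith [sq_nonneg (a * x ^ 2 - b * y ^ 2), sq_nonneg (a * x ^ 2 - c * z ^ 2),
      sq_nonneg (b * y ^ 2 - c * z ^ 2)]
  have hP : 0 ≤ a * b * (x * y) ^ 2 + a * c * (x * z) ^ 2 + b * c * (y * z) ^ 2 := by positivity
  have h3 : 200 * (a * b * c * (o3 * (x * y) + o2 * (x * z) + o1 * (y * z)) ^ 2) ≤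
      a * b * c * (a * b * (x * y) ^ 2 + a * c * (x * z) ^ 2 + b * c * (y * z) ^ 2) := by
    calc 200 * (a * b * c * (o3 * (x * y) + o2 * (x * z) + o1 * (y * z)) ^ 2) ≤
          200 * ((a * o1 ^ 2 + b * o2 ^ 2 + c * o3 ^ 2) *
            (a * b * (x * y) ^ 2 + a * c * (x * z) ^ 2 + b * c * (y * z) ^ 2)) := by linarith
      _ = (200 * (a * o1 ^ 2 + b * o2 ^ 2 + c * o3 ^ 2)) *
            (a * b * (x * y) ^ 2 + a * c * (x * z) ^ 2 + b * c * (y * z) ^ 2) := by ring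
      _ ≤ _ := mul_le_mul_of_nonneg_right hT hP
  have h4 : 200 * (o3 * (x * y) + o2 * (x * z) + o1 * (y * z)) ^ 2 ≤
      a * b * (x * y) ^ 2 + a * c * (x * z) ^ 2 + b * c * (y * z) ^ 2 := by
    refine le_of_mul_le_mul_left ?_ habc
    linarith
  nlinarith [h4, h2]

theorem ten {q : Par} (h : Reg q) : 0 < q.a ∧ 0 < q.b ∧ 0 < q.c := by
  have h1 := h.ha
  have h2 := h.hab
  have h3 := h.hbc
  exact ⟨by linarith, by linarith, by linarith⟩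

theorem lower {q : Par} (h : Reg q) (v : Fin 3 → ℝ) :
    11 / 12 * ((q.a * (v 0 + v 1 - v 2) ^ 2 + q.b * (v 0 - v 1 + v 2) ^ 2 +
      q.c * (v 0 - v 1 - v 2) ^ 2) / 4) ≤ qr q.mat v := by
  obtain ⟨ha, hb, hc⟩ := ten h
  have h1 := cs_ineq (x := v 0 + v 1 - v 2) (y := v 0 - v 1 + v 2) (z := v 0 - v 1 - v 2)
    ha hb hc h.hT
  rw [qr_mat]
  set E := (q.a * (v 0 + v 1 - v 2) ^ 2 + q.b * (v 0 - v 1 + v 2) ^ 2 +
      q.c * (v 0 - v 1 - v 2) ^ 2) / 4 with hE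
  set K := (q.o3 * (v 0 + v 1 - v 2) * (v 0 - v 1 + v 2) + q.o2 * (v 0 + v 1 - v 2) *
    (v 0 - v 1 - v 2) + q.o1 * (v 0 - v 1 + v 2) * (v 0 - v 1 - v 2)) / 2 with hK
  have hE0 : 0 ≤ E := by rw [hE]; positivity
  have h2 : |K| ≤ 1 / 12 * E := by
    refine abs_le_of_sq_le_sq ?_ (by positivity)
    nlinarith
  have h3 := (abs_le.mp h2).1
  linarith

end AlgAux

open AlgAux

theorem qf_mat (q : Par) (x : Fin 3 → ℤ) : qf q.mat x = q.Ex x + q.Kx x := by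
  unfold qf
  rw [qr_mat]
  simp only [rv, Par.Ex, Par.Kx, u1, u2, u3]
  push_cast
  ring

theorem qf_dmat (q : Par) (y : Fin 3 → ℤ) : qf q.dmat y = q.Ey y + q.Ky y := by
  obtain ⟨e1, e2, e3, e4, e5, e6, e7, e8, e9⟩ := dmat_e q
  unfold qf
  rw [qr_eq]
  simp only [Fin.sum_univ_three, e1, e2, e3, e4, e5, e6, e7, e8, e9, rv, Par.Ey, Par.Ky, w1, w2,
    w3]
  push_cast
  ring

theorem mat_symm (q : Par) : q.mat.IsSymm := by
  unfold Matrix.IsSymm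
  ext i j
  fin_cases i <;> fin_cases j <;> rfl

theorem det_mat (q : Par) : q.mat.det = q.dt / 4 := by
  obtain ⟨e1, e2, e3, e4, e5, e6, e7, e8, e9⟩ := mat_e q
  rw [det_fin_three]
  simp only [e1, e2, e3, e4, e5, e6, e7, e8, e9, Par.dt, Par.W, Par.pp]
  ring

theorem Reg.pd_mat {q : Par} (h : Reg q) : PD q.mat := by
  refine ⟨mat_symm q, fun v hv => ?_⟩
  obtain ⟨ha, hb, hc⟩ := ten h
  have h1 := lower h v
  have h2 : 0 < (q.a * (v 0 + v 1 - v 2) ^ 2 + q.b * (v 0 - v 1 + v 2) ^ 2 +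
      q.c * (v 0 - v 1 - v 2) ^ 2) / 4 := by
    by_contra hle
    push Not at hle
    have p1 := mul_nonneg ha.le (sq_nonneg (v 0 + v 1 - v 2))
    have p2 := mul_nonneg hb.le (sq_nonneg (v 0 - v 1 + v 2))
    have p3 := mul_nonneg hc.le (sq_nonneg (v 0 - v 1 - v 2))
    have z1 : q.a * (v 0 + v 1 - v 2) ^ 2 = 0 := by linarith
    have z2 : q.b * (v 0 - v 1 + v 2) ^ 2 = 0 := by linarith
    have z3 : q.c * (v 0 - v 1 - v 2) ^ 2 = 0 := by linarith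
    have y1 : v 0 + v 1 - v 2 = 0 := pow_eq_zero_iff (two_ne_zero) |>.mp
      ((mul_eq_zero.mp z1).resolve_left ha.ne')
    have y2 : v 0 - v 1 + v 2 = 0 := pow_eq_zero_iff (two_ne_zero) |>.mp
      ((mul_eq_zero.mp z2).resolve_left hb.ne')
    have y3 : v 0 - v 1 - v 2 = 0 := pow_eq_zero_iff (two_ne_zero) |>.mp
      ((mul_eq_zero.mp z3).resolve_left hc.ne')
    refine hv (funext fun i => ?_)
    fin_cases i
    · show v 0 = 0
      linarith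
    · show v 1 = 0
      linarith
    · show v 2 = 0
      linarith
  linarith

theorem Reg.dt_pos {q : Par} (h : Reg q) : 0 < q.dt := by
  have h1 := h.pd_mat.det_pos
  rw [det_mat] at h1
  linarith

theorem Reg.d0_pos {q : Par} (h : Reg q) : 0 < q.d0 := by
  obtain ⟨ha, hb, hc⟩ := ten h
  have hT := h.hT
  unfold Par.W at hT
  unfold Par.d0
  have h1 : 0 ≤ q.a * q.o1 ^ 2 := by positivity
  have h2 : 0 ≤ q.b * q.o2 ^ 2 := by positivity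
  have h3 : 0 < q.a * q.b := by positivity
  have h4 : q.c * (200 * q.o3 ^ 2) ≤ q.c * (q.a * q.b) := by nlinarith
  have h5 := le_of_mul_le_mul_left h4 hc
  linarith

namespace AlgAux

/-- the matrix of the adjugate form on the dual lattice -/
noncomputable def adj (q : Par) : Par :=
  ⟨q.b * q.c - q.o1 ^ 2, q.a * q.c - q.o2 ^ 2, q.a * q.b - q.o3 ^ 2,
    q.o2 * q.o3 - q.a * q.o1, q.o1 * q.o3 - q.b * q.o2, q.o1 * q.o2 - q.c * q.o3⟩

/-- `dt` times the derivative -/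
noncomputable def dN (q : Par) (x : ℝ) : Par :=
  ⟨2 * q.o1 ^ 2 - x * q.b, 2 * q.o2 ^ 2 - x * q.a, 2 * q.o3 ^ 2,
    q.a * q.o1 - 2 * q.o2 * q.o3, q.b * q.o2 - 2 * q.o1 * q.o3,
    q.c * q.o3 - 2 * q.o1 * q.o2 + x * q.o3⟩

theorem inv_dmat (q : Par) : q.inv.dmat = q.dt⁻¹ • (adj q).dmat := by
  ext i j
  fin_cases i <;> fin_cases j <;> simp [Par.dmat, Par.inv, adj] <;> ring

theorem dM_dmat (q : Par) : q.dM.dmat = q.dt⁻¹ • (dN q q.chi).dmat := by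
  ext i j
  fin_cases i <;> fin_cases j <;> simp [Par.dmat, Par.dM, dN] <;> ring

theorem mat_adj (q : Par) : q.mat * (adj q).dmat = q.dt • (1 : Mx 3) := by
  ext i j
  fin_cases i <;> fin_cases j <;>
    simp [Par.mat, Par.dmat, adj, Matrix.mul_apply, Fin.sum_univ_three, Par.dt, Par.W, Par.pp] <;>
    ring

/-- the direction with a free coefficient -/
noncomputable def dir' (q : Par) (x : ℝ) : Par := ⟨0, 0, -x, -q.o1, -q.o2, -q.o3⟩

theorem conj_poly (q : Par) (x : ℝ) : q.mat * (dN q x).dmat * q.mat =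
    (-q.dt) • (dir' q x).mat + (2 * q.W - 6 * q.pp - x * q.d0) • q.mat := by
  ext i j
  fin_cases i <;> fin_cases j <;>
    simp [Par.mat, Par.dmat, dN, dir', Matrix.mul_apply, Fin.sum_univ_three, Par.dt, Par.W, Par.pp,
      Par.d0] <;>
    ring

theorem trace_poly (q : Par) (x : ℝ) : ((adj q).dmat * (dir' q x).mat).trace =
    2 * q.W - 6 * q.pp - x * q.d0 := by
  simp only [trace_fin_three, Matrix.mul_apply, Fin.sum_univ_three]
  simp [Par.mat, Par.dmat, adj, dir', Par.W, Par.pp, Par.d0]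
  ring

theorem chi_d0 {q : Par} (h : Reg q) : 2 * q.W - 6 * q.pp - q.chi * q.d0 = 0 := by
  have h1 := h.d0_pos.ne'
  unfold Par.chi
  rw [div_mul_cancel₀ _ h1]
  ring

end AlgAux

theorem Reg.mat_inv {q : Par} (h : Reg q) : q.mat⁻¹ = q.inv.dmat := by
  refine Matrix.inv_eq_right_inv ?_
  rw [inv_dmat, Matrix.mul_smul, mat_adj, smul_smul, inv_mul_cancel₀ h.dt_pos.ne', one_smul]

theorem Reg.trace_dir {q : Par} (h : Reg q) : (q.mat⁻¹ * q.dir.mat).trace = 0 := by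
  have h1 := trace_poly q q.chi
  rw [chi_d0 h] at h1
  rw [h.mat_inv, inv_dmat, Matrix.smul_mul, trace_smul]
  show q.dt⁻¹ • ((adj q).dmat * (dir' q q.chi).mat).trace = 0
  rw [h1, smul_zero]

theorem Reg.conj_dir {q : Par} (h : Reg q) : q.mat⁻¹ * q.dir.mat * q.mat⁻¹ = -q.dM.dmat := by
  have hu : IsUnit q.mat.det := h.pd_mat.det_pos.ne'.isUnit
  have h1 := conj_poly q q.chi
  rw [chi_d0 h, zero_smul, add_zero] at h1
  have h2 : q.mat * q.dM.dmat * q.mat = -q.dir.mat := by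
    rw [dM_dmat, Matrix.mul_smul, Matrix.smul_mul, h1, smul_smul]
    have : q.dt⁻¹ * -q.dt = -1 := by
      rw [mul_neg, inv_mul_cancel₀ h.dt_pos.ne']
    rw [this, neg_one_smul]
    rfl
  have h3 : q.dir.mat = -(q.mat * q.dM.dmat * q.mat) := by rw [h2, neg_neg]
  rw [h3, Matrix.mul_neg, Matrix.neg_mul]
  congr 1
  calc q.mat⁻¹ * (q.mat * q.dM.dmat * q.mat) * q.mat⁻¹ =
        (q.mat⁻¹ * q.mat) * q.dM.dmat * (q.mat * q.mat⁻¹) := by
          simp only [Matrix.mul_assoc]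
    _ = q.dM.dmat := by
        rw [Matrix.nonsing_inv_mul _ hu, Matrix.mul_nonsing_inv _ hu, Matrix.one_mul,
          Matrix.mul_one]

theorem Th_dual_symm {Q H : Mx 3} (hQ : PD Q) (hH : H.IsSymm) (htr : (Q⁻¹ * H).trace = 0)
    {t : ℝ} (ht : 0 < t) :
    Th Q H t = -(Ct Q t * Th Q⁻¹ (Q⁻¹ * H * Q⁻¹) (Real.pi ^ 2 / t)) := by
  have hu : IsUnit Q.det := hQ.det_pos.ne'.isUnit
  have hQi : (Q⁻¹)ᵀ = Q⁻¹ := by rw [transpose_nonsing_inv, hQ.1.eq]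
  have hX : ((1 / 2 : ℝ) • (Q⁻¹ * H)).trace = 0 := by
    rw [trace_smul, htr, smul_zero]
  have h1 := Th_dual hQ hX ht
  have e1 : ((1 / 2 : ℝ) • (Q⁻¹ * H))ᵀ = (1 / 2 : ℝ) • (H * Q⁻¹) := by
    rw [transpose_smul, transpose_mul, hQi, hH.eq]
  have e2 : Hx Q ((1 / 2 : ℝ) • (Q⁻¹ * H)) = H := by
    unfold Hx
    rw [e1, Matrix.mul_smul, Matrix.smul_mul, ← Matrix.mul_assoc, Matrix.mul_nonsing_inv _ hu,
      Matrix.one_mul, Matrix.mul_assoc, Matrix.nonsing_inv_mul _ hu, Matrix.mul_one, ← add_smul]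
    norm_num
  have e3 : Hx Q⁻¹ ((1 / 2 : ℝ) • (Q⁻¹ * H))ᵀ = Q⁻¹ * H * Q⁻¹ := by
    unfold Hx
    rw [transpose_transpose, e1, Matrix.mul_smul, Matrix.smul_mul, ← Matrix.mul_assoc, ← add_smul]
    norm_num
  rw [e2, e3] at h1
  exact h1

/-- the theta function of the direction, direct form -/
theorem Th_dir (q : Par) (t : ℝ) : Th q.mat q.dir.mat t =
    ∑' x : Fin 3 → ℤ, (-q.Kx x - q.chi * (u3 x : ℝ) ^ 2 / 4)
      * Real.exp (-(t * (q.Ex x + q.Kx x))) := by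
  unfold Th
  refine tsum_congr fun x => ?_
  rw [qf_mat, qf_mat]
  congr 1
  simp only [Par.dir, Par.Ex, Par.Kx]
  ring

/-- the theta function of the direction, dual form -/
theorem Reg.Th_dir_dual {q : Par} (h : Reg q) {t : ℝ} (ht : 0 < t) :
    Th q.mat q.dir.mat t = Ct q.mat t * q.Ds (Real.pi ^ 2 / t) := by
  rw [Th_dual_symm h.pd_mat (mat_symm _) h.trace_dir ht, h.conj_dir, h.mat_inv, ← mul_neg]
  congr 1
  unfold Th Par.Ds
  rw [← tsum_neg]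
  refine tsum_congr fun y => ?_
  rw [qf_neg, qf_dmat, qf_dmat]
  ring

end Pool.Agent.Lib.EPT
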