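import Pool.Agent.Lib.EPT.BTm

/-!
# Soundness of the numerical conditions on a box
-/

namespace Pool.Agent.Lib.EPT

open Tm

set_option linter.unusedSimpArgs false
set_option linter.unusedTactic false

namespace BT

/-- the number with the index `i` of the data -/
noncomputable def nu' (l : List ℕ) (i : ℕ) : ℝ := ((l.getD i 0 : ℕ) : ℝ) / 1048576

/-- the box of the data -/
noncomputable def bxOf (l : List ℕ) : Bx :=
  ⟨nu' l 0, nu' l 1, nu' l 2, nu' l 3, nu' l 4, nu' l 5⟩

/-- the weights of the data -/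
noncomputable def wtOf (l : List ℕ) : Wt :=
  ⟨nu' l 6, nu' l 7, nu' l 8, nu' l 9, nu' l 10, nu' l 11, nu' l 12, nu' l 13, nu' l 14, nu' l 15⟩

theorem xx_in : In Bx.xx (3448145198781303685, 3448145198781303686) := by
  have h1 := Real.pi_gt_d20
  have h2 := Real.pi_lt_d20
  unfold In Bx.xx
  constructor
  · norm_num [sc] at *
    nlinarith
  · norm_num [sc] at *
    nlinarith

theorem k7 : 4 * (Real.pi / (33 / 10)) ^ 7 ≤ 28348 / 10000 := by
  have h1 := Real.pi_lt_d20
  have h0 := Real.pi_pos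
  have h2 : Real.pi / (33 / 10) ≤ 0.952 := by
    rw [div_le_iff₀ (by norm_num)]
    norm_num at *
    linarith
  have h3 : (Real.pi / (33 / 10)) ^ 7 ≤ 0.9519978 ^ 7 := by
    refine pow_le_pow_left₀ (by positivity) ?_ 7
    rw [div_le_iff₀ (by norm_num)]
    norm_num at *
    linarith
  refine le_trans (mul_le_mul_of_nonneg_left h3 (by norm_num)) ?_
  norm_num

theorem env0_in (l : List ℕ) (hl : l.length = 16) (i : ℕ) (j : ℕ × ℕ)
    (h : (env0 l)[i]? = some j) : In (rho (bxOf l) (wtOf l) i) j := by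
  unfold env0 at h
  cases i with
  | zero =>
    simp only [List.getElem?_cons_zero, Option.some.injEq] at h
    subst h
    exact xx_in
  | succ i =>
    simp only [List.getElem?_cons_succ, List.getElem?_map, Option.map_eq_some_iff] at h
    obtain ⟨n, hn, hj⟩ := h
    rw [frc_eq] at hj
    subst hj
    have hi : i < 16 := by
      rw [← hl]
      exact (List.getElem?_eq_some_iff.mp hn).1
    have hv : rho (bxOf l) (wtOf l) (i + 1) = nu' l i := by
      interval_cases i <;> rfl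
    rw [hv]
    have hd : l.getD i 0 = n := by
      rw [List.getD_eq_getElem?_getD, hn]
      rfl
    unfold nu' In
    rw [hd]
    constructor <;> (push_cast; norm_num; linarith)

theorem okE_tc {B : Bx} {w : Wt} {m l e f : Tm}
    (he : e.val (rho B w) = Real.exp (-(37 / 40 * Bx.xx * l.val (rho B w))))
    (hf : f.val (rho B w) = Real.exp (-(43 / 40 * Bx.xx * l.val (rho B w)))) :
    ∀ p ∈ tc m l e f, okE (rho B w) p := by
  intro p hp
  simp only [tc, List.mem_cons, List.not_mem_nil, or_false] at hp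
  rcases hp with rfl | rfl
  · simp [okE, Tm.val, rho, he]
  · simp [okE, Tm.val, rho, hf]

theorem okE_tr {B : Bx} {w : Wt} {m : Tm} : ∀ p ∈ tr m, okE (rho B w) p := by
  intro p hp
  simp only [tr, List.mem_cons, List.not_mem_nil, or_false] at hp
  rcases hp with rfl | rfl | rfl <;> simp [okE, Tm.val, rho]

theorem okE_ta {B : Bx} {w : Wt} {m n : Tm} : ∀ p ∈ ta m n, okE (rho B w) p := by
  intro p hp
  simp only [ta, List.mem_cons, List.not_mem_nil, or_false] at hp
  rcases hp with rfl | rfl <;> simp [okE, Tm.val, rho, c]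

theorem okE_tv {B : Bx} {w : Wt} {m l e : Tm}
    (he : e.val (rho B w) = Real.exp (-(37 / 40 * Bx.xx * l.val (rho B w)))) :
    okE (rho B w) (tv m l e) := by
  simp [okE, tv, Tm.val, rho, he]

theorem okE_L1 (B : Bx) (w : Wt) : ∀ p ∈ L1, okE (rho B w) p := by
  intro p hp
  simp only [L1, List.mem_append, List.mem_cons, List.not_mem_nil, or_false] at hp
  rcases hp with (((((h | h) | h) | h) | h) | h)
  · exact okE_tc rfl rfl p h
  · exact okE_tc rfl rfl p h
  · exact okE_tc rfl rfl p h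
  · exact okE_ta p h
  · exact okE_tr p h
  · rcases h with rfl | rfl | rfl <;> exact okE_tv rfl

theorem okE_L2 (B : Bx) (w : Wt) : ∀ p ∈ L2, okE (rho B w) p := by
  intro p hp
  simp only [L2, List.mem_append, List.mem_cons, List.not_mem_nil, or_false] at hp
  rcases hp with (((((h | h) | h) | h) | h) | h)
  · exact okE_tc rfl rfl p h
  · exact okE_tc rfl rfl p h
  · exact okE_tc rfl rfl p h
  · exact okE_ta p h
  · exact okE_tr p h
  · rcases h with rfl | rfl | rfl <;> exact okE_tv rfl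

theorem okE_L3 (B : Bx) (w : Wt) : ∀ p ∈ L3, okE (rho B w) p := by
  intro p hp
  simp only [L3, List.mem_append, List.mem_cons, List.not_mem_nil, or_false] at hp
  rcases hp with (((((h | h) | h) | h) | h) | h)
  · exact okE_tc rfl rfl p h
  · exact okE_tc rfl rfl p h
  · exact okE_tc rfl rfl p h
  · exact okE_ta p h
  · exact okE_tr p h
  · subst h; exact okE_tv rfl

theorem okE_Lp (B : Bx) (w : Wt) : ∀ p ∈ Lp, okE (rho B w) p := by
  intro p hp
  simp only [Lp, List.mem_append] at hp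
  rcases hp with ((((h | h) | h) | h) | h)
  · exact okE_tc rfl rfl p h
  · exact okE_tc rfl rfl p h
  · exact okE_tc rfl rfl p h
  · exact okE_ta p h
  · exact okE_tr p h

theorem map_L1 (B : Bx) (w : Wt) : L1.map (real (rho B w)) = B.L1 := by
  simp [L1, tc, ta, tr, tv, wr, real, Tm.val, rho, Bx.L1, Bx.tc, Bx.ta, Bx.tr, Bx.tv, Bx.wr, c]

theorem map_L2 (B : Bx) (w : Wt) : L2.map (real (rho B w)) = B.L2 := by
  simp [L2, tc, ta, tr, tv, wr, real, Tm.val, rho, Bx.L2, Bx.tc, Bx.ta, Bx.tr, Bx.tv, Bx.wr, c]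

theorem map_L3 (B : Bx) (w : Wt) : L3.map (real (rho B w)) = B.L3 := by
  simp [L3, tc, ta, tr, tv, wr, real, Tm.val, rho, Bx.L3, Bx.tc, Bx.ta, Bx.tr, Bx.tv, Bx.wr, c]

theorem map_Lp (B : Bx) (w : Wt) : Lp.map (real (rho B w)) = B.Lp := by
  simp [Lp, tc, ta, tr, tv, wr, real, Tm.val, rho, Bx.Lp, Bx.tc, Bx.ta, Bx.tr, Bx.tv, Bx.wr, c]

theorem prog_ok (B : Bx) (w : Wt) (j : ℕ) (t : Tm) (h : prog[j]? = some t) :
    t.val (rho B w) = rho B w (17 + j) := by
  have hj : j < 53 := (List.getElem?_eq_some_iff.mp h).1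
  interval_cases j <;>
    simp only [prog, List.getElem?_cons_zero, List.getElem?_cons_succ, Option.some.injEq] at h <;>
    subst h
  · simp [Tm.val, rho, c, Bx.ch1]
  · simp [Tm.val, rho, c, Bx.ch2]
  · simp [Tm.val, rho, c, Bx.ch3]
  · simp [Tm.val, rho, c, Bx.chp]
  · simp [Tm.val, rho, c, Bx.S2m]
  · simp [Tm.val, rho, c, Bx.eA]
  · simp [Tm.val, rho, c, Bx.eB]
  · simp [Tm.val, rho, c, Bx.eC]
  · simp [Tm.val, rho, c, Bx.FA, e38_val]
  · simp [Tm.val, rho, c, Bx.CA]
  · simp [Tm.val, rho, c, Bx.N1, e38_val]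
  · simp [Tm.val, rho, c, Bx.CB]
  · simp [Tm.val, rho, c, Bx.JNu, p0_val, p0m_val, p2_val]
  · simp [Tm.val, rho, c, Bx.G1, p1_val]
  · simp [Tm.val, rho, c, Bx.G2, p1_val]
  · simp [Tm.val, rho, c, Bx.G3, p1_val]
  · simp [Tm.val, rho, c, Bx.cpp, p2_val]
  · simp [Tm.val, rho, c, Bx.l1]
  · simp [Tm.val, rho, c, Bx.l2]
  · simp [Tm.val, rho, c, Bx.l3]
  · simp [Tm.val, rho, c, Bx.h1]
  · simp [Tm.val, rho, c, Bx.h2]
  · simp [Tm.val, rho, c, Bx.h3]
  · simp [Tm.val, rho, c, Bx.dn]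
  · simp [Tm.val, rho, c, Bx.dx]
  · simp [Tm.val, rho, c, Bx.gl]
  · simp [Tm.val, rho, c, Bx.nu]
  · simp [Tm.val, rho, c, Bx.rab]
  · simp [Tm.val, rho, c, Bx.rba]
  · simp [Tm.val, rho, c, Bx.rcb]
  · simp [Tm.val, rho, c, Bx.rca]
  · simp [Tm.val, rho, c]
  · simp [Tm.val, rho, c]
  · simp [Tm.val, rho, c]
  · simp [Tm.val, rho, c]
  · simp [Tm.val, rho, c]
  · simp [Tm.val, rho, c]
  · simp [Tm.val, rho, c]
  · simp [Tm.val, rho, c]
  · simp [Tm.val, rho, c]
  · simp [Tm.val, rho, c]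
  · simp [Tm.val, rho, c]
  · simp [Tm.val, rho, c, Bx.x1]
  · simp [Tm.val, rho, c, Bx.x2]
  · simp [Tm.val, rho, c, Bx.x3]
  · simp [Tm.val, rho, c]
  · simp [Tm.val, rho, c]
  · simp [Tm.val, rho, c]
  · rw [tup_val _ (okE_Lp B w), map_Lp]
    rfl
  · simp [Tm.val, rho, c, Bx.CC]
  · rw [tcost_val _ _ (okE_L1 B w), map_L1]
    rfl
  · rw [tcost_val _ _ (okE_L2 B w), map_L2]
    rfl
  · rw [tcost_val _ _ (okE_L3 B w), map_L3]
    rfl

theorem cmp_sound {r : ℕ → ℝ} {e : List (ℕ × ℕ)} (he : ∀ i j, e[i]? = some j → In (r i) j)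
    {p : Tm × Tm} (h : cmp e p = true) : p.1.val r < p.2.val r :=
  Tm.lt_sound he h

theorem wOk_of {B : Bx} {w : Wt} {e : List (ℕ × ℕ)}
    (he : ∀ i j, e[i]? = some j → In (rho B w i) j) {i : ℕ}
    (n1 : 0 ≤ rho B w i) (n2 : 0 ≤ rho B w (i + 1)) (n3 : 0 ≤ rho B w (i + 2))
    (h : (cmp e (big1 i) || cmp e (big2 i)) = true) :
    B.wOk (rho B w i) (rho B w (i + 1)) (rho B w (i + 2)) := by
  refine ⟨n1, n2, n3, ?_⟩
  rw [Bool.or_eq_true] at h
  rcases h with h | h
  · left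
    have := cmp_sound he h
    simp only [big1, Tm.val, c] at this
    norm_num at this
    exact this.le
  · right
    have := cmp_sound he h
    simp only [big2, Tm.val, c] at this
    norm_num at this
    have e1 : rho B w 1 = B.a0 := rfl
    have e2 : rho B w 3 = B.b0 := rfl
    have e3 : rho B w 5 = B.c0 := rfl
    rw [e1, e2, e3] at this
    exact this.le

theorem chkN_sound {l : List ℕ} (hl : l.length = 16) (h : chkN l = true) : (bxOf l).Good := by
  unfold chkN at h
  rcases hr : runT prog (env0 l) with _ | e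
  · rw [hr] at h; simp at h
  rw [hr] at h
  simp only [Bool.and_eq_true, List.all_eq_true] at h
  obtain ⟨⟨⟨hc, hu⟩, hv⟩, hw⟩ := h
  set B := bxOf l with hB
  set w := wtOf l with hw'
  have he : ∀ i j, e[i]? = some j → In (rho B w i) j := by
    refine runT_sound (p := prog) (e := env0 l) (fun i j hi => env0_in l hl i j hi) ?_ hr
    intro j t hj
    have hlen : (env0 l).length = 17 := by
      unfold env0
      rw [List.length_cons, List.length_map, hl]
    rw [hlen]
    exact prog_ok B w j t hj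
  have nn : ∀ i, 0 ≤ nu' l i := fun i => by unfold nu'; positivity
  have hC : ∀ p ∈ conds, p.1.val (rho B w) < p.2.val (rho B w) := fun p hp =>
    cmp_sound he (hc p hp)
  simp only [conds, List.forall_mem_cons, List.not_mem_nil, false_imp_iff, implies_true,
    and_true] at hC
  obtain ⟨a1, a2, a3, b1, b2, b3, i1, i2, i3, j1, j2, j3, kk⟩ := hC
  simp only [Tm.val, rho, c] at a1 a2 a3 b1 b2 b3 i1 i2 i3 j1 j2 j3 kk
  norm_num at a1 a2 a3 b1 b2 b3 kk
  have hpre : 0 < w.pre := by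
    have h0 : 0 ≤ w.pre := nn 6
    rcases h0.lt_or_eq with h1 | h1
    · exact h1
    · rw [← h1] at kk
      norm_num at kk
  refine ⟨⟨w.pre, w.u1, w.u2, w.u3, w.v1, w.v2, w.v3, w.w1, w.w2, w.w3,
    wOk_of he (i := 8) (nn 7) (nn 8) (nn 9) hu, wOk_of he (i := 11) (nn 10) (nn 11) (nn 12) hv,
    wOk_of he (i := 14) (nn 13) (nn 14) (nn 15) hw, hpre, ?_, ⟨?_, ?_, ?_⟩, ⟨?_, ?_, ?_⟩,
    ⟨i1, i2, i3, ?_, ?_, ?_⟩⟩⟩
  · refine k7.trans ?_
    norm_num
    linarith
  · linarith
  · linarith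
  · linarith
  · linarith
  · linarith
  · linarith
  · simpa [Bx.A1] using j1
  · simpa [Bx.A2] using j2
  · simpa [Bx.A3] using j3

end BT

end Pool.Agent.Lib.EPT
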