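import Pool.Agent.Lib.EPS.Phi

/-!
# Explicit bounds of the kernel

PROOF.  `phi_rec`: `z phi (s+1) z = e^(-z) + s phi s z`.  With `E = e^(-z)`:
`phi (-1/2) ≤ E/z` (`phi_le`), `phi (-3/2) ≤ E/z`, all `phi ≥ 0`.
`phi (1/2) = (E - phi (-1/2)/2)/z`, so `E (1/z - 1/(2z²)) ≤ phi (1/2) ≤ E/z`; also
`phi (-1/2) = (E - (3/2) phi (-3/2))/z ≥ E (1/z - 3/(2z²))`, so `phi (1/2) ≤ E (1/z - 1/(2z²) + 3/(4z³))`.
Then `phi (3/2) = (E + phi (1/2)/2)/z`, `phi (5/2) = (E + (3/2) phi (3/2))/z`,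
`phi (7/2) = (E + (5/2) phi (5/2))/z`, `phi (9/2) = (E + (7/2) phi (7/2))/z`; insert the bounds.
-/

namespace Pool.Agent.Lib.EPT

open Pool.Agent.Lib.EPS

/-- upper bound of `phi (5/2)` -/
noncomputable def P0u (z : ℝ) : ℝ :=
  Real.exp (-z) * (1 / z + 3 / 2 / z ^ 2 + 3 / 4 / z ^ 3)
/-- better upper bound of `phi (5/2)` -/
noncomputable def P0m (z : ℝ) : ℝ :=
  Real.exp (-z) * (1 / z + 3 / 2 / z ^ 2 + 3 / 4 / z ^ 3 - 3 / 8 / z ^ 4 + 9 / 16 / z ^ 5)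
/-- lower bound of `phi (7/2)` -/
noncomputable def P1l (z : ℝ) : ℝ :=
  Real.exp (-z) * (1 / z + 5 / 2 / z ^ 2 + 15 / 4 / z ^ 3 + 15 / 8 / z ^ 4 - 15 / 16 / z ^ 5)
/-- upper bound of `phi (9/2)` -/
noncomputable def P2u (z : ℝ) : ℝ :=
  Real.exp (-z) * (1 / z + 7 / 2 / z ^ 2 + 35 / 4 / z ^ 3 + 105 / 8 / z ^ 4 + 105 / 16 / z ^ 5)

namespace PhiBAux

variable {z : ℝ}

theorem rc {s s' : ℝ} (hz : 0 < z) (hs : s' = s + 1) :
    phi s' z = z⁻¹ * (Real.exp (-z) + s * phi s z) := by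
  have h := phi_rec s hz
  rw [hs, ← h, ← mul_assoc, inv_mul_cancel₀ hz.ne', one_mul]

theorem up {s s' U : ℝ} (hz : 0 < z) (hs : s' = s + 1) (h0 : 0 ≤ s) (h : phi s z ≤ U) :
    phi s' z ≤ z⁻¹ * (Real.exp (-z) + s * U) := by
  rw [rc hz hs]
  refine mul_le_mul_of_nonneg_left ?_ (inv_pos.mpr hz).le
  have := mul_le_mul_of_nonneg_left h h0
  linarith

theorem lo {s s' U : ℝ} (hz : 0 < z) (hs : s' = s + 1) (h0 : 0 ≤ s) (h : U ≤ phi s z) :
    z⁻¹ * (Real.exp (-z) + s * U) ≤ phi s' z := by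
  rw [rc hz hs]
  refine mul_le_mul_of_nonneg_left ?_ (inv_pos.mpr hz).le
  have := mul_le_mul_of_nonneg_left h h0
  linarith

theorem half_up (hz : 0 < z) : phi (1 / 2) z ≤ z⁻¹ * Real.exp (-z) := by
  rw [rc (s := -(1 / 2)) hz (by norm_num)]
  refine mul_le_mul_of_nonneg_left ?_ (inv_pos.mpr hz).le
  have := phi_nonneg (-(1 / 2)) z
  linarith

theorem half_lo (hz : 0 < z) :
    z⁻¹ * (Real.exp (-z) - 1 / 2 * (z⁻¹ * Real.exp (-z))) ≤ phi (1 / 2) z := by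
  rw [rc (s := -(1 / 2)) hz (by norm_num)]
  refine mul_le_mul_of_nonneg_left ?_ (inv_pos.mpr hz).le
  have h1 := phi_le (s := -(1 / 2)) hz (by norm_num)
  have h2 : Real.exp (-z) / z = z⁻¹ * Real.exp (-z) := div_eq_inv_mul _ _
  rw [h2] at h1
  linarith

theorem half_up' (hz : 0 < z) : phi (1 / 2) z ≤
    z⁻¹ * (Real.exp (-z) - 1 / 2 * (z⁻¹ * (Real.exp (-z) - 3 / 2 * (z⁻¹ * Real.exp (-z))))) := by
  have h1 := phi_le (s := -(3 / 2)) hz (by norm_num)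
  have h0 : Real.exp (-z) / z = z⁻¹ * Real.exp (-z) := div_eq_inv_mul _ _
  rw [h0] at h1
  have h2 : z⁻¹ * (Real.exp (-z) - 3 / 2 * (z⁻¹ * Real.exp (-z))) ≤ phi (-(1 / 2)) z := by
    rw [rc (s := -(3 / 2)) (s' := -(1 / 2)) hz (by norm_num)]
    refine mul_le_mul_of_nonneg_left ?_ (inv_pos.mpr hz).le
    linarith
  rw [rc (s := -(1 / 2)) (s' := 1 / 2) hz (by norm_num)]
  refine mul_le_mul_of_nonneg_left ?_ (inv_pos.mpr hz).le
  linarith

end PhiBAux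

open PhiBAux

theorem phi0_le {z : ℝ} (hz : 0 < z) : phi (5 / 2) z ≤ P0u z := by
  have h1 := up (s := 1 / 2) (s' := 3 / 2) hz (by norm_num) (by norm_num) (half_up hz)
  have h2 := up (s := 3 / 2) (s' := 5 / 2) hz (by norm_num) (by norm_num) h1
  refine h2.trans (le_of_eq ?_)
  unfold P0u
  field_simp
  ring

theorem phi0_le' {z : ℝ} (hz : 0 < z) : phi (5 / 2) z ≤ P0m z := by
  have h1 := up (s := 1 / 2) (s' := 3 / 2) hz (by norm_num) (by norm_num) (half_up' hz)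
  have h2 := up (s := 3 / 2) (s' := 5 / 2) hz (by norm_num) (by norm_num) h1
  refine h2.trans (le_of_eq ?_)
  unfold P0m
  field_simp
  ring

theorem le_phi1 {z : ℝ} (hz : 0 < z) : P1l z ≤ phi (7 / 2) z := by
  have h1 := lo (s := 1 / 2) (s' := 3 / 2) hz (by norm_num) (by norm_num) (half_lo hz)
  have h2 := lo (s := 3 / 2) (s' := 5 / 2) hz (by norm_num) (by norm_num) h1
  have h3 := lo (s := 5 / 2) (s' := 7 / 2) hz (by norm_num) (by norm_num) h2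
  refine le_trans (le_of_eq ?_) h3
  unfold P1l
  field_simp
  ring

theorem phi2_le {z : ℝ} (hz : 0 < z) : phi (9 / 2) z ≤ P2u z := by
  have h1 := up (s := 1 / 2) (s' := 3 / 2) hz (by norm_num) (by norm_num) (half_up hz)
  have h2 := up (s := 3 / 2) (s' := 5 / 2) hz (by norm_num) (by norm_num) h1
  have h3 := up (s := 5 / 2) (s' := 7 / 2) hz (by norm_num) (by norm_num) h2
  have h4 := up (s := 7 / 2) (s' := 9 / 2) hz (by norm_num) (by norm_num) h3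
  refine h4.trans (le_of_eq ?_)
  unfold P2u
  field_simp
  ring

end Pool.Agent.Lib.EPT
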