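import Pool.Agent.Lib.EPS.Phi

/-!
# The dual integral, uniformly in `s`

PROOF.  Let `g v = α e^(-α (v-1))` on `(1, ∞)`, `∫ g = 1`, `w v = v^(-σ)` (nonincreasing, `0 ≤ w ≤ 1`),
`κ = ∫ w g ∈ [0, 1]`.  Claim for each term: with `μ = min β α`,
 (0) `∫ w e^(-β v) ≤ κ e^(-β)/μ`,  (1) `∫ w v e^(-β v) ≤ κ e^(-β) (1/μ + 1/μ²)`.
Both follow from `single`: if `f ≥ 0`, `∫ f ≤ 1` and `f/g` is nondecreasing on `(1, ∞)`, then `∫ w f ≤ ∫ w g`
(there is `c ≥ 1` with `f ≤ g` on `(1, c)`, `f ≥ g` on `(c, ∞)` or `f ≤ g` everywhere, and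
`w (g - f) ≥ w c (g - f)` pointwise), applied to `f v = μ e^(-μ (v-1))`, resp.
`f v = (μ²/(1 + μ)) v e^(-μ (v-1))` (`∫ f = 1`, ratios increasing because `μ ≤ α`), and
`e^(-β v) = e^(-β) e^(-β (v-1)) ≤ e^(-β) e^(-μ (v-1))`.
Then `∫ w FF ≥ κ (A e^(-α)/α - cost) ≥ -max 0 (cost - A e^(-α)/α)`.
-/

open MeasureTheory Set

namespace Pool.Agent.Lib.EPT

/-- `A e^(-αv) - ∑ B v^ε e^(-βv)`; an entry `(B, ε, β)` of the list -/
noncomputable def FF (A α : ℝ) (l : List (ℝ × Bool × ℝ)) (v : ℝ) : ℝ :=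
  A * Real.exp (-(α * v)) -
    (l.map fun p => p.1 * ((if p.2.1 then v else 1) * Real.exp (-(p.2.2 * v)))).sum

/-- the cost of the negative terms -/
noncomputable def cost (α : ℝ) (l : List (ℝ × Bool × ℝ)) : ℝ :=
  (l.map fun p => p.1 * (Real.exp (-p.2.2) *
    (if p.2.1 then 1 / min p.2.2 α + 1 / (min p.2.2 α) ^ 2 else 1 / min p.2.2 α))).sum

theorem single {f g w : ℝ → ℝ} (hf : IntegrableOn f (Ioi 1)) (hg : IntegrableOn g (Ioi 1))
    (hwf : IntegrableOn (fun v => w v * f v) (Ioi 1))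
    (hwg : IntegrableOn (fun v => w v * g v) (Ioi 1)) (hg0 : ∀ v, 0 < g v)
    (hw0 : ∀ v, 1 ≤ v → 0 ≤ w v) (hw : ∀ u v, 1 ≤ u → u ≤ v → w v ≤ w u)
    (hr : ∀ u v, 1 ≤ u → u ≤ v → f u / g u ≤ f v / g v)
    (hi : ∫ v in Ioi 1, f v ≤ ∫ v in Ioi 1, g v) :
    ∫ v in Ioi 1, w v * f v ≤ ∫ v in Ioi 1, w v * g v := by
  by_cases hS : ∃ v, 1 ≤ v ∧ g v < f v
  · set S : Set ℝ := {v | 1 ≤ v ∧ g v < f v} with hSdef
    have hne : S.Nonempty := hS
    have hbd : BddBelow S := ⟨1, fun v hv => hv.1⟩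
    set c := sInf S with hc
    have hc1 : 1 ≤ c := le_csInf hne (fun v hv => hv.1)
    have key : ∀ v ∈ Ioi (1 : ℝ), w c * (g v - f v) ≤ w v * g v - w v * f v := by
      intro v hv
      have hv1 : (1 : ℝ) < v := hv
      rcases lt_trichotomy v c with h | h | h
      · have h1 : f v ≤ g v := by
          by_contra hcon
          push Not at hcon
          exact absurd (csInf_le hbd (show v ∈ S from ⟨hv1.le, hcon⟩)) (not_le.2 h)
        have h2 := hw v c hv1.le h.le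
        nlinarith
      · rw [h]
        exact le_of_eq (by ring)
      · obtain ⟨u, hu, huv⟩ := exists_lt_of_csInf_lt hne h
        have h1 := hr u v hu.1 huv.le
        have h2 : g v < f v := by
          have h3 : 1 < f u / g u := by
            rw [lt_div_iff₀ (hg0 u)]
            simpa using hu.2
          have h4 := lt_of_lt_of_le h3 h1
          rw [lt_div_iff₀ (hg0 v)] at h4
          simpa using h4
        have h3 := hw c v hc1 h.le
        nlinarith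
    have h1 : ∫ v in Ioi (1 : ℝ), w c * (g v - f v) ≤
        ∫ v in Ioi (1 : ℝ), (w v * g v - w v * f v) :=
      setIntegral_mono_on ((hg.sub hf).const_mul _) (hwg.sub hwf) measurableSet_Ioi key
    rw [integral_const_mul, integral_sub hg hf, integral_sub hwg hwf] at h1
    have h2 := mul_nonneg (hw0 c hc1) (sub_nonneg.2 hi)
    linarith
  · push Not at hS
    refine setIntegral_mono_on hwf hwg measurableSet_Ioi fun v hv => ?_
    have hv1 : (1 : ℝ) < v := hv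
    exact mul_le_mul_of_nonneg_left (hS v hv1.le) (hw0 v hv1.le)

namespace SigAux

open EPS

lemma w0 {σ v : ℝ} (hv : 1 ≤ v) : 0 ≤ v ^ (-σ) := Real.rpow_nonneg (by linarith) _

lemma w1 {σ v : ℝ} (hσ : 0 ≤ σ) (hv : 1 ≤ v) : v ^ (-σ) ≤ 1 :=
  Real.rpow_le_one_of_one_le_of_nonpos hv (by linarith)

lemma wm {σ : ℝ} (hσ : 0 ≤ σ) {u v : ℝ} (hu : 1 ≤ u) (huv : u ≤ v) : v ^ (-σ) ≤ u ^ (-σ) :=
  Real.rpow_le_rpow_of_nonpos (by linarith) huv (by linarith)

lemma I0 (σ : ℝ) {β : ℝ} (hβ : 0 < β) :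
    IntegrableOn (fun v : ℝ => v ^ (-σ) * Real.exp (-(β * v))) (Ioi 1) := by
  have h := phi_int (1 - σ) hβ
  have e : (fun t : ℝ => Real.exp (-(β * t)) * t ^ (1 - σ - 1)) =
      fun v : ℝ => v ^ (-σ) * Real.exp (-(β * v)) := by
    funext v
    rw [mul_comm]
    congr 2
    ring
  rw [e] at h
  exact h

lemma I1 (σ : ℝ) {β : ℝ} (hβ : 0 < β) :
    IntegrableOn (fun v : ℝ => v ^ (-σ) * (v * Real.exp (-(β * v)))) (Ioi 1) := by
  have h := phi_int (2 - σ) hβ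
  refine h.congr_fun (fun v hv => ?_) measurableSet_Ioi
  have hv1 : (1 : ℝ) < v := hv
  have : v ^ (2 - σ - 1) = v ^ (-σ) * v := by
    rw [show 2 - σ - 1 = -σ + 1 by ring, Real.rpow_add_one (by linarith)]
  simp only
  rw [this]
  ring

lemma J0 {β : ℝ} (hβ : 0 < β) : IntegrableOn (fun v : ℝ => Real.exp (-(β * v))) (Ioi 1) ∧
    ∫ v in Ioi (1 : ℝ), Real.exp (-(β * v)) = Real.exp (-β) / β := by
  have h := I0 0 hβ
  have h2 := phi_one hβ
  unfold phi at h2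
  simp only [neg_zero, Real.rpow_zero, one_mul, sub_self, mul_one] at h h2
  exact ⟨h, h2⟩

lemma J1 {β : ℝ} (hβ : 0 < β) : IntegrableOn (fun v : ℝ => v * Real.exp (-(β * v))) (Ioi 1) ∧
    ∫ v in Ioi (1 : ℝ), v * Real.exp (-(β * v)) = Real.exp (-β) * (1 / β + 1 / β ^ 2) := by
  have h := I1 0 hβ
  simp only [neg_zero, Real.rpow_zero, one_mul] at h
  refine ⟨h, ?_⟩
  have h2 := phi_rec 1 hβ
  rw [phi_one hβ] at h2
  have h3 : phi (1 + 1) β = ∫ v in Ioi (1 : ℝ), v * Real.exp (-(β * v)) := by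
    unfold phi
    refine setIntegral_congr_fun measurableSet_Ioi fun v hv => ?_
    rw [show (1 : ℝ) + 1 - 1 = 1 by ring, Real.rpow_one, mul_comm]
  rw [h3] at h2
  have h4 : ∫ v in Ioi (1 : ℝ), v * Real.exp (-(β * v)) =
      (Real.exp (-β) + 1 * (Real.exp (-β) / β)) / β := by
    rw [eq_div_iff hβ.ne']
    linarith
  rw [h4]
  field_simp

/-- the normalised exponential -/
lemma exn (μ v : ℝ) : Real.exp (-(μ * (v - 1))) = Real.exp μ * Real.exp (-(μ * v)) := by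
  rw [← Real.exp_add]
  congr 1
  ring

lemma ee (μ : ℝ) : Real.exp μ * Real.exp (-μ) = 1 := by
  rw [← Real.exp_add]
  simp

/-- the weight of the positive term -/
noncomputable def kap (α σ : ℝ) : ℝ :=
  ∫ v in Ioi (1 : ℝ), v ^ (-σ) * (α * Real.exp (-(α * (v - 1))))

lemma In (σ : ℝ) {μ : ℝ} (hμ : 0 < μ) (k : ℝ) :
    IntegrableOn (fun v : ℝ => v ^ (-σ) * (k * Real.exp (-(μ * (v - 1))))) (Ioi 1) := by
  have e : (fun v : ℝ => v ^ (-σ) * (k * Real.exp (-(μ * (v - 1))))) =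
      fun v : ℝ => k * Real.exp μ * (v ^ (-σ) * Real.exp (-(μ * v))) := by
    funext v
    rw [exn]
    ring
  rw [e]
  exact (I0 σ hμ).const_mul _

lemma In1 (σ : ℝ) {μ : ℝ} (hμ : 0 < μ) (k : ℝ) :
    IntegrableOn (fun v : ℝ => v ^ (-σ) * (k * (v * Real.exp (-(μ * (v - 1)))))) (Ioi 1) := by
  have e : (fun v : ℝ => v ^ (-σ) * (k * (v * Real.exp (-(μ * (v - 1)))))) =
      fun v : ℝ => k * Real.exp μ * (v ^ (-σ) * (v * Real.exp (-(μ * v)))) := by
    funext v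
    rw [exn]
    ring
  rw [e]
  exact (I1 σ hμ).const_mul _

lemma Jn {μ : ℝ} (hμ : 0 < μ) (k : ℝ) :
    IntegrableOn (fun v : ℝ => k * Real.exp (-(μ * (v - 1)))) (Ioi 1) ∧
      ∫ v in Ioi (1 : ℝ), k * Real.exp (-(μ * (v - 1))) = k / μ := by
  obtain ⟨h1, h2⟩ := J0 hμ
  have e : (fun v : ℝ => k * Real.exp (-(μ * (v - 1)))) =
      fun v : ℝ => k * Real.exp μ * Real.exp (-(μ * v)) := by
    funext v
    rw [exn]
    ring
  rw [e]
  refine ⟨h1.const_mul _, ?_⟩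
  rw [integral_const_mul, h2]
  have := ee μ
  calc k * Real.exp μ * (Real.exp (-μ) / μ) = k / μ * (Real.exp μ * Real.exp (-μ)) := by ring
    _ = k / μ := by rw [this, mul_one]

lemma Jn1 {μ : ℝ} (hμ : 0 < μ) (k : ℝ) :
    IntegrableOn (fun v : ℝ => k * (v * Real.exp (-(μ * (v - 1))))) (Ioi 1) ∧
      ∫ v in Ioi (1 : ℝ), k * (v * Real.exp (-(μ * (v - 1)))) = k * (1 / μ + 1 / μ ^ 2) := by
  obtain ⟨h1, h2⟩ := J1 hμ
  have e : (fun v : ℝ => k * (v * Real.exp (-(μ * (v - 1))))) =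
      fun v : ℝ => k * Real.exp μ * (v * Real.exp (-(μ * v))) := by
    funext v
    rw [exn]
    ring
  rw [e]
  refine ⟨h1.const_mul _, ?_⟩
  rw [integral_const_mul, h2]
  have := ee μ
  calc k * Real.exp μ * (Real.exp (-μ) * (1 / μ + 1 / μ ^ 2)) =
        k * (1 / μ + 1 / μ ^ 2) * (Real.exp μ * Real.exp (-μ)) := by ring
    _ = _ := by rw [this, mul_one]

lemma kap_bd {α σ : ℝ} (hα : 0 < α) (hσ : 0 ≤ σ) : 0 ≤ kap α σ ∧ kap α σ ≤ 1 := by
  constructor
  · refine setIntegral_nonneg measurableSet_Ioi fun v hv => ?_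
    have hv1 : (1 : ℝ) < v := hv
    have := w0 (σ := σ) hv1.le
    positivity
  · have h1 : kap α σ ≤ ∫ v in Ioi (1 : ℝ), α * Real.exp (-(α * (v - 1))) := by
      refine setIntegral_mono_on (In σ hα α) (Jn hα α).1 measurableSet_Ioi fun v hv => ?_
      have hv1 : (1 : ℝ) < v := hv
      have h2 := w1 hσ hv1.le
      have h3 : 0 ≤ α * Real.exp (-(α * (v - 1))) := by positivity
      nlinarith
    rw [(Jn hα α).2, div_self hα.ne'] at h1
    exact h1

lemma ratio {α μ : ℝ} (hα : 0 < α) (k v : ℝ) :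
    k * Real.exp (-(μ * (v - 1))) / (α * Real.exp (-(α * (v - 1)))) =
      k / α * Real.exp ((α - μ) * (v - 1)) := by
  have h : Real.exp (-(μ * (v - 1))) =
      Real.exp ((α - μ) * (v - 1)) * Real.exp (-(α * (v - 1))) := by
    rw [← Real.exp_add]
    congr 1
    ring
  rw [h]
  have := Real.exp_pos (-(α * (v - 1)))
  field_simp

lemma cmp0 {α μ σ : ℝ} (hμ : 0 < μ) (h : μ ≤ α) (hσ : 0 ≤ σ) :
    ∫ v in Ioi (1 : ℝ), v ^ (-σ) * (μ * Real.exp (-(μ * (v - 1)))) ≤ kap α σ := by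
  have hα : 0 < α := hμ.trans_le h
  refine single (w := fun v => v ^ (-σ)) (f := fun v => μ * Real.exp (-(μ * (v - 1))))
    (g := fun v => α * Real.exp (-(α * (v - 1)))) (Jn hμ μ).1 (Jn hα α).1 (In σ hμ μ) (In σ hα α)
    (fun v => by positivity) (fun v hv => w0 hv) (fun u v hu huv => wm hσ hu huv) ?_ ?_
  · intro u v hu huv
    rw [ratio hα, ratio hα]
    refine mul_le_mul_of_nonneg_left (Real.exp_le_exp.2 ?_) (by positivity)
    nlinarith
  · rw [(Jn hμ μ).2, (Jn hα α).2, div_self hμ.ne', div_self hα.ne']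

lemma cmp1 {α μ σ : ℝ} (hμ : 0 < μ) (h : μ ≤ α) (hσ : 0 ≤ σ) :
    ∫ v in Ioi (1 : ℝ), v ^ (-σ) * (μ ^ 2 / (1 + μ) * (v * Real.exp (-(μ * (v - 1))))) ≤
      kap α σ := by
  have hα : 0 < α := hμ.trans_le h
  refine single (w := fun v => v ^ (-σ))
    (f := fun v => μ ^ 2 / (1 + μ) * (v * Real.exp (-(μ * (v - 1)))))
    (g := fun v => α * Real.exp (-(α * (v - 1)))) (Jn1 hμ _).1 (Jn hα α).1 (In1 σ hμ _)
    (In σ hα α)
    (fun v => by positivity) (fun v hv => w0 hv) (fun u v hu huv => wm hσ hu huv) ?_ ?_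
  · intro u v hu huv
    have e : ∀ x : ℝ, μ ^ 2 / (1 + μ) * (x * Real.exp (-(μ * (x - 1)))) =
        (μ ^ 2 / (1 + μ) * x) * Real.exp (-(μ * (x - 1))) := fun x => by ring
    rw [e, e, ratio hα, ratio hα]
    refine mul_le_mul ?_ (Real.exp_le_exp.2 ?_) (Real.exp_pos _).le ?_
    · refine div_le_div_of_nonneg_right (mul_le_mul_of_nonneg_left huv (by positivity)) hα.le
    · nlinarith
    · have : 0 ≤ v := by linarith
      positivity
  · rw [(Jn1 hμ _).2, (Jn hα α).2, div_self hα.ne']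
    refine le_of_eq ?_
    field_simp
    ring

lemma t0 {α β σ : ℝ} (hβ : 0 < β) (hα : 0 < α) (hσ : 0 ≤ σ) :
    ∫ v in Ioi (1 : ℝ), v ^ (-σ) * Real.exp (-(β * v)) ≤
      kap α σ * (Real.exp (-β) * (1 / min β α)) := by
  set μ := min β α with hμ'
  have hμ : 0 < μ := lt_min hβ hα
  have h1 := cmp0 hμ (min_le_right β α) hσ
  have h2 : ∫ v in Ioi (1 : ℝ), v ^ (-σ) * Real.exp (-(β * v)) ≤
      ∫ v in Ioi (1 : ℝ), Real.exp (-β) / μ * (v ^ (-σ) * (μ * Real.exp (-(μ * (v - 1))))) := by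
    refine setIntegral_mono_on (I0 σ hβ) ((In σ hμ μ).const_mul _) measurableSet_Ioi
      fun v hv => ?_
    have hv1 : (1 : ℝ) < v := hv
    have e1 : Real.exp (-β) / μ * (v ^ (-σ) * (μ * Real.exp (-(μ * (v - 1))))) =
        v ^ (-σ) * (Real.exp (-β) * Real.exp (-(μ * (v - 1)))) := by field_simp
    rw [e1]
    refine mul_le_mul_of_nonneg_left ?_ (w0 hv1.le)
    rw [← Real.exp_add]
    refine Real.exp_le_exp.2 ?_
    have : μ ≤ β := min_le_left β α
    nlinarith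
  rw [integral_const_mul] at h2
  refine h2.trans ?_
  have h3 := mul_le_mul_of_nonneg_left h1 (show 0 ≤ Real.exp (-β) / μ by positivity)
  refine h3.trans (le_of_eq ?_)
  ring

lemma t1 {α β σ : ℝ} (hβ : 0 < β) (hα : 0 < α) (hσ : 0 ≤ σ) :
    ∫ v in Ioi (1 : ℝ), v ^ (-σ) * (v * Real.exp (-(β * v))) ≤
      kap α σ * (Real.exp (-β) * (1 / min β α + 1 / (min β α) ^ 2)) := by
  set μ := min β α with hμ'
  have hμ : 0 < μ := lt_min hβ hα
  have h1 := cmp1 hμ (min_le_right β α) hσ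
  have h2 : ∫ v in Ioi (1 : ℝ), v ^ (-σ) * (v * Real.exp (-(β * v))) ≤
      ∫ v in Ioi (1 : ℝ), Real.exp (-β) * (1 / μ + 1 / μ ^ 2) *
        (v ^ (-σ) * (μ ^ 2 / (1 + μ) * (v * Real.exp (-(μ * (v - 1)))))) := by
    refine setIntegral_mono_on (I1 σ hβ) ((In1 σ hμ _).const_mul _) measurableSet_Ioi
      fun v hv => ?_
    have hv1 : (1 : ℝ) < v := hv
    have e1 : Real.exp (-β) * (1 / μ + 1 / μ ^ 2) *
        (v ^ (-σ) * (μ ^ 2 / (1 + μ) * (v * Real.exp (-(μ * (v - 1)))))) =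
        v ^ (-σ) * (v * (Real.exp (-β) * Real.exp (-(μ * (v - 1))))) := by
      field_simp
      ring
    rw [e1]
    refine mul_le_mul_of_nonneg_left (mul_le_mul_of_nonneg_left ?_ (by linarith)) (w0 hv1.le)
    rw [← Real.exp_add]
    refine Real.exp_le_exp.2 ?_
    have : μ ≤ β := min_le_left β α
    nlinarith
  rw [integral_const_mul] at h2
  refine h2.trans ?_
  have h3 := mul_le_mul_of_nonneg_left h1
    (show 0 ≤ Real.exp (-β) * (1 / μ + 1 / μ ^ 2) by positivity)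
  refine h3.trans (le_of_eq ?_)
  ring

/-- the negative terms -/
lemma neg_list {α σ : ℝ} (hα : 0 < α) (hσ : 0 ≤ σ) (l : List (ℝ × Bool × ℝ))
    (hl : ∀ p ∈ l, 0 ≤ p.1 ∧ 0 < p.2.2) :
    IntegrableOn (fun v : ℝ => v ^ (-σ) *
      (l.map fun p => p.1 * ((if p.2.1 then v else 1) * Real.exp (-(p.2.2 * v)))).sum) (Ioi 1) ∧
      ∫ v in Ioi (1 : ℝ), v ^ (-σ) *
        (l.map fun p => p.1 * ((if p.2.1 then v else 1) * Real.exp (-(p.2.2 * v)))).sum ≤
        kap α σ * cost α l := by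
  induction l with
  | nil => simp [cost]
  | cons p l ih =>
    obtain ⟨h1, h2⟩ := ih (fun p' hp' => hl p' (List.mem_cons_of_mem _ hp'))
    obtain ⟨hp1, hp2⟩ := hl p List.mem_cons_self
    have hI : IntegrableOn (fun v : ℝ => v ^ (-σ) *
        ((if p.2.1 then v else 1) * Real.exp (-(p.2.2 * v)))) (Ioi 1) ∧
        ∫ v in Ioi (1 : ℝ), v ^ (-σ) * ((if p.2.1 then v else 1) * Real.exp (-(p.2.2 * v))) ≤
        kap α σ * (Real.exp (-p.2.2) *
          (if p.2.1 then 1 / min p.2.2 α + 1 / (min p.2.2 α) ^ 2 else 1 / min p.2.2 α)) := by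
      cases p.2.1 with
      | true => exact ⟨by simpa using I1 σ hp2, by simpa using t1 hp2 hα hσ⟩
      | false => exact ⟨by simpa using I0 σ hp2, by simpa using t0 hp2 hα hσ⟩
    have e : (fun v : ℝ => v ^ (-σ) * ((p :: l).map fun p => p.1 *
        ((if p.2.1 then v else 1) * Real.exp (-(p.2.2 * v)))).sum) = fun v : ℝ =>
        p.1 * (v ^ (-σ) * ((if p.2.1 then v else 1) * Real.exp (-(p.2.2 * v)))) + v ^ (-σ) *
        (l.map fun p => p.1 * ((if p.2.1 then v else 1) * Real.exp (-(p.2.2 * v)))).sum := by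
      funext v
      rw [List.map_cons, List.sum_cons]
      ring
    rw [e]
    refine ⟨(hI.1.const_mul _).add h1, ?_⟩
    rw [integral_add (hI.1.const_mul _) h1, integral_const_mul]
    have h3 := mul_le_mul_of_nonneg_left hI.2 hp1
    have h4 : cost α (p :: l) = p.1 * (Real.exp (-p.2.2) *
        (if p.2.1 then 1 / min p.2.2 α + 1 / (min p.2.2 α) ^ 2 else 1 / min p.2.2 α))
        + cost α l := by
      unfold cost
      rw [List.map_cons, List.sum_cons]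
    rw [h4]
    calc _ ≤ p.1 * (kap α σ * (Real.exp (-p.2.2) *
          (if p.2.1 then 1 / min p.2.2 α + 1 / (min p.2.2 α) ^ 2 else 1 / min p.2.2 α)))
          + kap α σ * cost α l := add_le_add h3 h2
      _ = _ := by ring

end SigAux

open SigAux in
theorem sig_low {A α : ℝ} (hA : 0 ≤ A) (hα : 0 < α) {l : List (ℝ × Bool × ℝ)}
    (hl : ∀ p ∈ l, 0 ≤ p.1 ∧ 0 < p.2.2) {σ : ℝ} (hσ : 0 ≤ σ) :
    IntegrableOn (fun v : ℝ => v ^ (-σ) * FF A α l v) (Ioi 1) ∧
      -(max 0 (cost α l - A * (Real.exp (-α) / α))) ≤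
        ∫ v in Ioi (1 : ℝ), v ^ (-σ) * FF A α l v := by
  obtain ⟨h1, h2⟩ := neg_list hα hσ l hl
  have i0 := (In σ hα α).const_mul (A * (Real.exp (-α) / α))
  have e : (fun v : ℝ => v ^ (-σ) * FF A α l v) = fun v : ℝ =>
      A * (Real.exp (-α) / α) * (v ^ (-σ) * (α * Real.exp (-(α * (v - 1))))) - v ^ (-σ) *
      (l.map fun p => p.1 * ((if p.2.1 then v else 1) * Real.exp (-(p.2.2 * v)))).sum := by
    funext v
    unfold FF
    rw [exn]
    have h3 := ee α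
    have h4 : A * (Real.exp (-α) / α) * (v ^ (-σ) * (α * (Real.exp α * Real.exp (-(α * v))))) =
        v ^ (-σ) * (A * Real.exp (-(α * v))) * (Real.exp α * Real.exp (-α)) := by
      field_simp
    rw [h4, h3]
    ring
  rw [e]
  refine ⟨i0.sub h1, ?_⟩
  rw [integral_sub i0 h1, integral_const_mul]
  obtain ⟨k0, k1⟩ := kap_bd hα hσ
  have e2 : ∫ v in Ioi (1 : ℝ), v ^ (-σ) * (α * Real.exp (-(α * (v - 1)))) = kap α σ := rfl
  rw [e2]
  have m0 := le_max_left 0 (cost α l - A * (Real.exp (-α) / α))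
  have m1 := le_max_right 0 (cost α l - A * (Real.exp (-α) / α))
  have m2 := mul_le_mul_of_nonneg_left m1 k0
  have m3 := mul_le_mul_of_nonneg_right k1 m0
  nlinarith

open SigAux in
/-- no positive term: the cost is `∑ B e^(-β)/β` -/
theorem sig_neg {l : List (ℝ × ℝ)} (hl : ∀ p ∈ l, 0 ≤ p.1 ∧ 0 < p.2) {σ : ℝ} (hσ : 0 ≤ σ) :
    IntegrableOn (fun v : ℝ => v ^ (-σ) * (l.map fun p => p.1 * Real.exp (-(p.2 * v))).sum)
        (Ioi 1) ∧
      ∫ v in Ioi (1 : ℝ), v ^ (-σ) * (l.map fun p => p.1 * Real.exp (-(p.2 * v))).sum ≤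
        (l.map fun p => p.1 * (Real.exp (-p.2) / p.2)).sum := by
  induction l with
  | nil => simp
  | cons p l ih =>
    obtain ⟨h1, h2⟩ := ih (fun p' hp' => hl p' (List.mem_cons_of_mem _ hp'))
    obtain ⟨hp1, hp2⟩ := hl p List.mem_cons_self
    have hI := I0 σ hp2
    have hJ : ∫ v in Ioi (1 : ℝ), v ^ (-σ) * Real.exp (-(p.2 * v)) ≤ Real.exp (-p.2) / p.2 := by
      rw [← (J0 hp2).2]
      refine setIntegral_mono_on hI (J0 hp2).1 measurableSet_Ioi fun v hv => ?_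
      have hv1 : (1 : ℝ) < v := hv
      have h3 := w1 hσ hv1.le
      have h4 := Real.exp_pos (-(p.2 * v))
      nlinarith
    have e : (fun v : ℝ => v ^ (-σ) * ((p :: l).map fun p => p.1 * Real.exp (-(p.2 * v))).sum) =
        fun v : ℝ => p.1 * (v ^ (-σ) * Real.exp (-(p.2 * v))) + v ^ (-σ) *
        (l.map fun p => p.1 * Real.exp (-(p.2 * v))).sum := by
      funext v
      rw [List.map_cons, List.sum_cons]
      ring
    rw [e]
    refine ⟨(hI.const_mul _).add h1, ?_⟩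
    rw [integral_add (hI.const_mul _) h1, integral_const_mul, List.map_cons, List.sum_cons]
    exact add_le_add (mul_le_mul_of_nonneg_left hJ hp1) h2

end Pool.Agent.Lib.EPT
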