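import Pool.Agent.Lib.EPT.Bnd
import Pool.Agent.Lib.EPT.PhiB
import Pool.Agent.Lib.EPT.Sig

/-!
# Boxes and the conditions on a box
-/

namespace Pool.Agent.Lib.EPT

/-- a box of values of `a, b, c` -/
structure Bx where
  /-- lower bound of `a` -/
  a0 : ℝ
  /-- upper bound of `a` -/
  a1 : ℝ
  /-- lower bound of `b` -/
  b0 : ℝ
  /-- upper bound of `b` -/
  b1 : ℝ
  /-- lower bound of `c` -/
  c0 : ℝ
  /-- upper bound of `c` -/
  c1 : ℝ

/-- `q` lies in the box, and the box is not too large -/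
structure InB (B : Bx) (q : Par) : Prop where
  a0 : B.a0 ≤ q.a
  a1 : q.a ≤ B.a1
  b0 : B.b0 ≤ q.b
  b1 : q.b ≤ B.b1
  c0 : B.c0 ≤ q.c
  c1 : q.c ≤ B.c1
  ha : 3 / 4 ≤ B.a0
  hb : 3 / 4 ≤ B.b0
  hc : 3 / 4 ≤ B.c0
  hc1 : B.c1 ≤ 2
  hc0 : B.c0 ≤ 2
  ha1 : B.a1 ≤ 3
  hb1 : B.b1 ≤ 3

namespace Bx

variable (B : Bx)

/-- weight of `o1²` in the bound of `chi` -/
noncomputable def ch1 : ℝ := 2 * (200 / 199) / B.b0
/-- weight of `o2²` in the bound of `chi` -/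
noncomputable def ch2 : ℝ := 2 * (200 / 199) / B.a0
/-- weight of `o3²` in the bound of `chi` -/
noncomputable def ch3 : ℝ := 2 * (200 / 199) * B.c1 / (B.a0 * B.b0)
/-- weight of `|pp|` in the bound of `chi` -/
noncomputable def chp : ℝ := 6 * (200 / 199) / (B.a0 * B.b0)
/-- bound of `S2` -/
noncomputable def S2m : ℝ := B.b1 * B.c1 / 200

/-! ### the condition on the derivative -/

/-- `(y - 1) e^(-y)` at `y = 2 a0 τ` -/
noncomputable def eA : ℝ := (2 * B.a0 * (33 / 10) - 1) * Real.exp (-(2 * B.a0 * (33 / 10)))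
/-- `(y - 1) e^(-y)` at `y = 2 b0 τ` -/
noncomputable def eB : ℝ := (2 * B.b0 * (33 / 10) - 1) * Real.exp (-(2 * B.b0 * (33 / 10)))
/-- `(y - 1) e^(-y)` at `y = (3 - c1) τ` -/
noncomputable def eC : ℝ := ((3 - B.c1) * (33 / 10) - 1) * Real.exp (-((3 - B.c1) * (33 / 10)))
/-- the factor of `chi` -/
noncomputable def FA : ℝ := B.S2m / 4 * (171 / 16 * Real.exp (3 / 8))
/-- the factor of `|pp|` -/
noncomputable def CA : ℝ := 27 + B.chp * B.FA

/-- the condition on the derivative -/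
structure condA (w1 w2 w3 : ℝ) : Prop where
  k1 : B.ch1 * B.FA + 2 * B.eA + 18 * B.eB + B.CA * (w1 * B.a1) ≤ 2
  k2 : B.ch2 * B.FA + 18 * B.eA + 2 * B.eB + B.CA * (w2 * B.b1) ≤ 2
  k3 : B.ch3 * B.FA + 16 * B.eC + 18 * B.eA + 18 * B.eB + B.CA * (w3 * B.c1) ≤ 2

/-! ### the condition at `t1 = 9/2` -/

/-- bound of `e^t Nn t` at `t = 9/2` -/
noncomputable def N1 : ℝ :=
  2 + (9 / 2) ^ 2 * B.S2m / 4 * Real.exp (3 / 8)
    + 2001 / 1000 * Real.exp (-((B.c0 - 1) * (9 / 2)))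
    + 81 / 20 * Real.exp (-((11 / 12 * (4 - B.b1) - 1) * (9 / 2)))
    + 81 / 20 * Real.exp (-((11 / 12 * (4 - B.a1) - 1) * (9 / 2)))
    + 81 / 10 * Real.exp (-(8 / 3 * (9 / 2)))
    + 21 / 10 * Real.exp (-((11 / 12 * (1 + 2 * B.a0) - 1) * (9 / 2)))
    + 21 / 10 * Real.exp (-((11 / 12 * (1 + 2 * B.b0) - 1) * (9 / 2)))
    + 19 * Real.exp (-((11 / 12 * (1 + 2 * B.c0) - 1) * (9 / 2)))
/-- the factor of `|pp|` -/
noncomputable def CB : ℝ := 3 * (9 / 2) ^ 2 + B.chp * B.N1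

/-- the condition at `t1` -/
structure condB (w1 w2 w3 : ℝ) : Prop where
  k1 : B.ch1 * B.N1 + B.CB * (w1 * B.a1) ≤ 9
  k2 : B.ch2 * B.N1 + B.CB * (w2 * B.b1) ≤ 9
  k3 : B.ch3 * B.N1 + B.CB * (w3 * B.c1) ≤ 9

/-! ### the direct value at `s = 3/2` -/

/-- bound of `JN` -/
noncomputable def JNu : ℝ :=
  2 * P0m (33 / 10) + (33 / 10) ^ 2 * B.S2m / 4 * P2u (11 / 12 * (33 / 10))
    + 2001 / 1000 * P0u (B.c0 * (33 / 10))
    + 81 / 20 * P0u (11 / 12 * (4 - B.b1) * (33 / 10))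
    + 81 / 20 * P0u (11 / 12 * (4 - B.a1) * (33 / 10))
    + 81 / 10 * P0u (11 / 3 * (33 / 10))
    + 21 / 10 * P0u (11 / 12 * (1 + 2 * B.a0) * (33 / 10))
    + 21 / 10 * P0u (11 / 12 * (1 + 2 * B.b0) * (33 / 10))
    + 19 * P0u (11 / 12 * (1 + 2 * B.c0) * (33 / 10))
/-- gain of `o1²` -/
noncomputable def G1 : ℝ :=
  2 * (33 / 10) * P1l (33 / 10) + 2 * (33 / 10) * P1l ((1 + 2 * B.a1) * (33 / 10))
    + 18 * (33 / 10) * P1l ((1 + 2 * B.b1) * (33 / 10))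
/-- gain of `o2²` -/
noncomputable def G2 : ℝ :=
  2 * (33 / 10) * P1l (33 / 10) + 18 * (33 / 10) * P1l ((1 + 2 * B.a1) * (33 / 10))
    + 2 * (33 / 10) * P1l ((1 + 2 * B.b1) * (33 / 10))
/-- gain of `o3²` -/
noncomputable def G3 : ℝ :=
  2 * (33 / 10) * P1l (33 / 10) + 16 * (33 / 10) * P1l ((4 - B.c0) * (33 / 10))
    + 18 * (33 / 10) * P1l ((1 + 2 * B.a1) * (33 / 10))
    + 18 * (33 / 10) * P1l ((1 + 2 * B.b1) * (33 / 10))
/-- the factor of `|pp|` -/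
noncomputable def cpp : ℝ :=
  3 * (33 / 10) ^ 2 * P2u (33 / 10) + 27 * (33 / 10) ^ 2 * (P2u ((1 + 2 * B.a0) * (33 / 10))
    + P2u ((1 + 2 * B.b0) * (33 / 10)))

/-! ### the dual side -/

/-- `x = π²/τ` -/
noncomputable def xx : ℝ := Real.pi ^ 2 / (33 / 10)

/-- lower bound of `e1` -/
noncomputable def l1 : ℝ := 1 / B.b1 + 1 / B.c1
/-- lower bound of `e2` -/
noncomputable def l2 : ℝ := 1 / B.a1 + 1 / B.c1
/-- lower bound of `e3` -/
noncomputable def l3 : ℝ := 1 / B.a1 + 1 / B.b1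
/-- upper bound of `e1` -/
noncomputable def h1 : ℝ := 1 / B.b0 + 1 / B.c0
/-- upper bound of `e2` -/
noncomputable def h2 : ℝ := 1 / B.a0 + 1 / B.c0
/-- upper bound of `e3` -/
noncomputable def h3 : ℝ := 1 / B.a0 + 1 / B.b0
/-- lower bound of the determinant -/
noncomputable def dn : ℝ := 497 / 500 * (B.a0 * B.b0 * B.c0)
/-- upper bound of the determinant -/
noncomputable def dx : ℝ := min (B.a1 * B.b1 * B.c1) (64 / 27)
/-- bound of `o3²/(ab)` -/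
noncomputable def gl : ℝ := min (1 / 200) ((2 - B.c0) ^ 2 / (B.a0 * B.b0))
/-- the factor of the rest -/
noncomputable def nu : ℝ := 21 / 10 * Real.exp (-(10 / 3 * xx / B.c1)) + 1 / 100

/-- `2 r a/b` -/
noncomputable def rab : ℝ := 2 * (200 / 199) * B.a1 / B.b0
/-- `2 r b/a` -/
noncomputable def rba : ℝ := 2 * (200 / 199) * B.b1 / B.a0
/-- `2 r c/b` -/
noncomputable def rcb : ℝ := 2 * (200 / 199) * B.c1 / B.b0
/-- `2 r c/a` -/
noncomputable def rca : ℝ := 2 * (200 / 199) * B.c1 / B.a0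

/-- the two exponential terms of a class with exponent `l` and mass `m` -/
noncomputable def tc (m l : ℝ) : List (ℝ × Bool × ℝ) :=
  [(2 * m / B.dn, false, 37 / 40 * xx * l), (2 * m / B.dn, false, 43 / 40 * xx * l)]

/-- the terms of the rest with the weight `w` -/
noncomputable def tr (w : ℝ) : List (ℝ × Bool × ℝ) :=
  [(4 * B.nu * w * (1 / B.b0 + 1 / (50 * B.c0)), false, 5 / 6 * xx * B.l1),
    (4 * B.nu * w * (1 / B.a0 + 1 / (50 * B.c0)), false, 5 / 6 * xx * B.l2),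
    (4 * B.nu * w * (1 / B.a0 + 1 / B.b0), false, 5 / 6 * xx * B.l3)]

/-- the terms of the axes -/
noncomputable def ta (m n : ℝ) : List (ℝ × Bool × ℝ) :=
  [(801 / 100 * m / B.dn, false, 4 * xx / B.a1), (801 / 100 * n / B.dn, false, 4 * xx / B.b1)]

/-- a term with the factor `v` -/
noncomputable def tv (m l : ℝ) : ℝ × Bool × ℝ := (16 * xx * m / B.dn ^ 2, true, 37 / 40 * xx * l)

/-- the weight of the rest per `o_k²` is `wr D` -/
noncomputable def wr (D : ℝ) : ℝ := 41 / 20 * D / (B.a0 * B.b0 * B.c0)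

/-- negative terms with the factor `o1²` -/
noncomputable def L1 : List (ℝ × Bool × ℝ) :=
  B.tc B.rab B.l1 ++ B.tc (2 / 199) B.l2 ++ B.tc (B.rab + 2 / 199) B.l3 ++ B.ta (2 / 199) B.rab
    ++ B.tr (B.wr B.a1)
    ++ [B.tv (11 / 200 * B.a1 ^ 2) B.l1, B.tv (1501 / 50 * B.gl * (B.a1 * B.b1)) B.l2,
      B.tv (1501 / 50 * (1 / 800) * (B.a1 * B.c1)) B.l3]
/-- negative terms with the factor `o2²` -/
noncomputable def L2 : List (ℝ × Bool × ℝ) :=
  B.tc (2 / 199) B.l1 ++ B.tc B.rba B.l2 ++ B.tc (B.rba + 2 / 199) B.l3 ++ B.ta B.rba (2 / 199)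
    ++ B.tr (B.wr B.b1)
    ++ [B.tv (11 / 200 * B.b1 ^ 2) B.l2, B.tv (1501 / 50 * B.gl * (B.a1 * B.b1)) B.l1,
      B.tv (1501 / 50 * (1 / 800) * (B.b1 * B.c1)) B.l3]
/-- negative terms with the factor `o3²` -/
noncomputable def L3 : List (ℝ × Bool × ℝ) :=
  B.tc (B.rcb - 2) B.l1 ++ B.tc (B.rca - 2) B.l2 ++ B.tc (B.rca + B.rcb) B.l3
    ++ B.ta B.rca B.rcb ++ B.tr (B.wr B.c1) ++ [B.tv (11 / 200 * B.c1 ^ 2) B.l3]
/-- negative terms with the factor `|pp|` -/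
noncomputable def Lp : List (ℝ × Bool × ℝ) :=
  B.tc (6 * (200 / 199) / B.b0) B.l1 ++ B.tc (6 * (200 / 199) / B.a0) B.l2
    ++ B.tc (6 * (200 / 199) * (1 / B.a0 + 1 / B.b0)) B.l3
    ++ B.ta (6 * (200 / 199) / B.a0) (6 * (200 / 199) / B.b0) ++ B.tr (B.wr 3)

/-- positive mass with the factor `o1²` -/
noncomputable def A1 : ℝ := 16 * xx * (19 / 20) * B.a0 ^ 2 / B.dx ^ 2
/-- positive mass with the factor `o2²` -/
noncomputable def A2 : ℝ := 16 * xx * (19 / 20) * B.b0 ^ 2 / B.dx ^ 2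
/-- positive mass with the factor `o3²` -/
noncomputable def A3 : ℝ := 16 * xx * (19 / 20) * B.c0 ^ 2 / B.dx ^ 2
/-- exponent of the positive term of the first class -/
noncomputable def x1 : ℝ := 500 / 497 * xx * B.h1
/-- exponent of the positive term of the second class -/
noncomputable def x2 : ℝ := 500 / 497 * xx * B.h2
/-- exponent of the positive term of the third class -/
noncomputable def x3 : ℝ := 500 / 497 * xx * B.h3

/-- the cost of the terms with the factor `|pp|` -/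
noncomputable def up : ℝ := (B.Lp.map fun p => p.1 * (Real.exp (-p.2.2) / p.2.2)).sum

/-- the factor of `|pp|` in the last condition -/
noncomputable def CC (pre : ℝ) : ℝ := B.cpp + B.chp * B.JNu + pre * B.up

/-- the last condition -/
structure condC (pre w1 w2 w3 : ℝ) : Prop where
  i1 : B.ch1 * B.JNu + B.CC pre * (w1 * B.a1) < B.G1
  i2 : B.ch2 * B.JNu + B.CC pre * (w2 * B.b1) < B.G2
  i3 : B.ch3 * B.JNu + B.CC pre * (w3 * B.c1) < B.G3
  j1 : B.ch1 * B.JNu + B.CC pre * (w1 * B.a1) + pre * cost B.x1 B.L1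
    < B.G1 + pre * (B.A1 * (Real.exp (-B.x1) / B.x1))
  j2 : B.ch2 * B.JNu + B.CC pre * (w2 * B.b1) + pre * cost B.x2 B.L2
    < B.G2 + pre * (B.A2 * (Real.exp (-B.x2) / B.x2))
  j3 : B.ch3 * B.JNu + B.CC pre * (w3 * B.c1) + pre * cost B.x3 B.L3
    < B.G3 + pre * (B.A3 * (Real.exp (-B.x3) / B.x3))

/-- the weights `w` dominate `|pp|` -/
structure wOk (w1 w2 w3 : ℝ) : Prop where
  n1 : 0 ≤ w1
  n2 : 0 ≤ w2
  n3 : 0 ≤ w3
  big : 1 ≤ 216000000 * (27 * (w1 * w2 * w3)) ^ 2 ∨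
    (2 - B.c0) ^ 2 ≤ (400 * (27 * (w1 * w2 * w3))) ^ 2 * (B.a0 * B.b0)

/-- all conditions on a box -/
structure Good : Prop where
  /-- weights for the three conditions, and the constant -/
  ex : ∃ pre u1 u2 u3 v1 v2 v3 w1 w2 w3 : ℝ, B.wOk u1 u2 u3 ∧ B.wOk v1 v2 v3 ∧ B.wOk w1 w2 w3 ∧
    0 < pre ∧ 4 * (Real.pi / (33 / 10)) ^ 7 ≤ pre ^ 2 * B.dn ∧
    B.condA u1 u2 u3 ∧ B.condB v1 v2 v3 ∧ B.condC pre w1 w2 w3

end Bx

end Pool.Agent.Lib.EPT
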