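import Pool.Agent.Lib.EPT.Iv
import Pool.Agent.Lib.EPT.BoxDefs

/-!
# The conditions on a box as expressions
-/

namespace Pool.Agent.Lib.EPT

open Tm

/-- the constant and the weights -/
structure Wt where
  /-- the constant -/
  pre : ℝ
  /-- weights of the first condition -/
  u1 : ℝ
  /-- weights of the first condition -/
  u2 : ℝ
  /-- weights of the first condition -/
  u3 : ℝ
  /-- weights of the second condition -/
  v1 : ℝ
  /-- weights of the second condition -/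
  v2 : ℝ
  /-- weights of the second condition -/
  v3 : ℝ
  /-- weights of the third condition -/
  w1 : ℝ
  /-- weights of the third condition -/
  w2 : ℝ
  /-- weights of the third condition -/
  w3 : ℝ

/-- the environment -/
noncomputable def rho (B : Bx) (w : Wt) : ℕ → ℝ
  | 0 => Bx.xx
  | 1 => B.a0
  | 2 => B.a1
  | 3 => B.b0
  | 4 => B.b1
  | 5 => B.c0
  | 6 => B.c1
  | 7 => w.pre
  | 8 => w.u1
  | 9 => w.u2
  | 10 => w.u3
  | 11 => w.v1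
  | 12 => w.v2
  | 13 => w.v3
  | 14 => w.w1
  | 15 => w.w2
  | 16 => w.w3
  | 17 => B.ch1
  | 18 => B.ch2
  | 19 => B.ch3
  | 20 => B.chp
  | 21 => B.S2m
  | 22 => B.eA
  | 23 => B.eB
  | 24 => B.eC
  | 25 => B.FA
  | 26 => B.CA
  | 27 => B.N1
  | 28 => B.CB
  | 29 => B.JNu
  | 30 => B.G1
  | 31 => B.G2
  | 32 => B.G3
  | 33 => B.cpp
  | 34 => B.l1
  | 35 => B.l2
  | 36 => B.l3
  | 37 => B.h1
  | 38 => B.h2
  | 39 => B.h3
  | 40 => B.dn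
  | 41 => B.dx
  | 42 => B.gl
  | 43 => B.nu
  | 44 => B.rab
  | 45 => B.rba
  | 46 => B.rcb
  | 47 => B.rca
  | 48 => Real.exp (-(37 / 40 * Bx.xx * B.l1))
  | 49 => Real.exp (-(43 / 40 * Bx.xx * B.l1))
  | 50 => Real.exp (-(37 / 40 * Bx.xx * B.l2))
  | 51 => Real.exp (-(43 / 40 * Bx.xx * B.l2))
  | 52 => Real.exp (-(37 / 40 * Bx.xx * B.l3))
  | 53 => Real.exp (-(43 / 40 * Bx.xx * B.l3))
  | 54 => Real.exp (-(4 * Bx.xx / B.a1))
  | 55 => Real.exp (-(4 * Bx.xx / B.b1))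
  | 56 => Real.exp (-(5 / 6 * Bx.xx * B.l1))
  | 57 => Real.exp (-(5 / 6 * Bx.xx * B.l2))
  | 58 => Real.exp (-(5 / 6 * Bx.xx * B.l3))
  | 59 => B.x1
  | 60 => B.x2
  | 61 => B.x3
  | 62 => Real.exp (-B.x1)
  | 63 => Real.exp (-B.x2)
  | 64 => Real.exp (-B.x3)
  | 65 => B.up
  | 66 => B.CC w.pre
  | 67 => cost B.x1 B.L1
  | 68 => cost B.x2 B.L2
  | 69 => cost B.x3 B.L3
  | _ => 0

namespace BT

/-- a natural number -/
abbrev c (n : ℕ) : Tm := k n 1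
/-- `33/10` -/
abbrev T : Tm := k 33 10
/-- `P0u` -/
def p0 (z : Tm) : Tm :=
  ml (ex z) (ad (ad (dv (c 1) z) (dv (k 3 2) (pw z 2))) (dv (k 3 4) (pw z 3)))
/-- `P0m` -/
def p0m (z : Tm) : Tm :=
  ml (ex z) (ad (sb (ad (ad (dv (c 1) z) (dv (k 3 2) (pw z 2))) (dv (k 3 4) (pw z 3)))
    (dv (k 3 8) (pw z 4))) (dv (k 9 16) (pw z 5)))
/-- `P1l` -/
def p1 (z : Tm) : Tm :=
  ml (ex z) (sb (ad (ad (ad (dv (c 1) z) (dv (k 5 2) (pw z 2))) (dv (k 15 4) (pw z 3)))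
    (dv (k 15 8) (pw z 4))) (dv (k 15 16) (pw z 5)))
/-- `P2u` -/
def p2 (z : Tm) : Tm :=
  ml (ex z) (ad (ad (ad (ad (dv (c 1) z) (dv (k 7 2) (pw z 2))) (dv (k 35 4) (pw z 3)))
    (dv (k 105 8) (pw z 4))) (dv (k 105 16) (pw z 5)))

theorem p0_val (r : ℕ → ℝ) (z : Tm) : (p0 z).val r = P0u (z.val r) := by
  simp [p0, Tm.val, P0u, c]
theorem p0m_val (r : ℕ → ℝ) (z : Tm) : (p0m z).val r = P0m (z.val r) := by
  simp [p0m, Tm.val, P0m, c]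
theorem p1_val (r : ℕ → ℝ) (z : Tm) : (p1 z).val r = P1l (z.val r) := by
  simp [p1, Tm.val, P1l, c]
theorem p2_val (r : ℕ → ℝ) (z : Tm) : (p2 z).val r = P2u (z.val r) := by
  simp [p2, Tm.val, P2u, c]

/-- `exp (3/8)` -/
def e38 : Tm := dv (c 1) (ex (k 3 8))
theorem e38_val (r : ℕ → ℝ) : e38.val r = Real.exp (3 / 8) := by
  simp [e38, Tm.val, c, Real.exp_neg]

/-- entry `(B, ε, β, e^(-β))` of a list -/
abbrev En := Tm × Bool × Tm × Tm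

/-- the two terms of a class -/
def tc (m l e f : Tm) : List En :=
  [(dv (ml (c 2) m) (v 40), false, ml (ml (k 37 40) (v 0)) l, e),
    (dv (ml (c 2) m) (v 40), false, ml (ml (k 43 40) (v 0)) l, f)]
/-- the terms of the rest -/
def tr (w : Tm) : List En :=
  [(ml (ml (ml (c 4) (v 43)) w) (ad (dv (c 1) (v 3)) (dv (c 1) (ml (c 50) (v 5)))), false,
      ml (ml (k 5 6) (v 0)) (v 34), v 56),
    (ml (ml (ml (c 4) (v 43)) w) (ad (dv (c 1) (v 1)) (dv (c 1) (ml (c 50) (v 5)))), false,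
      ml (ml (k 5 6) (v 0)) (v 35), v 57),
    (ml (ml (ml (c 4) (v 43)) w) (ad (dv (c 1) (v 1)) (dv (c 1) (v 3))), false,
      ml (ml (k 5 6) (v 0)) (v 36), v 58)]
/-- the terms of the axes -/
def ta (m n : Tm) : List En :=
  [(dv (ml (k 801 100) m) (v 40), false, dv (ml (c 4) (v 0)) (v 2), v 54),
    (dv (ml (k 801 100) n) (v 40), false, dv (ml (c 4) (v 0)) (v 4), v 55)]
/-- a term with the factor `v` -/
def tv (m l e : Tm) : En :=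
  (dv (ml (ml (c 16) (v 0)) m) (pw (v 40) 2), true, ml (ml (k 37 40) (v 0)) l, e)
/-- the weight of the rest -/
def wr (D : Tm) : Tm := dv (ml (k 41 20) D) (ml (ml (v 1) (v 3)) (v 5))

/-- `Bx.L1` -/
def L1 : List En :=
  tc (v 44) (v 34) (v 48) (v 49) ++ tc (k 2 199) (v 35) (v 50) (v 51)
    ++ tc (ad (v 44) (k 2 199)) (v 36) (v 52) (v 53) ++ ta (k 2 199) (v 44) ++ tr (wr (v 2))
    ++ [tv (ml (k 11 200) (pw (v 2) 2)) (v 34) (v 48),
      tv (ml (ml (k 1501 50) (v 42)) (ml (v 2) (v 4))) (v 35) (v 50),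
      tv (ml (ml (k 1501 50) (k 1 800)) (ml (v 2) (v 6))) (v 36) (v 52)]
/-- `Bx.L2` -/
def L2 : List En :=
  tc (k 2 199) (v 34) (v 48) (v 49) ++ tc (v 45) (v 35) (v 50) (v 51)
    ++ tc (ad (v 45) (k 2 199)) (v 36) (v 52) (v 53) ++ ta (v 45) (k 2 199) ++ tr (wr (v 4))
    ++ [tv (ml (k 11 200) (pw (v 4) 2)) (v 35) (v 50),
      tv (ml (ml (k 1501 50) (v 42)) (ml (v 2) (v 4))) (v 34) (v 48),
      tv (ml (ml (k 1501 50) (k 1 800)) (ml (v 4) (v 6))) (v 36) (v 52)]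
/-- `Bx.L3` -/
def L3 : List En :=
  tc (sb (v 46) (c 2)) (v 34) (v 48) (v 49) ++ tc (sb (v 47) (c 2)) (v 35) (v 50) (v 51)
    ++ tc (ad (v 47) (v 46)) (v 36) (v 52) (v 53) ++ ta (v 47) (v 46) ++ tr (wr (v 6))
    ++ [tv (ml (k 11 200) (pw (v 6) 2)) (v 36) (v 52)]
/-- `Bx.Lp` -/
def Lp : List En :=
  tc (dv (ml (c 6) (k 200 199)) (v 3)) (v 34) (v 48) (v 49)
    ++ tc (dv (ml (c 6) (k 200 199)) (v 1)) (v 35) (v 50) (v 51)
    ++ tc (ml (ml (c 6) (k 200 199)) (ad (dv (c 1) (v 1)) (dv (c 1) (v 3)))) (v 36) (v 52) (v 53)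
    ++ ta (dv (ml (c 6) (k 200 199)) (v 1)) (dv (ml (c 6) (k 200 199)) (v 3)) ++ tr (wr (c 3))

/-- the cost of a list -/
def tcost (a : Tm) (l : List En) : Tm :=
  l.foldr (fun p s => ad (ml p.1 (ml p.2.2.2
    (if p.2.1 then ad (dv (c 1) (mn p.2.2.1 a)) (dv (c 1) (pw (mn p.2.2.1 a) 2))
      else dv (c 1) (mn p.2.2.1 a)))) s) (k 0 1)

/-- the cost without a positive term -/
def tup (l : List En) : Tm :=
  l.foldr (fun p s => ad (ml p.1 (dv p.2.2.2 p.2.2.1)) s) (k 0 1)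

/-- the real entry -/
noncomputable def real (r : ℕ → ℝ) (p : En) : ℝ × Bool × ℝ := (p.1.val r, p.2.1, p.2.2.1.val r)

/-- the stored exponential is the exponential of the exponent -/
def okE (r : ℕ → ℝ) (p : En) : Prop := p.2.2.2.val r = Real.exp (-(p.2.2.1.val r))

theorem tcost_val (r : ℕ → ℝ) (a : Tm) {l : List En} (h : ∀ p ∈ l, okE r p) :
    (tcost a l).val r = cost (a.val r) (l.map (real r)) := by
  induction l with
  | nil => simp [tcost, cost, Tm.val]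
  | cons p l ih =>
    have h1 := ih fun q hq => h q (List.mem_cons_of_mem _ hq)
    have h2 := h p List.mem_cons_self
    unfold okE at h2
    have e1 : (tcost a (p :: l)).val r = p.1.val r * (p.2.2.2.val r *
        (if p.2.1 then 1 / min (p.2.2.1.val r) (a.val r) + 1 / (min (p.2.2.1.val r) (a.val r)) ^ 2
          else 1 / min (p.2.2.1.val r) (a.val r))) + (tcost a l).val r := by
      obtain ⟨B, b, β, E⟩ := p
      cases b <;> simp [tcost, Tm.val, c]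
    rw [e1, h1, h2]
    simp only [cost, List.map_cons, List.sum_cons, real]

theorem tup_val (r : ℕ → ℝ) {l : List En} (h : ∀ p ∈ l, okE r p) :
    (tup l).val r = ((l.map (real r)).map fun p => p.1 * (Real.exp (-p.2.2) / p.2.2)).sum := by
  induction l with
  | nil => simp [tup, Tm.val]
  | cons p l ih =>
    have h1 := ih fun q hq => h q (List.mem_cons_of_mem _ hq)
    have h2 := h p List.mem_cons_self
    unfold okE at h2
    have e1 : (tup (p :: l)).val r = p.1.val r * (p.2.2.2.val r / p.2.2.1.val r)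
        + (tup l).val r := by
      simp [tup, Tm.val]
    rw [e1, h1, h2]
    simp only [List.map_cons, List.sum_cons, real]

/-- the program -/
def prog : List Tm := [
  -- 17
  dv (ml (c 2) (k 200 199)) (v 3),
  dv (ml (c 2) (k 200 199)) (v 1),
  dv (ml (ml (c 2) (k 200 199)) (v 6)) (ml (v 1) (v 3)),
  dv (ml (c 6) (k 200 199)) (ml (v 1) (v 3)),
  dv (ml (v 4) (v 6)) (c 200),
  -- 22
  ml (sb (ml (ml (c 2) (v 1)) T) (c 1)) (ex (ml (ml (c 2) (v 1)) T)),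
  ml (sb (ml (ml (c 2) (v 3)) T) (c 1)) (ex (ml (ml (c 2) (v 3)) T)),
  ml (sb (ml (sb (c 3) (v 6)) T) (c 1)) (ex (ml (sb (c 3) (v 6)) T)),
  ml (dv (v 21) (c 4)) (ml (k 171 16) e38),
  ad (c 27) (ml (v 20) (v 25)),
  -- 27
  ad (ad (ad (ad (ad (ad (ad (ad (c 2) (ml (dv (ml (pw (k 9 2) 2) (v 21)) (c 4)) e38))
    (ml (k 2001 1000) (ex (ml (sb (v 5) (c 1)) (k 9 2)))))
    (ml (k 81 20) (ex (ml (sb (ml (k 11 12) (sb (c 4) (v 4))) (c 1)) (k 9 2)))))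
    (ml (k 81 20) (ex (ml (sb (ml (k 11 12) (sb (c 4) (v 2))) (c 1)) (k 9 2)))))
    (ml (k 81 10) (ex (ml (k 8 3) (k 9 2)))))
    (ml (k 21 10) (ex (ml (sb (ml (k 11 12) (ad (c 1) (ml (c 2) (v 1)))) (c 1)) (k 9 2)))))
    (ml (k 21 10) (ex (ml (sb (ml (k 11 12) (ad (c 1) (ml (c 2) (v 3)))) (c 1)) (k 9 2)))))
    (ml (c 19) (ex (ml (sb (ml (k 11 12) (ad (c 1) (ml (c 2) (v 5)))) (c 1)) (k 9 2)))),
  ad (ml (c 3) (pw (k 9 2) 2)) (ml (v 20) (v 27)),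
  -- 29
  ad (ad (ad (ad (ad (ad (ad (ad (ml (c 2) (p0m T))
    (ml (dv (ml (pw T 2) (v 21)) (c 4)) (p2 (ml (k 11 12) T))))
    (ml (k 2001 1000) (p0 (ml (v 5) T))))
    (ml (k 81 20) (p0 (ml (ml (k 11 12) (sb (c 4) (v 4))) T))))
    (ml (k 81 20) (p0 (ml (ml (k 11 12) (sb (c 4) (v 2))) T))))
    (ml (k 81 10) (p0 (ml (k 11 3) T))))
    (ml (k 21 10) (p0 (ml (ml (k 11 12) (ad (c 1) (ml (c 2) (v 1)))) T))))
    (ml (k 21 10) (p0 (ml (ml (k 11 12) (ad (c 1) (ml (c 2) (v 3)))) T))))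
    (ml (c 19) (p0 (ml (ml (k 11 12) (ad (c 1) (ml (c 2) (v 5)))) T))),
  -- 30
  ad (ad (ml (ml (c 2) T) (p1 T)) (ml (ml (c 2) T) (p1 (ml (ad (c 1) (ml (c 2) (v 2))) T))))
    (ml (ml (c 18) T) (p1 (ml (ad (c 1) (ml (c 2) (v 4))) T))),
  ad (ad (ml (ml (c 2) T) (p1 T)) (ml (ml (c 18) T) (p1 (ml (ad (c 1) (ml (c 2) (v 2))) T))))
    (ml (ml (c 2) T) (p1 (ml (ad (c 1) (ml (c 2) (v 4))) T))),
  ad (ad (ad (ml (ml (c 2) T) (p1 T)) (ml (ml (c 16) T) (p1 (ml (sb (c 4) (v 5)) T))))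
    (ml (ml (c 18) T) (p1 (ml (ad (c 1) (ml (c 2) (v 2))) T))))
    (ml (ml (c 18) T) (p1 (ml (ad (c 1) (ml (c 2) (v 4))) T))),
  ad (ml (ml (c 3) (pw T 2)) (p2 T)) (ml (ml (c 27) (pw T 2))
    (ad (p2 (ml (ad (c 1) (ml (c 2) (v 1))) T)) (p2 (ml (ad (c 1) (ml (c 2) (v 3))) T)))),
  -- 34
  ad (dv (c 1) (v 4)) (dv (c 1) (v 6)),
  ad (dv (c 1) (v 2)) (dv (c 1) (v 6)),
  ad (dv (c 1) (v 2)) (dv (c 1) (v 4)),
  ad (dv (c 1) (v 3)) (dv (c 1) (v 5)),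
  ad (dv (c 1) (v 1)) (dv (c 1) (v 5)),
  ad (dv (c 1) (v 1)) (dv (c 1) (v 3)),
  -- 40
  ml (k 497 500) (ml (ml (v 1) (v 3)) (v 5)),
  mn (ml (ml (v 2) (v 4)) (v 6)) (k 64 27),
  mn (k 1 200) (dv (pw (sb (c 2) (v 5)) 2) (ml (v 1) (v 3))),
  ad (ml (k 21 10) (ex (dv (ml (k 10 3) (v 0)) (v 6)))) (k 1 100),
  dv (ml (ml (c 2) (k 200 199)) (v 2)) (v 3),
  dv (ml (ml (c 2) (k 200 199)) (v 4)) (v 1),
  dv (ml (ml (c 2) (k 200 199)) (v 6)) (v 3),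
  dv (ml (ml (c 2) (k 200 199)) (v 6)) (v 1),
  -- 48
  ex (ml (ml (k 37 40) (v 0)) (v 34)),
  ex (ml (ml (k 43 40) (v 0)) (v 34)),
  ex (ml (ml (k 37 40) (v 0)) (v 35)),
  ex (ml (ml (k 43 40) (v 0)) (v 35)),
  ex (ml (ml (k 37 40) (v 0)) (v 36)),
  ex (ml (ml (k 43 40) (v 0)) (v 36)),
  ex (dv (ml (c 4) (v 0)) (v 2)),
  ex (dv (ml (c 4) (v 0)) (v 4)),
  ex (ml (ml (k 5 6) (v 0)) (v 34)),
  ex (ml (ml (k 5 6) (v 0)) (v 35)),
  ex (ml (ml (k 5 6) (v 0)) (v 36)),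
  -- 59
  ml (ml (k 500 497) (v 0)) (v 37),
  ml (ml (k 500 497) (v 0)) (v 38),
  ml (ml (k 500 497) (v 0)) (v 39),
  ex (v 59),
  ex (v 60),
  ex (v 61),
  -- 65
  tup Lp,
  ad (ad (v 33) (ml (v 20) (v 29))) (ml (v 7) (v 65)),
  tcost (v 59) L1,
  tcost (v 60) L2,
  tcost (v 61) L3]

/-- the comparisons -/
def conds : List (Tm × Tm) := [
  (ad (ad (ad (ml (v 17) (v 25)) (ml (c 2) (v 22))) (ml (c 18) (v 23))) (ml (v 26) (ml (v 8) (v 2))),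
    c 2),
  (ad (ad (ad (ml (v 18) (v 25)) (ml (c 18) (v 22))) (ml (c 2) (v 23))) (ml (v 26) (ml (v 9) (v 4))),
    c 2),
  (ad (ad (ad (ad (ml (v 19) (v 25)) (ml (c 16) (v 24))) (ml (c 18) (v 22))) (ml (c 18) (v 23)))
    (ml (v 26) (ml (v 10) (v 6))), c 2),
  (ad (ml (v 17) (v 27)) (ml (v 28) (ml (v 11) (v 2))), c 9),
  (ad (ml (v 18) (v 27)) (ml (v 28) (ml (v 12) (v 4))), c 9),
  (ad (ml (v 19) (v 27)) (ml (v 28) (ml (v 13) (v 6))), c 9),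
  (ad (ml (v 17) (v 29)) (ml (v 66) (ml (v 14) (v 2))), v 30),
  (ad (ml (v 18) (v 29)) (ml (v 66) (ml (v 15) (v 4))), v 31),
  (ad (ml (v 19) (v 29)) (ml (v 66) (ml (v 16) (v 6))), v 32),
  (ad (ad (ml (v 17) (v 29)) (ml (v 66) (ml (v 14) (v 2)))) (ml (v 7) (v 67)),
    ad (v 30) (ml (v 7) (ml (dv (ml (ml (ml (c 16) (v 0)) (k 19 20)) (pw (v 1) 2)) (pw (v 41) 2))
      (dv (v 62) (v 59))))),
  (ad (ad (ml (v 18) (v 29)) (ml (v 66) (ml (v 15) (v 4)))) (ml (v 7) (v 68)),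
    ad (v 31) (ml (v 7) (ml (dv (ml (ml (ml (c 16) (v 0)) (k 19 20)) (pw (v 3) 2)) (pw (v 41) 2))
      (dv (v 63) (v 60))))),
  (ad (ad (ml (v 19) (v 29)) (ml (v 66) (ml (v 16) (v 6)))) (ml (v 7) (v 69)),
    ad (v 32) (ml (v 7) (ml (dv (ml (ml (ml (c 16) (v 0)) (k 19 20)) (pw (v 5) 2)) (pw (v 41) 2))
      (dv (v 64) (v 61))))),
  (k 28348 10000, ml (pw (v 7) 2) (v 40))]

/-- the first alternative of `wOk` -/
def big1 (i : ℕ) : Tm × Tm :=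
  (c 1, ml (c 216000000) (pw (ml (c 27) (ml (ml (v i) (v (i + 1))) (v (i + 2)))) 2))
/-- the second alternative of `wOk` -/
def big2 (i : ℕ) : Tm × Tm :=
  (pw (sb (c 2) (v 5)) 2,
    ml (pw (ml (c 400) (ml (c 27) (ml (ml (v i) (v (i + 1))) (v (i + 2))))) 2) (ml (v 1) (v 3)))

/-- a comparison -/
def cmp (e : List (ℕ × ℕ)) (p : Tm × Tm) : Bool := Tm.lt e p.1 p.2

/-- the scaled data -/
def env0 (l : List ℕ) : List (ℕ × ℕ) :=
  (3448145198781303685, 3448145198781303686) ::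
    l.map fun n => frc (n * 1099511627776) fun m => (m, m)

/-- the numerical conditions for the data `l = [a0, a1, b0, b1, c0, c1, pre, u1, .., w3]` -/
def chkN (l : List ℕ) : Bool :=
  match runT prog (env0 l) with
  | none => false
  | some e => conds.all (cmp e) && (cmp e (big1 8) || cmp e (big2 8)) &&
      (cmp e (big1 11) || cmp e (big2 11)) && (cmp e (big1 14) || cmp e (big2 14))

end BT

end Pool.Agent.Lib.EPT
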