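import Pool.Agent.Lib.EPT.Fun

/-!
# Elementary bounds in the region

Normalised off-diagonal entries: `x = o1/√(bc)`, `y = o2/√(ac)`, `z = o3/√(ab)`,
`T = x² + y² + z² = W/(abc) ≤ 1/200`.  (In Lean avoid square roots where possible.)

PROOF (sketch).
* `b1`: `2 b ≥ a + b = 4 - c ≥ 2`; `b2`: `2 b ≤ b + c = 4 - a ≤ 13/4`; `c1`: `3 c ≥ 4`;
  `a2`: `3 a ≤ 4`.
* `o1² b c`-type bounds: `a o1² ≤ W ≤ abc/200`, so `200 o1² ≤ b c`, `200 o2² ≤ a c`, `200 o3² ≤ a b`.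
* `pp_le`: `pp² = o1² o2² o3²`, AM-GM `27 (a o1²)(b o2²)(c o3²) ≤ W³`, so `27 abc pp² ≤ W³ ≤
  W² abc/200`, `pp² ≤ W²/5400`, `|pp| ≤ W/73`.
* `dt_lo`: `dt ≥ abc - W - 2|pp| ≥ abc (1 - (1 + 2/73)/200) ≥ 497/500 abc`;
  `dt_hi`: `2 pp ≤ W`.  `d0_lo`: `o3² ≤ ab/200`.
* `S2_le`: `S2 = o1² + o2² + o3² ≤ bc (a o1² + b o2² + c o3²)/(abc)` since `a ≤ b ≤ c`:
  `o1² = bc (a o1²)/(abc)`, `o2² = ac (b o2²)/(abc) ≤ bc (b o2²)/(abc)`, etc.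
* `chi_nn`: `3 pp ≤ W`; `chi_le`: `-3 pp ≤ 3 |pp|`; `chi_up`: `chi ≤ 2 (1 + 3/73) W/d0`, `W ≤ abc/200`,
  `d0 ≥ 199/200 ab`, `c ≤ 2`: `chi ≤ 0.0210`.
* `K_le`: see the header of Alg (Cauchy-Schwarz), for the real triple `n = u/2`.
* `inv_a_lo`: `a (bc - o1²) ≥ dt` iff `b o2² + c o3² ≥ 2 pp`: AM-GM with `o1² ≤ bc`.
  `inv_a_hi`: `(bc - o1²)/dt ≤ bc/dt ≤ (500/497)/a`.  The same for `b`, `c`.
* `off3`: `|2 (o1 o2 - c o3)/dt| ≤ 3/40 (1/a + 1/b)`: `1/a + 1/b ≥ 2/√(ab)`, and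
  `|o1 o2 - c o3| ≤ c √(ab) (|xy| + |z|)`, `|z| + |xy| ≤ √T + T/2 ≤ 0.0708 + 0.0025 = 0.0733`,
  divided by `0.994`: `0.07375 ≤ 0.075`.  To avoid roots: square everything,
  `(o1 o2 - c o3)² ≤ c² ab (z² + ...)`.
* `Ky_le`: `|Ky| = 2 |r3 w1 w2 + r2 w1 w3 + r1 w2 w3|`, `r_k = inv.o_k`; Cauchy-Schwarz with weights:
  `Ky² ≤ 4 (r3² ab + r2² ac + r1² bc) (w1²w2²/(ab) + ...) ≤ (4/3) Rr E*²`,
  `E* = w1²/a + w2²/b + w3²/c`, `Rr = r3² ab + ... ≤ ((√T + T/√3)/0.994)² ≤ 0.0741²`, so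
  `|Ky| ≤ 0.0856 E*`.
-/

namespace Pool.Agent.Lib.EPT

namespace BndAux

theorem amgm {x y z : ℝ} (hx : 0 ≤ x) (hy : 0 ≤ y) (hz : 0 ≤ z) :
    27 * (x * y * z) ≤ (x + y + z) ^ 3 := by
  nlinarith [mul_nonneg hx (sq_nonneg (y - z)), mul_nonneg hy (sq_nonneg (x - z)),
    mul_nonneg hz (sq_nonneg (x - y)), mul_nonneg hx (sq_nonneg (x - y)),
    mul_nonneg hx (sq_nonneg (x - z)), mul_nonneg hy (sq_nonneg (y - x)),
    mul_nonneg hy (sq_nonneg (y - z)), mul_nonneg hz (sq_nonneg (z - x)),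
    mul_nonneg hz (sq_nonneg (z - y))]

/-- the three products of two -/
theorem prod2 {x y z : ℝ} : 3 * (x * y + x * z + y * z) ≤ (x + y + z) ^ 2 := by
  nlinarith [sq_nonneg (x - y), sq_nonneg (x - z), sq_nonneg (y - z)]

/-- Cauchy-Schwarz -/
theorem cs {a b c o1 o2 o3 k : ℝ} (ha : 0 < a) (hb : 0 < b) (hc : 0 < c)
    (hk : a * o1 ^ 2 + b * o2 ^ 2 + c * o3 ^ 2 ≤ k * (a * b * c)) (n1 n2 n3 : ℝ) :
    3 * (o3 * n1 * n2 + o2 * n1 * n3 + o1 * n2 * n3) ^ 2 ≤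
      k * (a * n1 ^ 2 + b * n2 ^ 2 + c * n3 ^ 2) ^ 2 := by
  have h0 : 0 < a * b * c := by positivity
  have hid : (a * o1 ^ 2 + b * o2 ^ 2 + c * o3 ^ 2) *
      ((a * n1 ^ 2) * (b * n2 ^ 2) + (a * n1 ^ 2) * (c * n3 ^ 2) + (b * n2 ^ 2) * (c * n3 ^ 2))
      - a * b * c * (o3 * n1 * n2 + o2 * n1 * n3 + o1 * n2 * n3) ^ 2
      = a * n1 ^ 2 * (c * o3 * n3 - b * o2 * n2) ^ 2 + b * n2 ^ 2 * (c * o3 * n3 - a * o1 * n1) ^ 2
        + c * n3 ^ 2 * (b * o2 * n2 - a * o1 * n1) ^ 2 := by ring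
  have hnn : 0 ≤ a * n1 ^ 2 * (c * o3 * n3 - b * o2 * n2) ^ 2
      + b * n2 ^ 2 * (c * o3 * n3 - a * o1 * n1) ^ 2
        + c * n3 ^ 2 * (b * o2 * n2 - a * o1 * n1) ^ 2 := by positivity
  have hP : 0 ≤ (a * n1 ^ 2) * (b * n2 ^ 2) + (a * n1 ^ 2) * (c * n3 ^ 2)
      + (b * n2 ^ 2) * (c * n3 ^ 2) := by positivity
  have h1 := mul_le_mul_of_nonneg_right hk hP
  have h2 := prod2 (x := a * n1 ^ 2) (y := b * n2 ^ 2) (z := c * n3 ^ 2)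
  have hk0 : 0 ≤ k := by
    have : 0 ≤ k * (a * b * c) := le_trans (by positivity) hk
    by_contra hcon
    push Not at hcon
    nlinarith
  have h3 := mul_le_mul_of_nonneg_left h2 (mul_nonneg hk0 h0.le)
  have h4 : a * b * c * (3 * (o3 * n1 * n2 + o2 * n1 * n3 + o1 * n2 * n3) ^ 2) ≤
      a * b * c * (k * (a * n1 ^ 2 + b * n2 ^ 2 + c * n3 ^ 2) ^ 2) := by
    nlinarith
  exact le_of_mul_le_mul_left h4 h0

theorem pos_of {q : Par} (h : Reg q) : 0 < q.a ∧ 0 < q.b ∧ 0 < q.c := by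
  have h1 := h.ha
  have h2 := h.hab
  have h3 := h.hbc
  refine ⟨by linarith, by linarith, by linarith⟩

/-- from the bound of the square -/
theorem abs_le_of_sq {x y : ℝ} (hy : 0 ≤ y) (h : x ^ 2 ≤ y ^ 2) : |x| ≤ y := by
  exact abs_le_of_sq_le_sq h hy

/-- the single off-diagonal entry of the inverse, numerator -/
theorem off {a b c x y z : ℝ} (ha : 0 < a) (hb : 0 < b) (hc : 0 < c)
    (h : 200 * (a * x ^ 2 + b * y ^ 2 + c * z ^ 2) ≤ a * b * c) :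
    (y * z - a * x) ^ 2 ≤ 11 / 2000 * (a ^ 2 * b * c) := by
  have h1 : (y * z - a * x) ^ 2 ≤ 11 / 10 * (a * x) ^ 2 + 11 * (y * z) ^ 2 := by
    nlinarith [sq_nonneg (a * x + 10 * (y * z))]
  have h2 : 4 * (b * y ^ 2) * (c * z ^ 2) ≤ (b * y ^ 2 + c * z ^ 2) ^ 2 := by
    nlinarith [sq_nonneg (b * y ^ 2 - c * z ^ 2)]
  have hr : 0 ≤ b * y ^ 2 + c * z ^ 2 := by positivity
  have hp : 0 ≤ a * x ^ 2 := by positivity
  have hM : b * y ^ 2 + c * z ^ 2 ≤ a * b * c / 200 := by linarith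
  have h3 : (b * y ^ 2 + c * z ^ 2) ^ 2 ≤ (b * y ^ 2 + c * z ^ 2) * (a * b * c / 200) := by
    nlinarith
  have h4 : b * c * (y * z) ^ 2 ≤ b * c * (a / 800 * (b * y ^ 2 + c * z ^ 2)) := by
    nlinarith
  have h5 : (y * z) ^ 2 ≤ a / 800 * (b * y ^ 2 + c * z ^ 2) :=
    le_of_mul_le_mul_left h4 (mul_pos hb hc)
  have h6 : (y * z - a * x) ^ 2 ≤ 11 / 10 * (a * (a * x ^ 2 + b * y ^ 2 + c * z ^ 2)) := by
    nlinarith [mul_nonneg ha.le hr]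
  have h7 := mul_le_mul_of_nonneg_left h ha.le
  nlinarith

/-- the single off-diagonal entry of the inverse -/
theorem off' {a b c x y z D : ℝ} (ha : 0 < a) (hb : 0 < b) (hc : 0 < c)
    (h : 200 * (a * x ^ 2 + b * y ^ 2 + c * z ^ 2) ≤ a * b * c)
    (hD : 497 / 500 * (a * b * c) ≤ D) :
    |2 * ((y * z - a * x) / D)| ≤ 3 / 40 * (1 / b + 1 / c) := by
  have h0 : 0 < a * b * c := by positivity
  have hD0 : 0 < D := by linarith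
  have h1 := off ha hb hc h
  have h2 : |y * z - a * x| ≤ 1491 / 40000 * (a * (b + c)) := by
    apply abs_le_of_sq (by positivity)
    have h3 : 4 * (a ^ 2 * b * c) ≤ (a * (b + c)) ^ 2 := by
      nlinarith [sq_nonneg (a * (b - c))]
    nlinarith [sq_nonneg (a * (b + c))]
  have h4 : 2 * ((y * z - a * x) / D) = (2 * (y * z - a * x)) / D := by ring
  rw [h4, abs_div, abs_of_pos hD0, div_le_iff₀ hD0, abs_mul, abs_of_pos (by norm_num : (0 : ℝ) < 2)]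
  have h5 : 3 / 40 * (1 / b + 1 / c) * (497 / 500 * (a * b * c)) = 3 / 40 * (497 / 500) * (a * (b + c)) := by
    field_simp
    ring
  have h6 : 0 ≤ 3 / 40 * (1 / b + 1 / c) := by positivity
  have h7 := mul_le_mul_of_nonneg_left hD h6
  nlinarith

/-- a diagonal entry of the inverse, lower bound -/
theorem low {b c x y z : ℝ} (hb : 0 < b) (hc : 0 < c) (h : 200 * x ^ 2 ≤ b * c) :
    2 * (x * y * z) ≤ b * y ^ 2 + c * z ^ 2 := by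
  have h1 : |2 * (x * y * z)| ≤ b * y ^ 2 + c * z ^ 2 := by
    apply abs_le_of_sq (by positivity)
    have h2 : 4 * (b * y ^ 2) * (c * z ^ 2) ≤ (b * y ^ 2 + c * z ^ 2) ^ 2 := by
      nlinarith [sq_nonneg (b * y ^ 2 - c * z ^ 2)]
    have h3 : x ^ 2 * (y * z) ^ 2 ≤ b * c * (y * z) ^ 2 := by
      apply mul_le_mul_of_nonneg_right _ (sq_nonneg _)
      nlinarith [sq_nonneg x]
    nlinarith
  exact le_trans (le_abs_self _) h1

end BndAux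

open BndAux

variable {q : Par}

theorem Reg.b1 (h : Reg q) : 1 ≤ q.b := by
  have := h.sum
  have := h.hab
  have := h.hc
  linarith

theorem Reg.b2 (h : Reg q) : q.b ≤ 13 / 8 := by
  have := h.sum
  have := h.hbc
  have := h.ha
  linarith

theorem Reg.c1 (h : Reg q) : 4 / 3 ≤ q.c := by
  have := h.sum
  have := h.hbc
  have := h.hab
  linarith

theorem Reg.a2 (h : Reg q) : q.a ≤ 4 / 3 := by
  have := h.sum
  have := h.hbc
  have := h.hab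
  linarith

theorem Reg.s1 (h : Reg q) : 200 * q.o1 ^ 2 ≤ q.b * q.c := by
  obtain ⟨ha, hb, hc⟩ := pos_of h
  have hT := h.hT
  unfold Par.W at hT
  have h1 : 0 ≤ q.b * q.o2 ^ 2 := by positivity
  have h2 : 0 ≤ q.c * q.o3 ^ 2 := by positivity
  have h3 : q.a * (200 * q.o1 ^ 2) ≤ q.a * (q.b * q.c) := by nlinarith
  exact le_of_mul_le_mul_left h3 ha

theorem Reg.s2 (h : Reg q) : 200 * q.o2 ^ 2 ≤ q.a * q.c := by
  obtain ⟨ha, hb, hc⟩ := pos_of h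
  have hT := h.hT
  unfold Par.W at hT
  have h1 : 0 ≤ q.a * q.o1 ^ 2 := by positivity
  have h2 : 0 ≤ q.c * q.o3 ^ 2 := by positivity
  have h3 : q.b * (200 * q.o2 ^ 2) ≤ q.b * (q.a * q.c) := by nlinarith
  exact le_of_mul_le_mul_left h3 hb

theorem Reg.s3 (h : Reg q) : 200 * q.o3 ^ 2 ≤ q.a * q.b := by
  obtain ⟨ha, hb, hc⟩ := pos_of h
  have hT := h.hT
  unfold Par.W at hT
  have h1 : 0 ≤ q.a * q.o1 ^ 2 := by positivity
  have h2 : 0 ≤ q.b * q.o2 ^ 2 := by positivity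
  have h3 : q.c * (200 * q.o3 ^ 2) ≤ q.c * (q.a * q.b) := by nlinarith
  exact le_of_mul_le_mul_left h3 hc

theorem Reg.W_nn (h : Reg q) : 0 ≤ q.W := by
  obtain ⟨ha, hb, hc⟩ := pos_of h
  unfold Par.W
  positivity

theorem Reg.pp_le (h : Reg q) : 73 * |q.pp| ≤ q.W := by
  obtain ⟨ha, hb, hc⟩ := pos_of h
  have h0 : 0 < q.a * q.b * q.c := by positivity
  have hW := h.W_nn
  have hT := h.hT
  have h1 := amgm (x := q.a * q.o1 ^ 2) (y := q.b * q.o2 ^ 2) (z := q.c * q.o3 ^ 2)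
    (by positivity) (by positivity) (by positivity)
  have h2 : 27 * (q.a * q.b * q.c) * q.pp ^ 2 ≤ q.W ^ 3 := by
    unfold Par.pp Par.W
    calc 27 * (q.a * q.b * q.c) * (q.o1 * q.o2 * q.o3) ^ 2
        = 27 * (q.a * q.o1 ^ 2 * (q.b * q.o2 ^ 2) * (q.c * q.o3 ^ 2)) := by ring
      _ ≤ _ := h1
  have h3 : q.W ^ 3 ≤ q.W ^ 2 * (q.a * q.b * q.c / 200) := by
    have : q.W ≤ q.a * q.b * q.c / 200 := by linarith
    calc q.W ^ 3 = q.W ^ 2 * q.W := by ring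
      _ ≤ _ := mul_le_mul_of_nonneg_left this (sq_nonneg _)
  have h4 : q.a * q.b * q.c * (5400 * q.pp ^ 2) ≤ q.a * q.b * q.c * q.W ^ 2 := by nlinarith
  have h5 : 5400 * q.pp ^ 2 ≤ q.W ^ 2 := le_of_mul_le_mul_left h4 h0
  have h6 : |73 * q.pp| ≤ q.W := by
    apply abs_le_of_sq hW
    nlinarith [sq_nonneg q.pp]
  rwa [abs_mul, abs_of_pos (by norm_num : (0 : ℝ) < 73)] at h6

theorem Reg.dt_lo (h : Reg q) : 497 / 500 * (q.a * q.b * q.c) ≤ q.dt := by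
  have h1 := h.pp_le
  have h2 := h.hT
  have h3 := neg_abs_le q.pp
  have h4 := h.W_nn
  unfold Par.dt
  nlinarith

theorem Reg.dt_hi (h : Reg q) : q.dt ≤ q.a * q.b * q.c := by
  have h1 := h.pp_le
  have h3 := le_abs_self q.pp
  have h4 := h.W_nn
  unfold Par.dt
  nlinarith

theorem Reg.d0_lo (h : Reg q) : 199 / 200 * (q.a * q.b) ≤ q.d0 := by
  have h1 := h.s3
  unfold Par.d0
  nlinarith

theorem Reg.S2_le (h : Reg q) : 200 * q.S2 ≤ q.b * q.c := by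
  obtain ⟨ha, hb, hc⟩ := pos_of h
  have hT := h.hT
  have hab := h.hab
  have hbc := h.hbc
  have h1 : q.a * q.S2 ≤ q.W := by
    unfold Par.S2 Par.W
    have e2 : q.a * q.o2 ^ 2 ≤ q.b * q.o2 ^ 2 := mul_le_mul_of_nonneg_right hab (sq_nonneg _)
    have e3 : q.a * q.o3 ^ 2 ≤ q.c * q.o3 ^ 2 :=
      mul_le_mul_of_nonneg_right (hab.trans hbc) (sq_nonneg _)
    nlinarith
  have h2 : q.a * (200 * q.S2) ≤ q.a * (q.b * q.c) := by nlinarith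
  exact le_of_mul_le_mul_left h2 ha

theorem Reg.chi_nn (h : Reg q) : 0 ≤ q.chi := by
  obtain ⟨ha, hb, hc⟩ := pos_of h
  have h1 := h.pp_le
  have h3 := le_abs_self q.pp
  have h4 := h.W_nn
  have h5 := h.d0_lo
  have h6 : 0 < q.a * q.b := by positivity
  unfold Par.chi
  apply div_nonneg <;> linarith

theorem Reg.chi_le (h : Reg q) : q.chi ≤ 2 * (q.W + 3 * |q.pp|) / q.d0 := by
  obtain ⟨ha, hb, hc⟩ := pos_of h
  have h3 := neg_abs_le q.pp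
  have h5 := h.d0_lo
  have h6 : 0 < q.a * q.b := by positivity
  unfold Par.chi
  apply div_le_div_of_nonneg_right _ (by linarith)
  linarith

theorem Reg.chi_up (h : Reg q) : q.chi ≤ 1 / 40 := by
  obtain ⟨ha, hb, hc⟩ := pos_of h
  have h1 := h.pp_le
  have h3 := neg_abs_le q.pp
  have h4 := h.W_nn
  have h5 := h.d0_lo
  have hT := h.hT
  have h6 : 0 < q.a * q.b := by positivity
  have h7 : q.a * q.b * q.c ≤ q.a * q.b * 2 := mul_le_mul_of_nonneg_left h.hc h6.le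
  unfold Par.chi
  rw [div_le_iff₀ (by linarith)]
  linarith

/-- the off-diagonal part is at most a twelfth of the diagonal part -/
theorem Reg.K_le (h : Reg q) (n₁ n₂ n₃ : ℝ) :
    |2 * (q.o3 * n₁ * n₂ + q.o2 * n₁ * n₃ + q.o1 * n₂ * n₃)| ≤
      (q.a * n₁ ^ 2 + q.b * n₂ ^ 2 + q.c * n₃ ^ 2) / 12 := by
  obtain ⟨ha, hb, hc⟩ := pos_of h
  have hT := h.hT
  have h1 := cs (o1 := q.o1) (o2 := q.o2) (o3 := q.o3) (k := 1 / 200) ha hb hc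
    (by unfold Par.W at hT; linarith) n₁ n₂ n₃
  have hE : 0 ≤ q.a * n₁ ^ 2 + q.b * n₂ ^ 2 + q.c * n₃ ^ 2 := by positivity
  apply abs_le_of_sq (by positivity)
  nlinarith [sq_nonneg (q.a * n₁ ^ 2 + q.b * n₂ ^ 2 + q.c * n₃ ^ 2)]

theorem Reg.Kx_le (h : Reg q) (x : Fin 3 → ℤ) : |q.Kx x| ≤ q.Ex x / 12 := by
  have h1 := h.K_le ((u1 x : ℝ) / 2) ((u2 x : ℝ) / 2) ((u3 x : ℝ) / 2)
  have h2 : 2 * (q.o3 * ((u1 x : ℝ) / 2) * ((u2 x : ℝ) / 2) + q.o2 * ((u1 x : ℝ) / 2) *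
      ((u3 x : ℝ) / 2) + q.o1 * ((u2 x : ℝ) / 2) * ((u3 x : ℝ) / 2)) = q.Kx x := by
    unfold Par.Kx; ring
  have h3 : (q.a * ((u1 x : ℝ) / 2) ^ 2 + q.b * ((u2 x : ℝ) / 2) ^ 2
      + q.c * ((u3 x : ℝ) / 2) ^ 2) / 12 = q.Ex x / 12 := by
    unfold Par.Ex; ring
  rw [h2, h3] at h1
  exact h1

theorem Reg.inv_a (h : Reg q) : 1 / q.a ≤ q.inv.a ∧ q.inv.a ≤ 500 / 497 * (1 / q.a) := by
  obtain ⟨ha, hb, hc⟩ := pos_of h
  have h0 : 0 < q.a * q.b * q.c := by positivity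
  have hlo := h.dt_lo
  have hD : 0 < q.dt := by linarith
  have h1 := low (x := q.o1) (y := q.o2) (z := q.o3) hb hc h.s1
  have hsq := sq_nonneg q.o1
  constructor
  · show 1 / q.a ≤ (q.b * q.c - q.o1 ^ 2) / q.dt
    rw [div_le_div_iff₀ ha hD]
    unfold Par.dt Par.W Par.pp
    linarith
  · show (q.b * q.c - q.o1 ^ 2) / q.dt ≤ 500 / 497 * (1 / q.a)
    rw [div_le_iff₀ hD]
    have h2 : 500 / 497 * (1 / q.a) * (497 / 500 * (q.a * q.b * q.c)) = q.b * q.c := by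
      field_simp
    have h3 : 0 ≤ 500 / 497 * (1 / q.a) := by positivity
    have h4 := mul_le_mul_of_nonneg_left hlo h3
    linarith

theorem Reg.inv_b (h : Reg q) : 1 / q.b ≤ q.inv.b ∧ q.inv.b ≤ 500 / 497 * (1 / q.b) := by
  obtain ⟨ha, hb, hc⟩ := pos_of h
  have h0 : 0 < q.a * q.b * q.c := by positivity
  have hlo := h.dt_lo
  have hD : 0 < q.dt := by linarith
  have h1 := low (x := q.o2) (y := q.o1) (z := q.o3) ha hc h.s2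
  have hsq := sq_nonneg q.o2
  constructor
  · show 1 / q.b ≤ (q.a * q.c - q.o2 ^ 2) / q.dt
    rw [div_le_div_iff₀ hb hD]
    unfold Par.dt Par.W Par.pp
    linarith
  · show (q.a * q.c - q.o2 ^ 2) / q.dt ≤ 500 / 497 * (1 / q.b)
    rw [div_le_iff₀ hD]
    have h2 : 500 / 497 * (1 / q.b) * (497 / 500 * (q.a * q.b * q.c)) = q.a * q.c := by
      field_simp
    have h3 : 0 ≤ 500 / 497 * (1 / q.b) := by positivity
    have h4 := mul_le_mul_of_nonneg_left hlo h3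
    linarith

theorem Reg.inv_c (h : Reg q) : 1 / q.c ≤ q.inv.c ∧ q.inv.c ≤ 500 / 497 * (1 / q.c) := by
  obtain ⟨ha, hb, hc⟩ := pos_of h
  have h0 : 0 < q.a * q.b * q.c := by positivity
  have hlo := h.dt_lo
  have hD : 0 < q.dt := by linarith
  have h1 := low (x := q.o3) (y := q.o1) (z := q.o2) ha hb h.s3
  have hsq := sq_nonneg q.o3
  constructor
  · show 1 / q.c ≤ (q.a * q.b - q.o3 ^ 2) / q.dt
    rw [div_le_div_iff₀ hc hD]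
    unfold Par.dt Par.W Par.pp
    linarith
  · show (q.a * q.b - q.o3 ^ 2) / q.dt ≤ 500 / 497 * (1 / q.c)
    rw [div_le_iff₀ hD]
    have h2 : 500 / 497 * (1 / q.c) * (497 / 500 * (q.a * q.b * q.c)) = q.a * q.b := by
      field_simp
    have h3 : 0 ≤ 500 / 497 * (1 / q.c) := by positivity
    have h4 := mul_le_mul_of_nonneg_left hlo h3
    linarith

theorem Reg.off1 (h : Reg q) : |2 * q.inv.o1| ≤ 3 / 40 * q.e1 := by
  obtain ⟨ha, hb, hc⟩ := pos_of h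
  have hT := h.hT
  unfold Par.W at hT
  have h1 := off' (x := q.o1) (y := q.o2) (z := q.o3) ha hb hc (by linarith) h.dt_lo
  exact h1

theorem Reg.off2 (h : Reg q) : |2 * q.inv.o2| ≤ 3 / 40 * q.e2 := by
  obtain ⟨ha, hb, hc⟩ := pos_of h
  have hT := h.hT
  unfold Par.W at hT
  have h1 := off' (x := q.o2) (y := q.o1) (z := q.o3) (D := q.dt) hb ha hc (by linarith)
    (by have := h.dt_lo; linarith)
  exact h1

theorem Reg.off3 (h : Reg q) : |2 * q.inv.o3| ≤ 3 / 40 * q.e3 := by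
  obtain ⟨ha, hb, hc⟩ := pos_of h
  have hT := h.hT
  unfold Par.W at hT
  have h1 := off' (x := q.o3) (y := q.o1) (z := q.o2) (D := q.dt) hc ha hb (by linarith)
    (by have := h.dt_lo; linarith)
  exact h1

theorem Reg.Ky_le (h : Reg q) (y : Fin 3 → ℤ) : |q.inv.Ky y| ≤
    9 / 100 * ((w1 y : ℝ) ^ 2 / q.a + (w2 y : ℝ) ^ 2 / q.b + (w3 y : ℝ) ^ 2 / q.c) := by
  obtain ⟨ha, hb, hc⟩ := pos_of h
  have h0 : 0 < q.a * q.b * q.c := by positivity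
  have hlo := h.dt_lo
  have hD : 0 < q.dt := by linarith
  have hT := h.hT
  have hW := h.W_nn
  set A1 := q.o2 * q.o3 - q.a * q.o1 with hA1
  set A2 := q.o1 * q.o3 - q.b * q.o2 with hA2
  set A3 := q.o1 * q.o2 - q.c * q.o3 with hA3
  have e1 : A1 ^ 2 ≤ 11 / 10 * (q.a * q.o1) ^ 2 + 11 * (q.o2 * q.o3) ^ 2 := by
    nlinarith [sq_nonneg (q.a * q.o1 + 10 * (q.o2 * q.o3))]
  have e2 : A2 ^ 2 ≤ 11 / 10 * (q.b * q.o2) ^ 2 + 11 * (q.o1 * q.o3) ^ 2 := by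
    nlinarith [sq_nonneg (q.b * q.o2 + 10 * (q.o1 * q.o3))]
  have e3 : A3 ^ 2 ≤ 11 / 10 * (q.c * q.o3) ^ 2 + 11 * (q.o1 * q.o2) ^ 2 := by
    nlinarith [sq_nonneg (q.c * q.o3 + 10 * (q.o1 * q.o2))]
  have f1 := mul_le_mul_of_nonneg_left e1 (mul_nonneg hb.le hc.le)
  have f2 := mul_le_mul_of_nonneg_left e2 (mul_nonneg ha.le hc.le)
  have f3 := mul_le_mul_of_nonneg_left e3 (mul_nonneg ha.le hb.le)
  have hp := prod2 (x := q.a * q.o1 ^ 2) (y := q.b * q.o2 ^ 2) (z := q.c * q.o3 ^ 2)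
  have hp' : 3 * (q.a * q.o1 ^ 2 * (q.b * q.o2 ^ 2) + q.a * q.o1 ^ 2 * (q.c * q.o3 ^ 2)
      + q.b * q.o2 ^ 2 * (q.c * q.o3 ^ 2)) ≤ q.W ^ 2 := hp
  have g1 : q.b * q.c * A1 ^ 2 + q.a * q.c * A2 ^ 2 + q.a * q.b * A3 ^ 2 ≤
      11 / 10 * (q.a * q.b * q.c) * q.W + 11 / 3 * q.W ^ 2 := by
    have hWd : q.W = q.a * q.o1 ^ 2 + q.b * q.o2 ^ 2 + q.c * q.o3 ^ 2 := rfl
    have g0 : q.b * q.c * (11 / 10 * (q.a * q.o1) ^ 2 + 11 * (q.o2 * q.o3) ^ 2)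
        + q.a * q.c * (11 / 10 * (q.b * q.o2) ^ 2 + 11 * (q.o1 * q.o3) ^ 2)
        + q.a * q.b * (11 / 10 * (q.c * q.o3) ^ 2 + 11 * (q.o1 * q.o2) ^ 2)
        = 11 / 10 * (q.a * q.b * q.c) * q.W
          + 11 * (q.a * q.o1 ^ 2 * (q.b * q.o2 ^ 2) + q.a * q.o1 ^ 2 * (q.c * q.o3 ^ 2)
            + q.b * q.o2 ^ 2 * (q.c * q.o3 ^ 2)) := by
      rw [hWd]; ring
    linarith
  have g2 : q.W ^ 2 ≤ (q.a * q.b * q.c / 200) ^ 2 := by
    apply pow_le_pow_left₀ hW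
    linarith
  have g3 : (q.a * q.b * q.c) * q.W ≤ (q.a * q.b * q.c) * (q.a * q.b * q.c / 200) := by
    apply mul_le_mul_of_nonneg_left _ h0.le
    linarith
  have g4 : q.b * q.c * A1 ^ 2 + q.a * q.c * A2 ^ 2 + q.a * q.b * A3 ^ 2 ≤
      56 / 10000 * (q.a * q.b * q.c) ^ 2 := by nlinarith [sq_nonneg (q.a * q.b * q.c)]
  have g5 : (497 / 500 * (q.a * q.b * q.c)) ^ 2 ≤ q.dt ^ 2 := by
    apply pow_le_pow_left₀ (by positivity) hlo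
  have g6 : q.b * q.c * A1 ^ 2 + q.a * q.c * A2 ^ 2 + q.a * q.b * A3 ^ 2 ≤
      57 / 10000 * q.dt ^ 2 := by nlinarith [sq_nonneg (q.a * q.b * q.c)]
  have hk : q.a * (q.b * q.c * (A1 / q.dt)) ^ 2 + q.b * (q.a * q.c * (A2 / q.dt)) ^ 2
      + q.c * (q.a * q.b * (A3 / q.dt)) ^ 2 ≤ 57 / 10000 * (q.a * q.b * q.c) := by
    have hr : q.a * (q.b * q.c * (A1 / q.dt)) ^ 2 + q.b * (q.a * q.c * (A2 / q.dt)) ^ 2
      + q.c * (q.a * q.b * (A3 / q.dt)) ^ 2 = (q.a * q.b * q.c) *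
        ((q.b * q.c * A1 ^ 2 + q.a * q.c * A2 ^ 2 + q.a * q.b * A3 ^ 2) / q.dt ^ 2) := by
      field_simp
    have hs : (q.b * q.c * A1 ^ 2 + q.a * q.c * A2 ^ 2 + q.a * q.b * A3 ^ 2) / q.dt ^ 2 ≤
        57 / 10000 := by
      rw [div_le_iff₀ (by positivity)]
      exact g6
    rw [hr]
    have := mul_le_mul_of_nonneg_left hs h0.le
    linarith
  have hcs := cs (o1 := q.b * q.c * (A1 / q.dt)) (o2 := q.a * q.c * (A2 / q.dt))
    (o3 := q.a * q.b * (A3 / q.dt)) ha hb hc hk ((w1 y : ℝ) / q.a) ((w2 y : ℝ) / q.b)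
    ((w3 y : ℝ) / q.c)
  have hE : q.a * ((w1 y : ℝ) / q.a) ^ 2 + q.b * ((w2 y : ℝ) / q.b) ^ 2
      + q.c * ((w3 y : ℝ) / q.c) ^ 2 =
      (w1 y : ℝ) ^ 2 / q.a + (w2 y : ℝ) ^ 2 / q.b + (w3 y : ℝ) ^ 2 / q.c := by
    field_simp
  have hK : q.a * q.b * (A3 / q.dt) * ((w1 y : ℝ) / q.a) * ((w2 y : ℝ) / q.b)
      + q.a * q.c * (A2 / q.dt) * ((w1 y : ℝ) / q.a) * ((w3 y : ℝ) / q.c)
      + q.b * q.c * (A1 / q.dt) * ((w2 y : ℝ) / q.b) * ((w3 y : ℝ) / q.c) = q.inv.Ky y / 2 := by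
    show _ = 2 * (A3 / q.dt * (w1 y : ℝ) * (w2 y : ℝ) + A2 / q.dt * (w1 y : ℝ) * (w3 y : ℝ)
      + A1 / q.dt * (w2 y : ℝ) * (w3 y : ℝ)) / 2
    field_simp
  rw [hE, hK] at hcs
  have hE0 : 0 ≤ (w1 y : ℝ) ^ 2 / q.a + (w2 y : ℝ) ^ 2 / q.b + (w3 y : ℝ) ^ 2 / q.c := by
    positivity
  apply abs_le_of_sq (by positivity)
  nlinarith [sq_nonneg ((w1 y : ℝ) ^ 2 / q.a + (w2 y : ℝ) ^ 2 / q.b + (w3 y : ℝ) ^ 2 / q.c)]

end Pool.Agent.Lib.EPT
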