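import Pool.Agent.Lib.EPT.BoxDefs

/-!
# The first two conditions on a box

PROOF.  `chi_box`: `chi ≤ 2 (W + 3|pp|)/d0` (`Reg.chi_le`), `d0 ≥ (199/200) a b` (`Reg.d0_lo`),
`W = a o1² + b o2² + c o3²`; so `chi ≤ 2r (o1²/b + o2²/a + c o3²/(ab)) + 6 r |pp|/(ab)`, `r = 200/199`.
`S2_box`: `Reg.S2_le`.  `ed_anti`: `(y - 1) e^(-y)` is nonincreasing for `y ≥ 2`.
`boxA`: with `2 a (33/10) ≥ 2 a0 (33/10) ≥ 2`, `(3 - c)(33/10) ≥ (3 - c1)(33/10) ≥ 2`, `S2/4 ≤ S2m/4`,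
`chi S2/4 (171/16 e^(3/8)) ≤ chi FA ≤ (ch1 o1² + ... + chp |pp|) FA`, the expression is at least
`o1² (2 - 2 eA - 18 eB - ch1 FA) + ... - CA |pp|`, and `|pp| ≤ w1 a1 o1² + w2 b1 o2² + w3 c1 o3²`.
`boxB`: multiply by `e^(9/2)`: `e^(9/2) Nn (9/2) ≤ N1` (`a + c = 4 - b ≥ 4 - b1`, `b + c ≥ 4 - a1`,
`11/3 - 1 = 8/3`, `e^(9/2) e^(-(11/12)(9/2)) = e^(3/8)`), `-3 t1² pp ≥ -3 t1² |pp|`.
-/

namespace Pool.Agent.Lib.EPT

variable {B : Bx} {q : Par}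

theorem chi_box (h : Reg q) (hB : InB B q) :
    q.chi ≤ B.ch1 * q.o1 ^ 2 + B.ch2 * q.o2 ^ 2 + B.ch3 * q.o3 ^ 2 + B.chp * |q.pp| := by
  obtain ⟨ha, hb, hc⟩ := BndAux.pos_of h
  have ha0 : 0 < B.a0 := by have := hB.ha; linarith
  have hb0 : 0 < B.b0 := by have := hB.hb; linarith
  have hab : 0 < q.a * q.b := by positivity
  have h1 := h.chi_le
  have h2 := h.d0_lo
  have hW := h.W_nn
  have hp := abs_nonneg q.pp
  have h3 : 2 * (q.W + 3 * |q.pp|) / q.d0 ≤ 2 * (q.W + 3 * |q.pp|) / (199 / 200 * (q.a * q.b)) := by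
    apply div_le_div_of_nonneg_left _ (by positivity) h2
    linarith
  have h4 : 2 * (q.W + 3 * |q.pp|) / (199 / 200 * (q.a * q.b)) =
      2 * (200 / 199) * q.o1 ^ 2 * (1 / q.b) + 2 * (200 / 199) * q.o2 ^ 2 * (1 / q.a)
        + 2 * (200 / 199) * q.o3 ^ 2 * (q.c * (1 / q.a * (1 / q.b)))
        + 6 * (200 / 199) * |q.pp| * (1 / q.a * (1 / q.b)) := by
    unfold Par.W
    field_simp
    ring
  have ia : 1 / q.a ≤ 1 / B.a0 := one_div_le_one_div_of_le ha0 hB.a0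
  have ib : 1 / q.b ≤ 1 / B.b0 := one_div_le_one_div_of_le hb0 hB.b0
  have iab : 1 / q.a * (1 / q.b) ≤ 1 / B.a0 * (1 / B.b0) :=
    mul_le_mul ia ib (by positivity) (by positivity)
  have ic : q.c * (1 / q.a * (1 / q.b)) ≤ B.c1 * (1 / B.a0 * (1 / B.b0)) :=
    mul_le_mul hB.c1 iab (by positivity) (hc.le.trans hB.c1)
  have g1 : 2 * (200 / 199) * q.o1 ^ 2 * (1 / q.b) ≤ 2 * (200 / 199) * q.o1 ^ 2 * (1 / B.b0) :=
    mul_le_mul_of_nonneg_left ib (by positivity)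
  have g2 : 2 * (200 / 199) * q.o2 ^ 2 * (1 / q.a) ≤ 2 * (200 / 199) * q.o2 ^ 2 * (1 / B.a0) :=
    mul_le_mul_of_nonneg_left ia (by positivity)
  have g3 : 2 * (200 / 199) * q.o3 ^ 2 * (q.c * (1 / q.a * (1 / q.b))) ≤
      2 * (200 / 199) * q.o3 ^ 2 * (B.c1 * (1 / B.a0 * (1 / B.b0))) :=
    mul_le_mul_of_nonneg_left ic (by positivity)
  have g4 : 6 * (200 / 199) * |q.pp| * (1 / q.a * (1 / q.b)) ≤
      6 * (200 / 199) * |q.pp| * (1 / B.a0 * (1 / B.b0)) :=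
    mul_le_mul_of_nonneg_left iab (by positivity)
  have e : B.ch1 * q.o1 ^ 2 + B.ch2 * q.o2 ^ 2 + B.ch3 * q.o3 ^ 2 + B.chp * |q.pp| =
      2 * (200 / 199) * q.o1 ^ 2 * (1 / B.b0) + 2 * (200 / 199) * q.o2 ^ 2 * (1 / B.a0)
        + 2 * (200 / 199) * q.o3 ^ 2 * (B.c1 * (1 / B.a0 * (1 / B.b0)))
        + 6 * (200 / 199) * |q.pp| * (1 / B.a0 * (1 / B.b0)) := by
    unfold Bx.ch1 Bx.ch2 Bx.ch3 Bx.chp
    field_simp
  rw [e]
  linarith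

theorem S2_box (h : Reg q) (hB : InB B q) : q.S2 ≤ B.S2m := by
  obtain ⟨ha, hb, hc⟩ := BndAux.pos_of h
  have h1 := h.S2_le
  have h2 : q.b * q.c ≤ B.b1 * B.c1 := mul_le_mul hB.b1 hB.c1 hc.le (hb.le.trans hB.b1)
  unfold Bx.S2m
  linarith

theorem ed_anti {y z : ℝ} (hy : 2 ≤ y) (hz : y ≤ z) :
    (z - 1) * Real.exp (-z) ≤ (y - 1) * Real.exp (-y) := by
  have h1 : z - y + 1 ≤ Real.exp (z - y) := Real.add_one_le_exp _
  have h2 : z - 1 ≤ (y - 1) * Real.exp (z - y) := by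
    have h3 : (y - 1) * (z - y + 1) ≤ (y - 1) * Real.exp (z - y) :=
      mul_le_mul_of_nonneg_left h1 (by linarith)
    have h4 : z - 1 ≤ (y - 1) * (z - y + 1) := by nlinarith
    linarith
  have h5 : Real.exp (-y) = Real.exp (z - y) * Real.exp (-z) := by
    rw [← Real.exp_add]
    congr 1
    ring
  rw [h5, ← mul_assoc]
  exact mul_le_mul_of_nonneg_right h2 (Real.exp_pos _).le

private theorem ppw_box (hB : InB B q) {w1 w2 w3 : ℝ} (n1 : 0 ≤ w1) (n2 : 0 ≤ w2)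
    (n3 : 0 ≤ w3)
    (hw : |q.pp| ≤ w1 * (q.a * q.o1 ^ 2) + w2 * (q.b * q.o2 ^ 2) + w3 * (q.c * q.o3 ^ 2)) :
    |q.pp| ≤ w1 * B.a1 * q.o1 ^ 2 + w2 * B.b1 * q.o2 ^ 2 + w3 * B.c1 * q.o3 ^ 2 := by
  have e1 : w1 * (q.a * q.o1 ^ 2) ≤ w1 * B.a1 * q.o1 ^ 2 := by
    rw [mul_assoc]
    exact mul_le_mul_of_nonneg_left (mul_le_mul_of_nonneg_right hB.a1 (sq_nonneg _)) n1
  have e2 : w2 * (q.b * q.o2 ^ 2) ≤ w2 * B.b1 * q.o2 ^ 2 := by
    rw [mul_assoc]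
    exact mul_le_mul_of_nonneg_left (mul_le_mul_of_nonneg_right hB.b1 (sq_nonneg _)) n2
  have e3 : w3 * (q.c * q.o3 ^ 2) ≤ w3 * B.c1 * q.o3 ^ 2 := by
    rw [mul_assoc]
    exact mul_le_mul_of_nonneg_left (mul_le_mul_of_nonneg_right hB.c1 (sq_nonneg _)) n3
  linarith

private theorem chp_nn (hB : InB B q) : 0 ≤ B.chp := by
  have ha0 : 0 < B.a0 := by have := hB.ha; linarith
  have hb0 : 0 < B.b0 := by have := hB.hb; linarith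
  unfold Bx.chp
  positivity

theorem boxA (h : Reg q) (hB : InB B q) {w1 w2 w3 : ℝ} (n1 : 0 ≤ w1) (n2 : 0 ≤ w2) (n3 : 0 ≤ w3)
    (hw : |q.pp| ≤ w1 * (q.a * q.o1 ^ 2) + w2 * (q.b * q.o2 ^ 2) + w3 * (q.c * q.o3 ^ 2))
    (hA : B.condA w1 w2 w3) :
    0 ≤ 2 * q.S2 - 27 * |q.pp|
      - 16 * q.o3 ^ 2 * (((3 - q.c) * (33 / 10) - 1) * Real.exp (-((3 - q.c) * (33 / 10))))
      - (2 * q.o1 ^ 2 + 18 * (q.o2 ^ 2 + q.o3 ^ 2))
        * ((2 * q.a * (33 / 10) - 1) * Real.exp (-(2 * q.a * (33 / 10))))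
      - (2 * q.o2 ^ 2 + 18 * (q.o1 ^ 2 + q.o3 ^ 2))
        * ((2 * q.b * (33 / 10) - 1) * Real.exp (-(2 * q.b * (33 / 10))))
      - q.chi * q.S2 / 4 * (171 / 16 * Real.exp (3 / 8)) := by
  have hpw := ppw_box hB n1 n2 n3 hw
  have hchi := chi_box h hB
  have hchi0 := h.chi_nn
  have hS := S2_box h hB
  have hS0 : 0 ≤ q.S2 := by unfold Par.S2; positivity
  have hp := abs_nonneg q.pp
  have ha0 := hB.ha
  have hb0 := hB.hb
  have eA : (2 * q.a * (33 / 10) - 1) * Real.exp (-(2 * q.a * (33 / 10))) ≤ B.eA := by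
    unfold Bx.eA
    apply ed_anti
    · linarith
    · have := hB.a0; linarith
  have eB : (2 * q.b * (33 / 10) - 1) * Real.exp (-(2 * q.b * (33 / 10))) ≤ B.eB := by
    unfold Bx.eB
    apply ed_anti
    · linarith
    · have := hB.b0; linarith
  have eC : ((3 - q.c) * (33 / 10) - 1) * Real.exp (-((3 - q.c) * (33 / 10))) ≤ B.eC := by
    unfold Bx.eC
    apply ed_anti
    · have := hB.hc1; linarith
    · have := hB.c1; linarith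
  have f1 := mul_le_mul_of_nonneg_left eC (show 0 ≤ 16 * q.o3 ^ 2 by positivity)
  have f2 := mul_le_mul_of_nonneg_left eA
    (show 0 ≤ 2 * q.o1 ^ 2 + 18 * (q.o2 ^ 2 + q.o3 ^ 2) by positivity)
  have f3 := mul_le_mul_of_nonneg_left eB
    (show 0 ≤ 2 * q.o2 ^ 2 + 18 * (q.o1 ^ 2 + q.o3 ^ 2) by positivity)
  have hFA : 0 ≤ B.FA := by
    unfold Bx.FA
    have : 0 ≤ B.S2m := hS0.trans hS
    positivity
  have f4 : q.chi * q.S2 / 4 * (171 / 16 * Real.exp (3 / 8)) ≤ q.chi * B.FA := by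
    unfold Bx.FA
    have g1 : q.S2 / 4 * (171 / 16 * Real.exp (3 / 8)) ≤ B.S2m / 4 * (171 / 16 * Real.exp (3 / 8)) := by
      apply mul_le_mul_of_nonneg_right _ (by positivity)
      linarith
    have g2 := mul_le_mul_of_nonneg_left g1 hchi0
    calc q.chi * q.S2 / 4 * (171 / 16 * Real.exp (3 / 8))
        = q.chi * (q.S2 / 4 * (171 / 16 * Real.exp (3 / 8))) := by ring
      _ ≤ _ := g2
  have f5 := mul_le_mul_of_nonneg_right hchi hFA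
  have hCA : 0 ≤ B.CA := by
    unfold Bx.CA
    have := mul_nonneg (chp_nn hB) hFA
    linarith
  have f6 := mul_le_mul_of_nonneg_left hpw hCA
  have k1 := mul_le_mul_of_nonneg_right hA.k1 (sq_nonneg q.o1)
  have k2 := mul_le_mul_of_nonneg_right hA.k2 (sq_nonneg q.o2)
  have k3 := mul_le_mul_of_nonneg_right hA.k3 (sq_nonneg q.o3)
  have e7 : B.CA * |q.pp| = 27 * |q.pp| + B.chp * B.FA * |q.pp| := by
    unfold Bx.CA; ring
  rw [e7] at f6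
  have e8 : q.S2 = q.o1 ^ 2 + q.o2 ^ 2 + q.o3 ^ 2 := rfl
  have k : B.ch1 * B.FA * q.o1 ^ 2 + 2 * B.eA * q.o1 ^ 2 + 18 * B.eB * q.o1 ^ 2
      + B.ch2 * B.FA * q.o2 ^ 2 + 18 * B.eA * q.o2 ^ 2 + 2 * B.eB * q.o2 ^ 2
      + B.ch3 * B.FA * q.o3 ^ 2 + 16 * B.eC * q.o3 ^ 2 + 18 * B.eA * q.o3 ^ 2
      + 18 * B.eB * q.o3 ^ 2
      + B.CA * (w1 * B.a1 * q.o1 ^ 2 + w2 * B.b1 * q.o2 ^ 2 + w3 * B.c1 * q.o3 ^ 2) ≤
      2 * (q.o1 ^ 2 + q.o2 ^ 2 + q.o3 ^ 2) := by linarith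
  have k' : 16 * q.o3 ^ 2 * B.eC + (2 * q.o1 ^ 2 + 18 * (q.o2 ^ 2 + q.o3 ^ 2)) * B.eA
      + (2 * q.o2 ^ 2 + 18 * (q.o1 ^ 2 + q.o3 ^ 2)) * B.eB
      + (B.ch1 * q.o1 ^ 2 + B.ch2 * q.o2 ^ 2 + B.ch3 * q.o3 ^ 2 + B.chp * |q.pp|) * B.FA
      + 27 * |q.pp| ≤ 2 * q.S2 := by
    rw [e8]
    linarith
  linarith

private theorem ex_box {x y : ℝ} (h : y + 9 / 2 ≤ x) :
    Real.exp (-x) ≤ Real.exp (-y) * Real.exp (-(9 / 2)) := by
  rw [← Real.exp_add]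
  apply Real.exp_le_exp.2
  linarith

private theorem Nn_box (h : Reg q) (hB : InB B q) : q.Nn (9 / 2) ≤ B.N1 * Real.exp (-(9 / 2)) := by
  have hS := S2_box h hB
  have hS0 : 0 ≤ q.S2 := by unfold Par.S2; positivity
  have hs := h.sum
  have ha0 := hB.a0
  have hb0 := hB.b0
  have hc0 := hB.c0
  have ha1 := hB.a1
  have hb1 := hB.b1
  have t1 : (9 / 2 : ℝ) ^ 2 * q.S2 / 4 * Real.exp (-(11 / 12 * (9 / 2))) ≤
      (9 / 2) ^ 2 * B.S2m / 4 * Real.exp (3 / 8) * Real.exp (-(9 / 2)) := by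
    have e : Real.exp (-(11 / 12 * (9 / 2))) = Real.exp (3 / 8) * Real.exp (-(9 / 2)) := by
      rw [← Real.exp_add]
      norm_num
    rw [e, mul_assoc ((9 / 2) ^ 2 * B.S2m / 4)]
    apply mul_le_mul_of_nonneg_right _ (by positivity)
    linarith
  have t2 : Real.exp (-(q.c * (9 / 2))) ≤ Real.exp (-((B.c0 - 1) * (9 / 2))) * Real.exp (-(9 / 2)) :=
    ex_box (by linarith)
  have t3 : Real.exp (-(11 / 12 * (q.a + q.c) * (9 / 2))) ≤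
      Real.exp (-((11 / 12 * (4 - B.b1) - 1) * (9 / 2))) * Real.exp (-(9 / 2)) :=
    ex_box (by linarith)
  have t4 : Real.exp (-(11 / 12 * (q.b + q.c) * (9 / 2))) ≤
      Real.exp (-((11 / 12 * (4 - B.a1) - 1) * (9 / 2))) * Real.exp (-(9 / 2)) :=
    ex_box (by linarith)
  have t5 : Real.exp (-(11 / 3 * (9 / 2))) ≤
      Real.exp (-(8 / 3 * (9 / 2))) * Real.exp (-(9 / 2)) := ex_box (by norm_num)
  have t6 : Real.exp (-(11 / 12 * (1 + 2 * q.a) * (9 / 2))) ≤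
      Real.exp (-((11 / 12 * (1 + 2 * B.a0) - 1) * (9 / 2))) * Real.exp (-(9 / 2)) :=
    ex_box (by linarith)
  have t7 : Real.exp (-(11 / 12 * (1 + 2 * q.b) * (9 / 2))) ≤
      Real.exp (-((11 / 12 * (1 + 2 * B.b0) - 1) * (9 / 2))) * Real.exp (-(9 / 2)) :=
    ex_box (by linarith)
  have t8 : Real.exp (-(11 / 12 * (1 + 2 * q.c) * (9 / 2))) ≤
      Real.exp (-((11 / 12 * (1 + 2 * B.c0) - 1) * (9 / 2))) * Real.exp (-(9 / 2)) :=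
    ex_box (by linarith)
  unfold Par.Nn Bx.N1
  simp only [add_mul]
  linarith

theorem boxB (h : Reg q) (hB : InB B q) {w1 w2 w3 : ℝ} (n1 : 0 ≤ w1) (n2 : 0 ≤ w2) (n3 : 0 ≤ w3)
    (hw : |q.pp| ≤ w1 * (q.a * q.o1 ^ 2) + w2 * (q.b * q.o2 ^ 2) + w3 * (q.c * q.o3 ^ 2))
    (hb : B.condB w1 w2 w3) :
    0 ≤ (2 * (9 / 2) * q.S2 - 3 * (9 / 2) ^ 2 * q.pp) * Real.exp (-(9 / 2))
      - q.chi * q.Nn (9 / 2) := by
  have hpw := ppw_box hB n1 n2 n3 hw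
  have hchi := chi_box h hB
  have hchi0 := h.chi_nn
  have hS := S2_box h hB
  have hS0 : 0 ≤ q.S2 := by unfold Par.S2; positivity
  have hp := abs_nonneg q.pp
  have hN := Nn_box h hB
  have hN1 : 0 ≤ B.N1 := by
    have : 0 ≤ B.S2m := hS0.trans hS
    unfold Bx.N1
    positivity
  have f5 := mul_le_mul_of_nonneg_right hchi hN1
  have hCB : 0 ≤ B.CB := by
    unfold Bx.CB
    have := mul_nonneg (chp_nn hB) hN1
    linarith
  have f6 := mul_le_mul_of_nonneg_left hpw hCB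
  have k1 := mul_le_mul_of_nonneg_right hb.k1 (sq_nonneg q.o1)
  have k2 := mul_le_mul_of_nonneg_right hb.k2 (sq_nonneg q.o2)
  have k3 := mul_le_mul_of_nonneg_right hb.k3 (sq_nonneg q.o3)
  have e7 : B.CB * |q.pp| = 3 * (9 / 2) ^ 2 * |q.pp| + B.chp * B.N1 * |q.pp| := by
    unfold Bx.CB; ring
  rw [e7] at f6
  have e8 : q.S2 = q.o1 ^ 2 + q.o2 ^ 2 + q.o3 ^ 2 := rfl
  have hle := le_abs_self q.pp
  have key : 0 ≤ 2 * (9 / 2) * q.S2 - 3 * (9 / 2) ^ 2 * q.pp - q.chi * B.N1 := by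
    rw [e8]
    linarith [f5, f6, k1, k2, k3, hle]
  have g1 := mul_le_mul_of_nonneg_left hN hchi0
  have g2 := mul_nonneg key (Real.exp_pos (-(9 / 2))).le
  have g3 : (2 * (9 / 2) * q.S2 - 3 * (9 / 2) ^ 2 * q.pp - q.chi * B.N1) * Real.exp (-(9 / 2)) =
    (2 * (9 / 2) * q.S2 - 3 * (9 / 2) ^ 2 * q.pp) * Real.exp (-(9 / 2))
      - q.chi * (B.N1 * Real.exp (-(9 / 2))) := by ring
  rw [g3] at g2
  linarith

end Pool.Agent.Lib.EPT
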