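import Pool.Agent.Lib.EPT.BoxD1

/-!
# The dual side on a box

PROOF.  `Lw = Lc - La - Lr`, insert the eight lemmas of BoxD1 and expand the lists (`Bx.L1`, ..., `List.map_append`,
`List.sum_append`, `simp [FF, Bx.tc, Bx.tr, Bx.ta, Bx.tv]`); both sides agree term by term (the entries are
`2 m/dn`, the factors `q.o1^2` etc. distribute), so `linarith` or `ring_nf` after generalising the
exponentials (`set E1 := Real.exp (-(37/40 * xx * B.l1 * v))`, ...).
`L_nonneg`: all entries are nonnegative with positive exponents; the weights `rcb - 2`, `rca - 2` are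
nonnegative because `c1 ≥ c ≥ b ≥ b0`, `c1 ≥ a0`.
-/

namespace Pool.Agent.Lib.EPT

variable {B : Bx} {q : Par}

namespace BoxDAux

/-- entries with nonnegative mass and positive exponent -/
def ok (l : List (ℝ × Bool × ℝ)) : Prop := ∀ p ∈ l, 0 ≤ p.1 ∧ 0 < p.2.2

lemma ok_app {l m : List (ℝ × Bool × ℝ)} (hl : ok l) (hm : ok m) : ok (l ++ m) := by
  intro p hp
  rcases List.mem_append.1 hp with h | h
  · exact hl p h
  · exact hm p h

lemma ok_cons {x : ℝ × Bool × ℝ} {l : List (ℝ × Bool × ℝ)} (hx : 0 ≤ x.1 ∧ 0 < x.2.2)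
    (hl : ok l) : ok (x :: l) := by
  intro p hp
  rcases List.mem_cons.1 hp with h | h
  · rw [h]; exact hx
  · exact hl p h

lemma ok_nil : ok [] := fun p hp => absurd hp (by simp)

lemma xxp : 0 < Bx.xx := by
  have := xx_bd.1
  linarith

structure Ps (B : Bx) : Prop where
  a0 : 0 < B.a0
  b0 : 0 < B.b0
  c0 : 0 < B.c0
  a1 : 0 < B.a1
  b1 : 0 < B.b1
  c1 : 0 < B.c1

lemma ps (hB : InB B q) : Ps B := by
  have h1 := hB.ha
  have h2 := hB.hb
  have h3 := hB.hc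
  have h4 := hB.a0
  have h5 := hB.a1
  have h6 := hB.b0
  have h7 := hB.b1
  have h8 := hB.c0
  have h9 := hB.c1
  exact ⟨by linarith, by linarith, by linarith, by linarith, by linarith, by linarith⟩

lemma ok_tc (hp : Ps B) {m l : ℝ} (hm : 0 ≤ m) (hl : 0 < l) : ok (B.tc m l) := by
  have hx := xxp
  obtain ⟨a0, b0, c0, a1, b1, c1⟩ := hp
  have hdn : 0 < B.dn := by unfold Bx.dn; positivity
  unfold Bx.tc
  refine ok_cons ⟨by positivity, by positivity⟩ (ok_cons ⟨by positivity, by positivity⟩ ok_nil)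

lemma ok_ta (hp : Ps B) {m n : ℝ} (hm : 0 ≤ m) (hn : 0 ≤ n) : ok (B.ta m n) := by
  have hx := xxp
  obtain ⟨a0, b0, c0, a1, b1, c1⟩ := hp
  have hdn : 0 < B.dn := by unfold Bx.dn; positivity
  unfold Bx.ta
  refine ok_cons ⟨by positivity, by positivity⟩ (ok_cons ⟨by positivity, by positivity⟩ ok_nil)

lemma l_pos (hp : Ps B) : 0 < B.l1 ∧ 0 < B.l2 ∧ 0 < B.l3 := by
  obtain ⟨a0, b0, c0, a1, b1, c1⟩ := hp
  unfold Bx.l1 Bx.l2 Bx.l3
  exact ⟨by positivity, by positivity, by positivity⟩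

lemma ok_tr (hp : Ps B) {w : ℝ} (hw : 0 ≤ w) : ok (B.tr w) := by
  have hx := xxp
  obtain ⟨l1, l2, l3⟩ := l_pos hp
  obtain ⟨a0, b0, c0, a1, b1, c1⟩ := hp
  have hn : 0 < B.nu := by unfold Bx.nu; positivity
  unfold Bx.tr
  refine ok_cons ⟨by positivity, by positivity⟩ (ok_cons ⟨by positivity, by positivity⟩
    (ok_cons ⟨by positivity, by positivity⟩ ok_nil))

lemma ok_tv (hp : Ps B) {m l : ℝ} (hm : 0 ≤ m) (hl : 0 < l) :
    0 ≤ (B.tv m l).1 ∧ 0 < (B.tv m l).2.2 := by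
  have hx := xxp
  obtain ⟨a0, b0, c0, a1, b1, c1⟩ := hp
  have hdn : 0 < B.dn := by unfold Bx.dn; positivity
  unfold Bx.tv
  exact ⟨by positivity, by positivity⟩

lemma wr_nn (hp : Ps B) {w : ℝ} (hw : 0 ≤ w) : 0 ≤ B.wr w := by
  obtain ⟨a0, b0, c0, a1, b1, c1⟩ := hp
  unfold Bx.wr
  positivity

lemma rr (h : Reg q) (hB : InB B q) : 0 ≤ B.rab ∧ 0 ≤ B.rba ∧ 0 ≤ B.rcb - 2 ∧ 0 ≤ B.rca - 2 := by
  have hp := ps hB
  obtain ⟨a0, b0, c0, a1, b1, c1⟩ := hp
  refine ⟨by unfold Bx.rab; positivity, by unfold Bx.rba; positivity, ?_, ?_⟩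
  · have : 2 ≤ B.rcb := by
      unfold Bx.rcb
      rw [le_div_iff₀ b0]
      have := h.hbc
      have h1 := hB.b0
      have h2 := hB.c1
      linarith
    linarith
  · have : 2 ≤ B.rca := by
      unfold Bx.rca
      rw [le_div_iff₀ a0]
      have := h.hbc
      have := h.hab
      have h1 := hB.a0
      have h2 := hB.c1
      linarith
    linarith

lemma gl_nn (hp : Ps B) : 0 ≤ B.gl := by
  obtain ⟨a0, b0, c0, a1, b1, c1⟩ := hp
  unfold Bx.gl
  exact le_min (by norm_num) (by positivity)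

end BoxDAux

open BoxDAux

theorem L_nonneg (h : Reg q) (hB : InB B q) :
    (∀ p ∈ B.L1, 0 ≤ p.1 ∧ 0 < p.2.2) ∧ (∀ p ∈ B.L2, 0 ≤ p.1 ∧ 0 < p.2.2) ∧
      (∀ p ∈ B.L3, 0 ≤ p.1 ∧ 0 < p.2.2) ∧ ∀ p ∈ B.Lp, 0 ≤ p.1 ∧ 0 < p.2.2 := by
  have hp := ps hB
  obtain ⟨r1, r2, r3, r4⟩ := rr h hB
  obtain ⟨l1, l2, l3⟩ := l_pos hp
  have g := gl_nn hp
  have a0 := hp.a0
  have b0 := hp.b0
  have c0 := hp.c0
  have a1 := hp.a1
  have b1 := hp.b1
  have c1 := hp.c1
  refine ⟨?_, ?_, ?_, ?_⟩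
  · show ok B.L1
    unfold Bx.L1
    exact ok_app (ok_app (ok_app (ok_app (ok_app (ok_tc hp r1 l1) (ok_tc hp (by norm_num) l2))
      (ok_tc hp (by positivity) l3)) (ok_ta hp (by norm_num) r1)) (ok_tr hp (wr_nn hp a1.le)))
      (ok_cons (ok_tv hp (by positivity) l1) (ok_cons (ok_tv hp (by positivity) l2)
        (ok_cons (ok_tv hp (by positivity) l3) ok_nil)))
  · show ok B.L2
    unfold Bx.L2
    exact ok_app (ok_app (ok_app (ok_app (ok_app (ok_tc hp (by norm_num) l1) (ok_tc hp r2 l2))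
      (ok_tc hp (by positivity) l3)) (ok_ta hp r2 (by norm_num))) (ok_tr hp (wr_nn hp b1.le)))
      (ok_cons (ok_tv hp (by positivity) l2) (ok_cons (ok_tv hp (by positivity) l1)
        (ok_cons (ok_tv hp (by positivity) l3) ok_nil)))
  · show ok B.L3
    unfold Bx.L3
    exact ok_app (ok_app (ok_app (ok_app (ok_app (ok_tc hp r3 l1) (ok_tc hp r4 l2))
      (ok_tc hp (by linarith) l3)) (ok_ta hp (by linarith) (by linarith)))
      (ok_tr hp (wr_nn hp c1.le)))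
      (ok_cons (ok_tv hp (by positivity) l3) ok_nil)
  · show ok B.Lp
    unfold Bx.Lp
    exact ok_app (ok_app (ok_app (ok_app (ok_tc hp (by positivity) l1)
      (ok_tc hp (by positivity) l2)) (ok_tc hp (by positivity) l3))
      (ok_ta hp (by positivity) (by positivity))) (ok_tr hp (wr_nn hp (by norm_num)))

theorem boxD (h : Reg q) (hB : InB B q) {v : ℝ} (hv : 1 ≤ v) :
    q.o1 ^ 2 * FF B.A1 B.x1 B.L1 v + q.o2 ^ 2 * FF B.A2 B.x2 B.L2 v
      + q.o3 ^ 2 * FF B.A3 B.x3 B.L3 v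
      - |q.pp| * (B.Lp.map fun p => p.1 * Real.exp (-(p.2.2 * v))).sum ≤ q.Lw (Bx.xx * v) := by
  have s1 := cs1_box h hB hv
  have s2 := cs2_box h hB hv
  have s3 := cs3_box h hB hv
  have c1 := cb1_box h hB hv
  have c2 := cb2_box h hB hv
  have c3 := cb3_box h hB hv
  have l1 := la_box h hB hv
  have l2 := lr_box h hB hv
  unfold Par.Lw Par.Lc
  refine le_trans (le_of_eq ?_) (sub_le_sub (sub_le_sub (add_le_add (sub_le_sub (add_le_add
    (sub_le_sub (add_le_add (neg_le_neg c1) s1) c2) s2) c3) s3) l1) l2)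
  unfold FF Bx.L1 Bx.L2 Bx.L3 Bx.Lp
  simp only [Bx.tc, Bx.ta, Bx.tr, Bx.tv, List.map_append, List.sum_append, List.map_cons,
    List.map_nil, List.sum_cons, List.sum_nil, TC, if_true, Bool.false_eq_true, if_false]
  ring

end Pool.Agent.Lib.EPT
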