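import Pool.Agent.Lib.EPT.BoxA

/-!
# The dual side on a box: the pieces

PROOF.  Notation `r = 200/199`, `x = xx = π²/(33/10) > 0`, `v ≥ 1`, `dn ≤ dt ≤ dx`
(`Reg.dt_lo`, `Reg.dt_hi`; `abc ≤ 64/27` by AM-GM from `a + b + c = 4`), `l_k ≤ e_k ≤ h_k`.
`chi ≤ 2 r (W + 3|pp|)/(ab)` (`Reg.chi_le`, `Reg.d0_lo`), so
 `chi a ≤ 2r (a o1² + b o2² + c o3² + 3|pp|)/b`, `chi b ≤ 2r (a o1² + b o2² + c o3² + 3|pp|)/a`;
 `m1 = chi a - 2 o2² - 2 o3² ≤ rab o1² + (2r - 2) o2² + (rcb - 2) o3² + 6r |pp|/b0`, `2r - 2 = 2/199`;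
 `m2 = chi b - 2 o1² - 2 o3² ≤ (2/199) o1² + rba o2² + (rca - 2) o3² + 6r |pp|/a0`;
 `m3 = chi (a+b) - 2 o1² - 2 o2² ≤ (rab + 2/199) o1² + (rba + 2/199) o2² + (rca + rcb) o3² + 6r (1/a0+1/b0)|pp|`.
All weights are nonnegative (`c1 ≥ c ≥ b ≥ b0` gives `rcb ≥ 2`, the same for `rca`), so `max 0 m` has the
same bound.  Exponentials: `e^(-37/40 x v e) ≤ e^(-37/40 x l v)`.
`la_box`: the same with `4z/a ≥ 4x v/a1`.  `lr_box`: `W ≤ a1 o1² + b1 o2² + c1 o3²`, `1/(abc) ≤ 1/(a0b0c0)`,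
`e^(-(10/3) x v/c) ≤ e^(-(10/3) x/c1)`.
`cs1`: `cs X Q e dt z = 16 z ((19/20) X²/dt² e^(-(500/497) z e) - ((11/200) X² + (1501/50) Q²)/dt² e^(-(37/40) z e))`:
first term: `v ≥ 1`, `X² = a² o1² ≥ a0² o1²`, `dt ≤ dx`, `e ≤ h1`; second: `X² ≤ a1² o1²`, `dt ≥ dn`, and
`Q² = o2² o3² ≤ gl (a1 b1) o2²` (`o3² ≤ gl ab`: `Reg.s3` and `|o3| ≤ 2 - c`).  `cs2`: `Q² = o1² o3² ≤ gl a1 b1 o1²`.
`cs3`: `Q² = o1² o2² ≤ (1/800)(ac o1² + bc o2²)`: with `x = o1²/(bc)`, `y = o2²/(ac)`, `x + y ≤ T ≤ 1/200`,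
`o1² o2² = x y a b c² ≤ ((x+y)/800) a b c²`.
-/

namespace Pool.Agent.Lib.EPT

variable {B : Bx} {q : Par}

/-- the two exponentials of a class -/
noncomputable def TC (l v : ℝ) : ℝ :=
  Real.exp (-(37 / 40 * Bx.xx * l * v)) + Real.exp (-(43 / 40 * Bx.xx * l * v))

theorem xx_bd : 2.99 ≤ Bx.xx ∧ Bx.xx ≤ 2.991 := by
  have h1 := Real.pi_gt_d4
  have h2 := Real.pi_lt_d4
  unfold Bx.xx
  constructor
  · rw [le_div_iff₀ (by norm_num)]
    nlinarith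
  · rw [div_le_iff₀ (by norm_num)]
    nlinarith

namespace BoxD1Aux

private theorem xx_pos : 0 < Bx.xx := by
  have := xx_bd.1
  linarith

private theorem a0p (hB : InB B q) : 0 < B.a0 := by linarith [hB.ha]
private theorem b0p (hB : InB B q) : 0 < B.b0 := by linarith [hB.hb]
private theorem c0p (hB : InB B q) : 0 < B.c0 := by linarith [hB.hc]
private theorem ap (hB : InB B q) : 0 < q.a := by linarith [hB.ha, hB.a0]
private theorem bp (hB : InB B q) : 0 < q.b := by linarith [hB.hb, hB.b0]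
private theorem cp (hB : InB B q) : 0 < q.c := by linarith [hB.hc, hB.c0]
private theorem a1p (hB : InB B q) : 0 < B.a1 := by linarith [ap hB, hB.a1]
private theorem b1p (hB : InB B q) : 0 < B.b1 := by linarith [bp hB, hB.b1]
private theorem c1p (hB : InB B q) : 0 < B.c1 := by linarith [cp hB, hB.c1]

private theorem abc_lo (hB : InB B q) : B.a0 * B.b0 * B.c0 ≤ q.a * q.b * q.c :=
  mul_le_mul (mul_le_mul hB.a0 hB.b0 (b0p hB).le (ap hB).le) hB.c0 (c0p hB).le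
    (mul_pos (ap hB) (bp hB)).le

private theorem abc_hi (hB : InB B q) : q.a * q.b * q.c ≤ B.a1 * B.b1 * B.c1 :=
  mul_le_mul (mul_le_mul hB.a1 hB.b1 (bp hB).le (a1p hB).le) hB.c1 (cp hB).le
    (mul_pos (a1p hB) (b1p hB)).le

private theorem abc_am (h : Reg q) (hB : InB B q) : q.a * q.b * q.c ≤ 64 / 27 := by
  have hs := h.sum
  have ha := ap hB
  have hb := bp hB
  have hc := cp hB
  have hc' : q.c = 4 - q.a - q.b := by linarith
  have k1 : 0 ≤ (q.a - q.b) ^ 2 * (q.a + q.b + q.c) := by positivity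
  have e : (q.a + q.b + q.c) ^ 3 - 27 * (q.a * q.b * q.c) =
      (q.a + q.b + q.c) * ((q.a - q.b) ^ 2 + (q.b - q.c) ^ 2 + (q.a - q.c) ^ 2) / 2 +
      3 * (q.a * (q.b - q.c) ^ 2 + q.b * (q.a - q.c) ^ 2 + q.c * (q.a - q.b) ^ 2) := by ring
  have e2 : 0 ≤ (q.a + q.b + q.c) ^ 3 - 27 * (q.a * q.b * q.c) := by
    rw [e]; positivity
  rw [hs] at e2
  linarith

private theorem dn_pos (hB : InB B q) : 0 < B.dn := by
  unfold Bx.dn
  have := mul_pos (mul_pos (a0p hB) (b0p hB)) (c0p hB)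
  linarith

private theorem dn_le (h : Reg q) (hB : InB B q) : B.dn ≤ q.dt := by
  have h1 := h.dt_lo
  have h2 := abc_lo hB
  unfold Bx.dn
  linarith

private theorem dt_pos (h : Reg q) (hB : InB B q) : 0 < q.dt := (dn_pos hB).trans_le (dn_le h hB)

private theorem dt_le (h : Reg q) (hB : InB B q) : q.dt ≤ B.dx := by
  have h1 := h.dt_hi
  exact le_min (h1.trans (abc_hi hB)) (h1.trans (abc_am h hB))

private theorem div_mono {x y X Y : ℝ} (hx : x ≤ X) (hy : Y ≤ y) (hY : 0 < Y) (hX : 0 ≤ X) :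
    x / y ≤ X / Y := by
  rw [div_le_div_iff₀ (hY.trans_le hy) hY]
  exact (mul_le_mul_of_nonneg_right hx hY.le).trans (mul_le_mul_of_nonneg_left hy hX)

private theorem inv_mono {x X : ℝ} (hx : 0 < x) (h : x ≤ X) : 1 / X ≤ 1 / x :=
  one_div_le_one_div_of_le hx h

private theorem l1_le (hB : InB B q) : B.l1 ≤ q.e1 :=
  add_le_add (inv_mono (bp hB) hB.b1) (inv_mono (cp hB) hB.c1)
private theorem l2_le (hB : InB B q) : B.l2 ≤ q.e2 :=
  add_le_add (inv_mono (ap hB) hB.a1) (inv_mono (cp hB) hB.c1)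
private theorem l3_le (hB : InB B q) : B.l3 ≤ q.e3 :=
  add_le_add (inv_mono (ap hB) hB.a1) (inv_mono (bp hB) hB.b1)
private theorem le_h1 (hB : InB B q) : q.e1 ≤ B.h1 :=
  add_le_add (inv_mono (b0p hB) hB.b0) (inv_mono (c0p hB) hB.c0)
private theorem le_h2 (hB : InB B q) : q.e2 ≤ B.h2 :=
  add_le_add (inv_mono (a0p hB) hB.a0) (inv_mono (c0p hB) hB.c0)
private theorem le_h3 (hB : InB B q) : q.e3 ≤ B.h3 :=
  add_le_add (inv_mono (a0p hB) hB.a0) (inv_mono (b0p hB) hB.b0)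

private theorem chi_ab (h : Reg q) (hB : InB B q) :
    q.chi * (q.a * q.b) ≤ 2 * (200 / 199) * (q.W + 3 * |q.pp|) := by
  have h1 := h.chi_le
  have h2 := h.d0_lo
  have hab : 0 < q.a * q.b := mul_pos (ap hB) (bp hB)
  have hd : 0 < q.d0 := by linarith
  have hc := h.chi_nn
  rw [le_div_iff₀ hd] at h1
  have h3 : q.chi * (199 / 200 * (q.a * q.b)) ≤ q.chi * q.d0 := mul_le_mul_of_nonneg_left h2 hc
  linarith

private theorem chi_a (h : Reg q) (hB : InB B q) : q.chi * q.a ≤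
    B.rab * q.o1 ^ 2 + (2 + 2 / 199) * q.o2 ^ 2 + B.rcb * q.o3 ^ 2
      + 6 * (200 / 199) / B.b0 * |q.pp| := by
  have h1 := chi_ab h hB
  have hb := bp hB
  have h2 : q.chi * q.a ≤ 2 * (200 / 199) * (q.W + 3 * |q.pp|) / q.b := by
    rw [le_div_iff₀ hb]
    linarith
  have e1 : 2 * (200 / 199) * (q.W + 3 * |q.pp|) / q.b =
      2 * (200 / 199) * q.a / q.b * q.o1 ^ 2 + (2 + 2 / 199) * q.o2 ^ 2
      + 2 * (200 / 199) * q.c / q.b * q.o3 ^ 2 + 6 * (200 / 199) / q.b * |q.pp| := by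
    unfold Par.W
    field_simp
    ring
  have t1 : 2 * (200 / 199) * q.a / q.b * q.o1 ^ 2 ≤ B.rab * q.o1 ^ 2 :=
    mul_le_mul_of_nonneg_right (div_mono (by linarith [hB.a1]) hB.b0 (b0p hB)
      (by linarith [a1p hB])) (sq_nonneg _)
  have t2 : 2 * (200 / 199) * q.c / q.b * q.o3 ^ 2 ≤ B.rcb * q.o3 ^ 2 :=
    mul_le_mul_of_nonneg_right (div_mono (by linarith [hB.c1]) hB.b0 (b0p hB)
      (by linarith [c1p hB])) (sq_nonneg _)
  have t3 : 6 * (200 / 199) / q.b * |q.pp| ≤ 6 * (200 / 199) / B.b0 * |q.pp| :=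
    mul_le_mul_of_nonneg_right (div_mono le_rfl hB.b0 (b0p hB) (by norm_num)) (abs_nonneg _)
  linarith

private theorem chi_b (h : Reg q) (hB : InB B q) : q.chi * q.b ≤
    (2 + 2 / 199) * q.o1 ^ 2 + B.rba * q.o2 ^ 2 + B.rca * q.o3 ^ 2
      + 6 * (200 / 199) / B.a0 * |q.pp| := by
  have h1 := chi_ab h hB
  have ha := ap hB
  have h2 : q.chi * q.b ≤ 2 * (200 / 199) * (q.W + 3 * |q.pp|) / q.a := by
    rw [le_div_iff₀ ha]
    linarith
  have e1 : 2 * (200 / 199) * (q.W + 3 * |q.pp|) / q.a =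
      (2 + 2 / 199) * q.o1 ^ 2 + 2 * (200 / 199) * q.b / q.a * q.o2 ^ 2
      + 2 * (200 / 199) * q.c / q.a * q.o3 ^ 2 + 6 * (200 / 199) / q.a * |q.pp| := by
    unfold Par.W
    field_simp
    ring
  have t1 : 2 * (200 / 199) * q.b / q.a * q.o2 ^ 2 ≤ B.rba * q.o2 ^ 2 :=
    mul_le_mul_of_nonneg_right (div_mono (by linarith [hB.b1]) hB.a0 (a0p hB)
      (by linarith [b1p hB])) (sq_nonneg _)
  have t2 : 2 * (200 / 199) * q.c / q.a * q.o3 ^ 2 ≤ B.rca * q.o3 ^ 2 :=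
    mul_le_mul_of_nonneg_right (div_mono (by linarith [hB.c1]) hB.a0 (a0p hB)
      (by linarith [c1p hB])) (sq_nonneg _)
  have t3 : 6 * (200 / 199) / q.a * |q.pp| ≤ 6 * (200 / 199) / B.a0 * |q.pp| :=
    mul_le_mul_of_nonneg_right (div_mono le_rfl hB.a0 (a0p hB) (by norm_num)) (abs_nonneg _)
  linarith

private theorem rab_nn (hB : InB B q) : 0 ≤ B.rab :=
  div_nonneg (by linarith [a1p hB]) (b0p hB).le
private theorem rba_nn (hB : InB B q) : 0 ≤ B.rba :=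
  div_nonneg (by linarith [b1p hB]) (a0p hB).le
private theorem rcb_two (h : Reg q) (hB : InB B q) : 2 ≤ B.rcb := by
  unfold Bx.rcb
  rw [le_div_iff₀ (b0p hB)]
  have := h.hbc
  have h1 := hB.b0
  have h2 := hB.c1
  have h3 := b0p hB
  linarith
private theorem rca_two (h : Reg q) (hB : InB B q) : 2 ≤ B.rca := by
  unfold Bx.rca
  rw [le_div_iff₀ (a0p hB)]
  have := h.hbc
  have := h.hab
  have h1 := hB.a0
  have h2 := hB.c1
  have h3 := a0p hB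
  linarith

private theorem exp_mono {x l e k v : ℝ} (hx : 0 ≤ x) (hk : 0 ≤ k) (hv : 0 ≤ v) (h : l ≤ e) :
    Real.exp (-(k * (x * v) * e)) ≤ Real.exp (-(k * x * l * v)) := by
  apply Real.exp_le_exp.2
  have h1 : k * x * v * l ≤ k * x * v * e := mul_le_mul_of_nonneg_left h (by positivity)
  linarith

private theorem cb_gen {m M l e d D v : ℝ} (hM : 0 ≤ M) (hm : m ≤ M) (hl : l ≤ e) (hD : 0 < D)
    (hd : D ≤ d) (hv : 1 ≤ v) :
    Par.cb m e d (Bx.xx * v) ≤ 2 / D * M * TC l v := by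
  have hx := xx_pos
  have hmax : max 0 m ≤ M := max_le hM hm
  have h1 : 2 * max 0 m / d ≤ 2 * M / D := div_mono (by linarith) hd hD (by linarith)
  have h2 : Real.exp (-(37 / 40 * (Bx.xx * v) * e)) + Real.exp (-(43 / 40 * (Bx.xx * v) * e)) ≤
      TC l v :=
    add_le_add (exp_mono hx.le (by norm_num) (by linarith) hl)
      (exp_mono hx.le (by norm_num) (by linarith) hl)
  have h3 : 2 / D * M * TC l v = 2 * M / D * TC l v := by ring
  rw [h3]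
  unfold Par.cb
  exact mul_le_mul h1 h2 (add_nonneg (Real.exp_pos _).le (Real.exp_pos _).le)
    (div_nonneg (by linarith) hD.le)

end BoxD1Aux

open BoxD1Aux

theorem cb1_box (h : Reg q) (hB : InB B q) {v : ℝ} (hv : 1 ≤ v) :
    Par.cb q.m1 q.e1 q.dt (Bx.xx * v) ≤
      2 / B.dn * (B.rab * q.o1 ^ 2 + 2 / 199 * q.o2 ^ 2 + (B.rcb - 2) * q.o3 ^ 2
        + 6 * (200 / 199) / B.b0 * |q.pp|) * TC B.l1 v := by
  have h1 := chi_a h hB
  have r1 := rab_nn hB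
  have r2 := rcb_two h hB
  have r3 : 0 ≤ B.rcb - 2 := by linarith
  have r4 := b0p hB
  refine cb_gen (by positivity) ?_ (l1_le hB) (dn_pos hB) (dn_le h hB) hv
  unfold Par.m1
  linarith

theorem cb2_box (h : Reg q) (hB : InB B q) {v : ℝ} (hv : 1 ≤ v) :
    Par.cb q.m2 q.e2 q.dt (Bx.xx * v) ≤
      2 / B.dn * (2 / 199 * q.o1 ^ 2 + B.rba * q.o2 ^ 2 + (B.rca - 2) * q.o3 ^ 2
        + 6 * (200 / 199) / B.a0 * |q.pp|) * TC B.l2 v := by
  have h1 := chi_b h hB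
  have r1 := rba_nn hB
  have r2 := rca_two h hB
  have r3 : 0 ≤ B.rca - 2 := by linarith
  have r4 := a0p hB
  refine cb_gen (by positivity) ?_ (l2_le hB) (dn_pos hB) (dn_le h hB) hv
  unfold Par.m2
  linarith

theorem cb3_box (h : Reg q) (hB : InB B q) {v : ℝ} (hv : 1 ≤ v) :
    Par.cb q.m3 q.e3 q.dt (Bx.xx * v) ≤
      2 / B.dn * ((B.rab + 2 / 199) * q.o1 ^ 2 + (B.rba + 2 / 199) * q.o2 ^ 2
        + (B.rca + B.rcb) * q.o3 ^ 2
        + 6 * (200 / 199) * (1 / B.a0 + 1 / B.b0) * |q.pp|) * TC B.l3 v := by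
  have h1 := chi_a h hB
  have h2 := chi_b h hB
  have r1 := rba_nn hB
  have r1' := rab_nn hB
  have r2 := rca_two h hB
  have r2' := rcb_two h hB
  have r3 : 0 ≤ B.rca + B.rcb := by linarith
  have r4 := a0p hB
  have r5 := b0p hB
  have e1 : 6 * (200 / 199) * (1 / B.a0 + 1 / B.b0) * |q.pp| =
      6 * (200 / 199) / B.a0 * |q.pp| + 6 * (200 / 199) / B.b0 * |q.pp| := by ring
  refine cb_gen (by positivity) ?_ (l3_le hB) (dn_pos hB) (dn_le h hB) hv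
  unfold Par.m3
  rw [e1]
  linarith

namespace BoxD1Aux

private theorem la_gen {m M a a1 d D v : ℝ} (hM : 0 ≤ M) (hm : m ≤ M) (ha : 0 < a) (h1 : a ≤ a1)
    (hD : 0 < D) (hd : D ≤ d) (hv : 1 ≤ v) :
    max 0 m / d * Real.exp (-(4 * (Bx.xx * v) / a)) ≤
      1 / D * (M * Real.exp (-(4 * Bx.xx / a1 * v))) := by
  have hx := xx_pos
  have hmax : max 0 m ≤ M := max_le hM hm
  have h2 : max 0 m / d ≤ M / D := div_mono hmax hd hD hM
  have h3 : Real.exp (-(4 * (Bx.xx * v) / a)) ≤ Real.exp (-(4 * Bx.xx / a1 * v)) := by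
    apply Real.exp_le_exp.2
    have h4 : 4 * Bx.xx / a1 * v = 4 * (Bx.xx * v) / a1 := by ring
    rw [h4]
    have h5 : 4 * (Bx.xx * v) / a1 ≤ 4 * (Bx.xx * v) / a :=
      div_mono le_rfl h1 ha (by have : 0 < v := by linarith
                                positivity)
    linarith
  have h6 : 1 / D * (M * Real.exp (-(4 * Bx.xx / a1 * v))) =
      M / D * Real.exp (-(4 * Bx.xx / a1 * v)) := by ring
  rw [h6]
  exact mul_le_mul h2 h3 (Real.exp_pos _).le (div_nonneg hM hD.le)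

end BoxD1Aux

theorem la_box (h : Reg q) (hB : InB B q) {v : ℝ} (hv : 1 ≤ v) :
    q.La (Bx.xx * v) ≤ 801 / 100 / B.dn *
      ((2 / 199 * q.o1 ^ 2 + B.rba * q.o2 ^ 2 + B.rca * q.o3 ^ 2
          + 6 * (200 / 199) / B.a0 * |q.pp|) * Real.exp (-(4 * Bx.xx / B.a1 * v))
        + (B.rab * q.o1 ^ 2 + 2 / 199 * q.o2 ^ 2 + B.rcb * q.o3 ^ 2
          + 6 * (200 / 199) / B.b0 * |q.pp|) * Real.exp (-(4 * Bx.xx / B.b1 * v))) := by
  have h1 := chi_a h hB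
  have h2 := chi_b h hB
  have r1 := rba_nn hB
  have r1' := rab_nn hB
  have r2 := rca_two h hB
  have r2' := rcb_two h hB
  have r3 : 0 ≤ B.rca := by linarith
  have r3' : 0 ≤ B.rcb := by linarith
  have r4 := a0p hB
  have r5 := b0p hB
  have p1 := la_gen (m := q.chi * q.b - 2 * q.o1 ^ 2) (M := 2 / 199 * q.o1 ^ 2 + B.rba * q.o2 ^ 2
    + B.rca * q.o3 ^ 2 + 6 * (200 / 199) / B.a0 * |q.pp|) (by positivity) (by linarith) (ap hB)
    hB.a1 (dn_pos hB) (dn_le h hB) hv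
  have p2 := la_gen (m := q.chi * q.a - 2 * q.o2 ^ 2) (M := B.rab * q.o1 ^ 2 + 2 / 199 * q.o2 ^ 2
    + B.rcb * q.o3 ^ 2 + 6 * (200 / 199) / B.b0 * |q.pp|) (by positivity) (by linarith) (bp hB)
    hB.b1 (dn_pos hB) (dn_le h hB) hv
  unfold Par.La
  have e : ∀ X Y : ℝ, 801 / 100 / B.dn * (X + Y) = 801 / 100 * (1 / B.dn * X + 1 / B.dn * Y) := by
    intro X Y; ring
  rw [e]
  exact mul_le_mul_of_nonneg_left (add_le_add p1 p2) (by norm_num)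

theorem lr_box (h : Reg q) (hB : InB B q) {v : ℝ} (hv : 1 ≤ v) :
    q.Lr (Bx.xx * v) ≤ 4 * B.nu *
      (B.wr B.a1 * q.o1 ^ 2 + B.wr B.b1 * q.o2 ^ 2 + B.wr B.c1 * q.o3 ^ 2 + B.wr 3 * |q.pp|) *
      ((1 / B.b0 + 1 / (50 * B.c0)) * Real.exp (-(5 / 6 * Bx.xx * B.l1 * v))
        + (1 / B.a0 + 1 / (50 * B.c0)) * Real.exp (-(5 / 6 * Bx.xx * B.l2 * v))
        + (1 / B.a0 + 1 / B.b0) * Real.exp (-(5 / 6 * Bx.xx * B.l3 * v))) := by
  have hx := xx_pos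
  have a0 := a0p hB
  have b0 := b0p hB
  have c0 := c0p hB
  have a := ap hB
  have b := bp hB
  have c := cp hB
  have a1 := a1p hB
  have b1 := b1p hB
  have c1 := c1p hB
  have hv0 : 0 < v := by linarith
  have k1 : 4 * (21 / 10 * Real.exp (-(10 / 3 * (Bx.xx * v) / q.c)) + 1 / 100) ≤ 4 * B.nu := by
    have : Real.exp (-(10 / 3 * (Bx.xx * v) / q.c)) ≤ Real.exp (-(10 / 3 * Bx.xx / B.c1)) := by
      apply Real.exp_le_exp.2
      have h5 : 10 / 3 * Bx.xx / B.c1 ≤ 10 / 3 * (Bx.xx * v) / q.c :=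
        div_mono (by nlinarith) hB.c1 c (by positivity)
      linarith
    unfold Bx.nu
    linarith
  have k2 : 41 / 20 * (q.W + 3 * |q.pp|) / (q.a * q.b * q.c) ≤
      B.wr B.a1 * q.o1 ^ 2 + B.wr B.b1 * q.o2 ^ 2 + B.wr B.c1 * q.o3 ^ 2 + B.wr 3 * |q.pp| := by
    have e1 : B.wr B.a1 * q.o1 ^ 2 + B.wr B.b1 * q.o2 ^ 2 + B.wr B.c1 * q.o3 ^ 2
        + B.wr 3 * |q.pp| = 41 / 20 * (B.a1 * q.o1 ^ 2 + B.b1 * q.o2 ^ 2 + B.c1 * q.o3 ^ 2
          + 3 * |q.pp|) / (B.a0 * B.b0 * B.c0) := by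
      unfold Bx.wr; ring
    rw [e1]
    have s1 : q.a * q.o1 ^ 2 ≤ B.a1 * q.o1 ^ 2 := mul_le_mul_of_nonneg_right hB.a1 (sq_nonneg _)
    have s2 : q.b * q.o2 ^ 2 ≤ B.b1 * q.o2 ^ 2 := mul_le_mul_of_nonneg_right hB.b1 (sq_nonneg _)
    have s3 : q.c * q.o3 ^ 2 ≤ B.c1 * q.o3 ^ 2 := mul_le_mul_of_nonneg_right hB.c1 (sq_nonneg _)
    refine div_mono ?_ (abc_lo hB) (by positivity) (by positivity)
    unfold Par.W
    linarith
  have f1 : Real.exp (-(5 / 6 * (Bx.xx * v) * q.e1)) * (1 / q.b + 1 / (50 * q.c)) ≤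
      (1 / B.b0 + 1 / (50 * B.c0)) * Real.exp (-(5 / 6 * Bx.xx * B.l1 * v)) := by
    rw [mul_comm]
    refine mul_le_mul (add_le_add (inv_mono b0 hB.b0) (inv_mono (by linarith)
      (by linarith [hB.c0]))) (exp_mono hx.le (by norm_num) hv0.le (l1_le hB))
      (Real.exp_pos _).le (by positivity)
  have f2 : Real.exp (-(5 / 6 * (Bx.xx * v) * q.e2)) * (1 / q.a + 1 / (50 * q.c)) ≤
      (1 / B.a0 + 1 / (50 * B.c0)) * Real.exp (-(5 / 6 * Bx.xx * B.l2 * v)) := by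
    rw [mul_comm]
    refine mul_le_mul (add_le_add (inv_mono a0 hB.a0) (inv_mono (by linarith)
      (by linarith [hB.c0]))) (exp_mono hx.le (by norm_num) hv0.le (l2_le hB))
      (Real.exp_pos _).le (by positivity)
  have f3 : Real.exp (-(5 / 6 * (Bx.xx * v) * q.e3)) * (1 / q.a + 1 / q.b) ≤
      (1 / B.a0 + 1 / B.b0) * Real.exp (-(5 / 6 * Bx.xx * B.l3 * v)) := by
    rw [mul_comm]
    refine mul_le_mul (add_le_add (inv_mono a0 hB.a0) (inv_mono b0 hB.b0))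
      (exp_mono hx.le (by norm_num) hv0.le (l3_le hB)) (Real.exp_pos _).le (by positivity)
  have n1 : 0 ≤ B.nu := by unfold Bx.nu; positivity
  have n2 : ∀ D : ℝ, 0 ≤ D → 0 ≤ B.wr D := fun D hD => by unfold Bx.wr; positivity
  have n3 := n2 B.a1 a1.le
  have n4 := n2 B.b1 b1.le
  have n5 := n2 B.c1 c1.le
  have n6 := n2 3 (by norm_num)
  have w0 : 0 ≤ q.W := h.W_nn
  unfold Par.Lr
  refine mul_le_mul (mul_le_mul k1 k2 ?_ (by positivity)) (add_le_add (add_le_add f1 f2) f3) ?_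
    (by positivity)
  · positivity
  · positivity

namespace BoxD1Aux

private theorem cs_gen {X Q2 L U V l e hh d D E v : ℝ} (hL : 0 ≤ L) (h1 : L ≤ X ^ 2)
    (h2 : X ^ 2 ≤ U) (h3 : Q2 ^ 2 ≤ V) (hl : l ≤ e) (he : e ≤ hh) (hD : 0 < D) (hd : D ≤ d)
    (hE : d ≤ E) (hv : 1 ≤ v) :
    16 * Bx.xx * (19 / 20) * L / E ^ 2 * Real.exp (-(500 / 497 * Bx.xx * hh * v))
      - 16 * Bx.xx / D ^ 2 * v * (11 / 200 * U + 1501 / 50 * V)
        * Real.exp (-(37 / 40 * Bx.xx * l * v)) ≤ Par.cs X Q2 e d (Bx.xx * v) := by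
  have hx := xx_pos
  have hd0 : 0 < d := hD.trans_le hd
  have hE0 : 0 < E := hd0.trans_le hE
  have hv0 : 0 < v := by linarith
  have hU : 0 ≤ U := (sq_nonneg X).trans h2
  have hV : 0 ≤ V := (sq_nonneg Q2).trans h3
  have e1 : Real.exp (-(500 / 497 * Bx.xx * hh * v)) ≤
      Real.exp (-(500 / 497 * (Bx.xx * v) * e)) := by
    apply Real.exp_le_exp.2
    have : 500 / 497 * Bx.xx * v * e ≤ 500 / 497 * Bx.xx * v * hh :=
      mul_le_mul_of_nonneg_left he (by positivity)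
    linarith
  have e2 : Real.exp (-(37 / 40 * (Bx.xx * v) * e)) ≤ Real.exp (-(37 / 40 * Bx.xx * l * v)) :=
    exp_mono hx.le (by norm_num) hv0.le hl
  have p1 : 16 * Bx.xx * (19 / 20) * L / E ^ 2 ≤
      16 * (Bx.xx * v) * (19 / 20 * X ^ 2) / d ^ 2 := by
    refine div_mono ?_ (pow_le_pow_left₀ hd0.le hE 2) (by positivity) (by positivity)
    have : L ≤ v * X ^ 2 := h1.trans (by nlinarith [sq_nonneg X])
    nlinarith
  have p2 : 16 * (Bx.xx * v) * (11 / 200 * X ^ 2 + 1501 / 50 * Q2 ^ 2) / d ^ 2 ≤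
      16 * (Bx.xx * v) * (11 / 200 * U + 1501 / 50 * V) / D ^ 2 := by
    refine div_mono ?_ (pow_le_pow_left₀ hD.le hd 2) (by positivity) (by positivity)
    exact mul_le_mul_of_nonneg_left (by linarith) (by positivity)
  have q1 := mul_le_mul p1 e1 (Real.exp_pos _).le (by positivity)
  have q2 := mul_le_mul p2 e2 (Real.exp_pos _).le (by positivity)
  have r1 : Par.cs X Q2 e d (Bx.xx * v) =
      16 * (Bx.xx * v) * (19 / 20 * X ^ 2) / d ^ 2 * Real.exp (-(500 / 497 * (Bx.xx * v) * e))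
      - 16 * (Bx.xx * v) * (11 / 200 * X ^ 2 + 1501 / 50 * Q2 ^ 2) / d ^ 2
        * Real.exp (-(37 / 40 * (Bx.xx * v) * e)) := by
    unfold Par.cs; ring
  have r2 : 16 * Bx.xx / D ^ 2 * v * (11 / 200 * U + 1501 / 50 * V)
        * Real.exp (-(37 / 40 * Bx.xx * l * v)) =
      16 * (Bx.xx * v) * (11 / 200 * U + 1501 / 50 * V) / D ^ 2
        * Real.exp (-(37 / 40 * Bx.xx * l * v)) := by ring
  rw [r1, r2]
  exact sub_le_sub q1 q2

private theorem gl_nn (hB : InB B q) : 0 ≤ B.gl := by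
  unfold Bx.gl
  exact le_min (by norm_num) (div_nonneg (sq_nonneg _) (mul_pos (a0p hB) (b0p hB)).le)

private theorem o3_le (h : Reg q) (hB : InB B q) : q.o3 ^ 2 ≤ B.gl * (B.a1 * B.b1) := by
  have a0 := a0p hB
  have b0 := b0p hB
  have a := ap hB
  have b := bp hB
  have h1 : q.o3 ^ 2 ≤ B.gl * (q.a * q.b) := by
    unfold Bx.gl
    rcases min_choice (1 / 200 : ℝ) ((2 - B.c0) ^ 2 / (B.a0 * B.b0)) with hm | hm
    · rw [hm]
      have := h.s3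
      linarith
    · rw [hm]
      have h2 := h.h3
      have h3 : |q.o3| ≤ 2 - B.c0 := h2.trans (by linarith [hB.c0])
      have h4 : q.o3 ^ 2 ≤ (2 - B.c0) ^ 2 := by
        rw [← sq_abs]
        exact pow_le_pow_left₀ (abs_nonneg _) h3 2
      have h5 : (2 - B.c0) ^ 2 = (2 - B.c0) ^ 2 / (B.a0 * B.b0) * (B.a0 * B.b0) := by
        field_simp
      have h6 : B.a0 * B.b0 ≤ q.a * q.b := mul_le_mul hB.a0 hB.b0 b0.le a.le
      rw [h5] at h4
      exact h4.trans (mul_le_mul_of_nonneg_left h6 (by positivity))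
  exact h1.trans (mul_le_mul_of_nonneg_left (mul_le_mul hB.a1 hB.b1 b.le (a1p hB).le) (gl_nn hB))

private theorem o12_le (h : Reg q) (hB : InB B q) : q.o1 ^ 2 * q.o2 ^ 2 ≤
    1 / 800 * (B.a1 * B.c1 * q.o1 ^ 2 + B.b1 * B.c1 * q.o2 ^ 2) := by
  have a := ap hB
  have b := bp hB
  have c := cp hB
  have hT := h.hT
  obtain ⟨x, hx⟩ : ∃ x, x = q.a * q.o1 ^ 2 := ⟨_, rfl⟩
  obtain ⟨y, hy⟩ : ∃ y, y = q.b * q.o2 ^ 2 := ⟨_, rfl⟩
  have x0 : 0 ≤ x := by rw [hx]; positivity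
  have y0 : 0 ≤ y := by rw [hy]; positivity
  have z0 : 0 ≤ q.c * q.o3 ^ 2 := by positivity
  have hW : x + y ≤ q.W := by unfold Par.W; rw [hx, hy]; linarith
  have k1 : 200 * (x + y) ≤ q.a * q.b * q.c := by linarith
  have k2 : 800 * (x * y) ≤ (x + y) * (q.a * q.b * q.c) := by
    nlinarith [sq_nonneg (x - y), mul_le_mul_of_nonneg_left k1 (add_nonneg x0 y0)]
  have k3 : 800 * (q.a * q.b) * (q.o1 ^ 2 * q.o2 ^ 2) ≤
      (q.a * q.b) * (q.a * q.c * q.o1 ^ 2 + q.b * q.c * q.o2 ^ 2) := by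
    rw [hx, hy] at k2
    linarith
  have k4 : 800 * (q.o1 ^ 2 * q.o2 ^ 2) ≤ q.a * q.c * q.o1 ^ 2 + q.b * q.c * q.o2 ^ 2 := by
    have : q.a * q.b * (800 * (q.o1 ^ 2 * q.o2 ^ 2)) ≤
        q.a * q.b * (q.a * q.c * q.o1 ^ 2 + q.b * q.c * q.o2 ^ 2) := by linarith
    exact le_of_mul_le_mul_left this (mul_pos a b)
  have k5 : q.a * q.c * q.o1 ^ 2 ≤ B.a1 * B.c1 * q.o1 ^ 2 :=
    mul_le_mul_of_nonneg_right (mul_le_mul hB.a1 hB.c1 c.le (a1p hB).le) (sq_nonneg _)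
  have k6 : q.b * q.c * q.o2 ^ 2 ≤ B.b1 * B.c1 * q.o2 ^ 2 :=
    mul_le_mul_of_nonneg_right (mul_le_mul hB.b1 hB.c1 c.le (b1p hB).le) (sq_nonneg _)
  linarith

end BoxD1Aux

theorem cs1_box (h : Reg q) (hB : InB B q) {v : ℝ} (hv : 1 ≤ v) :
    B.A1 * q.o1 ^ 2 * Real.exp (-(B.x1 * v))
      - 16 * Bx.xx / B.dn ^ 2 * v * (11 / 200 * B.a1 ^ 2 * q.o1 ^ 2
        + 1501 / 50 * B.gl * (B.a1 * B.b1) * q.o2 ^ 2) * Real.exp (-(37 / 40 * Bx.xx * B.l1 * v)) ≤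
      Par.cs (q.a * q.o1) (q.o2 * q.o3) q.e1 q.dt (Bx.xx * v) := by
  have g := cs_gen (X := q.a * q.o1) (Q2 := q.o2 * q.o3) (L := B.a0 ^ 2 * q.o1 ^ 2)
    (U := B.a1 ^ 2 * q.o1 ^ 2) (V := B.gl * (B.a1 * B.b1) * q.o2 ^ 2) (by positivity)
    (by rw [mul_pow]; exact mul_le_mul_of_nonneg_right (pow_le_pow_left₀ (a0p hB).le hB.a0 2)
          (sq_nonneg _))
    (by rw [mul_pow]; exact mul_le_mul_of_nonneg_right (pow_le_pow_left₀ (ap hB).le hB.a1 2)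
          (sq_nonneg _))
    (by rw [mul_pow, mul_comm]; exact mul_le_mul_of_nonneg_right (o3_le h hB) (sq_nonneg _))
    (l1_le hB) (le_h1 hB) (dn_pos hB) (dn_le h hB) (dt_le h hB) hv
  refine le_trans (le_of_eq ?_) g
  unfold Bx.A1 Bx.x1
  ring

theorem cs2_box (h : Reg q) (hB : InB B q) {v : ℝ} (hv : 1 ≤ v) :
    B.A2 * q.o2 ^ 2 * Real.exp (-(B.x2 * v))
      - 16 * Bx.xx / B.dn ^ 2 * v * (11 / 200 * B.b1 ^ 2 * q.o2 ^ 2
        + 1501 / 50 * B.gl * (B.a1 * B.b1) * q.o1 ^ 2) * Real.exp (-(37 / 40 * Bx.xx * B.l2 * v)) ≤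
      Par.cs (q.b * q.o2) (q.o1 * q.o3) q.e2 q.dt (Bx.xx * v) := by
  have g := cs_gen (X := q.b * q.o2) (Q2 := q.o1 * q.o3) (L := B.b0 ^ 2 * q.o2 ^ 2)
    (U := B.b1 ^ 2 * q.o2 ^ 2) (V := B.gl * (B.a1 * B.b1) * q.o1 ^ 2) (by positivity)
    (by rw [mul_pow]; exact mul_le_mul_of_nonneg_right (pow_le_pow_left₀ (b0p hB).le hB.b0 2)
          (sq_nonneg _))
    (by rw [mul_pow]; exact mul_le_mul_of_nonneg_right (pow_le_pow_left₀ (bp hB).le hB.b1 2)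
          (sq_nonneg _))
    (by rw [mul_pow, mul_comm]; exact mul_le_mul_of_nonneg_right (o3_le h hB) (sq_nonneg _))
    (l2_le hB) (le_h2 hB) (dn_pos hB) (dn_le h hB) (dt_le h hB) hv
  refine le_trans (le_of_eq ?_) g
  unfold Bx.A2 Bx.x2
  ring

theorem cs3_box (h : Reg q) (hB : InB B q) {v : ℝ} (hv : 1 ≤ v) :
    B.A3 * q.o3 ^ 2 * Real.exp (-(B.x3 * v))
      - 16 * Bx.xx / B.dn ^ 2 * v * (11 / 200 * B.c1 ^ 2 * q.o3 ^ 2
        + 1501 / 50 * (1 / 800) * (B.a1 * B.c1 * q.o1 ^ 2 + B.b1 * B.c1 * q.o2 ^ 2))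
        * Real.exp (-(37 / 40 * Bx.xx * B.l3 * v)) ≤
      Par.cs (q.c * q.o3) (q.o1 * q.o2) q.e3 q.dt (Bx.xx * v) := by
  have g := cs_gen (X := q.c * q.o3) (Q2 := q.o1 * q.o2) (L := B.c0 ^ 2 * q.o3 ^ 2)
    (U := B.c1 ^ 2 * q.o3 ^ 2)
    (V := 1 / 800 * (B.a1 * B.c1 * q.o1 ^ 2 + B.b1 * B.c1 * q.o2 ^ 2)) (by positivity)
    (by rw [mul_pow]; exact mul_le_mul_of_nonneg_right (pow_le_pow_left₀ (c0p hB).le hB.c0 2)
          (sq_nonneg _))
    (by rw [mul_pow]; exact mul_le_mul_of_nonneg_right (pow_le_pow_left₀ (cp hB).le hB.c1 2)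
          (sq_nonneg _))
    (by rw [mul_pow]; exact o12_le h hB)
    (l3_le hB) (le_h3 hB) (dn_pos hB) (dn_le h hB) (dt_le h hB) hv
  refine le_trans (le_of_eq ?_) g
  unfold Bx.A3 Bx.x3
  ring

end Pool.Agent.Lib.EPT
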