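import Pool.Agent.Lib.EPT.Bnd
import Pool.Agent.Lib.EPS.Phi

/-!
# The direct integral at `s = 3/2`

PROOF.  For `δ > 0`, `k = 0, 1, 2`: `∫_τ^∞ t^(3/2) t^k e^(-δ t) dt = τ^(5/2 + k) phi (5/2 + k) (δ τ)`
(substitution `t = τ w`, `integral_comp_mul_left_Ioi`; `phi_int` for integrability).
Then linearity over the terms of `Gg` and `Nn` (`δ` = `1`, `4 - c`, `1 + 2a`, `1 + 2b`, `11/12`, `c`, ...).
-/

open MeasureTheory Set

namespace Pool.Agent.Lib.EPT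

open Pool.Agent.Lib.EPS

/-- the value of `τ^(-5/2) ∫_τ^∞ t^(3/2) Gg t dt` -/
noncomputable def Par.JG (q : Par) (τ : ℝ) : ℝ :=
  2 * τ * q.S2 * phi (7 / 2) τ - 3 * τ ^ 2 * q.pp * phi (9 / 2) τ
    + 16 * τ * q.o3 ^ 2 * phi (7 / 2) ((4 - q.c) * τ)
    + τ * (2 * q.o1 ^ 2 + 18 * (q.o2 ^ 2 + q.o3 ^ 2)) * phi (7 / 2) ((1 + 2 * q.a) * τ)
    - 27 * τ ^ 2 * q.pp * phi (9 / 2) ((1 + 2 * q.a) * τ)
    + τ * (2 * q.o2 ^ 2 + 18 * (q.o1 ^ 2 + q.o3 ^ 2)) * phi (7 / 2) ((1 + 2 * q.b) * τ)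
    - 27 * τ ^ 2 * q.pp * phi (9 / 2) ((1 + 2 * q.b) * τ)

/-- the value of `τ^(-5/2) ∫_τ^∞ t^(3/2) Nn t dt` -/
noncomputable def Par.JN (q : Par) (τ : ℝ) : ℝ :=
  2 * phi (5 / 2) τ + τ ^ 2 * q.S2 / 4 * phi (9 / 2) (11 / 12 * τ)
    + 2001 / 1000 * phi (5 / 2) (q.c * τ)
    + 81 / 20 * phi (5 / 2) (11 / 12 * (q.a + q.c) * τ)
    + 81 / 20 * phi (5 / 2) (11 / 12 * (q.b + q.c) * τ)
    + 81 / 10 * phi (5 / 2) (11 / 3 * τ)
    + 21 / 10 * phi (5 / 2) (11 / 12 * (1 + 2 * q.a) * τ)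
    + 21 / 10 * phi (5 / 2) (11 / 12 * (1 + 2 * q.b) * τ)
    + 19 * phi (5 / 2) (11 / 12 * (1 + 2 * q.c) * τ)

theorem int_term {τ δ : ℝ} (hτ : 0 < τ) (hδ : 0 < δ) (k : ℕ) :
    IntegrableOn (fun t : ℝ => t ^ (3 / 2 : ℝ) * (t ^ k * Real.exp (-(δ * t)))) (Ioi τ) ∧
      ∫ t in Ioi τ, t ^ (3 / 2 : ℝ) * (t ^ k * Real.exp (-(δ * t))) =
        τ ^ (5 / 2 + k : ℝ) * phi (5 / 2 + k) (δ * τ) := by
  have h1 := (phi_int (5 / 2 + k : ℝ) (mul_pos hδ hτ)).const_mul (τ ^ (3 / 2 + k : ℝ))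
  have key : ∀ w ∈ Ioi (1 : ℝ), (τ * w) ^ (3 / 2 : ℝ) * ((τ * w) ^ k * Real.exp (-(δ * (τ * w)))) =
      τ ^ (3 / 2 + k : ℝ) * (Real.exp (-(δ * τ * w)) * w ^ (5 / 2 + k - 1 : ℝ)) := by
    intro w hw
    have hw1 : (1 : ℝ) < w := hw
    have hw0 : 0 < w := by linarith
    rw [Real.mul_rpow hτ.le hw0.le, mul_pow, Real.rpow_add hτ, Real.rpow_natCast,
      show (5 / 2 + k - 1 : ℝ) = 3 / 2 + k by ring, Real.rpow_add hw0, Real.rpow_natCast,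
      show δ * (τ * w) = δ * τ * w by ring]
    ring
  have h2 : IntegrableOn (fun w : ℝ => (τ * w) ^ (3 / 2 : ℝ) *
      ((τ * w) ^ k * Real.exp (-(δ * (τ * w))))) (Ioi 1) :=
    IntegrableOn.congr_fun h1 (fun w hw => (key w hw).symm) measurableSet_Ioi
  constructor
  · have h3 := (integrableOn_Ioi_comp_mul_left_iff
      (fun t : ℝ => t ^ (3 / 2 : ℝ) * (t ^ k * Real.exp (-(δ * t)))) 1 hτ).1 h2
    rw [mul_one] at h3
    exact h3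
  · have h3 := integral_comp_mul_left_Ioi
      (fun t : ℝ => t ^ (3 / 2 : ℝ) * (t ^ k * Real.exp (-(δ * t)))) 1 hτ
    rw [mul_one, smul_eq_mul, setIntegral_congr_fun measurableSet_Ioi key,
      integral_const_mul] at h3
    have h4 : ∫ t in Ioi τ, t ^ (3 / 2 : ℝ) * (t ^ k * Real.exp (-(δ * t))) =
        τ * (τ ^ (3 / 2 + k : ℝ) * phi (5 / 2 + k) (δ * τ)) := by
      unfold phi
      rw [h3, ← mul_assoc, mul_inv_cancel₀ hτ.ne', one_mul]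
    rw [h4, show (5 / 2 + k : ℝ) = 3 / 2 + k + 1 by ring, Real.rpow_add_one hτ.ne']
    ring

namespace JIntAux

/-- weighted integral with value -/
def Pz (τ : ℝ) (f : ℝ → ℝ) (I : ℝ) : Prop :=
  IntegrableOn (fun t : ℝ => t ^ (3 / 2 : ℝ) * f t) (Ioi τ) ∧
    ∫ t in Ioi τ, t ^ (3 / 2 : ℝ) * f t = I

variable {τ : ℝ} {f g : ℝ → ℝ} {I J : ℝ}

lemma Pz.add (h1 : Pz τ f I) (h2 : Pz τ g J) : Pz τ (fun t => f t + g t) (I + J) := by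
  have e : (fun t : ℝ => t ^ (3 / 2 : ℝ) * (f t + g t)) =
      fun t : ℝ => t ^ (3 / 2 : ℝ) * f t + t ^ (3 / 2 : ℝ) * g t := by
    funext t
    ring
  unfold Pz
  rw [e]
  refine ⟨h1.1.add h2.1, ?_⟩
  rw [integral_add h1.1 h2.1, h1.2, h2.2]

lemma Pz.smul (c : ℝ) (h : Pz τ f I) : Pz τ (fun t => c * f t) (c * I) := by
  have e : (fun t : ℝ => t ^ (3 / 2 : ℝ) * (c * f t)) =
      fun t : ℝ => c * (t ^ (3 / 2 : ℝ) * f t) := by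
    funext t
    ring
  unfold Pz
  rw [e]
  refine ⟨h.1.const_mul c, ?_⟩
  rw [integral_const_mul, h.2]

lemma Pz.congr (h : Pz τ f I) (hf : ∀ t, f t = g t) (hI : I = J) : Pz τ g J := by
  have e : f = g := funext hf
  rw [← e, ← hI]
  exact h

lemma T0 (hτ : 0 < τ) {δ : ℝ} (hδ : 0 < δ) :
    Pz τ (fun t => Real.exp (-(δ * t))) (τ ^ (5 / 2 : ℝ) * phi (5 / 2) (δ * τ)) := by
  have h := int_term hτ hδ 0
  simp only [pow_zero, one_mul, Nat.cast_zero, add_zero] at h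
  exact h

lemma T1 (hτ : 0 < τ) {δ : ℝ} (hδ : 0 < δ) :
    Pz τ (fun t => t * Real.exp (-(δ * t))) (τ ^ (5 / 2 : ℝ) * (τ * phi (7 / 2) (δ * τ))) := by
  have h := int_term hτ hδ 1
  simp only [pow_one, Nat.cast_one] at h
  refine Pz.congr (f := fun t => t * Real.exp (-(δ * t))) h (fun t => rfl) ?_
  rw [Real.rpow_add_one hτ.ne', show (5 / 2 + 1 : ℝ) = 7 / 2 by norm_num]
  ring

lemma T2 (hτ : 0 < τ) {δ : ℝ} (hδ : 0 < δ) :
    Pz τ (fun t => t ^ 2 * Real.exp (-(δ * t)))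
      (τ ^ (5 / 2 : ℝ) * (τ ^ 2 * phi (9 / 2) (δ * τ))) := by
  have h := int_term hτ hδ 2
  simp only [Nat.cast_ofNat] at h
  refine Pz.congr (f := fun t => t ^ 2 * Real.exp (-(δ * t))) h (fun t => rfl) ?_
  rw [Real.rpow_add hτ, show (5 / 2 + 2 : ℝ) = 9 / 2 by norm_num, Real.rpow_two]
  ring

end JIntAux

open JIntAux in
theorem Reg.int_G {q : Par} (h : Reg q) {τ : ℝ} (hτ : 0 < τ) :
    IntegrableOn (fun t : ℝ => t ^ (3 / 2 : ℝ) * q.Gg t) (Ioi τ) ∧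
      ∫ t in Ioi τ, t ^ (3 / 2 : ℝ) * q.Gg t = τ ^ (5 / 2 : ℝ) * q.JG τ := by
  have ha := h.ha
  have hb := h.hab
  have hc := h.hc
  have t1 := (T1 hτ one_pos).smul (2 * q.S2)
  have t2 := (T2 hτ one_pos).smul (-3 * q.pp)
  have t3 := (T1 hτ (δ := 4 - q.c) (by linarith)).smul (16 * q.o3 ^ 2)
  have t4 := (T1 hτ (δ := 1 + 2 * q.a) (by linarith)).smul
    (2 * q.o1 ^ 2 + 18 * (q.o2 ^ 2 + q.o3 ^ 2))
  have t5 := (T2 hτ (δ := 1 + 2 * q.a) (by linarith)).smul (-27 * q.pp)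
  have t6 := (T1 hτ (δ := 1 + 2 * q.b) (by linarith)).smul
    (2 * q.o2 ^ 2 + 18 * (q.o1 ^ 2 + q.o3 ^ 2))
  have t7 := (T2 hτ (δ := 1 + 2 * q.b) (by linarith)).smul (-27 * q.pp)
  refine Pz.congr ((((((t1.add t2).add t3).add t4).add t5).add t6).add t7) (fun t => ?_) ?_
  · unfold Par.Gg
    rw [one_mul]
    ring
  · unfold Par.JG
    rw [one_mul]
    ring

open JIntAux in
theorem Reg.int_N {q : Par} (h : Reg q) {τ : ℝ} (hτ : 0 < τ) :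
    IntegrableOn (fun t : ℝ => t ^ (3 / 2 : ℝ) * q.Nn t) (Ioi τ) ∧
      ∫ t in Ioi τ, t ^ (3 / 2 : ℝ) * q.Nn t = τ ^ (5 / 2 : ℝ) * q.JN τ := by
  have ha := h.ha
  have hb := h.hab
  have hc := h.hbc
  have t1 := (T0 hτ one_pos).smul 2
  have t2 := (T2 hτ (δ := 11 / 12) (by norm_num)).smul (q.S2 / 4)
  have t3 := (T0 hτ (δ := q.c) (by linarith)).smul (2001 / 1000)
  have t4 := (T0 hτ (δ := 11 / 12 * (q.a + q.c)) (by linarith)).smul (81 / 20)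
  have t5 := (T0 hτ (δ := 11 / 12 * (q.b + q.c)) (by linarith)).smul (81 / 20)
  have t6 := (T0 hτ (δ := 11 / 3) (by norm_num)).smul (81 / 10)
  have t7 := (T0 hτ (δ := 11 / 12 * (1 + 2 * q.a)) (by linarith)).smul (21 / 10)
  have t8 := (T0 hτ (δ := 11 / 12 * (1 + 2 * q.b)) (by linarith)).smul (21 / 10)
  have t9 := (T0 hτ (δ := 11 / 12 * (1 + 2 * q.c)) (by linarith)).smul 19
  refine Pz.congr ((((((((t1.add t2).add t3).add t4).add t5).add t6).add t7).add t8).add t9)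
    (fun t => ?_) ?_
  · unfold Par.Nn
    rw [one_mul]
    ring
  · unfold Par.JN
    rw [one_mul]
    ring

end Pool.Agent.Lib.EPT
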