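import Pool.Agent.Lib.EPT.BoxA
import Pool.Agent.Lib.EPT.JInt

/-!
# The direct value at `s = 3/2` on a box

PROOF.  `τ = 33/10`.  Use `phi_anti` (`phi` nonincreasing in `z`) and the bounds of PhiB:
`phi (7/2) τ ≥ P1l τ`; `(4 - c) τ ≤ (4 - c0) τ`, so `phi (7/2) ((4-c)τ) ≥ P1l ((4-c0)τ)`;
`phi (7/2) ((1+2a)τ) ≥ P1l ((1+2a1)τ)`, the same for `b`; `phi (9/2) ((1+2a)τ) ≤ P2u ((1+2a0)τ)`, ...;
`a + c = 4 - b ≥ 4 - b1`, `b + c = 4 - a ≥ 4 - a1`; `S2 ≤ S2m`.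
The terms with `pp`: `-3τ² pp phi ... ≥ -|pp| cpp`.  The factor of `o1²` in `JG` is
`2τ phi(τ) + 2τ phi((1+2a)τ) + 18τ phi((1+2b)τ) ≥ G1`, etc.  `JN ≤ JNu`.
-/

namespace Pool.Agent.Lib.EPT

open Pool.Agent.Lib.EPS

namespace BoxJAux

theorem up0 {z z' : ℝ} (hz : 0 < z) (h : z ≤ z') : phi (5 / 2) z' ≤ P0u z :=
  (phi_anti _ hz h).trans (phi0_le hz)

theorem up2 {z z' : ℝ} (hz : 0 < z) (h : z ≤ z') : phi (9 / 2) z' ≤ P2u z :=
  (phi_anti _ hz h).trans (phi2_le hz)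

theorem lo1 {z z' : ℝ} (hz : 0 < z) (h : z ≤ z') : P1l z' ≤ phi (7 / 2) z :=
  (le_phi1 (lt_of_lt_of_le hz h)).trans (phi_anti _ hz h)

theorem pm {p f P : ℝ} (hf : 0 ≤ f) (h : f ≤ P) : p * f ≤ |p| * P :=
  (mul_le_mul_of_nonneg_right (le_abs_self p) hf).trans
    (mul_le_mul_of_nonneg_left h (abs_nonneg p))

end BoxJAux

open BoxJAux

variable {B : Bx} {q : Par}

theorem JN_le (h : Reg q) (hB : InB B q) : q.JN (33 / 10) ≤ B.JNu := by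
  have e1 := h.sum
  have a0 := hB.a0
  have a1 := hB.a1
  have b0 := hB.b0
  have b1 := hB.b1
  have c0 := hB.c0
  have c1 := hB.c1
  have ha := hB.ha
  have hb := hB.hb
  have hc := hB.hc
  have ha1 := hB.ha1
  have hb1 := hB.hb1
  have t1 : phi (5 / 2) (33 / 10) ≤ P0m (33 / 10) := phi0_le' (by norm_num)
  have t2 : phi (9 / 2) (11 / 12 * (33 / 10)) ≤ P2u (11 / 12 * (33 / 10)) := phi2_le (by norm_num)
  have t3 : phi (5 / 2) (q.c * (33 / 10)) ≤ P0u (B.c0 * (33 / 10)) :=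
    up0 (by linarith) (by linarith)
  have t4 : phi (5 / 2) (11 / 12 * (q.a + q.c) * (33 / 10)) ≤
      P0u (11 / 12 * (4 - B.b1) * (33 / 10)) := up0 (by linarith) (by linarith)
  have t5 : phi (5 / 2) (11 / 12 * (q.b + q.c) * (33 / 10)) ≤
      P0u (11 / 12 * (4 - B.a1) * (33 / 10)) := up0 (by linarith) (by linarith)
  have t6 : phi (5 / 2) (11 / 3 * (33 / 10)) ≤ P0u (11 / 3 * (33 / 10)) := phi0_le (by norm_num)
  have t7 : phi (5 / 2) (11 / 12 * (1 + 2 * q.a) * (33 / 10)) ≤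
      P0u (11 / 12 * (1 + 2 * B.a0) * (33 / 10)) := up0 (by linarith) (by linarith)
  have t8 : phi (5 / 2) (11 / 12 * (1 + 2 * q.b) * (33 / 10)) ≤
      P0u (11 / 12 * (1 + 2 * B.b0) * (33 / 10)) := up0 (by linarith) (by linarith)
  have t9 : phi (5 / 2) (11 / 12 * (1 + 2 * q.c) * (33 / 10)) ≤
      P0u (11 / 12 * (1 + 2 * B.c0) * (33 / 10)) := up0 (by linarith) (by linarith)
  have hS := S2_box h hB
  have hS0 : 0 ≤ q.S2 := by unfold Par.S2; positivity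
  have hp := phi_nonneg (9 / 2) (11 / 12 * (33 / 10))
  have t10 : q.S2 * phi (9 / 2) (11 / 12 * (33 / 10)) ≤ B.S2m * P2u (11 / 12 * (33 / 10)) :=
    mul_le_mul hS t2 hp (hS0.trans hS)
  unfold Par.JN Bx.JNu
  linarith

theorem JG_ge (h : Reg q) (hB : InB B q) :
    B.G1 * q.o1 ^ 2 + B.G2 * q.o2 ^ 2 + B.G3 * q.o3 ^ 2 - B.cpp * |q.pp| ≤ q.JG (33 / 10) := by
  have a0 := hB.a0
  have a1 := hB.a1
  have b0 := hB.b0
  have b1 := hB.b1
  have c0 := hB.c0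
  have ha := hB.ha
  have hb := hB.hb
  have hc0 := hB.hc0
  have hc := h.hc
  have x1 := sq_nonneg q.o1
  have x2 := sq_nonneg q.o2
  have x3 := sq_nonneg q.o3
  have g1 : P1l (33 / 10) ≤ phi (7 / 2) (33 / 10) := le_phi1 (by norm_num)
  have g2 : P1l ((4 - B.c0) * (33 / 10)) ≤ phi (7 / 2) ((4 - q.c) * (33 / 10)) :=
    lo1 (by linarith) (by linarith)
  have g3 : P1l ((1 + 2 * B.a1) * (33 / 10)) ≤ phi (7 / 2) ((1 + 2 * q.a) * (33 / 10)) :=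
    lo1 (by linarith) (by linarith)
  have g4 : P1l ((1 + 2 * B.b1) * (33 / 10)) ≤ phi (7 / 2) ((1 + 2 * q.b) * (33 / 10)) :=
    lo1 (by linarith) (by linarith)
  have n1 := pm (p := q.pp) (phi_nonneg (9 / 2) (33 / 10)) (phi2_le (by norm_num))
  have n2 := pm (p := q.pp) (phi_nonneg (9 / 2) ((1 + 2 * q.a) * (33 / 10)))
    (up2 (z := (1 + 2 * B.a0) * (33 / 10)) (by linarith) (by linarith))
  have n3 := pm (p := q.pp) (phi_nonneg (9 / 2) ((1 + 2 * q.b) * (33 / 10)))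
    (up2 (z := (1 + 2 * B.b0) * (33 / 10)) (by linarith) (by linarith))
  have k1 := mul_le_mul_of_nonneg_left g1 (add_nonneg (add_nonneg x1 x2) x3)
  have k2 := mul_le_mul_of_nonneg_left g2 x3
  have k3 := mul_le_mul_of_nonneg_left g3
    (by positivity : 0 ≤ 2 * q.o1 ^ 2 + 18 * (q.o2 ^ 2 + q.o3 ^ 2))
  have k4 := mul_le_mul_of_nonneg_left g4
    (by positivity : 0 ≤ 2 * q.o2 ^ 2 + 18 * (q.o1 ^ 2 + q.o3 ^ 2))
  unfold Par.JG Bx.G1 Bx.G2 Bx.G3 Bx.cpp Par.S2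
  linarith

end Pool.Agent.Lib.EPT
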