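import Pool.Agent.Lib.EPT.Bnd

/-!
# The dual side: the twelve short vectors and the axes

PROOF.  `pair`: pure real inequality.  With `m = -r + d`,
 `Md (e^(-z(R+2r)) + e^(-z(R-2r))) = 2 Md cosh(2zr) e^(-zR) ≥ -2 max 0 (-Md) cosh(3ze/40) e^(-ze)`
 (`R ≥ e`, `|2r| ≤ 3e/40`, `cosh` increasing in the absolute value), and
 `2m (e^(-z(R+2r)) - e^(-z(R-2r))) = 4 (r - d) sinh(2zr) e^(-zR)
    ≥ 8 z r² e^(-zR) - 4 |d| |sinh(2zr)| e^(-zR) ≥ 8 z r² e^(-zR) - 8 z |d| |r| e^(-z(R - |2r|))`,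
 (`sinh y / y ≥ 1`, `|sinh y| ≤ |y| e^|y|`), and `e^(-z(R-|2r|)) ≤ e^(-37ze/40)`.
`cls3` (and similarly `cls1`, `cls2`): apply `pair` with `R = inv.a + inv.b`, `r = inv.o3`,
 `Md = dM.a + dM.b = -m3/dt`, `m = dM.o3`, `d = m + r = (-o1 o2 + chi o3)/dt`, `e = e3`; four vectors
 `w = (±1, ±1, 0)`: `y = (1,0,0), (-1,0,0), (0,1,-1), (0,-1,1)`.  With `X = c o3`, `Q = o1 o2`
 (`r dt = Q - X`, `|X| = c |o3| ≥ (4/3)|o3|`, `0 ≤ chi ≤ 1/40`):
 `(X - Q)² ≥ (19/20) X² - 19 Q²`;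
 `|d||r| dt² ≤ (|Q| + chi |o3|)(|X| + |Q|) ≤ (11/200) X² + (1102/100) Q²`:
   `|Q||X| ≤ X²/40 + 10 Q²`, `chi |o3| (|X| + |Q|) ≤ (3/160)(X² + |X||Q|) ≤ (9/320) X² + (3/320) Q²`;
 `e^(-zR) ≥ e^(-(500/497) z e)` (`Reg.inv_a`, `Reg.inv_b`), `e^(-zR) ≤ e^(-37ze/40)`; 19 + 11.02 = 1501/50.
 In classes 1 and 2 there is no `chi`-term in `d`.
`axA`: on the vectors `w = (2k, 0, 0)`, `k ≠ 0`, i.e. `y = (k, k, -k)`: `Ky = 0`, the value is
 `dM.a 4 k² e^(-4 z k² inv.a) ≥ -(max 0 (chi b - 2 o1²)/dt) 4 k² e^(-4 z k²/a)`; this lemma only states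
 the one-dimensional sum: `∑_{k ≠ 0} 4 k² e^(-4k² z/a) ≤ 801/100 e^(-4z/a)` for `z/a ≥ 1`
 (`k² ≤ 4^(|k|-1)`, `k² ≥ 3|k| - 2`).
-/

namespace Pool.Agent.Lib.EPT

namespace ClsAux


theorem abs_sinh_le (y : ℝ) : |Real.sinh y| ≤ |y| * Real.exp |y| := by
  rw [Real.abs_sinh, Real.sinh_eq]
  have h1 := Real.add_one_le_exp (-(2 * |y|))
  have h2 : Real.exp (-|y|) = Real.exp |y| * Real.exp (-(2 * |y|)) := by
    rw [← Real.exp_add]
    ring_nf
  have h3 := Real.exp_pos |y|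
  rw [h2]
  nlinarith

theorem mul_sinh_ge {z : ℝ} (hz : 0 < z) (r : ℝ) : 2 * z * r ^ 2 ≤ r * Real.sinh (2 * z * r) := by
  rcases le_total 0 r with h | h
  · have h1 : 2 * z * r ≤ Real.sinh (2 * z * r) := Real.self_le_sinh_iff.mpr (by positivity)
    nlinarith
  · have h1 : Real.sinh (2 * z * r) ≤ 2 * z * r :=
      Real.sinh_le_self_iff.mpr (mul_nonpos_of_nonneg_of_nonpos (by positivity) h)
    nlinarith

end ClsAux

open ClsAux in
theorem pair {R r e d Md z : ℝ} (he : 0 < e) (hR : e ≤ R) (hr : |2 * r| ≤ 3 / 40 * e)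
    (hz : 0 < z) :
    -(max 0 (-Md)) * (Real.exp (-(37 / 40 * z * e)) + Real.exp (-(43 / 40 * z * e)))
        + 8 * z * (r ^ 2 * Real.exp (-(z * R)) - |d| * |r| * Real.exp (-(37 / 40 * z * e))) ≤
      (Md + 2 * (-r + d)) * Real.exp (-(z * (R + 2 * r)))
        + (Md - 2 * (-r + d)) * Real.exp (-(z * (R - 2 * r))) := by
  have hE1 : Real.exp (-(z * (R + 2 * r))) = Real.exp (-(z * R)) * Real.exp (-(2 * z * r)) := by
    rw [← Real.exp_add]
    ring_nf
  have hE2 : Real.exp (-(z * (R - 2 * r))) = Real.exp (-(z * R)) * Real.exp (2 * z * r) := by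
    rw [← Real.exp_add]
    ring_nf
  have hA : Real.exp (-(z * (R + 2 * r))) + Real.exp (-(z * (R - 2 * r))) =
      2 * (Real.exp (-(z * R)) * Real.cosh (2 * z * r)) := by
    rw [hE1, hE2, Real.cosh_eq]
    ring
  have hB : Real.exp (-(z * (R + 2 * r))) - Real.exp (-(z * (R - 2 * r))) =
      -(2 * (Real.exp (-(z * R)) * Real.sinh (2 * z * r))) := by
    rw [hE1, hE2, Real.sinh_eq]
    ring
  have hC : Real.exp (-(37 / 40 * z * e)) + Real.exp (-(43 / 40 * z * e)) =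
      2 * (Real.exp (-(z * e)) * Real.cosh (3 / 40 * z * e)) := by
    have e1 : Real.exp (-(37 / 40 * z * e)) = Real.exp (-(z * e)) * Real.exp (3 / 40 * z * e) := by
      rw [← Real.exp_add]
      ring_nf
    have e2 : Real.exp (-(43 / 40 * z * e)) =
        Real.exp (-(z * e)) * Real.exp (-(3 / 40 * z * e)) := by
      rw [← Real.exp_add]
      ring_nf
    rw [e1, e2, Real.cosh_eq]
    ring
  have habs : |2 * z * r| ≤ 3 / 40 * z * e := by
    have : 2 * z * r = z * (2 * r) := by ring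
    rw [this, abs_mul, abs_of_pos hz]
    have := mul_le_mul_of_nonneg_left hr hz.le
    linarith
  have hcosh : Real.cosh (2 * z * r) ≤ Real.cosh (3 / 40 * z * e) := by
    rw [Real.cosh_le_cosh]
    exact le_trans habs (le_abs_self _)
  have hexp : Real.exp (-(z * R)) ≤ Real.exp (-(z * e)) := by
    apply Real.exp_le_exp.mpr
    have := mul_le_mul_of_nonneg_left hR hz.le
    linarith
  have hAC : Real.exp (-(z * (R + 2 * r))) + Real.exp (-(z * (R - 2 * r))) ≤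
      Real.exp (-(37 / 40 * z * e)) + Real.exp (-(43 / 40 * z * e)) := by
    rw [hA, hC]
    have := mul_le_mul hexp hcosh (Real.cosh_pos _).le (Real.exp_pos _).le
    linarith
  have hA0 : 0 ≤ Real.exp (-(z * (R + 2 * r))) + Real.exp (-(z * (R - 2 * r))) := by positivity
  -- the diagonal part
  have h1 : -(max 0 (-Md)) * (Real.exp (-(37 / 40 * z * e)) + Real.exp (-(43 / 40 * z * e))) ≤
      Md * (Real.exp (-(z * (R + 2 * r))) + Real.exp (-(z * (R - 2 * r)))) := by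
    have m1 : 0 ≤ max 0 (-Md) := le_max_left _ _
    have m2 : -Md ≤ max 0 (-Md) := le_max_right _ _
    have h2 := mul_le_mul_of_nonneg_left hAC m1
    have h3 := mul_le_mul_of_nonneg_right m2 hA0
    linarith
  -- the off-diagonal part
  have h2 : Real.exp (-(z * R)) * |Real.sinh (2 * z * r)| ≤
      2 * z * |r| * Real.exp (-(37 / 40 * z * e)) := by
    have s1 := abs_sinh_le (2 * z * r)
    have s2 : |2 * z * r| = 2 * z * |r| := by
      rw [abs_mul, abs_of_pos (by positivity : 0 < 2 * z)]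
    have s3 : Real.exp (-(z * R)) * Real.exp |2 * z * r| ≤ Real.exp (-(37 / 40 * z * e)) := by
      rw [← Real.exp_add]
      apply Real.exp_le_exp.mpr
      have := mul_le_mul_of_nonneg_left hR hz.le
      linarith
    calc Real.exp (-(z * R)) * |Real.sinh (2 * z * r)| ≤
          Real.exp (-(z * R)) * (|2 * z * r| * Real.exp |2 * z * r|) :=
          mul_le_mul_of_nonneg_left s1 (Real.exp_pos _).le
      _ = |2 * z * r| * (Real.exp (-(z * R)) * Real.exp |2 * z * r|) := by ring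
      _ ≤ |2 * z * r| * Real.exp (-(37 / 40 * z * e)) :=
          mul_le_mul_of_nonneg_left s3 (abs_nonneg _)
      _ = _ := by rw [s2]
  have h3 : 8 * z * (r ^ 2 * Real.exp (-(z * R)) - |d| * |r| * Real.exp (-(37 / 40 * z * e))) ≤
      2 * (-r + d) * (Real.exp (-(z * (R + 2 * r))) - Real.exp (-(z * (R - 2 * r)))) := by
    rw [hB]
    have t1 := mul_le_mul_of_nonneg_left (mul_sinh_ge hz r) (Real.exp_pos (-(z * R))).le
    have t2 : d * Real.sinh (2 * z * r) ≤ |d| * |Real.sinh (2 * z * r)| := by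
      rw [← abs_mul]
      exact le_abs_self _
    have t3 := mul_le_mul_of_nonneg_left t2 (Real.exp_pos (-(z * R))).le
    have t4 := mul_le_mul_of_nonneg_left h2 (abs_nonneg d)
    nlinarith
  have h4 : (Md + 2 * (-r + d)) * Real.exp (-(z * (R + 2 * r)))
        + (Md - 2 * (-r + d)) * Real.exp (-(z * (R - 2 * r))) =
      Md * (Real.exp (-(z * (R + 2 * r))) + Real.exp (-(z * (R - 2 * r)))) +
      2 * (-r + d) * (Real.exp (-(z * (R + 2 * r))) - Real.exp (-(z * (R - 2 * r)))) := by ring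
  rw [h4]
  exact add_le_add h1 h3

namespace ClsAux

theorem cls_gen {R r e d Md m X Q dt z : ℝ} (he : 0 < e) (hR : e ≤ R) (hR2 : R ≤ 500 / 497 * e)
    (hr : |2 * r| ≤ 3 / 40 * e) (hz : 0 < z) (hdt : 0 < dt) (hMd : Md = -m / dt)
    (hrX : r * dt = Q - X)
    (hd : |d| * |r| * dt ^ 2 ≤ 11 / 200 * X ^ 2 + 1102 / 100 * Q ^ 2) :
    -Par.cb m e dt z + Par.cs X Q e dt z ≤
      2 * ((Md + 2 * (-r + d)) * Real.exp (-(z * (R + 2 * r)))
        + (Md - 2 * (-r + d)) * Real.exp (-(z * (R - 2 * r)))) := by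
  have hp := pair (Md := Md) (d := d) he hR hr hz
  have hdt2 : 0 < dt ^ 2 := by positivity
  have hmax : max 0 (-Md) = max 0 m / dt := by
    rw [hMd, neg_div, neg_neg, ← max_div_div_right hdt.le, zero_div]
  have hcb : Par.cb m e dt z = 2 * (max 0 (-Md) * (Real.exp (-(37 / 40 * z * e)) +
      Real.exp (-(43 / 40 * z * e)))) := by
    rw [hmax]
    unfold Par.cb
    ring
  have hexp1 : Real.exp (-(z * R)) ≤ Real.exp (-(37 / 40 * z * e)) := by
    apply Real.exp_le_exp.mpr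
    have := mul_le_mul_of_nonneg_left hR hz.le
    have := mul_pos hz he
    linarith
  have hexp2 : Real.exp (-(500 / 497 * z * e)) ≤ Real.exp (-(z * R)) := by
    apply Real.exp_le_exp.mpr
    have := mul_le_mul_of_nonneg_left hR2 hz.le
    linarith
  have hr2 : r ^ 2 = (Q - X) ^ 2 / dt ^ 2 := by
    rw [eq_div_iff hdt2.ne', ← hrX]
    ring
  have hdr : |d| * |r| ≤ (11 / 200 * X ^ 2 + 1102 / 100 * Q ^ 2) / dt ^ 2 := by
    rw [le_div_iff₀ hdt2]
    exact hd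
  have hE := Real.exp_pos (-(z * R))
  have hE2 := Real.exp_pos (-(37 / 40 * z * e))
  have key : 19 / 20 * X ^ 2 / dt ^ 2 * Real.exp (-(500 / 497 * z * e))
      - (11 / 200 * X ^ 2 + 1501 / 50 * Q ^ 2) / dt ^ 2 * Real.exp (-(37 / 40 * z * e)) ≤
      r ^ 2 * Real.exp (-(z * R)) - |d| * |r| * Real.exp (-(37 / 40 * z * e)) := by
    have k1 := mul_le_mul_of_nonneg_right hdr hE2.le
    have k2 : 19 / 20 * X ^ 2 / dt ^ 2 * Real.exp (-(500 / 497 * z * e)) ≤
        19 / 20 * X ^ 2 / dt ^ 2 * Real.exp (-(z * R)) :=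
      mul_le_mul_of_nonneg_left hexp2 (by positivity)
    have k3 : 19 * Q ^ 2 / dt ^ 2 * Real.exp (-(z * R)) ≤
        19 * Q ^ 2 / dt ^ 2 * Real.exp (-(37 / 40 * z * e)) :=
      mul_le_mul_of_nonneg_left hexp1 (by positivity)
    have k4 : 19 / 20 * X ^ 2 / dt ^ 2 - 19 * Q ^ 2 / dt ^ 2 ≤ r ^ 2 := by
      rw [hr2, ← sub_div]
      apply div_le_div_of_nonneg_right _ hdt2.le
      nlinarith [sq_nonneg (X - 20 * Q)]
    have k5 := mul_le_mul_of_nonneg_right k4 hE.le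
    have k6 : (11 / 200 * X ^ 2 + 1501 / 50 * Q ^ 2) / dt ^ 2 * Real.exp (-(37 / 40 * z * e)) =
        (11 / 200 * X ^ 2 + 1102 / 100 * Q ^ 2) / dt ^ 2 * Real.exp (-(37 / 40 * z * e)) +
        19 * Q ^ 2 / dt ^ 2 * Real.exp (-(37 / 40 * z * e)) := by ring
    rw [k6]
    linarith
  have hcs : Par.cs X Q e dt z ≤ 16 * z * (r ^ 2 * Real.exp (-(z * R))
      - |d| * |r| * Real.exp (-(37 / 40 * z * e))) := by
    unfold Par.cs
    exact mul_le_mul_of_nonneg_left key (by positivity)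
  rw [hcb]
  linarith

/-- the bound of `|d| |r|` without the `chi`-term -/
theorem dr_le {d r X Q dt : ℝ} (hdt : 0 < dt) (hrX : r * dt = Q - X) (hd : d * dt = -Q) :
    |d| * |r| * dt ^ 2 ≤ 11 / 200 * X ^ 2 + 1102 / 100 * Q ^ 2 := by
  have h1 : |d| * |r| * dt ^ 2 = |Q| * |Q - X| := by
    rw [← hrX, ← abs_neg Q, ← hd, abs_mul, abs_mul, abs_of_pos hdt]
    ring
  rw [h1]
  have h2 : |Q - X| ≤ |Q| + |X| := abs_sub _ _
  have h3 := mul_le_mul_of_nonneg_left h2 (abs_nonneg Q)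
  have h4 := sq_abs Q
  have h5 := sq_abs X
  nlinarith [sq_nonneg (|X| - 20 * |Q|), abs_nonneg Q, abs_nonneg X]

/-- the bound of `|d| |r|` with the `chi`-term -/
theorem dr_le3 {d r X Q dt k : ℝ} (hdt : 0 < dt) (hrX : r * dt = Q - X) (hd : d * dt = -Q + k)
    (hk : |k| ≤ 3 / 160 * |X|) :
    |d| * |r| * dt ^ 2 ≤ 11 / 200 * X ^ 2 + 1102 / 100 * Q ^ 2 := by
  have h1 : |d| * |r| * dt ^ 2 = |-Q + k| * |Q - X| := by
    rw [← hrX, ← hd, abs_mul, abs_mul, abs_of_pos hdt]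
    ring
  rw [h1]
  have h2 : |Q - X| ≤ |Q| + |X| := abs_sub _ _
  have h2' : |-Q + k| ≤ |Q| + 3 / 160 * |X| := by
    have := abs_add_le (-Q) k
    rw [abs_neg] at this
    linarith
  have h3 := mul_le_mul h2' h2 (abs_nonneg _) (by positivity)
  have h4 := sq_abs Q
  have h5 := sq_abs X
  nlinarith [sq_nonneg (|X| - 20 * |Q|), sq_nonneg (|X| - |Q|), abs_nonneg Q, abs_nonneg X]

end ClsAux

/-- the value of a dual vector without the odd part -/
noncomputable def Par.val (q : Par) (z : ℝ) (y : Fin 3 → ℤ) : ℝ :=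
  (q.dM.Ey y + q.dM.Ky y) * Real.exp (-(z * (q.inv.Ey y + q.inv.Ky y)))
    - q.dM.Ky y * Real.exp (-(z * q.inv.Ey y))

/-- the vectors `w = (0, ±1, ±1)` -/
def V1 : List (Fin 3 → ℤ) := [![-1, 1, 0], ![0, 0, -1], ![0, 0, 1], ![1, -1, 0]]
/-- the vectors `w = (±1, 0, ±1)` -/
def V2 : List (Fin 3 → ℤ) := [![-1, 0, 1], ![0, -1, 0], ![0, 1, 0], ![1, 0, -1]]
/-- the vectors `w = (±1, ±1, 0)` -/
def V3 : List (Fin 3 → ℤ) := [![-1, 0, 0], ![0, -1, 1], ![0, 1, -1], ![1, 0, 0]]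

namespace ClsAux

variable {q : Par}

theorem pos3 (h : Reg q) : 0 < q.a ∧ 0 < q.b ∧ 0 < q.c ∧ 0 < q.dt := by
  have h1 := h.ha
  have h2 := h.hab
  have h3 := h.hbc
  have ha : 0 < q.a := by linarith
  have hb : 0 < q.b := by linarith
  have hc : 0 < q.c := by linarith
  refine ⟨ha, hb, hc, ?_⟩
  have h4 := h.dt_lo
  have h5 : 0 < q.a * q.b * q.c := by positivity
  linarith

theorem val1 {z s : ℝ} {y : Fin 3 → ℤ} (h1 : w1 y = 0) (h2 : ((w2 y : ℤ) : ℝ) ^ 2 = 1)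
    (h3 : ((w3 y : ℤ) : ℝ) ^ 2 = 1) (hs : ((w2 y : ℤ) : ℝ) * ((w3 y : ℤ) : ℝ) = s) :
    q.val z y = (q.dM.b + q.dM.c + 2 * (s * q.dM.o1)) *
        Real.exp (-(z * (q.inv.b + q.inv.c + 2 * (s * q.inv.o1))))
      - 2 * (s * q.dM.o1) * Real.exp (-(z * (q.inv.b + q.inv.c))) := by
  have k : ∀ p : Par, p.Ky y = 2 * (s * p.o1) := by
    intro p
    unfold Par.Ky
    rw [h1, ← hs]
    push_cast
    ring
  have e : ∀ p : Par, p.Ey y = p.b + p.c := by
    intro p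
    unfold Par.Ey
    rw [h1, h2, h3]
    push_cast
    ring
  unfold Par.val
  rw [k, k, e, e]

theorem val2 {z s : ℝ} {y : Fin 3 → ℤ} (h1 : w2 y = 0) (h2 : ((w1 y : ℤ) : ℝ) ^ 2 = 1)
    (h3 : ((w3 y : ℤ) : ℝ) ^ 2 = 1) (hs : ((w1 y : ℤ) : ℝ) * ((w3 y : ℤ) : ℝ) = s) :
    q.val z y = (q.dM.a + q.dM.c + 2 * (s * q.dM.o2)) *
        Real.exp (-(z * (q.inv.a + q.inv.c + 2 * (s * q.inv.o2))))
      - 2 * (s * q.dM.o2) * Real.exp (-(z * (q.inv.a + q.inv.c))) := by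
  have k : ∀ p : Par, p.Ky y = 2 * (s * p.o2) := by
    intro p
    unfold Par.Ky
    rw [h1, ← hs]
    push_cast
    ring
  have e : ∀ p : Par, p.Ey y = p.a + p.c := by
    intro p
    unfold Par.Ey
    rw [h1, h2, h3]
    push_cast
    ring
  unfold Par.val
  rw [k, k, e, e]

theorem val3 {z s : ℝ} {y : Fin 3 → ℤ} (h1 : w3 y = 0) (h2 : ((w1 y : ℤ) : ℝ) ^ 2 = 1)
    (h3 : ((w2 y : ℤ) : ℝ) ^ 2 = 1) (hs : ((w1 y : ℤ) : ℝ) * ((w2 y : ℤ) : ℝ) = s) :
    q.val z y = (q.dM.a + q.dM.b + 2 * (s * q.dM.o3)) *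
        Real.exp (-(z * (q.inv.a + q.inv.b + 2 * (s * q.inv.o3))))
      - 2 * (s * q.dM.o3) * Real.exp (-(z * (q.inv.a + q.inv.b))) := by
  have k : ∀ p : Par, p.Ky y = 2 * (s * p.o3) := by
    intro p
    unfold Par.Ky
    rw [h1, ← hs]
    push_cast
    ring
  have e : ∀ p : Par, p.Ey y = p.a + p.b := by
    intro p
    unfold Par.Ey
    rw [h1, h2, h3]
    push_cast
    ring
  unfold Par.val
  rw [k, k, e, e]

end ClsAux

open ClsAux

theorem Reg.cls1 {q : Par} (h : Reg q) {z : ℝ} (hz : 0 < z) :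
    -Par.cb q.m1 q.e1 q.dt z + Par.cs (q.a * q.o1) (q.o2 * q.o3) q.e1 q.dt z ≤
      (V1.map fun y => q.val z y).sum := by
  obtain ⟨ha, hb, hc, hD⟩ := pos3 h
  have hgen := cls_gen (R := q.inv.b + q.inv.c) (r := q.inv.o1) (e := q.e1)
    (d := q.dM.o1 + q.inv.o1) (Md := q.dM.b + q.dM.c) (m := q.m1) (X := q.a * q.o1)
    (Q := q.o2 * q.o3) (dt := q.dt) (z := z) (by unfold Par.e1; positivity)
    (by have h1 := h.inv_b.1; have h2 := h.inv_c.1; unfold Par.e1; linarith)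
    (by have h1 := h.inv_b.2; have h2 := h.inv_c.2; unfold Par.e1; linarith)
    h.off1 hz hD
    (by simp only [Par.dM, Par.m1]; ring)
    (by simp only [Par.inv]; field_simp)
    (dr_le hD (by simp only [Par.inv]; field_simp)
      (by simp only [Par.inv, Par.dM]; field_simp; ring))
  have v1 := val1 (q := q) (z := z) (s := 1) (y := ![-1, 1, 0]) (by simp [w1]) (by simp [w2])
    (by simp [w3]) (by simp [w2, w3])
  have v2 := val1 (q := q) (z := z) (s := -1) (y := ![0, 0, -1]) (by simp [w1]) (by simp [w2])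
    (by simp [w3]) (by simp [w2, w3])
  have v3 := val1 (q := q) (z := z) (s := -1) (y := ![0, 0, 1]) (by simp [w1]) (by simp [w2])
    (by simp [w3]) (by simp [w2, w3])
  have v4 := val1 (q := q) (z := z) (s := 1) (y := ![1, -1, 0]) (by simp [w1]) (by simp [w2])
    (by simp [w3]) (by simp [w2, w3])
  refine le_trans hgen (le_of_eq ?_)
  simp only [V1, List.map_cons, List.map_nil, List.sum_cons, List.sum_nil]
  rw [v1, v2, v3, v4]
  ring_nf

theorem Reg.cls2 {q : Par} (h : Reg q) {z : ℝ} (hz : 0 < z) :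
    -Par.cb q.m2 q.e2 q.dt z + Par.cs (q.b * q.o2) (q.o1 * q.o3) q.e2 q.dt z ≤
      (V2.map fun y => q.val z y).sum := by
  obtain ⟨ha, hb, hc, hD⟩ := pos3 h
  have hgen := cls_gen (R := q.inv.a + q.inv.c) (r := q.inv.o2) (e := q.e2)
    (d := q.dM.o2 + q.inv.o2) (Md := q.dM.a + q.dM.c) (m := q.m2) (X := q.b * q.o2)
    (Q := q.o1 * q.o3) (dt := q.dt) (z := z) (by unfold Par.e2; positivity)
    (by have h1 := h.inv_a.1; have h2 := h.inv_c.1; unfold Par.e2; linarith)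
    (by have h1 := h.inv_a.2; have h2 := h.inv_c.2; unfold Par.e2; linarith)
    h.off2 hz hD
    (by simp only [Par.dM, Par.m2]; ring)
    (by simp only [Par.inv]; field_simp)
    (dr_le hD (by simp only [Par.inv]; field_simp)
      (by simp only [Par.inv, Par.dM]; field_simp; ring))
  have v1 := val2 (q := q) (z := z) (s := 1) (y := ![-1, 0, 1]) (by simp [w2]) (by simp [w1])
    (by simp [w3]) (by simp [w1, w3])
  have v2 := val2 (q := q) (z := z) (s := -1) (y := ![0, -1, 0]) (by simp [w2]) (by simp [w1])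
    (by simp [w3]) (by simp [w1, w3])
  have v3 := val2 (q := q) (z := z) (s := -1) (y := ![0, 1, 0]) (by simp [w2]) (by simp [w1])
    (by simp [w3]) (by simp [w1, w3])
  have v4 := val2 (q := q) (z := z) (s := 1) (y := ![1, 0, -1]) (by simp [w2]) (by simp [w1])
    (by simp [w3]) (by simp [w1, w3])
  refine le_trans hgen (le_of_eq ?_)
  simp only [V2, List.map_cons, List.map_nil, List.sum_cons, List.sum_nil]
  rw [v1, v2, v3, v4]
  ring_nf

theorem Reg.cls3 {q : Par} (h : Reg q) {z : ℝ} (hz : 0 < z) :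
    -Par.cb q.m3 q.e3 q.dt z + Par.cs (q.c * q.o3) (q.o1 * q.o2) q.e3 q.dt z ≤
      (V3.map fun y => q.val z y).sum := by
  obtain ⟨ha, hb, hc, hD⟩ := pos3 h
  have hk : |q.chi * q.o3| ≤ 3 / 160 * |q.c * q.o3| := by
    rw [abs_mul, abs_mul, abs_of_nonneg h.chi_nn, abs_of_pos hc]
    have k1 := h.chi_up
    have k2 := h.c1
    have k3 := mul_le_mul_of_nonneg_right k1 (abs_nonneg q.o3)
    have k4 := mul_le_mul_of_nonneg_right k2 (abs_nonneg q.o3)
    linarith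
  have hgen := cls_gen (R := q.inv.a + q.inv.b) (r := q.inv.o3) (e := q.e3)
    (d := q.dM.o3 + q.inv.o3) (Md := q.dM.a + q.dM.b) (m := q.m3) (X := q.c * q.o3)
    (Q := q.o1 * q.o2) (dt := q.dt) (z := z) (by unfold Par.e3; positivity)
    (by have h1 := h.inv_a.1; have h2 := h.inv_b.1; unfold Par.e3; linarith)
    (by have h1 := h.inv_a.2; have h2 := h.inv_b.2; unfold Par.e3; linarith)
    h.off3 hz hD
    (by simp only [Par.dM, Par.m3]; ring)
    (by simp only [Par.inv]; field_simp)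
    (dr_le3 hD (k := q.chi * q.o3) (by simp only [Par.inv]; field_simp)
      (by simp only [Par.inv, Par.dM]; field_simp; ring) hk)
  have v1 := val3 (q := q) (z := z) (s := 1) (y := ![-1, 0, 0]) (by simp [w3]) (by simp [w1])
    (by simp [w2]) (by simp [w1, w2])
  have v2 := val3 (q := q) (z := z) (s := -1) (y := ![0, -1, 1]) (by simp [w3]) (by simp [w1])
    (by simp [w2]) (by simp [w1, w2])
  have v3 := val3 (q := q) (z := z) (s := -1) (y := ![0, 1, -1]) (by simp [w3]) (by simp [w1])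
    (by simp [w2]) (by simp [w1, w2])
  have v4 := val3 (q := q) (z := z) (s := 1) (y := ![1, 0, 0]) (by simp [w3]) (by simp [w1])
    (by simp [w2]) (by simp [w1, w2])
  refine le_trans hgen (le_of_eq ?_)
  simp only [V3, List.map_cons, List.map_nil, List.sum_cons, List.sum_nil]
  rw [v1, v2, v3, v4]
  ring_nf

namespace ClsAux

/-- the axis sum, one half -/
theorem half {z : ℝ} (hz : 1 ≤ z) (n : ℕ) :
    ((2 * ((n : ℝ) + 1)) ^ 2) * Real.exp (-(z * (2 * ((n : ℝ) + 1)) ^ 2)) ≤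
      4 * Real.exp (-(4 * z)) * (4 * Real.exp (-12)) ^ n := by
  have h1 : ((n : ℝ) + 1) ^ 2 ≤ 4 ^ n := by
    have : ∀ k : ℕ, (k + 1) ^ 2 ≤ 4 ^ k := by
      intro k
      induction k with
      | zero => norm_num
      | succ k ih =>
        rw [pow_succ 4 k]
        nlinarith [Nat.zero_le k, Nat.zero_le (k ^ 2)]
    exact_mod_cast this n
  have h2 : Real.exp (-(z * (2 * ((n : ℝ) + 1)) ^ 2)) ≤ Real.exp (-(4 * z)) * Real.exp (-12) ^ n := by
    rw [← Real.exp_nat_mul, ← Real.exp_add]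
    apply Real.exp_le_exp.mpr
    have hn : (0 : ℝ) ≤ n := Nat.cast_nonneg n
    have hn2 : (n : ℝ) ≤ (n : ℝ) ^ 2 := by
      have : n ≤ n ^ 2 := Nat.le_self_pow two_ne_zero n
      exact_mod_cast this
    nlinarith [mul_nonneg hn (sub_nonneg.mpr hz), mul_nonneg (sq_nonneg (n : ℝ)) (sub_nonneg.mpr hz)]
  calc ((2 * ((n : ℝ) + 1)) ^ 2) * Real.exp (-(z * (2 * ((n : ℝ) + 1)) ^ 2)) ≤
        (4 * 4 ^ n) * (Real.exp (-(4 * z)) * Real.exp (-12) ^ n) := by
        apply mul_le_mul _ h2 (Real.exp_pos _).le (by positivity)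
        nlinarith
    _ = _ := by
        rw [mul_pow]
        ring

theorem qsmall : 4 * Real.exp (-12) ≤ 1 / 801 := by
  have h1 : Real.exp (-12) = (Real.exp 12)⁻¹ := Real.exp_neg 12
  have h2 : (3204 : ℝ) ≤ Real.exp 12 := by
    have h3 : (2.7 : ℝ) ≤ Real.exp 1 := by
      have := Real.exp_one_gt_d9
      linarith
    have h4 : Real.exp 12 = Real.exp 1 ^ 12 := by
      rw [← Real.exp_nat_mul]
      norm_num
    rw [h4]
    calc (3204 : ℝ) ≤ 2.7 ^ 12 := by norm_num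
      _ ≤ _ := pow_le_pow_left₀ (by norm_num) h3 12
  rw [h1]
  rw [← div_eq_mul_inv, div_le_iff₀ (by linarith)]
  linarith

end ClsAux

/-- the one-dimensional sum on an axis, as a sum over even integers `m = 2k` -/
theorem axis_sum {z : ℝ} (hz : 1 ≤ z) :
    Summable (fun m : ℤ => if m % 2 = 0 ∧ m ≠ 0 then (m : ℝ) ^ 2 * Real.exp (-(z * (m : ℝ) ^ 2))
      else 0) ∧
    ∑' m : ℤ, (if m % 2 = 0 ∧ m ≠ 0 then (m : ℝ) ^ 2 * Real.exp (-(z * (m : ℝ) ^ 2)) else 0) ≤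
      801 / 100 * Real.exp (-(4 * z)) := by
  set g : ℤ → ℝ := fun m => if m % 2 = 0 ∧ m ≠ 0 then (m : ℝ) ^ 2 * Real.exp (-(z * (m : ℝ) ^ 2))
      else 0 with hg
  have hinj : Function.Injective (fun k : ℤ => 2 * k) := fun a b h => by
    have : 2 * a = 2 * b := h
    omega
  have hsupp : Function.support g ⊆ Set.range (fun k : ℤ => 2 * k) := by
    intro m hm
    by_contra hcon
    apply hm
    have hodd : ¬ (m % 2 = 0 ∧ m ≠ 0) := by
      rintro ⟨h1, -⟩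
      exact hcon ⟨m / 2, by show 2 * (m / 2) = m; omega⟩
    simp only [hg, if_neg hodd]
  set G : ℤ → ℝ := fun k => g (2 * k) with hG
  have hG0 : G 0 = 0 := by simp [hG, hg]
  have hGp : ∀ n : ℕ, G ((n : ℤ) + 1) =
      ((2 * ((n : ℝ) + 1)) ^ 2) * Real.exp (-(z * (2 * ((n : ℝ) + 1)) ^ 2)) := by
    intro n
    have hc : ((2 * ((n : ℤ) + 1)) % 2 = 0 ∧ (2 * ((n : ℤ) + 1)) ≠ 0) := by omega
    simp only [hG, hg, if_pos hc]
    push_cast
    rfl
  have hGn : ∀ n : ℕ, G (-((n : ℤ) + 1)) =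
      ((2 * ((n : ℝ) + 1)) ^ 2) * Real.exp (-(z * (2 * ((n : ℝ) + 1)) ^ 2)) := by
    intro n
    have hc : ((2 * (-((n : ℤ) + 1))) % 2 = 0 ∧ (2 * (-((n : ℤ) + 1))) ≠ 0) := by omega
    simp only [hG, hg, if_pos hc]
    push_cast
    have : ((2 * (-1 + -(n : ℝ))) ^ 2) = (2 * ((n : ℝ) + 1)) ^ 2 := by ring
    have h' : (2 * -((n : ℝ) + 1)) ^ 2 = (2 * ((n : ℝ) + 1)) ^ 2 := by ring
    rw [h']
  have hq0 : 0 ≤ 4 * Real.exp (-12) := by positivity
  have hq1 : 4 * Real.exp (-12) < 1 := lt_of_le_of_lt qsmall (by norm_num)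
  set M : ℕ → ℝ := fun n => 4 * Real.exp (-(4 * z)) * (4 * Real.exp (-12)) ^ n with hM
  have hMs : Summable M := (summable_geometric_of_lt_one hq0 hq1).mul_left _
  have hMt : ∑' n, M n = 4 * Real.exp (-(4 * z)) * (1 - 4 * Real.exp (-12))⁻¹ := by
    rw [hM, tsum_mul_left, tsum_geometric_of_lt_one hq0 hq1]
  have hpos : ∀ n : ℕ, 0 ≤ G ((n : ℤ) + 1) := fun n => by rw [hGp]; positivity
  have hposn : ∀ n : ℕ, 0 ≤ G (-((n : ℤ) + 1)) := fun n => by rw [hGn]; positivity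
  have hlep : ∀ n : ℕ, G ((n : ℤ) + 1) ≤ M n := fun n => by rw [hGp]; exact half hz n
  have hlen : ∀ n : ℕ, G (-((n : ℤ) + 1)) ≤ M n := fun n => by rw [hGn]; exact half hz n
  have hsp : Summable fun n : ℕ => G ((n : ℤ) + 1) := Summable.of_nonneg_of_le hpos hlep hMs
  have hsn : Summable fun n : ℕ => G (-((n : ℤ) + 1)) := Summable.of_nonneg_of_le hposn hlen hMs
  have hs0 : Summable fun n : ℕ => G (n : ℤ) := by
    rw [← summable_nat_add_iff 1]
    have : (fun n : ℕ => G ((n + 1 : ℕ) : ℤ)) = fun n : ℕ => G ((n : ℤ) + 1) := by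
      funext n
      push_cast
      rfl
    rw [this]
    exact hsp
  have ht0 : ∑' n : ℕ, G (n : ℤ) = ∑' n : ℕ, G ((n : ℤ) + 1) := by
    rw [hs0.tsum_eq_zero_add]
    have : G ((0 : ℕ) : ℤ) = 0 := hG0
    rw [this, zero_add]
    refine tsum_congr fun n => ?_
    push_cast
    rfl
  have hGsum : Summable G := Summable.of_nat_of_neg_add_one hs0 hsn
  have hGt : ∑' k, G k = ∑' n : ℕ, G ((n : ℤ) + 1) + ∑' n : ℕ, G (-((n : ℤ) + 1)) := by
    rw [← ht0]
    exact tsum_of_nat_of_neg_add_one hs0 hsn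
  have hgs : Summable g := by
    have := (hinj.summable_iff (f := g) (fun x hx => by
      by_contra h
      exact hx (hsupp h))).mp hGsum
    exact this
  refine ⟨hgs, ?_⟩
  have hgt : ∑' m, g m = ∑' k, G k := (hinj.tsum_eq hsupp).symm
  show ∑' m, g m ≤ _
  rw [hgt, hGt]
  have b1 := hsp.tsum_le_tsum hlep hMs
  have b2 := hsn.tsum_le_tsum hlen hMs
  rw [hMt] at b1 b2
  have h1 : (1 - 4 * Real.exp (-12))⁻¹ ≤ 801 / 800 := by
    rw [inv_le_comm₀ (by linarith) (by norm_num)]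
    have := qsmall
    norm_num
    linarith
  have h2 := mul_le_mul_of_nonneg_left h1 (by positivity : 0 ≤ 4 * Real.exp (-(4 * z)))
  linarith

end Pool.Agent.Lib.EPT
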