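import Pool.Agent.Lib.EPT.Tree

/-!
# Boxes: part 6
-/

set_option maxRecDepth 100000

namespace Pool.Agent.Lib.EPT

/-- a tree of boxes -/
def dt14 : Tr :=
  (.cc 1916928
   (.ca 1277952
    (.cc 1826816
     (.ca 1196032
      (.cc 1781760
       (.bx [1114112, 1196032, 1216512, 1343488, 1736704, 1781760, 1239320, 33324,
         28372, 3074, 34101, 26360, 3233, 29896, 19005, 5115])
       (.bx [1114112, 1196032, 1171456, 1298432, 1781760, 1826816, 1246858, 35342,
         31730, 2592, 36029, 30813, 2618, 30827, 23779, 3965]))
      (.bx [1196032, 1228800, 1196032, 1261568, 1736704, 1802240, 1206323, 32070,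
        31237, 2901, 29645, 28875, 3395, 24923, 23946, 4870]))
     (.ca 1196032
      (.cc 1871872
       (.bx [1114112, 1183744, 1138688, 1253376, 1826816, 1871872, 1248978, 37974,
         35472, 2158, 38412, 35206, 2149, 32732, 28617, 3103])
       (.bx [1114112, 1161216, 1116160, 1208320, 1871872, 1916928, 1246245, 41268,
         39623, 1778, 41194, 39494, 1787, 35478, 33525, 2444]))
      .em))
    .em)
   (.bx [1114112, 1138688, 1114112, 1163264, 1916928, 1966080, 1232643, 45249,
     44293, 1450, 43917, 42989, 1540, 38730, 37740, 1989]))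

theorem dt14_ok : dt14.chk 1114112 1441792 1736704 2097152 = true := by
  decide +kernel

theorem dt14_done : Done 1114112 1441792 1736704 2097152 := Tr.done _ _ _ _ _ dt14_ok

end Pool.Agent.Lib.EPT
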