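import Pool.Agent.Lib.EPT.Dat1
import Pool.Agent.Lib.EPT.Dat2
import Pool.Agent.Lib.EPT.Dat3
import Pool.Agent.Lib.EPT.Dat4
import Pool.Agent.Lib.EPT.Dat5
import Pool.Agent.Lib.EPT.Dat6

/-!
# No critical forms off the plane in the region
-/

namespace Pool.Agent.Lib.EPT

open Pool.Agent.Lib.EpZ Pool.Agent.Lib.EPS Pool.Agent.Lib.EPL

theorem all_done : Done 786432 1441792 1376256 2097152 :=
  Done.cc 1736704 (Done.ca 1114112 dt1_done dt2_done)
    (Done.ca 1114112
      (Done.cc 1916928 (Done.ca 950272 dt3_done dt4_done)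
        (Done.ca 950272
          (Done.cc 2007040 dt5_done (Done.ca 868352 dt6_done (Done.cc 2052096 dt7_done dt8_done)))
          (Done.cc 2007040 dt9_done
            (Done.ca 1032192 (Done.cc 2052096 dt10_done (Done.ca 991232 dt11_done dt12_done))
              dt13_done))))
      dt14_done)

/-- in the region `Reg`, a form off the plane `o1 = o2 = o3 = 0` is not a local minimum -/
theorem Reg.notMin {q : Par} (h : Reg q) (ho : ¬(q.o1 = 0 ∧ q.o2 = 0 ∧ q.o3 = 0)) {s : ℝ}
    (hs : 3 / 2 < s) : ¬ LocMin s q.mat := by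
  have g1 := h.sum
  have g2 := h.ha
  have g3 := h.hab
  have g4 := h.hbc
  have g5 := h.hc
  have g10 := h.a2
  have g11 := h.c1
  refine all_done q h ?_ ?_ ?_ ?_ ho s hs
  · norm_num
    linarith
  · norm_num
    linarith
  · norm_num
    linarith
  · norm_num
    linarith

end Pool.Agent.Lib.EPT
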