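import Pool.Agent.Lib.EPT.Fun

/-!
# A crossing lemma for the direct integral

PROOF.  Let `σ = s - 3/2 > 0`.
Case `0 ≤ L τ`: then `L ≥ 0` on `[τ, t1]` (monotonicity of `exp t * L t`), so `T ≥ L ≥ 0` on `(τ, t1]`
and `T ≥ 0` beyond; pointwise `t^s T t ≥ τ^σ t^(3/2) T t ≥ τ^σ t^(3/2) L t`; integrate.
Case `L τ < 0`: let `c = sSup {t | τ ≤ t ∧ t ≤ t1 ∧ L t < 0}`, `τ ≤ c ≤ t1`.  For `τ < t < c`: `L t < 0`
(monotonicity), so `t^s T t ≥ t^σ t^(3/2) L t ≥ c^σ t^(3/2) L t`.  For `t > c`: `T t ≥ 0` (if `t ≤ t1`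
then `L t ≥ 0`), so `t^s T t ≥ c^σ t^(3/2) T t ≥ c^σ t^(3/2) L t`; `t = c`: equality of the powers.
So the integral is at least `c^σ J ≥ τ^σ J` (`J ≥ 0`).
-/

open MeasureTheory Set

namespace Pool.Agent.Lib.EPT

theorem cross {T L : ℝ → ℝ} {τ t1 : ℝ} (hτ : 0 < τ) (h1 : τ ≤ t1)
    (hL : ∀ t, τ < t → L t ≤ T t) (hb : ∀ t, t1 ≤ t → 0 ≤ T t)
    (hm : ∀ t t', τ ≤ t → t ≤ t' → t' ≤ t1 → Real.exp t * L t ≤ Real.exp t' * L t')
    (hiL : IntegrableOn (fun t : ℝ => t ^ (3 / 2 : ℝ) * L t) (Ioi τ))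
    (hJ : 0 ≤ ∫ t in Ioi τ, t ^ (3 / 2 : ℝ) * L t) {s : ℝ} (hs : 3 / 2 < s)
    (hiT : IntegrableOn (fun t : ℝ => t ^ s * T t) (Ioi τ)) :
    τ ^ (s - 3 / 2) * ∫ t in Ioi τ, t ^ (3 / 2 : ℝ) * L t ≤ ∫ t in Ioi τ, t ^ s * T t := by
  have hσ : 0 < s - 3 / 2 := by linarith
  obtain ⟨c, hc, hc1, hc2⟩ : ∃ c : ℝ, τ ≤ c ∧ (∀ t, τ < t → t < c → L t < 0) ∧
      (∀ t, τ < t → c < t → 0 ≤ T t) := by
    by_cases hne : {t : ℝ | τ ≤ t ∧ t ≤ t1 ∧ L t < 0}.Nonempty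
    · have hbd : BddAbove {t : ℝ | τ ≤ t ∧ t ≤ t1 ∧ L t < 0} := ⟨t1, fun t ht => ht.2.1⟩
      refine ⟨sSup {t : ℝ | τ ≤ t ∧ t ≤ t1 ∧ L t < 0}, ?_, ?_, ?_⟩
      · obtain ⟨t0, ht0⟩ := hne
        exact ht0.1.trans (le_csSup hbd ht0)
      · intro t ht htc
        obtain ⟨t', ht', htt'⟩ := exists_lt_of_lt_csSup hne htc
        have h3 := hm t t' ht.le htt'.le ht'.2.1
        by_contra hcon
        push Not at hcon
        have h4 : 0 ≤ Real.exp t * L t := mul_nonneg (Real.exp_pos t).le hcon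
        have h5 : Real.exp t' * L t' < 0 := mul_neg_of_pos_of_neg (Real.exp_pos t') ht'.2.2
        linarith
      · intro t ht htc
        by_cases ht1 : t1 ≤ t
        · exact hb t ht1
        · push Not at ht1
          have h3 : 0 ≤ L t := by
            by_contra hcon
            push Not at hcon
            exact absurd (le_csSup hbd (show t ∈ {t : ℝ | τ ≤ t ∧ t ≤ t1 ∧ L t < 0} from
              ⟨ht.le, ht1.le, hcon⟩)) (not_le.mpr htc)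
          exact h3.trans (hL t ht)
    · refine ⟨τ, le_refl _, fun t h3 h4 => absurd h3 (not_lt.mpr h4.le), ?_⟩
      intro t ht _
      by_cases ht1 : t1 ≤ t
      · exact hb t ht1
      · push Not at ht1
        have h3 : 0 ≤ L t := by
          by_contra hcon
          push Not at hcon
          exact hne ⟨t, ht.le, ht1.le, hcon⟩
        exact h3.trans (hL t ht)
  have hc0 : 0 < c := lt_of_lt_of_le hτ hc
  have key : ∀ t ∈ Ioi τ, c ^ (s - 3 / 2) * (t ^ (3 / 2 : ℝ) * L t) ≤ t ^ s * T t := by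
    intro t ht
    have ht' : τ < t := ht
    have ht0 : 0 < t := hτ.trans ht'
    have h3 : t ^ s = t ^ (s - 3 / 2) * t ^ (3 / 2 : ℝ) := by
      rw [← Real.rpow_add ht0]
      congr 1
      ring
    have h4 : c ^ (s - 3 / 2) * L t ≤ t ^ (s - 3 / 2) * T t := by
      rcases lt_trichotomy t c with h | h | h
      · have h5 : t ^ (s - 3 / 2) ≤ c ^ (s - 3 / 2) :=
          Real.rpow_le_rpow ht0.le h.le hσ.le
        have h6 : L t < 0 := hc1 t ht' h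
        calc c ^ (s - 3 / 2) * L t ≤ t ^ (s - 3 / 2) * L t :=
              mul_le_mul_of_nonpos_right h5 h6.le
          _ ≤ t ^ (s - 3 / 2) * T t :=
              mul_le_mul_of_nonneg_left (hL t ht') (Real.rpow_nonneg ht0.le _)
      · rw [← h]
        exact mul_le_mul_of_nonneg_left (hL t ht') (Real.rpow_nonneg ht0.le _)
      · have h5 : c ^ (s - 3 / 2) ≤ t ^ (s - 3 / 2) :=
          Real.rpow_le_rpow hc0.le h.le hσ.le
        have h6 : 0 ≤ T t := hc2 t ht' h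
        calc c ^ (s - 3 / 2) * L t ≤ c ^ (s - 3 / 2) * T t :=
              mul_le_mul_of_nonneg_left (hL t ht') (Real.rpow_nonneg hc0.le _)
          _ ≤ t ^ (s - 3 / 2) * T t := mul_le_mul_of_nonneg_right h5 h6
    have h7 : 0 ≤ t ^ (3 / 2 : ℝ) := Real.rpow_nonneg ht0.le _
    calc c ^ (s - 3 / 2) * (t ^ (3 / 2 : ℝ) * L t)
        = t ^ (3 / 2 : ℝ) * (c ^ (s - 3 / 2) * L t) := by ring
      _ ≤ t ^ (3 / 2 : ℝ) * (t ^ (s - 3 / 2) * T t) := mul_le_mul_of_nonneg_left h4 h7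
      _ = t ^ s * T t := by rw [h3]; ring
  have hint : ∫ t in Ioi τ, c ^ (s - 3 / 2) * (t ^ (3 / 2 : ℝ) * L t)
      ≤ ∫ t in Ioi τ, t ^ s * T t :=
    setIntegral_mono_on (hiL.const_mul _) hiT measurableSet_Ioi key
  rw [integral_const_mul] at hint
  have h8 : τ ^ (s - 3 / 2) ≤ c ^ (s - 3 / 2) := Real.rpow_le_rpow hτ.le hc hσ.le
  exact (mul_le_mul_of_nonneg_right h8 hJ).trans hint

end Pool.Agent.Lib.EPT
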