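import Pool.Agent.Lib.EPT.Good

/-!
# The direct side

PROOF.  `dir_lower`: `Th_dir`, linearity of the sum (`Reg.good`, `Reg.sum_n3`), `chi ≥ 0`.
`dir_late`: let `lam = 1 - chi/4`, `h x = -Kx - chi u3²/4`, `Q = Ex x + Kx x`.  For `t ≥ t1`:
 * `x ∈ O1`: `h x = -(Kx + chi/4) = lam - Q x` (`Ex = 1`, `u3² = 1`), so
   `h e^(-tQ) ≥ e^(-(t-t1) lam) h e^(-t1 Q)` (if `h ≥ 0` then `Q ≤ lam`, if `h ≤ 0` then `Q ≥ lam`);
 * `x ∉ O1`: `h e^(-tQ) = -Kx e^(-tQ) - (chi u3²/4) e^(-tQ)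
     ≥ -Kx e^(-t Ex) - (chi u3²/4) e^(-(t-t1) lam) e^(-t1 Q)`, because `-K (e^(-tK) - 1) ≥ 0` and
   `Q ≥ 1 ≥ lam` when `u3 ≠ 0`, `x ∉ O1`: `Q ≥ (11/12) Ex`, and `Ex ≥ c ≥ 4/3` if the `u_i` are even,
   `Ex ≥ 1 + 2a ≥ 5/2` if they are odd and not all of absolute value `1`.
Sum: `Th t ≥ e^(-(t-t1) lam) [∑_{O1} (-Kx) e^(-t1 Q) - chi ∑_x (u3²/4) e^(-t1 Q)] + ∑_{x ∉ O1} (-Kx) e^(-t Ex)`,
the last sum is `0` (`Reg.sum_K` and `∑_{O1} Kx = 0`, `Ex = 1` on `O1`), and the bracket is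
`≥ (2 t1 S2 - 3 t1² pp) e^(-t1) - chi Nn t1 ≥ 0` (`Reg.good_O1`, `Reg.sum_n3`).
(Pointwise inequality for all `x`, with an indicator of `O1`, then `tsum` monotonicity.)
-/

namespace Pool.Agent.Lib.EPT

open Pool.Agent.Lib.EpZ Pool.Agent.Lib.EPS Pool.Agent.Lib.EPL

namespace DirAux

theorem hasSum_list (l : List (Fin 3 → ℤ)) (hl : l.Nodup) (f : (Fin 3 → ℤ) → ℝ) :
    HasSum (fun x => if x ∈ l then f x else 0) ((l.map f).sum) := by
  classical
  have h : HasSum (fun x => if x ∈ l then f x else 0)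
      (∑ x ∈ l.toFinset, (if x ∈ l then f x else 0)) :=
    hasSum_sum_of_ne_finset_zero (fun x hx => by
      have hx' : x ∉ l := by simpa using hx
      simp [hx'])
  have e : ∑ x ∈ l.toFinset, (if x ∈ l then f x else 0) = (l.map f).sum := by
    have e1 : ∑ x ∈ l.toFinset, (if x ∈ l then f x else 0) = ∑ x ∈ l.toFinset, f x :=
      Finset.sum_congr rfl (fun x hx => by
        have hx' : x ∈ l := by simpa using hx
        simp [hx'])
    rw [e1, List.sum_toFinset f hl]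
  rw [← e]
  exact h

theorem O1_nodup : O1.Nodup := by decide

theorem K_mono (K t : ℝ) (ht : 0 ≤ t) : 0 ≤ -K * (Real.exp (-(t * K)) - 1) := by
  rcases le_total 0 K with hK | hK
  · have h1 : Real.exp (-(t * K)) ≤ 1 := by
      rw [Real.exp_le_one_iff]
      nlinarith [mul_nonneg ht hK]
    nlinarith [mul_nonneg hK (sub_nonneg.mpr h1)]
  · have h1 : 1 ≤ Real.exp (-(t * K)) := by
      apply Real.one_le_exp
      nlinarith [mul_nonneg ht (neg_nonneg.mpr hK)]
    nlinarith [mul_nonneg (neg_nonneg.mpr hK) (sub_nonneg.mpr h1)]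

theorem Ex_O1 {q : Par} (h : Reg q) {x : Fin 3 → ℤ} (hx : x ∈ O1) :
    q.Ex x = 1 ∧ (u3 x : ℝ) ^ 2 = 1 := by
  obtain ⟨h1, h2, h3⟩ := mem_O1.mp hx
  have k1 : ((u1 x : ℤ) : ℝ) ^ 2 = 1 := by
    have : (u1 x) ^ 2 = 1 := by rw [← sq_abs, h1]; norm_num
    exact_mod_cast this
  have k2 : ((u2 x : ℤ) : ℝ) ^ 2 = 1 := by
    have : (u2 x) ^ 2 = 1 := by rw [← sq_abs, h2]; norm_num
    exact_mod_cast this
  have k3 : ((u3 x : ℤ) : ℝ) ^ 2 = 1 := by
    have : (u3 x) ^ 2 = 1 := by rw [← sq_abs, h3]; norm_num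
    exact_mod_cast this
  refine ⟨?_, k3⟩
  unfold Par.Ex
  rw [k1, k2, k3]
  have := h.sum
  linarith

theorem Ex_far {q : Par} (h : Reg q) {x : Fin 3 → ℤ} (hx : x ∉ O1) (h3 : u3 x ≠ 0) :
    4 / 3 ≤ q.Ex x := by
  have hc1 := h.c1
  have ha := h.ha
  have hab := h.hab
  have hbc := h.hbc
  have hs := h.sum
  have n1 : (0 : ℝ) ≤ (u1 x : ℝ) ^ 2 := sq_nonneg _
  have n2 : (0 : ℝ) ≤ (u2 x : ℝ) ^ 2 := sq_nonneg _
  have n3 : (0 : ℝ) ≤ (u3 x : ℝ) ^ 2 := sq_nonneg _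
  rcases Int.even_or_odd (u3 x) with he | ho
  · -- even
    have k : (4 : ℤ) ≤ (u3 x) ^ 2 := by
      obtain ⟨m, hm⟩ := he
      have hm0 : m ≠ 0 := by
        rintro rfl
        exact h3 (by simpa using hm)
      have : 1 ≤ m ^ 2 := by
        have := sq_pos_of_ne_zero hm0
        omega
      rw [hm]
      nlinarith
    have k' : (4 : ℝ) ≤ (u3 x : ℝ) ^ 2 := by exact_mod_cast k
    unfold Par.Ex
    have e1 : 0 ≤ q.a * (u1 x : ℝ) ^ 2 := mul_nonneg (by linarith) n1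
    have e2 : 0 ≤ q.b * (u2 x : ℝ) ^ 2 := mul_nonneg (by linarith) n2
    have e3 : 4 / 3 * 4 ≤ q.c * (u3 x : ℝ) ^ 2 :=
      mul_le_mul hc1 k' (by norm_num) (by linarith)
    linarith
  · -- odd
    have p1 : Odd (u1 x) := by
      have : u1 x = u3 x + 2 * x 1 := by unfold u1 u3; ring
      rw [this]
      exact ho.add_even (even_two_mul _)
    have p2 : Odd (u2 x) := by
      have : u2 x = u3 x + 2 * x 2 := by unfold u2 u3; ring
      rw [this]
      exact ho.add_even (even_two_mul _)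
    have one : ∀ m : ℤ, Odd m → 1 ≤ m ^ 2 := by
      intro m hm
      have : m ≠ 0 := by
        rintro rfl
        simp at hm
      have := sq_pos_of_ne_zero this
      omega
    have nine : ∀ m : ℤ, Odd m → |m| ≠ 1 → 9 ≤ m ^ 2 := by
      intro m hm h1
      obtain ⟨k, rfl⟩ := hm
      have hk : k ≤ -2 ∨ 1 ≤ k := by
        by_contra hcon
        push Not at hcon
        have : k = -1 ∨ k = 0 := by omega
        rcases this with rfl | rfl
        · exact h1 (by norm_num)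
        · exact h1 (by norm_num)
      rcases hk with hk | hk
      · nlinarith
      · nlinarith
    have q1 : (1 : ℝ) ≤ (u1 x : ℝ) ^ 2 := by exact_mod_cast one _ p1
    have q2 : (1 : ℝ) ≤ (u2 x : ℝ) ^ 2 := by exact_mod_cast one _ p2
    have q3 : (1 : ℝ) ≤ (u3 x : ℝ) ^ 2 := by exact_mod_cast one _ ho
    have hne : |u1 x| ≠ 1 ∨ |u2 x| ≠ 1 ∨ |u3 x| ≠ 1 := by
      by_contra hcon
      push Not at hcon
      exact hx (mem_O1.mpr ⟨hcon.1, hcon.2.1, hcon.2.2⟩)
    unfold Par.Ex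
    have e1 : q.a * 1 ≤ q.a * (u1 x : ℝ) ^ 2 := mul_le_mul_of_nonneg_left q1 (by linarith)
    have e2 : q.b * 1 ≤ q.b * (u2 x : ℝ) ^ 2 := mul_le_mul_of_nonneg_left q2 (by linarith)
    have e3 : q.c * 1 ≤ q.c * (u3 x : ℝ) ^ 2 := mul_le_mul_of_nonneg_left q3 (by linarith)
    rcases hne with hh | hh | hh
    · have r : (9 : ℝ) ≤ (u1 x : ℝ) ^ 2 := by exact_mod_cast nine _ p1 hh
      have : q.a * 9 ≤ q.a * (u1 x : ℝ) ^ 2 := mul_le_mul_of_nonneg_left r (by linarith)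
      linarith
    · have r : (9 : ℝ) ≤ (u2 x : ℝ) ^ 2 := by exact_mod_cast nine _ p2 hh
      have : q.b * 9 ≤ q.b * (u2 x : ℝ) ^ 2 := mul_le_mul_of_nonneg_left r (by linarith)
      linarith
    · have r : (9 : ℝ) ≤ (u3 x : ℝ) ^ 2 := by exact_mod_cast nine _ ho hh
      have : q.c * 9 ≤ q.c * (u3 x : ℝ) ^ 2 := mul_le_mul_of_nonneg_left r (by linarith)
      linarith

theorem Q_far {q : Par} (h : Reg q) {x : Fin 3 → ℤ} (hx : x ∉ O1) (h3 : u3 x ≠ 0) :
    1 ≤ q.Ex x + q.Kx x := by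
  have h1 := Ex_far h hx h3
  have h2 := (abs_le.mp (h.Kx_le x)).1
  linarith

theorem list_K_zero (q : Par) : (O1.map fun x => q.Kx x).sum = 0 := by
  simp [O1, Par.Kx, u1, u2, u3]
  ring

theorem list_K_zero' {q : Par} (h : Reg q) (t : ℝ) :
    (O1.map fun x => q.Kx x * Real.exp (-(t * q.Ex x))).sum = 0 := by
  have e : (O1.map fun x => q.Kx x * Real.exp (-(t * q.Ex x)))
      = (O1.map fun x => q.Kx x * Real.exp (-t)) := by
    apply List.map_congr_left
    intro x hx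
    rw [(Ex_O1 h hx).1, mul_one]
  rw [e, List.sum_map_mul_right, list_K_zero, zero_mul]

end DirAux

open DirAux

theorem Reg.dir_lower {q : Par} (h : Reg q) {t : ℝ} (ht : 3 ≤ t) :
    q.Gg t - q.chi * q.Nn t ≤ Th q.mat q.dir.mat t := by
  obtain ⟨sg, hg⟩ := h.good (t := t) (by linarith)
  obtain ⟨sn, hn⟩ := h.sum_n3 ht
  rw [Th_dir]
  have e : (fun x : Fin 3 → ℤ => (-q.Kx x - q.chi * (u3 x : ℝ) ^ 2 / 4)
      * Real.exp (-(t * (q.Ex x + q.Kx x)))) =
      fun x => -q.Kx x * Real.exp (-(t * (q.Ex x + q.Kx x)))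
        - q.chi * ((u3 x : ℝ) ^ 2 / 4 * Real.exp (-(t * (q.Ex x + q.Kx x)))) := by
    funext x
    ring
  rw [e, sg.tsum_sub (sn.mul_left q.chi), tsum_mul_left]
  have := mul_le_mul_of_nonneg_left hn h.chi_nn
  linarith

theorem Reg.dir_late {q : Par} (h : Reg q) {t1 t : ℝ} (h1 : 3 ≤ t1) (ht : t1 ≤ t)
    (hb : 0 ≤ (2 * t1 * q.S2 - 3 * t1 ^ 2 * q.pp) * Real.exp (-t1) - q.chi * q.Nn t1) :
    0 ≤ Th q.mat q.dir.mat t := by
  have hchi := h.chi_nn
  obtain ⟨sg, -⟩ := h.good (t := t) (by linarith)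
  obtain ⟨sn, -⟩ := h.sum_n3 (t := t) (by linarith)
  obtain ⟨sn1, hn1⟩ := h.sum_n3 (t := t1) h1
  obtain ⟨sK, hK⟩ := h.sum_K (t := t) (by linarith)
  have hO := h.good_O1 (t := t1) (by linarith)
  set lam : ℝ := 1 - q.chi / 4 with hlam
  set s : ℝ := Real.exp (-((t - t1) * lam)) with hs
  have hspos : 0 < s := Real.exp_pos _
  have hd : 0 ≤ t - t1 := by linarith
  -- the four pieces
  have A1 := hasSum_list O1 O1_nodup (fun x => -q.Kx x * Real.exp (-(t1 * (q.Ex x + q.Kx x))))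
  have A4 := hasSum_list O1 O1_nodup (fun x => q.Kx x * Real.exp (-(t * q.Ex x)))
  rw [list_K_zero' h t] at A4
  have A2 := sn1.hasSum
  have A3 := sK.hasSum
  rw [hK] at A3
  have A := ((A1.mul_left s).sub (A2.mul_left (s * q.chi))).add (A4.sub A3)
  have hT : Th q.mat q.dir.mat t = ∑' x : Fin 3 → ℤ, (-q.Kx x - q.chi * (u3 x : ℝ) ^ 2 / 4)
      * Real.exp (-(t * (q.Ex x + q.Kx x))) := Th_dir q t
  have e : (fun x : Fin 3 → ℤ => (-q.Kx x - q.chi * (u3 x : ℝ) ^ 2 / 4)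
      * Real.exp (-(t * (q.Ex x + q.Kx x)))) =
      fun x => -q.Kx x * Real.exp (-(t * (q.Ex x + q.Kx x)))
        - q.chi * ((u3 x : ℝ) ^ 2 / 4 * Real.exp (-(t * (q.Ex x + q.Kx x)))) := by
    funext x
    ring
  have sT : Summable (fun x : Fin 3 → ℤ => (-q.Kx x - q.chi * (u3 x : ℝ) ^ 2 / 4)
      * Real.exp (-(t * (q.Ex x + q.Kx x)))) := by
    rw [e]
    exact sg.sub (sn.mul_left q.chi)
  have key : ∀ x : Fin 3 → ℤ,
      s * (if x ∈ O1 then -q.Kx x * Real.exp (-(t1 * (q.Ex x + q.Kx x))) else 0)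
        - s * q.chi * ((u3 x : ℝ) ^ 2 / 4 * Real.exp (-(t1 * (q.Ex x + q.Kx x))))
        + ((if x ∈ O1 then q.Kx x * Real.exp (-(t * q.Ex x)) else 0)
          - q.Kx x * Real.exp (-(t * q.Ex x)))
      ≤ (-q.Kx x - q.chi * (u3 x : ℝ) ^ 2 / 4) * Real.exp (-(t * (q.Ex x + q.Kx x))) := by
    intro x
    have esplit : Real.exp (-(t * (q.Ex x + q.Kx x)))
        = Real.exp (-((t - t1) * (q.Ex x + q.Kx x))) * Real.exp (-(t1 * (q.Ex x + q.Kx x))) := by
      rw [← Real.exp_add]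
      congr 1
      ring
    by_cases hx : x ∈ O1
    · obtain ⟨hE, hu⟩ := Ex_O1 h hx
      simp only [if_pos hx, sub_self, add_zero]
      rw [esplit, hu, hE]
      set E1 := Real.exp (-(t1 * (1 + q.Kx x)))
      have hE1 : 0 < E1 := Real.exp_pos _
      have hm : 0 ≤ (-q.Kx x - q.chi / 4) * (Real.exp (-((t - t1) * (1 + q.Kx x))) - s) := by
        rcases le_total 0 (-q.Kx x - q.chi / 4) with hp | hp
        · have : s ≤ Real.exp (-((t - t1) * (1 + q.Kx x))) := by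
            rw [hs]
            apply Real.exp_le_exp.mpr
            have : (t - t1) * (1 + q.Kx x) ≤ (t - t1) * lam :=
              mul_le_mul_of_nonneg_left (by rw [hlam]; linarith) hd
            linarith
          exact mul_nonneg hp (sub_nonneg.mpr this)
        · have : Real.exp (-((t - t1) * (1 + q.Kx x))) ≤ s := by
            rw [hs]
            apply Real.exp_le_exp.mpr
            have : (t - t1) * lam ≤ (t - t1) * (1 + q.Kx x) :=
              mul_le_mul_of_nonneg_left (by rw [hlam]; linarith) hd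
            linarith
          exact mul_nonneg_of_nonpos_of_nonpos hp (sub_nonpos.mpr this)
      have := mul_nonneg hm hE1.le
      nlinarith [this]
    · simp only [if_neg hx, mul_zero, zero_sub]
      have hEK : -q.Kx x * Real.exp (-(t * q.Ex x)) ≤
          -q.Kx x * Real.exp (-(t * (q.Ex x + q.Kx x))) := by
        have e2 : Real.exp (-(t * (q.Ex x + q.Kx x)))
            = Real.exp (-(t * q.Kx x)) * Real.exp (-(t * q.Ex x)) := by
          rw [← Real.exp_add]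
          congr 1
          ring
        rw [e2]
        have := mul_nonneg (K_mono (q.Kx x) t (by linarith)) (Real.exp_pos (-(t * q.Ex x))).le
        nlinarith [this]
      have hU : q.chi * ((u3 x : ℝ) ^ 2 / 4) * Real.exp (-(t * (q.Ex x + q.Kx x))) ≤
          s * q.chi * ((u3 x : ℝ) ^ 2 / 4 * Real.exp (-(t1 * (q.Ex x + q.Kx x)))) := by
        by_cases h3 : u3 x = 0
        · simp [h3]
        · have hQ := Q_far h hx h3
          have hle : Real.exp (-((t - t1) * (q.Ex x + q.Kx x))) ≤ s := by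
            rw [hs]
            apply Real.exp_le_exp.mpr
            have : (t - t1) * lam ≤ (t - t1) * (q.Ex x + q.Kx x) :=
              mul_le_mul_of_nonneg_left (by rw [hlam]; linarith) hd
            linarith
          rw [esplit]
          have hE1 : 0 < Real.exp (-(t1 * (q.Ex x + q.Kx x))) := Real.exp_pos _
          have hc : 0 ≤ q.chi * ((u3 x : ℝ) ^ 2 / 4) := by positivity
          have := mul_le_mul_of_nonneg_left hle
            (mul_nonneg hc hE1.le)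
          nlinarith [this]
      nlinarith [hEK, hU]
  rw [hT]
  have hle := hasSum_le key A sT.hasSum
  have hfin : 0 ≤ s * ((O1.map fun x => -q.Kx x * Real.exp (-(t1 * (q.Ex x + q.Kx x)))).sum)
      - s * q.chi * ∑' x : Fin 3 → ℤ, (u3 x : ℝ) ^ 2 / 4 * Real.exp (-(t1 * (q.Ex x + q.Kx x)))
      + (0 - 0) := by
    have hc2 := mul_le_mul_of_nonneg_left hn1 hchi
    have : 0 ≤ (O1.map fun x => -q.Kx x * Real.exp (-(t1 * (q.Ex x + q.Kx x)))).sum
        - q.chi * ∑' x : Fin 3 → ℤ, (u3 x : ℝ) ^ 2 / 4 *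
          Real.exp (-(t1 * (q.Ex x + q.Kx x))) := by linarith
    have := mul_nonneg hspos.le this
    nlinarith [this]
  exact hfin.trans hle

end Pool.Agent.Lib.EPT
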