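import Pool.Agent.Lib.EPT.Fun

/-!
# Three-dimensional sums of products, and domination

PROOF. `tri_sum`: `Summable.tsum_mul_tsum_of_summable_norm` twice (or `Summable.mul_of_nonneg` and
`tsum_mul_tsum_of_summable_norm`).  `inj_u`: `u1 + u2 = 2 x0`, `u1 - u3 = 2 x1`, `u2 - u3 = 2 x2`.
`inj_w`: `w1 + w2 + w3 = 2 y0`, then `y1 = w1 - y0`, `y2 = w2 - y0`.  `le_of_inj`: comparison
(`Summable.of_nonneg_of_le`, `Summable.comp_injective`) and `tsum_comp_le_tsum_of_inj`.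
-/

namespace Pool.Agent.Lib.EPT

theorem tri_sum {f g h : ℤ → ℝ} (hf : ∀ m, 0 ≤ f m) (hg : ∀ m, 0 ≤ g m) (hh : ∀ m, 0 ≤ h m)
    (sf : Summable f) (sg : Summable g) (sh : Summable h) :
    Summable (fun m : ℤ × ℤ × ℤ => f m.1 * g m.2.1 * h m.2.2) ∧
      ∑' m : ℤ × ℤ × ℤ, f m.1 * g m.2.1 * h m.2.2 = (∑' m, f m) * (∑' m, g m) * ∑' m, h m := by
  have sgh : Summable (fun p : ℤ × ℤ => g p.1 * h p.2) := sg.mul_of_nonneg sh hg hh
  have ngh : ∀ p : ℤ × ℤ, 0 ≤ g p.1 * h p.2 := fun p => mul_nonneg (hg _) (hh _)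
  have sfgh : Summable (fun m : ℤ × ℤ × ℤ => f m.1 * (g m.2.1 * h m.2.2)) :=
    sf.mul_of_nonneg sgh hf ngh
  have e : (fun m : ℤ × ℤ × ℤ => f m.1 * g m.2.1 * h m.2.2)
      = fun m : ℤ × ℤ × ℤ => f m.1 * (g m.2.1 * h m.2.2) := by
    funext m
    ring
  refine ⟨by rw [e]; exact sfgh, ?_⟩
  rw [e, ← sf.tsum_mul_tsum sgh sfgh, ← sg.tsum_mul_tsum sh sgh, mul_assoc]

theorem tri_le {f g h : ℤ → ℝ} {F G H : ℝ} (hf : ∀ m, 0 ≤ f m) (hg : ∀ m, 0 ≤ g m)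
    (hh : ∀ m, 0 ≤ h m) (sf : Summable f) (sg : Summable g) (sh : Summable h)
    (bf : ∑' m, f m ≤ F) (bg : ∑' m, g m ≤ G) (bh : ∑' m, h m ≤ H) :
    Summable (fun m : ℤ × ℤ × ℤ => f m.1 * g m.2.1 * h m.2.2) ∧
      ∑' m : ℤ × ℤ × ℤ, f m.1 * g m.2.1 * h m.2.2 ≤ F * G * H := by
  obtain ⟨s, e⟩ := tri_sum hf hg hh sf sg sh
  refine ⟨s, ?_⟩
  rw [e]
  have nf : 0 ≤ ∑' m, f m := tsum_nonneg hf
  have ng : 0 ≤ ∑' m, g m := tsum_nonneg hg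
  have nh : 0 ≤ ∑' m, h m := tsum_nonneg hh
  have h1 : (∑' m, f m) * (∑' m, g m) ≤ F * G := mul_le_mul bf bg ng (nf.trans bf)
  exact mul_le_mul h1 bh nh (mul_nonneg (nf.trans bf) (ng.trans bg))

theorem inj_u : Function.Injective fun x : Fin 3 → ℤ => (u1 x, u2 x, u3 x) := by
  intro x y hxy
  simp only [Prod.mk.injEq, u1, u2, u3] at hxy
  obtain ⟨h1, h2, h3⟩ := hxy
  funext i
  fin_cases i
  · show x 0 = y 0
    omega
  · show x 1 = y 1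
    omega
  · show x 2 = y 2
    omega

theorem inj_w : Function.Injective fun y : Fin 3 → ℤ => (w1 y, w2 y, w3 y) := by
  intro x y hxy
  simp only [Prod.mk.injEq, w1, w2, w3] at hxy
  obtain ⟨h1, h2, h3⟩ := hxy
  funext i
  fin_cases i
  · show x 0 = y 0
    omega
  · show x 1 = y 1
    omega
  · show x 2 = y 2
    omega

theorem le_of_inj {F : (Fin 3 → ℤ) → ℝ} {G : ℤ × ℤ × ℤ → ℝ} {v : (Fin 3 → ℤ) → ℤ × ℤ × ℤ}
    (hv : Function.Injective v) (hF : ∀ x, 0 ≤ F x) (hG : ∀ m, 0 ≤ G m) (sG : Summable G)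
    (h : ∀ x, F x ≤ G (v x)) : Summable F ∧ ∑' x, F x ≤ ∑' m, G m := by
  have s1 : Summable (fun x => G (v x)) := sG.comp_injective hv
  have s2 : Summable F := Summable.of_nonneg_of_le hF h s1
  refine ⟨s2, ?_⟩
  calc ∑' x, F x ≤ ∑' x, G (v x) := s2.tsum_le_tsum h s1
    _ ≤ ∑' m, G m := tsum_comp_le_tsum_of_inj sG hG hv

end Pool.Agent.Lib.EPT
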