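import Pool.Agent.Lib.EPT.One
import Pool.Agent.Lib.EPT.Tri
import Pool.Agent.Lib.EPT.Cls

/-!
# The dual side: the sum of the bounds of the remaining vectors

`w = (w1 y, w2 y, w3 y)` runs through the integer triples of even sum (injective: `inj_w`).
Parity classes: all even; or exactly one even.  `rst y` excludes `w = 0`, the axes (only one nonzero
coordinate) and the twelve vectors of `V1, V2, V3` (two coordinates of absolute value 1, one zero).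

PROOF.  Put `s = 5z/6 ≥ 29/12`, `A = s/a ≥ 29/16`, `B = s/b ≥ 58/39`, `C = s/c ≥ 29/24`,
`q1 = e^(-A)`, `q2 = e^(-B)`, `q3 = e^(-C)` (`q1 ≤ q2 ≤ q3`, `q1 ≤ 0.1633`, `q2 ≤ 0.2261`,
`q3 ≤ 0.2988`), `g3 = q3⁴ ≤ 0.008`.  It is enough to show, for the sums over `rst y`,
 (S1) `∑ w1² q1^(w1²) q2^(w2²) q3^(w3²) ≤ 4 nu (q1 q3 + q1 q2)`,
 (S2) `∑ w2² ... ≤ 4 nu (q2 q3 + q1 q2)`,
 (S3) `∑ w3² ... ≤ 16 nu (q1 q3 + q2 q3)`,      `nu = (21/10) g3 + 1/100`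
(then `S1/a + S2/b + S3/(200 c) ≤ 4 nu (...)` as in `Lr`; note `e^(-s e2) = q1 q3` etc. and
`e^(-(10/3) z/c) = g3`).  Product sums (`tri_le`, functions of One.lean with `z = A, B, C`; `le_of_inj inj_w`):
 S1, parities of `(w1,w2,w3)`:
  (o,o,e): `gU·gU·gE`, `gT2·gO·(gZ+gE)`, `gU·gT·(gZ+gE)`: `≤ 4 q1 q2 (2.01 g3 + 2e-5)`;
  (o,e,o): `gU·gE·gO`, `gT2·(gZ+gE)·gO`, `gU·gZ·gT`: `≤ 4 q1 q3 (2.01 q2⁴ + 1e-4)`, `q2⁴ ≤ g3`;
  (e,o,o): `gE2·gO·gO`: `≤ 32.1 q1⁴ q2 q3 ≤ 4 q1 q3 · 8.03 q1³ q2`, `q1³ q2 ≤ 0.1633³ · 0.2261 ≤ 0.00099`;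
  (e,e,e): `gE2·gE·(gZ+gE)`, `gE2·gZ·gE`: `≤ 8.01 q1⁴ (2.03 q2⁴ + 2.03 g3)`, `≤ 4 q1 q3 · 0.0012`
     (`q1³ ≤ 0.0266 q3`: `3/a - 1/c ≥ 9/4 - 3/4`).
  Total coefficient of `4 q1 q3`: `2.01 g3 + 0.0001 + 0.0080 + 0.0012 ≤ nu`.
 S2: (o,o,e): `≤ 4 q1 q2 (2.01 g3 + 2e-5)`; (e,o,o): `≤ 4 q2 q3 (2.01 q1⁴ + 2e-4)`, `q1⁴ ≤ g3`;
  (o,e,o): `gO·gE2·gO ≤ 32.1 q2⁴ q1 q3 = 4 q2 q3 · 8.03 q2³ q1`, and `q2³ q1 = e^(-s(3/b+1/a)) ≤
     e^(-29/12 · 29/10) ≤ 0.00091`, because `3/b + 1/a ≥ 6/(4-a) + 1/a ≥ 29/10`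
     (`2b ≤ 4 - a`; `4 + 5a ≥ 2.9 a (4 - a)`): `≤ 4 q2 q3 · 0.0073`;
  (e,e,e): `≤ 8.01 q2⁴ (2.03 q1⁴ + 2.03 g3) ≤ 4 q2 q3 · 0.0019` (`q2³/q3 ≤ q2² ≤ 0.0512`,
     `q1⁴ ≤ 0.00072`).   Total `2.01 g3 + 0.0094 ≤ nu`.
 S3: (o,e,o): `≤ 4 q1 q3 (2.01 q2⁴ + 0.001)`; (e,o,o): `≤ 4 q2 q3 (2.01 q1⁴ + 0.001)`;
  (o,o,e): `gO·gO·gE2 ≤ 32.1 q3⁴ q1 q2 ≤ 4 q2 q3 · 8.03 q3³ q1 ≤ 4 q2 q3 · 0.0350`;
  (e,e,e): `≤ 8.1 q3⁴ (2.03 q1⁴ + 2.03 q2⁴) ≤ 4 q2 q3 · 0.005` (`q3³/q2 = e^(-s(3/c-1/b)) ≤ 0.3`).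
  `≤ 4 · 4 nu (...)`, `4 nu ≥ 0.04 + 8.4 g3`.
Only one-sided crude estimates are needed; numerically the left side is at most half of `Lr`.
-/

namespace Pool.Agent.Lib.EPT

/-- the remaining dual vectors -/
def rst (y : Fin 3 → ℤ) : Prop :=
  y ∉ V1 ∧ y ∉ V2 ∧ y ∉ V3 ∧
    ((w1 y ≠ 0 ∧ w2 y ≠ 0) ∨ (w1 y ≠ 0 ∧ w3 y ≠ 0) ∨ (w2 y ≠ 0 ∧ w3 y ≠ 0))

open Classical in
/-- the bound of `rst_point` on the remaining vectors, zero elsewhere -/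
noncomputable def Par.rw (q : Par) (z : ℝ) (y : Fin 3 → ℤ) : ℝ :=
  if rst y then 41 / 20 * (q.W + 3 * |q.pp|) / (q.a * q.b * q.c)
        * ((w1 y : ℝ) ^ 2 / q.a + (w2 y : ℝ) ^ 2 / q.b + (w3 y : ℝ) ^ 2 / (200 * q.c))
        * Real.exp (-(5 / 6 * z * ((w1 y : ℝ) ^ 2 / q.a + (w2 y : ℝ) ^ 2 / q.b
          + (w3 y : ℝ) ^ 2 / q.c)))
  else 0

namespace RstBAux

/-- even integers -/
noncomputable def gZE (z : ℝ) : ℤ → ℝ := fun m => gZ m + gE z m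

lemma vZ (z : ℝ) {m : ℤ} (h : m = 0) : gZ m = Real.exp (-(z * (m : ℝ) ^ 2)) := by
  unfold gZ
  rw [if_pos h, h]
  simp

lemma vE (z : ℝ) {m : ℤ} (h : m % 2 = 0) (h0 : m ≠ 0) :
    gE z m = Real.exp (-(z * (m : ℝ) ^ 2)) := by
  unfold gE
  rw [if_pos ⟨h, h0⟩]

lemma vZE (z : ℝ) {m : ℤ} (h : m % 2 = 0) : gZE z m = Real.exp (-(z * (m : ℝ) ^ 2)) := by
  unfold gZE
  by_cases h0 : m = 0
  · rw [vZ z h0]
    unfold gE
    rw [if_neg (fun hh => hh.2 h0), add_zero]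
  · rw [vE z h h0]
    unfold gZ
    rw [if_neg h0, zero_add]

lemma vE2 (z : ℝ) {m : ℤ} (h : m % 2 = 0) (h0 : m ≠ 0) :
    gE2 z m = (m : ℝ) ^ 2 * Real.exp (-(z * (m : ℝ) ^ 2)) := by
  unfold gE2
  rw [if_pos ⟨h, h0⟩]

lemma sq_one {m : ℤ} (h : |m| = 1) : (m : ℝ) ^ 2 = 1 := by
  have : (m : ℤ) ^ 2 = 1 := by rw [← sq_abs, h]; norm_num
  exact_mod_cast this

lemma vU (z : ℝ) {m : ℤ} (h : |m| = 1) : gU z m = Real.exp (-(z * (m : ℝ) ^ 2)) := by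
  unfold gU
  rw [if_pos h, sq_one h, mul_one]

lemma vO (z : ℝ) {m : ℤ} (h : m % 2 = 1) : gO z m = Real.exp (-(z * (m : ℝ) ^ 2)) := by
  unfold gO
  rw [if_pos h]

lemma vT (z : ℝ) {m : ℤ} (h : m % 2 = 1) (h1 : |m| ≠ 1) :
    gT z m = Real.exp (-(z * (m : ℝ) ^ 2)) := by
  unfold gT
  rw [if_pos ⟨h, h1⟩]

lemma vT2 (z : ℝ) {m : ℤ} (h : m % 2 = 1) (h1 : |m| ≠ 1) :
    gT2 z m = (m : ℝ) ^ 2 * Real.exp (-(z * (m : ℝ) ^ 2)) := by
  unfold gT2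
  rw [if_pos ⟨h, h1⟩]

lemma nZ (m : ℤ) : 0 ≤ gZ m := gZ_sum.1 m
lemma nE (z : ℝ) (m : ℤ) : 0 ≤ gE z m := by unfold gE; split_ifs <;> positivity
lemma nE2 (z : ℝ) (m : ℤ) : 0 ≤ gE2 z m := by unfold gE2; split_ifs <;> positivity
lemma nZE (z : ℝ) (m : ℤ) : 0 ≤ gZE z m := add_nonneg (nZ m) (nE z m)
lemma nU (z : ℝ) (m : ℤ) : 0 ≤ gU z m := by unfold gU; split_ifs <;> positivity
lemma nO (z : ℝ) (m : ℤ) : 0 ≤ gO z m := by unfold gO; split_ifs <;> positivity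
lemma nT (z : ℝ) (m : ℤ) : 0 ≤ gT z m := by unfold gT; split_ifs <;> positivity
lemma nT2 (z : ℝ) (m : ℤ) : 0 ≤ gT2 z m := by unfold gT2; split_ifs <;> positivity

/-- the dominating function -/
noncomputable def GG (z1 z2 z3 : ℝ) (m : ℤ × ℤ × ℤ) : ℝ :=
  gU z1 m.1 * gU z2 m.2.1 * gE z3 m.2.2 + gT2 z1 m.1 * gO z2 m.2.1 * gZE z3 m.2.2
    + gU z1 m.1 * gT z2 m.2.1 * gZE z3 m.2.2 + gU z1 m.1 * gE z2 m.2.1 * gU z3 m.2.2
    + gT2 z1 m.1 * gZE z2 m.2.1 * gO z3 m.2.2 + gU z1 m.1 * gZE z2 m.2.1 * gT z3 m.2.2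
    + gE2 z1 m.1 * gO z2 m.2.1 * gO z3 m.2.2 + gE2 z1 m.1 * gE z2 m.2.1 * gZE z3 m.2.2
    + gE2 z1 m.1 * gZ m.2.1 * gE z3 m.2.2

lemma GG_nonneg (z1 z2 z3 : ℝ) (m : ℤ × ℤ × ℤ) : 0 ≤ GG z1 z2 z3 m := by
  unfold GG
  have h1 := mul_nonneg (mul_nonneg (nU z1 m.1) (nU z2 m.2.1)) (nE z3 m.2.2)
  have h2 := mul_nonneg (mul_nonneg (nT2 z1 m.1) (nO z2 m.2.1)) (nZE z3 m.2.2)
  have h3 := mul_nonneg (mul_nonneg (nU z1 m.1) (nT z2 m.2.1)) (nZE z3 m.2.2)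
  have h4 := mul_nonneg (mul_nonneg (nU z1 m.1) (nE z2 m.2.1)) (nU z3 m.2.2)
  have h5 := mul_nonneg (mul_nonneg (nT2 z1 m.1) (nZE z2 m.2.1)) (nO z3 m.2.2)
  have h6 := mul_nonneg (mul_nonneg (nU z1 m.1) (nZE z2 m.2.1)) (nT z3 m.2.2)
  have h7 := mul_nonneg (mul_nonneg (nE2 z1 m.1) (nO z2 m.2.1)) (nO z3 m.2.2)
  have h8 := mul_nonneg (mul_nonneg (nE2 z1 m.1) (nE z2 m.2.1)) (nZE z3 m.2.2)
  have h9 := mul_nonneg (mul_nonneg (nE2 z1 m.1) (nZ m.2.1)) (nE z3 m.2.2)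
  linarith

/-- pointwise domination -/
lemma point (z1 z2 z3 : ℝ) {a b c : ℤ} (he : (a + b + c) % 2 = 0)
    (h12 : |a| = 1 → |b| = 1 → c ≠ 0) (h13 : |a| = 1 → |c| = 1 → b ≠ 0)
    (h0 : b ≠ 0 ∨ c ≠ 0 ∨ a = 0) :
    (a : ℝ) ^ 2 * (Real.exp (-(z1 * (a : ℝ) ^ 2)) * Real.exp (-(z2 * (b : ℝ) ^ 2))
      * Real.exp (-(z3 * (c : ℝ) ^ 2))) ≤ GG z1 z2 z3 (a, b, c) := by
  have h1 := mul_nonneg (mul_nonneg (nU z1 a) (nU z2 b)) (nE z3 c)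
  have h2 := mul_nonneg (mul_nonneg (nT2 z1 a) (nO z2 b)) (nZE z3 c)
  have h3 := mul_nonneg (mul_nonneg (nU z1 a) (nT z2 b)) (nZE z3 c)
  have h4 := mul_nonneg (mul_nonneg (nU z1 a) (nE z2 b)) (nU z3 c)
  have h5 := mul_nonneg (mul_nonneg (nT2 z1 a) (nZE z2 b)) (nO z3 c)
  have h6 := mul_nonneg (mul_nonneg (nU z1 a) (nZE z2 b)) (nT z3 c)
  have h7 := mul_nonneg (mul_nonneg (nE2 z1 a) (nO z2 b)) (nO z3 c)
  have h8 := mul_nonneg (mul_nonneg (nE2 z1 a) (nE z2 b)) (nZE z3 c)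
  have h9 := mul_nonneg (mul_nonneg (nE2 z1 a) (nZ b)) (nE z3 c)
  unfold GG
  simp only
  rcases Int.emod_two_eq_zero_or_one a with ha | ha
  · by_cases ha0 : a = 0
    · subst ha0
      have : ((0 : ℤ) : ℝ) ^ 2 * (Real.exp (-(z1 * ((0 : ℤ) : ℝ) ^ 2))
        * Real.exp (-(z2 * (b : ℝ) ^ 2)) * Real.exp (-(z3 * (c : ℝ) ^ 2))) = 0 := by
        simp
      rw [this]
      linarith
    rcases Int.emod_two_eq_zero_or_one b with hb | hb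
    · have hcp : c % 2 = 0 := by omega
      by_cases hb0 : b = 0
      · have hc0 : c ≠ 0 := by
          rcases h0 with h | h | h
          · exact absurd hb0 h
          · exact h
          · exact absurd h ha0
        have e := congrArg₂ (· * ·) (congrArg₂ (· * ·) (vE2 z1 ha ha0) (vZ z2 hb0))
          (vE z3 hcp hc0)
        linarith
      · have e := congrArg₂ (· * ·) (congrArg₂ (· * ·) (vE2 z1 ha ha0) (vE z2 hb hb0))
          (vZE z3 hcp)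
        linarith
    · have hcp : c % 2 = 1 := by omega
      have e := congrArg₂ (· * ·) (congrArg₂ (· * ·) (vE2 z1 ha ha0) (vO z2 hb)) (vO z3 hcp)
      linarith
  · rcases Int.emod_two_eq_zero_or_one b with hb | hb
    · have hcp : c % 2 = 1 := by omega
      by_cases ha1 : |a| = 1
      · by_cases hc1 : |c| = 1
        · have e := congrArg₂ (· * ·) (congrArg₂ (· * ·) (vU z1 ha1) (vE z2 hb (h13 ha1 hc1)))
            (vU z3 hc1)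
          rw [sq_one ha1] at e ⊢
          linarith
        · have e := congrArg₂ (· * ·) (congrArg₂ (· * ·) (vU z1 ha1) (vZE z2 hb)) (vT z3 hcp hc1)
          rw [sq_one ha1] at e ⊢
          linarith
      · have e := congrArg₂ (· * ·) (congrArg₂ (· * ·) (vT2 z1 ha ha1) (vZE z2 hb)) (vO z3 hcp)
        linarith
    · have hcp : c % 2 = 0 := by omega
      by_cases ha1 : |a| = 1
      · by_cases hb1 : |b| = 1
        · have e := congrArg₂ (· * ·) (congrArg₂ (· * ·) (vU z1 ha1) (vU z2 hb1))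
            (vE z3 hcp (h12 ha1 hb1))
          rw [sq_one ha1] at e ⊢
          linarith
        · have e := congrArg₂ (· * ·) (congrArg₂ (· * ·) (vU z1 ha1) (vT z2 hb hb1)) (vZE z3 hcp)
          rw [sq_one ha1] at e ⊢
          linarith
      · have e := congrArg₂ (· * ·) (congrArg₂ (· * ·) (vT2 z1 ha ha1) (vO z2 hb)) (vZE z3 hcp)
        linarith

/-! ### sums -/

lemma eqp (z : ℝ) (n : ℕ) : Real.exp (-((n : ℝ) * z)) = Real.exp (-z) ^ n := by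
  rw [← Real.exp_nat_mul]
  congr 1
  ring

lemma pwl {r : ℝ} (h0 : 0 ≤ r) (h : r ≤ 3 / 10) (n : ℕ) : r ^ n ≤ (3 / 10) ^ n :=
  pow_le_pow_left₀ h0 h n

section sums

variable {z : ℝ} (hz : 1 / 3 ≤ z) (hr : Real.exp (-z) ≤ 3 / 10)
include hz hr

lemma sE : Summable (gE z) ∧ ∑' m, gE z m ≤ 2001 / 1000 * Real.exp (-z) ^ 4 := by
  obtain ⟨_, h2, h3⟩ := gE_sum (z := z) (by linarith)
  refine ⟨h2, h3.trans ?_⟩
  have e1 := eqp z 4
  have e2 := eqp z 12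
  push_cast at e1 e2
  rw [e1, e2]
  have h5 := pwl (Real.exp_pos (-z)).le hr 12
  have h6 : (0 : ℝ) ≤ Real.exp (-z) ^ 4 := by positivity
  rw [div_le_iff₀ (by norm_num at h5 ⊢; linarith)]
  norm_num at h5
  nlinarith

lemma sE2 : Summable (gE2 z) ∧ ∑' m, gE2 z m ≤ 8001 / 1000 * Real.exp (-z) ^ 4 := by
  obtain ⟨_, h2, h3⟩ := gE2_sum (z := z) (by linarith)
  refine ⟨h2, h3.trans ?_⟩
  have e1 := eqp z 4
  have e2 := eqp z 12
  push_cast at e1 e2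
  rw [e1, e2]
  have h5 := pwl (Real.exp_pos (-z)).le hr 12
  have h6 : (0 : ℝ) ≤ Real.exp (-z) ^ 4 := by positivity
  norm_num at h5
  rw [div_le_iff₀ (by linarith)]
  nlinarith

lemma sZE : Summable (gZE z) ∧ ∑' m, gZE z m ≤ 1017 / 1000 := by
  obtain ⟨h1, h2⟩ := sE hz hr
  obtain ⟨_, h3, h4⟩ := gZ_sum
  refine ⟨h3.add h1, ?_⟩
  have h5 := pwl (Real.exp_pos (-z)).le hr 4
  norm_num at h5
  have e : ∑' m, gZE z m = ∑' m, gZ m + ∑' m, gE z m := h3.tsum_add h1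
  rw [e]
  linarith

omit hz hr in
lemma sU : Summable (gU z) ∧ ∑' m, gU z m ≤ 2 * Real.exp (-z) := by
  obtain ⟨_, h2, h3⟩ := gU_sum (z := z)
  exact ⟨h2, h3⟩

lemma sO : Summable (gO z) ∧ ∑' m, gO z m ≤ 2001 / 1000 * Real.exp (-z) := by
  obtain ⟨_, h2, h3⟩ := gO_sum (z := z) (by linarith)
  refine ⟨h2, h3.trans ?_⟩
  have e2 := eqp z 8
  push_cast at e2
  rw [e2]
  have h5 := pwl (Real.exp_pos (-z)).le hr 8
  have h6 : (0 : ℝ) ≤ Real.exp (-z) := by positivity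
  norm_num at h5
  rw [div_le_iff₀ (by linarith)]
  nlinarith

lemma sT : Summable (gT z) ∧ ∑' m, gT z m ≤ 2001 / 1000 * Real.exp (-z) ^ 9 := by
  obtain ⟨_, h2, h3⟩ := gT_sum (z := z) (by linarith)
  refine ⟨h2, h3.trans ?_⟩
  have e1 := eqp z 9
  have e2 := eqp z 16
  push_cast at e1 e2
  rw [e1, e2]
  have h5 := pwl (Real.exp_pos (-z)).le hr 16
  have h6 : (0 : ℝ) ≤ Real.exp (-z) ^ 9 := by positivity
  norm_num at h5
  rw [div_le_iff₀ (by linarith)]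
  nlinarith

lemma sT2 : Summable (gT2 z) ∧ ∑' m, gT2 z m ≤ 18001 / 1000 * Real.exp (-z) ^ 9 := by
  obtain ⟨_, h2, h3⟩ := gT2_sum (z := z) (by linarith)
  refine ⟨h2, h3.trans ?_⟩
  have e1 := eqp z 9
  have e2 := eqp z 16
  push_cast at e1 e2
  rw [e1, e2]
  have h5 := pwl (Real.exp_pos (-z)).le hr 16
  have h6 : (0 : ℝ) ≤ Real.exp (-z) ^ 9 := by positivity
  norm_num at h5
  rw [div_le_iff₀ (by linarith)]
  nlinarith

end sums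

/-- the bound of the dominating sum -/
noncomputable def FF (p q r : ℝ) : ℝ :=
  p * q * (8004 / 1000 * r ^ 4 + 3664 / 100 * p ^ 8 + 4071 / 1000 * q ^ 8)
    + p * r * (8004 / 1000 * q ^ 4 + 3664 / 100 * p ^ 8 + 4071 / 1000 * r ^ 8
      + 3204 / 100 * (p ^ 3 * q)) + 163 / 10 * (p ^ 4 * q ^ 4) + 1602 / 100 * (p ^ 4 * r ^ 4)

lemma GG_sum {z1 z2 z3 : ℝ} (h1 : 1 / 3 ≤ z1) (h2 : 1 / 3 ≤ z2) (h3 : 1 / 3 ≤ z3)
    (r1 : Real.exp (-z1) ≤ 3 / 10) (r2 : Real.exp (-z2) ≤ 3 / 10)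
    (r3 : Real.exp (-z3) ≤ 3 / 10) :
    Summable (GG z1 z2 z3) ∧ ∑' m, GG z1 z2 z3 m ≤
      FF (Real.exp (-z1)) (Real.exp (-z2)) (Real.exp (-z3)) := by
  have t1 := tri_le (nU z1) (nU z2) (nE z3) (@sU z1).1 (@sU z2).1 (sE h3 r3).1
    (@sU z1).2 (@sU z2).2 (sE h3 r3).2
  have t2 := tri_le (nT2 z1) (nO z2) (nZE z3) (sT2 h1 r1).1 (sO h2 r2).1 (sZE h3 r3).1
    (sT2 h1 r1).2 (sO h2 r2).2 (sZE h3 r3).2
  have t3 := tri_le (nU z1) (nT z2) (nZE z3) (@sU z1).1 (sT h2 r2).1 (sZE h3 r3).1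
    (@sU z1).2 (sT h2 r2).2 (sZE h3 r3).2
  have t4 := tri_le (nU z1) (nE z2) (nU z3) (@sU z1).1 (sE h2 r2).1 (@sU z3).1
    (@sU z1).2 (sE h2 r2).2 (@sU z3).2
  have t5 := tri_le (nT2 z1) (nZE z2) (nO z3) (sT2 h1 r1).1 (sZE h2 r2).1 (sO h3 r3).1
    (sT2 h1 r1).2 (sZE h2 r2).2 (sO h3 r3).2
  have t6 := tri_le (nU z1) (nZE z2) (nT z3) (@sU z1).1 (sZE h2 r2).1 (sT h3 r3).1
    (@sU z1).2 (sZE h2 r2).2 (sT h3 r3).2
  have t7 := tri_le (nE2 z1) (nO z2) (nO z3) (sE2 h1 r1).1 (sO h2 r2).1 (sO h3 r3).1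
    (sE2 h1 r1).2 (sO h2 r2).2 (sO h3 r3).2
  have t8 := tri_le (nE2 z1) (nE z2) (nZE z3) (sE2 h1 r1).1 (sE h2 r2).1 (sZE h3 r3).1
    (sE2 h1 r1).2 (sE h2 r2).2 (sZE h3 r3).2
  have t9 := tri_le (nE2 z1) nZ (nE z3) (sE2 h1 r1).1 gZ_sum.2.1 (sE h3 r3).1
    (sE2 h1 r1).2 gZ_sum.2.2 (sE h3 r3).2
  have S2 := t1.1.add t2.1
  have S3 := S2.add t3.1
  have S4 := S3.add t4.1
  have S5 := S4.add t5.1
  have S6 := S5.add t6.1
  have S7 := S6.add t7.1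
  have S8 := S7.add t8.1
  have S9 := S8.add t9.1
  refine ⟨S9, ?_⟩
  have E9 := S8.tsum_add t9.1
  have E8 := S7.tsum_add t8.1
  have E7 := S6.tsum_add t7.1
  have E6 := S5.tsum_add t6.1
  have E5 := S4.tsum_add t5.1
  have E4 := S3.tsum_add t4.1
  have E3 := S2.tsum_add t3.1
  have E2 := t1.1.tsum_add t2.1
  have E : ∑' m, GG z1 z2 z3 m = _ := E9
  rw [E, E8, E7, E6, E5, E4, E3, E2]
  have b1 := t1.2
  have b2 := t2.2
  have b3 := t3.2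
  have b4 := t4.2
  have b5 := t5.2
  have b6 := t6.2
  have b7 := t7.2
  have b8 := t8.2
  have b9 := t9.2
  have hp := (Real.exp_pos (-z1)).le
  have hq := (Real.exp_pos (-z2)).le
  have hr := (Real.exp_pos (-z3)).le
  generalize Real.exp (-z1) = p at *
  generalize Real.exp (-z2) = q at *
  generalize Real.exp (-z3) = r at *
  have n2 : 0 ≤ p ^ 9 * q := by positivity
  have n3 : 0 ≤ p * q ^ 9 := by positivity
  have n5 : 0 ≤ p ^ 9 * r := by positivity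
  have n6 : 0 ≤ p * r ^ 9 := by positivity
  have n7 : 0 ≤ p ^ 4 * q * r := by positivity
  have n8 : 0 ≤ p ^ 4 * q ^ 4 := by positivity
  have n9 : 0 ≤ p ^ 4 * r ^ 4 := by positivity
  unfold FF
  nlinarith [b1, b2, b3, b4, b5, b6, b7, b8, b9, n2, n3, n5, n6, n7, n8, n9]

/-- the final estimate of `FF` -/
lemma FF_le {p q r P Q R T : ℝ} (hp : 0 ≤ p) (hq : 0 ≤ q) (hqr : q ≤ r) (hP : p ≤ P)
    (hQ : q ≤ Q) (hR : r ≤ R) (hT : p ^ 3 * q ≤ T) :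
    FF p q r ≤ p * q * (8004 / 1000 * r ^ 4 + 3664 / 100 * P ^ 8 + 4071 / 1000 * Q ^ 8)
      + p * r * (8004 / 1000 * q ^ 4 + 3664 / 100 * P ^ 8 + 4071 / 1000 * R ^ 8
        + 3204 / 100 * T + 163 / 10 * (P ^ 3 * Q ^ 3) + 1602 / 100 * (P ^ 3 * R ^ 3)) := by
  have hr : 0 ≤ r := hq.trans hqr
  have hP0 := hp.trans hP
  have hQ0 := hq.trans hQ
  have hR0 := hr.trans hR
  have a1 : p ^ 8 ≤ P ^ 8 := pow_le_pow_left₀ hp hP 8
  have a2 : q ^ 8 ≤ Q ^ 8 := pow_le_pow_left₀ hq hQ 8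
  have a3 : r ^ 8 ≤ R ^ 8 := pow_le_pow_left₀ hr hR 8
  have a4 : p ^ 3 ≤ P ^ 3 := pow_le_pow_left₀ hp hP 3
  have a5 : q ^ 3 ≤ Q ^ 3 := pow_le_pow_left₀ hq hQ 3
  have a6 : r ^ 3 ≤ R ^ 3 := pow_le_pow_left₀ hr hR 3
  have a7 : p ^ 3 * q ^ 3 ≤ P ^ 3 * Q ^ 3 := mul_le_mul a4 a5 (by positivity) (by positivity)
  have a8 : p ^ 3 * r ^ 3 ≤ P ^ 3 * R ^ 3 := mul_le_mul a4 a6 (by positivity) (by positivity)
  have hpq : 0 ≤ p * q := mul_nonneg hp hq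
  have hpr : 0 ≤ p * r := mul_nonneg hp hr
  have c1 : p * q * (8004 / 1000 * r ^ 4 + 3664 / 100 * p ^ 8 + 4071 / 1000 * q ^ 8) ≤
      p * q * (8004 / 1000 * r ^ 4 + 3664 / 100 * P ^ 8 + 4071 / 1000 * Q ^ 8) :=
    mul_le_mul_of_nonneg_left (by linarith) hpq
  have c2 : p * r * (8004 / 1000 * q ^ 4 + 3664 / 100 * p ^ 8 + 4071 / 1000 * r ^ 8
      + 3204 / 100 * (p ^ 3 * q) + 163 / 10 * (p ^ 3 * q ^ 3) + 1602 / 100 * (p ^ 3 * r ^ 3)) ≤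
      p * r * (8004 / 1000 * q ^ 4 + 3664 / 100 * P ^ 8 + 4071 / 1000 * R ^ 8
        + 3204 / 100 * T + 163 / 10 * (P ^ 3 * Q ^ 3) + 1602 / 100 * (P ^ 3 * R ^ 3)) :=
    mul_le_mul_of_nonneg_left (by linarith) hpr
  have c3 : p ^ 4 * q ^ 4 ≤ p * r * (p ^ 3 * q ^ 3) := by
    have : p ^ 4 * q ^ 3 * q ≤ p ^ 4 * q ^ 3 * r :=
      mul_le_mul_of_nonneg_left hqr (by positivity)
    nlinarith
  have c4 : p ^ 4 * r ^ 4 = p * r * (p ^ 3 * r ^ 3) := by ring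
  unfold FF
  nlinarith

lemma exp_neg_le {x y : ℝ} (hx : 0 ≤ x) (n : ℕ)
    (h : 1 ≤ y * ∑ i ∈ Finset.range n, x ^ i / (i.factorial : ℝ)) (hy : 0 ≤ y) :
    Real.exp (-x) ≤ y := by
  have h1 := Real.sum_le_exp_of_nonneg hx n
  rw [Real.exp_neg, inv_le_iff_one_le_mul₀ (Real.exp_pos x)]
  exact h.trans (mul_le_mul_of_nonneg_left h1 hy)

lemma x1 : Real.exp (-(29 / 16)) ≤ 1633 / 10000 :=
  exp_neg_le (by norm_num) 12 (by norm_num [Finset.sum_range_succ, Nat.factorial]) (by norm_num)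

lemma x2 : Real.exp (-(58 / 39)) ≤ 2261 / 10000 :=
  exp_neg_le (by norm_num) 12 (by norm_num [Finset.sum_range_succ, Nat.factorial]) (by norm_num)

lemma x3 : Real.exp (-(29 / 24)) ≤ 2988 / 10000 :=
  exp_neg_le (by norm_num) 12 (by norm_num [Finset.sum_range_succ, Nat.factorial]) (by norm_num)

lemma x4 : Real.exp (-(841 / 120)) ≤ 91 / 100000 :=
  exp_neg_le (by norm_num) 25 (by norm_num [Finset.sum_range_succ, Nat.factorial]) (by norm_num)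

/-! ### the remaining vectors -/

lemma mem_V3 {y : Fin 3 → ℤ} (h1 : |w1 y| = 1) (h2 : |w2 y| = 1) (h3 : w3 y = 0) : y ∈ V3 := by
  unfold w1 at h1
  unfold w2 at h2
  unfold w3 at h3
  have key : (y 0 = -1 ∧ y 1 = 0 ∧ y 2 = 0) ∨ (y 0 = 0 ∧ y 1 = -1 ∧ y 2 = 1) ∨
      (y 0 = 0 ∧ y 1 = 1 ∧ y 2 = -1) ∨ (y 0 = 1 ∧ y 1 = 0 ∧ y 2 = 0) := by
    rcases (abs_eq (by norm_num)).1 h1 with h1 | h1 <;>
      rcases (abs_eq (by norm_num)).1 h2 with h2 | h2 <;> omega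
  have : y = ![y 0, y 1, y 2] := by ext i; fin_cases i <;> rfl
  rcases key with ⟨a, b, c⟩ | ⟨a, b, c⟩ | ⟨a, b, c⟩ | ⟨a, b, c⟩ <;> rw [this, a, b, c] <;>
    simp [V3]

lemma mem_V2 {y : Fin 3 → ℤ} (h1 : |w1 y| = 1) (h2 : |w3 y| = 1) (h3 : w2 y = 0) : y ∈ V2 := by
  unfold w1 at h1
  unfold w3 at h2
  unfold w2 at h3
  have key : (y 0 = -1 ∧ y 1 = 0 ∧ y 2 = 1) ∨ (y 0 = 0 ∧ y 1 = -1 ∧ y 2 = 0) ∨
      (y 0 = 0 ∧ y 1 = 1 ∧ y 2 = 0) ∨ (y 0 = 1 ∧ y 1 = 0 ∧ y 2 = -1) := by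
    rcases (abs_eq (by norm_num)).1 h1 with h1 | h1 <;>
      rcases (abs_eq (by norm_num)).1 h2 with h2 | h2 <;> omega
  have : y = ![y 0, y 1, y 2] := by ext i; fin_cases i <;> rfl
  rcases key with ⟨a, b, c⟩ | ⟨a, b, c⟩ | ⟨a, b, c⟩ | ⟨a, b, c⟩ <;> rw [this, a, b, c] <;>
    simp [V2]

lemma mem_V1 {y : Fin 3 → ℤ} (h1 : |w2 y| = 1) (h2 : |w3 y| = 1) (h3 : w1 y = 0) : y ∈ V1 := by
  unfold w2 at h1
  unfold w3 at h2
  unfold w1 at h3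
  have key : (y 0 = -1 ∧ y 1 = 1 ∧ y 2 = 0) ∨ (y 0 = 0 ∧ y 1 = 0 ∧ y 2 = -1) ∨
      (y 0 = 0 ∧ y 1 = 0 ∧ y 2 = 1) ∨ (y 0 = 1 ∧ y 1 = -1 ∧ y 2 = 0) := by
    rcases (abs_eq (by norm_num)).1 h1 with h1 | h1 <;>
      rcases (abs_eq (by norm_num)).1 h2 with h2 | h2 <;> omega
  have : y = ![y 0, y 1, y 2] := by ext i; fin_cases i <;> rfl
  rcases key with ⟨a, b, c⟩ | ⟨a, b, c⟩ | ⟨a, b, c⟩ | ⟨a, b, c⟩ <;> rw [this, a, b, c] <;>
    simp [V1]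

lemma w_even (y : Fin 3 → ℤ) : (w1 y + w2 y + w3 y) % 2 = 0 := by
  unfold w1 w2 w3
  omega

open Classical in
/-- the weighted Gaussian on the remaining vectors, in product form -/
noncomputable def FR (z1 z2 z3 : ℝ) (v1 v2 v3 : (Fin 3 → ℤ) → ℤ) (y : Fin 3 → ℤ) : ℝ :=
  if rst y then (v1 y : ℝ) ^ 2 * (Real.exp (-(z1 * (v1 y : ℝ) ^ 2))
    * Real.exp (-(z2 * (v2 y : ℝ) ^ 2)) * Real.exp (-(z3 * (v3 y : ℝ) ^ 2))) else 0

lemma FR_nonneg (z1 z2 z3 : ℝ) (v1 v2 v3 : (Fin 3 → ℤ) → ℤ) (y : Fin 3 → ℤ) :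
    0 ≤ FR z1 z2 z3 v1 v2 v3 y := by
  unfold FR
  split_ifs <;> positivity

lemma FR_sum {z1 z2 z3 : ℝ} {v1 v2 v3 : (Fin 3 → ℤ) → ℤ}
    (hv : Function.Injective fun y : Fin 3 → ℤ => (v1 y, v2 y, v3 y))
    (hc : ∀ y, rst y → (v1 y + v2 y + v3 y) % 2 = 0 ∧ (|v1 y| = 1 → |v2 y| = 1 → v3 y ≠ 0) ∧
      (|v1 y| = 1 → |v3 y| = 1 → v2 y ≠ 0) ∧ (v2 y ≠ 0 ∨ v3 y ≠ 0 ∨ v1 y = 0))
    (h1 : 1 / 3 ≤ z1) (h2 : 1 / 3 ≤ z2) (h3 : 1 / 3 ≤ z3)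
    (r1 : Real.exp (-z1) ≤ 3 / 10) (r2 : Real.exp (-z2) ≤ 3 / 10)
    (r3 : Real.exp (-z3) ≤ 3 / 10) :
    Summable (FR z1 z2 z3 v1 v2 v3) ∧ ∑' y, FR z1 z2 z3 v1 v2 v3 y ≤
      FF (Real.exp (-z1)) (Real.exp (-z2)) (Real.exp (-z3)) := by
  obtain ⟨g1, g2⟩ := GG_sum h1 h2 h3 r1 r2 r3
  have := le_of_inj hv (FR_nonneg z1 z2 z3 v1 v2 v3) (GG_nonneg z1 z2 z3) g1 (by
    intro y
    unfold FR
    split_ifs with hy
    · obtain ⟨c1, c2, c3, c4⟩ := hc y hy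
      exact point z1 z2 z3 c1 c2 c3 c4
    · exact GG_nonneg _ _ _ _)
  exact ⟨this.1, this.2.trans g2⟩

end RstBAux

open RstBAux in
theorem Reg.rst_sum {q : Par} (h : Reg q) {z : ℝ} (hz : 29 / 10 ≤ z) :
    Summable (q.rw z) ∧ ∑' y, q.rw z y ≤ q.Lr z := by
  obtain ⟨hsum, ha, hab, hbc, hc2, hca, hT, h3⟩ := h
  have a0 : 0 < q.a := by linarith
  have b0 : 0 < q.b := by linarith
  have c0 : 0 < q.c := by linarith
  have a1 : q.a ≤ 4 / 3 := by linarith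
  have b1 : 2 * q.b ≤ 4 - q.a := by linarith
  have s0 : 29 / 12 ≤ 5 / 6 * z := by linarith
  have A1 : 29 / 16 ≤ 5 / 6 * z / q.a := by rw [le_div_iff₀ a0]; linarith
  have B1 : 58 / 39 ≤ 5 / 6 * z / q.b := by rw [le_div_iff₀ b0]; linarith
  have C1 : 29 / 24 ≤ 5 / 6 * z / q.c := by rw [le_div_iff₀ c0]; linarith
  have AB : 5 / 6 * z / q.b ≤ 5 / 6 * z / q.a :=
    div_le_div_of_nonneg_left (by linarith) a0 hab
  have BC : 5 / 6 * z / q.c ≤ 5 / 6 * z / q.b :=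
    div_le_div_of_nonneg_left (by linarith) b0 hbc
  have hT4 : 841 / 120 ≤ 3 * (5 / 6 * z / q.b) + 5 / 6 * z / q.a := by
    have e1 : 29 / 10 ≤ 3 / q.b + 1 / q.a := by
      rw [div_add_div _ _ b0.ne' a0.ne', le_div_iff₀ (by positivity)]
      nlinarith [sq_nonneg (q.a - 33 / 29)]
    have e2 : 3 * (5 / 6 * z / q.b) + 5 / 6 * z / q.a = 5 / 6 * z * (3 / q.b + 1 / q.a) := by
      ring
    rw [e2]
    nlinarith
  set A := 5 / 6 * z / q.a with hA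
  set B := 5 / 6 * z / q.b with hB
  set C := 5 / 6 * z / q.c with hC
  have q1b : Real.exp (-A) ≤ 1633 / 10000 :=
    (Real.exp_le_exp.2 (by linarith)).trans x1
  have q2b : Real.exp (-B) ≤ 2261 / 10000 :=
    (Real.exp_le_exp.2 (by linarith)).trans x2
  have q3b : Real.exp (-C) ≤ 2988 / 10000 :=
    (Real.exp_le_exp.2 (by linarith)).trans x3
  have q12 : Real.exp (-A) ≤ Real.exp (-B) := Real.exp_le_exp.2 (by linarith)
  have q23 : Real.exp (-B) ≤ Real.exp (-C) := Real.exp_le_exp.2 (by linarith)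
  have qT : Real.exp (-B) ^ 3 * Real.exp (-A) ≤ 91 / 100000 := by
    have e := eqp B 3
    push_cast at e
    rw [← e, ← Real.exp_add]
    exact (Real.exp_le_exp.2 (by linarith)).trans x4
  have i2 : Function.Injective fun y : Fin 3 → ℤ => (w2 y, w1 y, w3 y) := by
    intro x y hxy
    simp only [Prod.mk.injEq] at hxy
    apply inj_w
    simp only [Prod.mk.injEq]
    exact ⟨hxy.2.1, hxy.1, hxy.2.2⟩
  have i3 : Function.Injective fun y : Fin 3 → ℤ => (w3 y, w1 y, w2 y) := by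
    intro x y hxy
    simp only [Prod.mk.injEq] at hxy
    apply inj_w
    simp only [Prod.mk.injEq]
    exact ⟨hxy.2.1, hxy.2.2, hxy.1⟩
  obtain ⟨u1, v1⟩ := FR_sum (z1 := A) (z2 := B) (z3 := C) inj_w (by
    rintro y ⟨n1, n2, n3, n4⟩
    refine ⟨w_even y, fun x1 x2 x3 => n3 (mem_V3 x1 x2 x3),
      fun x1 x2 x3 => n2 (mem_V2 x1 x2 x3), ?_⟩
    rcases n4 with x | x | x
    · exact Or.inl x.2
    · exact Or.inr (Or.inl x.2)
    · exact Or.inl x.1) (by linarith) (by linarith) (by linarith) (by linarith) (by linarith)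
      (by linarith)
  obtain ⟨u2, v2⟩ := FR_sum (z1 := B) (z2 := A) (z3 := C) i2 (by
    rintro y ⟨n1, n2, n3, n4⟩
    refine ⟨by have := w_even y; omega, fun x1 x2 x3 => n3 (mem_V3 x2 x1 x3),
      fun x1 x2 x3 => n1 (mem_V1 x1 x2 x3), ?_⟩
    rcases n4 with x | x | x
    · exact Or.inl x.1
    · exact Or.inl x.1
    · exact Or.inr (Or.inl x.2)) (by linarith) (by linarith) (by linarith) (by linarith)
      (by linarith) (by linarith)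
  obtain ⟨u3, v3⟩ := FR_sum (z1 := C) (z2 := A) (z3 := B) i3 (by
    rintro y ⟨n1, n2, n3, n4⟩
    refine ⟨by have := w_even y; omega, fun x1 x2 x3 => n2 (mem_V2 x2 x1 x3),
      fun x1 x2 x3 => n1 (mem_V1 x2 x1 x3), ?_⟩
    rcases n4 with x | x | x
    · exact Or.inl x.1
    · exact Or.inl x.1
    · exact Or.inr (Or.inl x.1)) (by linarith) (by linarith) (by linarith) (by linarith)
      (by linarith) (by linarith)
  have w1b := v1.trans (FF_le (Real.exp_pos _).le (Real.exp_pos _).le q23 q1b q2b q3b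
    (T := 985 / 1000000) (by
      have e1 : Real.exp (-A) ^ 3 ≤ (1633 / 10000) ^ 3 :=
        pow_le_pow_left₀ (Real.exp_pos _).le q1b 3
      have e2 := mul_le_mul e1 q2b (Real.exp_pos _).le (by norm_num)
      refine e2.trans (by norm_num)))
  have w2b := v2.trans (FF_le (Real.exp_pos _).le (Real.exp_pos _).le (q12.trans q23) q2b q1b q3b
    (T := 91 / 100000) qT)
  have w3b := v3.trans (FF_le (Real.exp_pos _).le (Real.exp_pos _).le q12 q3b q1b q2b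
    (T := 4357 / 1000000) (by
      have e1 : Real.exp (-C) ^ 3 ≤ (2988 / 10000) ^ 3 :=
        pow_le_pow_left₀ (Real.exp_pos _).le q3b 3
      have e2 := mul_le_mul e1 q1b (Real.exp_pos _).le (by norm_num)
      refine e2.trans (by norm_num)))
  have n1 := Real.exp_pos (-A)
  have n2 := Real.exp_pos (-B)
  have n3 := Real.exp_pos (-C)
  have k12 : Real.exp (-A) ^ 4 ≤ Real.exp (-B) ^ 4 := pow_le_pow_left₀ n1.le q12 4
  have k23 : Real.exp (-B) ^ 4 ≤ Real.exp (-C) ^ 4 := pow_le_pow_left₀ n2.le q23 4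
  -- the three sums
  have S1 : ∑' y, FR A B C w1 w2 w3 y ≤ 4 * (21 / 10 * Real.exp (-C) ^ 4 + 1 / 100) *
      (Real.exp (-A) * Real.exp (-C) + Real.exp (-A) * Real.exp (-B)) := by
    have g0 : 0 ≤ Real.exp (-C) ^ 4 := by positivity
    have m1 := mul_le_mul_of_nonneg_left (a := Real.exp (-A) * Real.exp (-B))
      (b := 8004 / 1000 * Real.exp (-C) ^ 4 + 3664 / 100 * (1633 / 10000) ^ 8
        + 4071 / 1000 * (2261 / 10000) ^ 8)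
      (c := 4 * (21 / 10 * Real.exp (-C) ^ 4 + 1 / 100)) (by norm_num; linarith)
      (mul_nonneg n1.le n2.le)
    have m2 := mul_le_mul_of_nonneg_left (a := Real.exp (-A) * Real.exp (-C))
      (b := 8004 / 1000 * Real.exp (-B) ^ 4 + 3664 / 100 * (1633 / 10000) ^ 8
        + 4071 / 1000 * (2988 / 10000) ^ 8 + 3204 / 100 * (985 / 1000000)
        + 163 / 10 * ((1633 / 10000) ^ 3 * (2261 / 10000) ^ 3)
        + 1602 / 100 * ((1633 / 10000) ^ 3 * (2988 / 10000) ^ 3))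
      (c := 4 * (21 / 10 * Real.exp (-C) ^ 4 + 1 / 100)) (by norm_num; linarith)
      (mul_nonneg n1.le n3.le)
    refine w1b.trans ((add_le_add m1 m2).trans (le_of_eq ?_))
    ring
  have S2 : ∑' y, FR B A C w2 w1 w3 y ≤ 4 * (21 / 10 * Real.exp (-C) ^ 4 + 1 / 100) *
      (Real.exp (-B) * Real.exp (-C) + Real.exp (-A) * Real.exp (-B)) := by
    have g0 : 0 ≤ Real.exp (-C) ^ 4 := by positivity
    have m1 := mul_le_mul_of_nonneg_left (a := Real.exp (-B) * Real.exp (-A))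
      (b := 8004 / 1000 * Real.exp (-C) ^ 4 + 3664 / 100 * (2261 / 10000) ^ 8
        + 4071 / 1000 * (1633 / 10000) ^ 8)
      (c := 4 * (21 / 10 * Real.exp (-C) ^ 4 + 1 / 100)) (by norm_num; linarith)
      (mul_nonneg n2.le n1.le)
    have m2 := mul_le_mul_of_nonneg_left (a := Real.exp (-B) * Real.exp (-C))
      (b := 8004 / 1000 * Real.exp (-A) ^ 4 + 3664 / 100 * (2261 / 10000) ^ 8
        + 4071 / 1000 * (2988 / 10000) ^ 8 + 3204 / 100 * (91 / 100000)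
        + 163 / 10 * ((2261 / 10000) ^ 3 * (1633 / 10000) ^ 3)
        + 1602 / 100 * ((2261 / 10000) ^ 3 * (2988 / 10000) ^ 3))
      (c := 4 * (21 / 10 * Real.exp (-C) ^ 4 + 1 / 100)) (by norm_num; linarith)
      (mul_nonneg n2.le n3.le)
    refine w2b.trans ((add_le_add m1 m2).trans (le_of_eq ?_))
    ring
  have S3 : ∑' y, FR C A B w3 w1 w2 y ≤ 16 * (21 / 10 * Real.exp (-C) ^ 4 + 1 / 100) *
      (Real.exp (-A) * Real.exp (-C) + Real.exp (-B) * Real.exp (-C)) := by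
    have g0 : 0 ≤ Real.exp (-C) ^ 4 := by positivity
    have m1 := mul_le_mul_of_nonneg_left (a := Real.exp (-C) * Real.exp (-A))
      (b := 8004 / 1000 * Real.exp (-B) ^ 4 + 3664 / 100 * (2988 / 10000) ^ 8
        + 4071 / 1000 * (1633 / 10000) ^ 8)
      (c := 16 * (21 / 10 * Real.exp (-C) ^ 4 + 1 / 100)) (by norm_num; linarith)
      (mul_nonneg n3.le n1.le)
    have m2 := mul_le_mul_of_nonneg_left (a := Real.exp (-C) * Real.exp (-B))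
      (b := 8004 / 1000 * Real.exp (-A) ^ 4 + 3664 / 100 * (2988 / 10000) ^ 8
        + 4071 / 1000 * (2261 / 10000) ^ 8 + 3204 / 100 * (4357 / 1000000)
        + 163 / 10 * ((2988 / 10000) ^ 3 * (1633 / 10000) ^ 3)
        + 1602 / 100 * ((2988 / 10000) ^ 3 * (2261 / 10000) ^ 3))
      (c := 16 * (21 / 10 * Real.exp (-C) ^ 4 + 1 / 100)) (by norm_num; linarith)
      (mul_nonneg n3.le n2.le)
    refine w3b.trans ((add_le_add m1 m2).trans (le_of_eq ?_))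
    ring
  set K := 41 / 20 * (q.W + 3 * |q.pp|) / (q.a * q.b * q.c) with hK
  have K0 : 0 ≤ K := by
    have : 0 ≤ q.W := by unfold Par.W; positivity
    positivity
  have hrw : q.rw z = fun y => K * (FR A B C w1 w2 w3 y / q.a + FR B A C w2 w1 w3 y / q.b
      + FR C A B w3 w1 w2 y / (200 * q.c)) := by
    funext y
    unfold Par.rw FR
    by_cases hy : rst y
    · simp only [if_pos hy]
      have e1 : Real.exp (-(5 / 6 * z * ((w1 y : ℝ) ^ 2 / q.a + (w2 y : ℝ) ^ 2 / q.b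
          + (w3 y : ℝ) ^ 2 / q.c))) = Real.exp (-(A * (w1 y : ℝ) ^ 2))
          * Real.exp (-(B * (w2 y : ℝ) ^ 2)) * Real.exp (-(C * (w3 y : ℝ) ^ 2)) := by
        rw [← Real.exp_add, ← Real.exp_add]
        congr 1
        rw [hA, hB, hC]
        ring
      rw [e1, ← hK]
      ring
    · simp only [if_neg hy]
      simp
  have sm := ((u1.div_const q.a).add (u2.div_const q.b)).add (u3.div_const (200 * q.c))
  have sm2 := sm.mul_left K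
  refine ⟨by rw [hrw]; exact sm2, ?_⟩
  have e0 : ∑' y, q.rw z y = K * ((∑' y, FR A B C w1 w2 w3 y) / q.a
      + (∑' y, FR B A C w2 w1 w3 y) / q.b + (∑' y, FR C A B w3 w1 w2 y) / (200 * q.c)) := by
    rw [hrw, tsum_mul_left]
    congr 1
    have e1 := ((u1.div_const q.a).add (u2.div_const q.b)).tsum_add (u3.div_const (200 * q.c))
    have e2 := (u1.div_const q.a).tsum_add (u2.div_const q.b)
    rw [e1, e2, tsum_div_const, tsum_div_const, tsum_div_const]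
  have g4 : Real.exp (-(10 / 3 * z / q.c)) = Real.exp (-C) ^ 4 := by
    have e := eqp C 4
    push_cast at e
    rw [← e]
    congr 1
    rw [hC]
    ring
  have g1 : Real.exp (-(5 / 6 * z * q.e1)) = Real.exp (-B) * Real.exp (-C) := by
    rw [← Real.exp_add]
    congr 1
    rw [hB, hC]
    unfold Par.e1
    ring
  have g2 : Real.exp (-(5 / 6 * z * q.e2)) = Real.exp (-A) * Real.exp (-C) := by
    rw [← Real.exp_add]
    congr 1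
    rw [hA, hC]
    unfold Par.e2
    ring
  have g3 : Real.exp (-(5 / 6 * z * q.e3)) = Real.exp (-A) * Real.exp (-B) := by
    rw [← Real.exp_add]
    congr 1
    rw [hA, hB]
    unfold Par.e3
    ring
  rw [e0]
  unfold Par.Lr
  rw [g1, g2, g3, g4, ← hK]
  have f1 := div_le_div_of_nonneg_right S1 a0.le
  have f2 := div_le_div_of_nonneg_right S2 b0.le
  have f3 := div_le_div_of_nonneg_right S3 (by positivity : (0 : ℝ) ≤ 200 * q.c)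
  have f4 := mul_le_mul_of_nonneg_left (add_le_add (add_le_add f1 f2) f3) K0
  refine f4.trans (le_of_eq ?_)
  field_simp
  ring

end Pool.Agent.Lib.EPT
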