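import Pool.Agent.Lib.EPT.RstA
import Pool.Agent.Lib.EPT.RstB
import Pool.Agent.Lib.EPT.Alg

/-!
# The dual side

PROOF.  `Ds z = ∑ val z y + ∑ dM.Ky y e^(-z inv.Ey y)`, and the last sum is zero by oddness
(involutions of `y` changing the sign of one of the `w_i`: `w1 ↦ -w1`: `y ↦ (y0', y1', y2')` with
`2 y0' = -w1 + w2 + w3`, i.e. `y ↦ (-y1, -y0, y0 + y1 + y2)`; check `w1 = y0+y1`, `w2 = y0+y2`,
`w3 = -(y1+y2)`; `w2 ↦ -w2`: `y ↦ (-y2, y0 + y1 + y2, -y0)`; `w3 ↦ -w3`: `y ↦ (y0+y1+y2, -y2, -y1)`).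
Summability: `q.inv.dmat = q.mat⁻¹` is positive definite (`summable_Th`), and the diagonal form
`inv.Ey` as well.  Pointwise
 `val z y ≥ (if y ∈ V1 ++ V2 ++ V3 then val z y else 0) - axis(y) - rw z y`
with `axis(y) = (max 0 (chi b - 2 o1²)/dt) w1² e^(-z w1²/a)` if `w2 = w3 = 0` (then `w1` is even; nonzero),
`(max 0 (chi a - 2 o2²)/dt) w2² e^(-z w2²/b)` if `w1 = w3 = 0`, and `0` otherwise: on the axes `Ky = 0`
and `dM.a ≥ -max 0 (..)/dt`, `inv.a ≥ 1/a`; on the third axis `dM.c ≥ 0`; for `rst y` use `rst_point`.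
The axis sums are bounded by `axis_sum` (`z/a ≥ 1`, `z/b ≥ 1`), the rest by `rst_sum`, the finite
sum by `cls1`, `cls2`, `cls3` (`V1 ++ V2 ++ V3` has no repetitions).
-/

namespace Pool.Agent.Lib.EPT

open Pool.Agent.Lib.EpZ Pool.Agent.Lib.EPS Pool.Agent.Lib.EPL

namespace DualAux

/-- the involution changing the sign of `w1` -/
def fl1 (y : Fin 3 → ℤ) : Fin 3 → ℤ := ![-y 1, -y 0, y 0 + y 1 + y 2]

/-- the involution changing the sign of `w2` -/
def fl2 (y : Fin 3 → ℤ) : Fin 3 → ℤ := ![-y 2, y 0 + y 1 + y 2, -y 0]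

lemma fl1_0 (y : Fin 3 → ℤ) : fl1 y 0 = -y 1 := rfl
lemma fl1_1 (y : Fin 3 → ℤ) : fl1 y 1 = -y 0 := rfl
lemma fl1_2 (y : Fin 3 → ℤ) : fl1 y 2 = y 0 + y 1 + y 2 := rfl
lemma fl2_0 (y : Fin 3 → ℤ) : fl2 y 0 = -y 2 := rfl
lemma fl2_1 (y : Fin 3 → ℤ) : fl2 y 1 = y 0 + y 1 + y 2 := rfl
lemma fl2_2 (y : Fin 3 → ℤ) : fl2 y 2 = -y 0 := rfl

lemma fl1_inv : Function.Involutive fl1 := by
  intro y
  funext i
  fin_cases i
  · show fl1 (fl1 y) 0 = y 0
    rw [fl1_0, fl1_1]; ring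
  · show fl1 (fl1 y) 1 = y 1
    rw [fl1_1, fl1_0]; ring
  · show fl1 (fl1 y) 2 = y 2
    rw [fl1_2, fl1_0, fl1_1, fl1_2]; ring

lemma fl2_inv : Function.Involutive fl2 := by
  intro y
  funext i
  fin_cases i
  · show fl2 (fl2 y) 0 = y 0
    rw [fl2_0, fl2_2]; ring
  · show fl2 (fl2 y) 1 = y 1
    rw [fl2_1, fl2_0, fl2_1, fl2_2]; ring
  · show fl2 (fl2 y) 2 = y 2
    rw [fl2_2, fl2_0]; ring

lemma w1_fl1 (y : Fin 3 → ℤ) : w1 (fl1 y) = -w1 y := by
  unfold w1; rw [fl1_0, fl1_1]; ring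
lemma w2_fl1 (y : Fin 3 → ℤ) : w2 (fl1 y) = w2 y := by
  unfold w2; rw [fl1_0, fl1_2]; ring
lemma w3_fl1 (y : Fin 3 → ℤ) : w3 (fl1 y) = w3 y := by
  unfold w3; rw [fl1_1, fl1_2]; ring
lemma w1_fl2 (y : Fin 3 → ℤ) : w1 (fl2 y) = w1 y := by
  unfold w1; rw [fl2_0, fl2_1]; ring
lemma w2_fl2 (y : Fin 3 → ℤ) : w2 (fl2 y) = -w2 y := by
  unfold w2; rw [fl2_0, fl2_2]; ring
lemma w3_fl2 (y : Fin 3 → ℤ) : w3 (fl2 y) = w3 y := by
  unfold w3; rw [fl2_1, fl2_2]; ring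

lemma odd_zero {f : (Fin 3 → ℤ) → ℝ} {e : (Fin 3 → ℤ) → (Fin 3 → ℤ)} (he : Function.Involutive e)
    (hf : ∀ y, f (e y) = -f y) : ∑' y, f y = 0 := by
  have h1 : ∑' y, f (e y) = ∑' y, f y := Equiv.tsum_eq (Function.Involutive.toPerm e he) f
  have h2 : ∑' y, f (e y) = -∑' y, f y := by
    rw [← tsum_neg]
    exact tsum_congr fun y => hf y
  linarith

/-- a diagonal form -/
def dg (A B C : ℝ) : Par := ⟨A, B, C, 0, 0, 0⟩

/-- an off-diagonal form -/
def od (x y z : ℝ) : Par := ⟨0, 0, 0, x, y, z⟩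

lemma dmat_qr (q : Par) (v : Fin 3 → ℝ) : qr q.dmat v =
    q.a * (v 0 + v 1) ^ 2 + q.b * (v 0 + v 2) ^ 2 + q.c * (v 1 + v 2) ^ 2
      + 2 * (q.o3 * (v 0 + v 1) * (v 0 + v 2) - q.o2 * (v 0 + v 1) * (v 1 + v 2)
        - q.o1 * (v 0 + v 2) * (v 1 + v 2)) := by
  simp [qr, dotProduct, Matrix.mulVec, Fin.sum_univ_three, Par.dmat]
  ring

lemma dg_symm (q : Par) : q.dmat.IsSymm := by
  refine Matrix.IsSymm.ext fun i j => ?_
  fin_cases i <;> fin_cases j <;> simp [Par.dmat]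

lemma dg_pd {A B C : ℝ} (hA : 0 < A) (hB : 0 < B) (hC : 0 < C) : PD (dg A B C).dmat := by
  refine ⟨dg_symm _, fun v hv => ?_⟩
  rw [dmat_qr]
  simp only [dg]
  by_contra hcon
  apply hv
  have e1 : 0 ≤ A * (v 0 + v 1) ^ 2 := by positivity
  have e2 : 0 ≤ B * (v 0 + v 2) ^ 2 := by positivity
  have e3 : 0 ≤ C * (v 1 + v 2) ^ 2 := by positivity
  have f1 : A * (v 0 + v 1) ^ 2 = 0 := by nlinarith
  have f2 : B * (v 0 + v 2) ^ 2 = 0 := by nlinarith
  have f3 : C * (v 1 + v 2) ^ 2 = 0 := by nlinarith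
  have g1 : v 0 + v 1 = 0 := by
    rcases mul_eq_zero.1 f1 with h | h
    · exact absurd h hA.ne'
    · exact pow_eq_zero_iff two_ne_zero |>.1 h
  have g2 : v 0 + v 2 = 0 := by
    rcases mul_eq_zero.1 f2 with h | h
    · exact absurd h hB.ne'
    · exact pow_eq_zero_iff two_ne_zero |>.1 h
  have g3 : v 1 + v 2 = 0 := by
    rcases mul_eq_zero.1 f3 with h | h
    · exact absurd h hC.ne'
    · exact pow_eq_zero_iff two_ne_zero |>.1 h
  funext i
  fin_cases i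
  · show v 0 = 0
    linarith
  · show v 1 = 0
    linarith
  · show v 2 = 0
    linarith

lemma a_pos {q : Par} (h : Reg q) : 0 < q.a := by have := h.ha; linarith
lemma b_pos {q : Par} (h : Reg q) : 0 < q.b := by have := h.ha; have := h.hab; linarith
lemma c_pos {q : Par} (h : Reg q) : 0 < q.c := by
  have := h.ha; have := h.hab; have := h.hbc; linarith
lemma ia_pos {q : Par} (h : Reg q) : 0 < q.inv.a :=
  lt_of_lt_of_le (one_div_pos.2 (a_pos h)) h.inv_a.1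
lemma ib_pos {q : Par} (h : Reg q) : 0 < q.inv.b :=
  lt_of_lt_of_le (one_div_pos.2 (b_pos h)) h.inv_b.1
lemma ic_pos {q : Par} (h : Reg q) : 0 < q.inv.c :=
  lt_of_lt_of_le (one_div_pos.2 (c_pos h)) h.inv_c.1

lemma summ_od {q : Par} (h : Reg q) {z : ℝ} (hz : 0 < z) (x1 x2 x3 : ℝ) :
    Summable fun y : Fin 3 → ℤ => (od x1 x2 x3).Ky y * Real.exp (-(z * q.inv.Ey y)) := by
  refine (summable_Th (dg_pd (ia_pos h) (ib_pos h) (ic_pos h)) (od x1 x2 x3).dmat hz).congr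
    fun y => ?_
  rw [qf_dmat, qf_dmat]
  have e1 : (od x1 x2 x3).Ey y = 0 := by simp [Par.Ey, od]
  have e2 : (dg q.inv.a q.inv.b q.inv.c).Ky y = 0 := by simp [Par.Ky, dg]
  have e3 : (dg q.inv.a q.inv.b q.inv.c).Ey y = q.inv.Ey y := by simp [Par.Ey, dg]
  rw [e1, e2, e3, zero_add, add_zero]

lemma sum_Ky {q : Par} (h : Reg q) {z : ℝ} (hz : 0 < z) :
    (Summable fun y : Fin 3 → ℤ => q.dM.Ky y * Real.exp (-(z * q.inv.Ey y))) ∧
      ∑' y : Fin 3 → ℤ, q.dM.Ky y * Real.exp (-(z * q.inv.Ey y)) = 0 := by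
  have s1 := summ_od h hz 0 q.dM.o2 q.dM.o3
  have s2 := summ_od h hz q.dM.o1 0 0
  have e : ∀ y : Fin 3 → ℤ, (od 0 q.dM.o2 q.dM.o3).Ky y * Real.exp (-(z * q.inv.Ey y))
      + (od q.dM.o1 0 0).Ky y * Real.exp (-(z * q.inv.Ey y))
      = q.dM.Ky y * Real.exp (-(z * q.inv.Ey y)) := by
    intro y
    rw [← add_mul]
    congr 1
    simp only [Par.Ky, od]
    ring
  have z1 : ∑' y : Fin 3 → ℤ, (od 0 q.dM.o2 q.dM.o3).Ky y * Real.exp (-(z * q.inv.Ey y)) = 0 := by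
    refine odd_zero fl1_inv fun y => ?_
    simp only [Par.Ky, Par.Ey, od, w1_fl1, w2_fl1, w3_fl1]
    push_cast
    ring_nf
  have z2 : ∑' y : Fin 3 → ℤ, (od q.dM.o1 0 0).Ky y * Real.exp (-(z * q.inv.Ey y)) = 0 := by
    refine odd_zero fl2_inv fun y => ?_
    simp only [Par.Ky, Par.Ey, od, w1_fl2, w2_fl2, w3_fl2]
    push_cast
    ring_nf
  refine ⟨(s1.add s2).congr e, ?_⟩
  rw [← tsum_congr e, s1.tsum_add s2, z1, z2, add_zero]

lemma Ds_val {q : Par} (h : Reg q) {z : ℝ} (hz : 0 < z) :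
    Summable (q.val z) ∧ q.Ds z = ∑' y, q.val z y := by
  have hpd : PD q.inv.dmat := by
    rw [← h.mat_inv]
    exact inv_pd h.pd_mat
  have s1 : Summable fun y : Fin 3 → ℤ =>
      (q.dM.Ey y + q.dM.Ky y) * Real.exp (-(z * (q.inv.Ey y + q.inv.Ky y))) := by
    refine (summable_Th hpd q.dM.dmat hz).congr fun y => ?_
    rw [qf_dmat, qf_dmat]
  obtain ⟨s2, e2⟩ := sum_Ky h hz
  refine ⟨s1.sub s2, ?_⟩
  have e3 : ∑' y, q.val z y = ∑' y : Fin 3 → ℤ,
      ((q.dM.Ey y + q.dM.Ky y) * Real.exp (-(z * (q.inv.Ey y + q.inv.Ky y)))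
        - q.dM.Ky y * Real.exp (-(z * q.inv.Ey y))) := rfl
  rw [e3, s1.tsum_sub s2, e2, sub_zero]
  rfl

/-- the first axis -/
noncomputable def ax1 (s : ℝ) (y : Fin 3 → ℤ) : ℝ :=
  if w2 y = 0 ∧ w3 y = 0 ∧ w1 y ≠ 0 then (w1 y : ℝ) ^ 2 * Real.exp (-(s * (w1 y : ℝ) ^ 2)) else 0

/-- the second axis -/
noncomputable def ax2 (s : ℝ) (y : Fin 3 → ℤ) : ℝ :=
  if w1 y = 0 ∧ w3 y = 0 ∧ w2 y ≠ 0 then (w2 y : ℝ) ^ 2 * Real.exp (-(s * (w2 y : ℝ) ^ 2)) else 0

lemma wsum (y : Fin 3 → ℤ) : w1 y + w2 y + w3 y = 2 * y 0 := by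
  unfold w1 w2 w3
  ring

/-- the one-dimensional function of `axis_sum` -/
noncomputable def gA (s : ℝ) : ℤ → ℝ :=
  fun m => if m % 2 = 0 ∧ m ≠ 0 then (m : ℝ) ^ 2 * Real.exp (-(s * (m : ℝ) ^ 2)) else 0

lemma gA_nn (s : ℝ) (m : ℤ) : 0 ≤ gA s m := by
  unfold gA
  split_ifs
  · positivity
  · exact le_rfl

lemma ax1_sum {s : ℝ} (hs : 1 ≤ s) : Summable (ax1 s) ∧
    ∑' y, ax1 s y ≤ 801 / 100 * Real.exp (-(4 * s)) := by
  obtain ⟨s0, b0⟩ := axis_sum hs
  obtain ⟨zn, zs, zb⟩ := gZ_sum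
  obtain ⟨t1, t2⟩ := tri_le (f := gA s) (g := gZ) (h := gZ) (gA_nn s) zn zn s0 zs zs b0 zb zb
  obtain ⟨u1, u2⟩ := le_of_inj (F := ax1 s) inj_w (fun y => by
      unfold ax1
      split_ifs
      · positivity
      · exact le_rfl)
    (fun m => mul_nonneg (mul_nonneg (gA_nn s _) (zn _)) (zn _)) t1 (fun y => by
      by_cases hy : w2 y = 0 ∧ w3 y = 0 ∧ w1 y ≠ 0
      · obtain ⟨h2, h3, h1⟩ := hy
        have hev : w1 y % 2 = 0 := by
          have := wsum y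
          omega
        have e1 : gZ (w2 y) = 1 := by simp [gZ, h2]
        have e2 : gZ (w3 y) = 1 := by simp [gZ, h3]
        have e3 : gA s (w1 y) = (w1 y : ℝ) ^ 2 * Real.exp (-(s * (w1 y : ℝ) ^ 2)) := by
          unfold gA
          rw [if_pos ⟨hev, h1⟩]
        have e4 : ax1 s y = (w1 y : ℝ) ^ 2 * Real.exp (-(s * (w1 y : ℝ) ^ 2)) := by
          unfold ax1
          rw [if_pos ⟨h2, h3, h1⟩]
        show ax1 s y ≤ gA s (w1 y) * gZ (w2 y) * gZ (w3 y)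
        rw [e1, e2, e3, e4]
        simp
      · have e4 : ax1 s y = 0 := by
          unfold ax1
          rw [if_neg hy]
        rw [e4]
        exact mul_nonneg (mul_nonneg (gA_nn s _) (zn _)) (zn _))
  refine ⟨u1, u2.trans ?_⟩
  linarith

lemma ax2_sum {s : ℝ} (hs : 1 ≤ s) : Summable (ax2 s) ∧
    ∑' y, ax2 s y ≤ 801 / 100 * Real.exp (-(4 * s)) := by
  obtain ⟨s0, b0⟩ := axis_sum hs
  obtain ⟨zn, zs, zb⟩ := gZ_sum
  obtain ⟨t1, t2⟩ := tri_le (f := gZ) (g := gA s) (h := gZ) zn (gA_nn s) zn zs s0 zs zb b0 zb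
  obtain ⟨u1, u2⟩ := le_of_inj (F := ax2 s) inj_w (fun y => by
      unfold ax2
      split_ifs
      · positivity
      · exact le_rfl)
    (fun m => mul_nonneg (mul_nonneg (zn _) (gA_nn s _)) (zn _)) t1 (fun y => by
      by_cases hy : w1 y = 0 ∧ w3 y = 0 ∧ w2 y ≠ 0
      · obtain ⟨h2, h3, h1⟩ := hy
        have hev : w2 y % 2 = 0 := by
          have := wsum y
          omega
        have e1 : gZ (w1 y) = 1 := by simp [gZ, h2]
        have e2 : gZ (w3 y) = 1 := by simp [gZ, h3]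
        have e3 : gA s (w2 y) = (w2 y : ℝ) ^ 2 * Real.exp (-(s * (w2 y : ℝ) ^ 2)) := by
          unfold gA
          rw [if_pos ⟨hev, h1⟩]
        have e4 : ax2 s y = (w2 y : ℝ) ^ 2 * Real.exp (-(s * (w2 y : ℝ) ^ 2)) := by
          unfold ax2
          rw [if_pos ⟨h2, h3, h1⟩]
        show ax2 s y ≤ gZ (w1 y) * gA s (w2 y) * gZ (w3 y)
        rw [e1, e2, e3, e4]
        simp
      · have e4 : ax2 s y = 0 := by
          unfold ax2
          rw [if_neg hy]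
        rw [e4]
        exact mul_nonneg (mul_nonneg (zn _) (gA_nn s _)) (zn _))
  refine ⟨u1, u2.trans ?_⟩
  linarith

/-- a one-dimensional comparison on an axis -/
lemma axis_pt {A m r al n z : ℝ} (hz : 0 < z) (hr : 1 / A ≤ r) (hm : -m ≤ al)
    (hm0 : 0 ≤ m) (hn : 0 ≤ n) :
    -(m * (n * Real.exp (-(z / A * n)))) ≤ al * n * Real.exp (-(z * (r * n))) := by
  have h1 : Real.exp (-(z * (r * n))) ≤ Real.exp (-(z / A * n)) := by
    refine Real.exp_le_exp.2 ?_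
    have h2 : z * (1 / A * n) ≤ z * (r * n) :=
      mul_le_mul_of_nonneg_left (mul_le_mul_of_nonneg_right hr hn) hz.le
    have h3 : z * (1 / A * n) = z / A * n := by ring
    linarith
  have h4 : -(m * n * Real.exp (-(z * (r * n)))) ≤ al * n * Real.exp (-(z * (r * n))) := by
    have h5 : -m * (n * Real.exp (-(z * (r * n)))) ≤ al * (n * Real.exp (-(z * (r * n)))) :=
      mul_le_mul_of_nonneg_right hm (mul_nonneg hn (Real.exp_pos _).le)
    linarith
  have h6 : m * n * Real.exp (-(z * (r * n))) ≤ m * n * Real.exp (-(z / A * n)) :=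
    mul_le_mul_of_nonneg_left h1 (mul_nonneg hm0 hn)
  linarith

/-- the list of the twelve short vectors -/
def VV : List (Fin 3 → ℤ) := V1 ++ V2 ++ V3

lemma VV_nodup : VV.Nodup := by
  unfold VV V1 V2 V3
  decide

open Classical in
lemma point {q : Par} (h : Reg q) {z : ℝ} (hz : 0 < z) (y : Fin 3 → ℤ) :
    (if y ∈ VV then q.val z y else 0)
      - (max 0 (q.chi * q.b - 2 * q.o1 ^ 2) / q.dt) * ax1 (z / q.a) y
      - (max 0 (q.chi * q.a - 2 * q.o2 ^ 2) / q.dt) * ax2 (z / q.b) y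
      - q.rw z y ≤ q.val z y := by
  have hdt := h.dt_pos
  have m1 : 0 ≤ max 0 (q.chi * q.b - 2 * q.o1 ^ 2) / q.dt := div_nonneg (le_max_left _ _) hdt.le
  have m2 : 0 ≤ max 0 (q.chi * q.a - 2 * q.o2 ^ 2) / q.dt := div_nonneg (le_max_left _ _) hdt.le
  have n1 : 0 ≤ ax1 (z / q.a) y := by
    unfold ax1
    split_ifs
    · positivity
    · exact le_rfl
  have n2 : 0 ≤ ax2 (z / q.b) y := by
    unfold ax2
    split_ifs
    · positivity
    · exact le_rfl
  have p1 := mul_nonneg m1 n1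
  have p2 := mul_nonneg m2 n2
  by_cases hV : y ∈ VV
  · rw [if_pos hV]
    have hr : q.rw z y = 0 := by
      unfold Par.rw
      rw [if_neg]
      rintro ⟨g1, g2, g3, -⟩
      unfold VV at hV
      rcases List.mem_append.1 hV with hV | hV
      · rcases List.mem_append.1 hV with hV | hV
        · exact g1 hV
        · exact g2 hV
      · exact g3 hV
    rw [hr]
    linarith
  · rw [if_neg hV]
    by_cases hR : rst y
    · have hr : q.rw z y = 41 / 20 * (q.W + 3 * |q.pp|) / (q.a * q.b * q.c)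
        * ((w1 y : ℝ) ^ 2 / q.a + (w2 y : ℝ) ^ 2 / q.b + (w3 y : ℝ) ^ 2 / (200 * q.c))
        * Real.exp (-(5 / 6 * z * ((w1 y : ℝ) ^ 2 / q.a + (w2 y : ℝ) ^ 2 / q.b
          + (w3 y : ℝ) ^ 2 / q.c))) := by
        unfold Par.rw
        rw [if_pos hR]
      have hp := h.rst_point hz y
      rw [← hr] at hp
      linarith
    · have hr : q.rw z y = 0 := by
        unfold Par.rw
        rw [if_neg hR]
      rw [hr]
      have hnot : ¬ ((w1 y ≠ 0 ∧ w2 y ≠ 0) ∨ (w1 y ≠ 0 ∧ w3 y ≠ 0) ∨ (w2 y ≠ 0 ∧ w3 y ≠ 0)) := by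
        intro hh
        apply hR
        refine ⟨fun g => hV ?_, fun g => hV ?_, fun g => hV ?_, hh⟩
        · exact List.mem_append_left _ (List.mem_append_left _ g)
        · exact List.mem_append_left _ (List.mem_append_right _ g)
        · exact List.mem_append_right _ g
      by_cases h1 : w1 y = 0
      · by_cases h2 : w2 y = 0
        · -- the third axis
          have hv : q.val z y = q.dM.c * (w3 y : ℝ) ^ 2 * Real.exp (-(z * (q.inv.c * (w3 y : ℝ) ^ 2)))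
              := by
            simp [Par.val, Par.Ey, Par.Ky, h1, h2]
          have hc : 0 ≤ q.dM.c := by
            show 0 ≤ 2 * q.o3 ^ 2 / q.dt
            positivity
          have : 0 ≤ q.val z y := by
            rw [hv]
            positivity
          linarith
        · have h3 : w3 y = 0 := by
            by_contra h3
            exact hnot (Or.inr (Or.inr ⟨h2, h3⟩))
          have hv : q.val z y = q.dM.b * (w2 y : ℝ) ^ 2 * Real.exp (-(z * (q.inv.b * (w2 y : ℝ) ^ 2)))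
              := by
            simp [Par.val, Par.Ey, Par.Ky, h1, h3]
          have e2 : ax2 (z / q.b) y = (w2 y : ℝ) ^ 2 * Real.exp (-(z / q.b * (w2 y : ℝ) ^ 2)) := by
            unfold ax2
            rw [if_pos ⟨h1, h3, h2⟩]
          have hm : -(max 0 (q.chi * q.a - 2 * q.o2 ^ 2) / q.dt) ≤ q.dM.b := by
            show -(max 0 (q.chi * q.a - 2 * q.o2 ^ 2) / q.dt) ≤ (2 * q.o2 ^ 2 - q.chi * q.a) / q.dt
            rw [← neg_div]
            refine div_le_div_of_nonneg_right ?_ hdt.le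
            have := le_max_right 0 (q.chi * q.a - 2 * q.o2 ^ 2)
            linarith
          have := axis_pt hz h.inv_b.1 hm m2 (sq_nonneg (w2 y : ℝ))
          rw [hv, e2]
          linarith
      · have h2 : w2 y = 0 := by
          by_contra h2
          exact hnot (Or.inl ⟨h1, h2⟩)
        have h3 : w3 y = 0 := by
          by_contra h3
          exact hnot (Or.inr (Or.inl ⟨h1, h3⟩))
        have hv : q.val z y = q.dM.a * (w1 y : ℝ) ^ 2 * Real.exp (-(z * (q.inv.a * (w1 y : ℝ) ^ 2)))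
            := by
          simp [Par.val, Par.Ey, Par.Ky, h2, h3]
        have e1 : ax1 (z / q.a) y = (w1 y : ℝ) ^ 2 * Real.exp (-(z / q.a * (w1 y : ℝ) ^ 2)) := by
          unfold ax1
          rw [if_pos ⟨h2, h3, h1⟩]
        have hm : -(max 0 (q.chi * q.b - 2 * q.o1 ^ 2) / q.dt) ≤ q.dM.a := by
          show -(max 0 (q.chi * q.b - 2 * q.o1 ^ 2) / q.dt) ≤ (2 * q.o1 ^ 2 - q.chi * q.b) / q.dt
          rw [← neg_div]
          refine div_le_div_of_nonneg_right ?_ hdt.le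
          have := le_max_right 0 (q.chi * q.b - 2 * q.o1 ^ 2)
          linarith
        have := axis_pt hz h.inv_a.1 hm m1 (sq_nonneg (w1 y : ℝ))
        rw [hv, e1]
        linarith

open Classical in
lemma fin_sum {q : Par} (z : ℝ) :
    (Summable fun y : Fin 3 → ℤ => if y ∈ VV then q.val z y else 0) ∧
    ∑' y : Fin 3 → ℤ, (if y ∈ VV then q.val z y else 0) =
      (V1.map fun y => q.val z y).sum + (V2.map fun y => q.val z y).sum
        + (V3.map fun y => q.val z y).sum := by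
  have hz0 : ∀ y ∉ VV.toFinset, (if y ∈ VV then q.val z y else 0) = 0 := by
    intro y hy
    rw [if_neg]
    intro hc
    exact hy (List.mem_toFinset.2 hc)
  refine ⟨summable_of_ne_finset_zero hz0, ?_⟩
  rw [tsum_eq_sum hz0]
  have e1 : ∑ y ∈ VV.toFinset, (if y ∈ VV then q.val z y else 0) = ∑ y ∈ VV.toFinset, q.val z y := by
    refine Finset.sum_congr rfl fun y hy => ?_
    rw [if_pos (List.mem_toFinset.1 hy)]
  rw [e1, List.sum_toFinset _ VV_nodup]
  unfold VV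
  rw [List.map_append, List.map_append, List.sum_append, List.sum_append]

end DualAux

open DualAux in
theorem Reg.dual_lower {q : Par} (h : Reg q) {z : ℝ} (hz : 29 / 10 ≤ z) : q.Lw z ≤ q.Ds z := by
  classical
  have hz0 : 0 < z := by linarith
  have ha := a_pos h
  have hb := b_pos h
  have hdt := h.dt_pos
  have m1 : 0 ≤ max 0 (q.chi * q.b - 2 * q.o1 ^ 2) / q.dt := div_nonneg (le_max_left _ _) hdt.le
  have m2 : 0 ≤ max 0 (q.chi * q.a - 2 * q.o2 ^ 2) / q.dt := div_nonneg (le_max_left _ _) hdt.le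
  obtain ⟨sv, ev⟩ := Ds_val h hz0
  have za : 1 ≤ z / q.a := by
    rw [le_div_iff₀ ha]
    have := h.a2
    linarith
  have zb : 1 ≤ z / q.b := by
    rw [le_div_iff₀ hb]
    have := h.b2
    linarith
  obtain ⟨s1, b1⟩ := ax1_sum za
  obtain ⟨s2, b2⟩ := ax2_sum zb
  obtain ⟨s3, b3⟩ := h.rst_sum hz
  obtain ⟨s0, e0⟩ := fin_sum (q := q) z
  have t1 := s1.mul_left (max 0 (q.chi * q.b - 2 * q.o1 ^ 2) / q.dt)
  have t2 := s2.mul_left (max 0 (q.chi * q.a - 2 * q.o2 ^ 2) / q.dt)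
  have key := Summable.tsum_le_tsum (point h hz0) (((s0.sub t1).sub t2).sub s3) sv
  rw [((s0.sub t1).sub t2).tsum_sub s3, (s0.sub t1).tsum_sub t2, s0.tsum_sub t1, tsum_mul_left,
    tsum_mul_left, e0] at key
  have c1 := h.cls1 hz0
  have c2 := h.cls2 hz0
  have c3 := h.cls3 hz0
  have d1 := mul_le_mul_of_nonneg_left b1 m1
  have d2 := mul_le_mul_of_nonneg_left b2 m2
  have x1 : -(4 * (z / q.a)) = -(4 * z / q.a) := by ring
  have x2 : -(4 * (z / q.b)) = -(4 * z / q.b) := by ring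
  rw [x1] at d1
  rw [x2] at d2
  rw [ev]
  unfold Par.Lw Par.Lc Par.La
  linarith

end Pool.Agent.Lib.EPT
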