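import Pool.Agent.Lib.EPL.Mix

/-!
# The integral over `(0, τ]` through the dual side

PROOF.  `t = τ/v`: `∫_{(0,τ)} t^s Th t dt = τ^(s+1) ∫_1^∞ v^(-s-2) Th (τ/v) dv` (`sub_inv`, `sub_inv_int`
after the scaling `t = τ t'`; or a direct change of variables), `Th (τ/v) = Ct Q (τ/v) D (π² v/τ)` and
`Ct Q (τ/v) = Ct Q τ v^(7/2)`; `-s - 2 + 7/2 = 3/2 - s`.  Integrability from `mel_Th`.
-/

open MeasureTheory Set

namespace Pool.Agent.Lib.EPT

open Pool.Agent.Lib.EpZ Pool.Agent.Lib.EPS Pool.Agent.Lib.EPL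

namespace LowAux

theorem Ct_scale (Q : Mx 3) {τ v : ℝ} (hτ : 0 < τ) (hv : 0 < v) :
    Ct Q (τ * v⁻¹) = Ct Q τ * v ^ ((7 : ℝ) / 2) := by
  have hpi := Real.pi_pos
  unfold Ct
  have e1 : Real.pi / (τ * v⁻¹) = Real.pi / τ * v := by field_simp
  have e2 : Real.pi ^ 2 / (τ * v⁻¹) ^ 2 = Real.pi ^ 2 / τ ^ 2 * v ^ 2 := by field_simp
  rw [e1, e2, Real.mul_rpow (by positivity) hv.le]
  have e5 : v ^ ((7 : ℝ) / 2) = v ^ ((3 : ℝ) / 2) * v ^ 2 := by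
    rw [← Real.rpow_natCast v 2, ← Real.rpow_add hv]; norm_num
  rw [e5]
  ring

end LowAux

open LowAux

theorem low_int {Q H : Mx 3} (hQ : PD Q) {D : ℝ → ℝ}
    (hD : ∀ t, 0 < t → Th Q H t = Ct Q t * D (Real.pi ^ 2 / t)) {τ s : ℝ} (hτ : 0 < τ)
    (hs : 3 / 2 < s) :
    IntegrableOn (fun t : ℝ => t ^ s * Th Q H t) (Ioi τ) ∧
      IntegrableOn (fun v : ℝ => v ^ (3 / 2 - s) * D (Real.pi ^ 2 / τ * v)) (Ioi 1) ∧
      ∫ t in Ioi (0 : ℝ), t ^ s * Th Q H t =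
        (∫ t in Ioi τ, t ^ s * Th Q H t) +
          τ ^ (s + 1) * Ct Q τ * ∫ v in Ioi (1 : ℝ), v ^ (3 / 2 - s) * D (Real.pi ^ 2 / τ * v) := by
  have hI := (mel_Th hQ H hs).1
  set f : ℝ → ℝ := fun t => t ^ s * Th Q H t with hf
  have hIτ : IntegrableOn f (Ioi τ) := hI.mono_set fun t ht => by
    have : τ < t := ht
    exact mem_Ioi.mpr (by linarith)
  have hI0τ : IntegrableOn f (Ioc 0 τ) := hI.mono_set fun t ht => ht.1
  have hg : IntegrableOn (fun t => f (τ * t)) (Ioi 0) := by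
    have h1 := (integrableOn_Ioi_comp_mul_left_iff f 0 hτ).mpr (by rwa [mul_zero])
    exact h1
  have hg1 : IntegrableOn (fun t => f (τ * t)) (Ioo 0 1) := hg.mono_set fun t ht => ht.1
  have hC := Ct_pos hQ hτ
  have hτs : 0 < τ ^ s := Real.rpow_pos_of_pos hτ s
  have hconv : ∀ v ∈ Ioi (1 : ℝ), v ^ (-2 : ℝ) * f (τ * v⁻¹) =
      (τ ^ s * Ct Q τ) * (v ^ (3 / 2 - s) * D (Real.pi ^ 2 / τ * v)) := by
    intro v hv
    have hv0 : (0 : ℝ) < v := lt_trans one_pos hv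
    simp only [hf]
    rw [hD _ (by positivity), Ct_scale Q hτ hv0, Real.mul_rpow hτ.le (by positivity),
      Real.inv_rpow hv0.le, ← Real.rpow_neg hv0.le]
    have e0 : Real.pi ^ 2 / (τ * v⁻¹) = Real.pi ^ 2 / τ * v := by field_simp
    have e : v ^ (3 / 2 - s) = v ^ (-2 : ℝ) * (v ^ (-s) * v ^ ((7 : ℝ) / 2)) := by
      rw [← Real.rpow_add hv0, ← Real.rpow_add hv0]; congr 1; ring
    rw [e0, e]
    ring
  refine ⟨hIτ, ?_, ?_⟩
  · have h1 := (sub_inv_int _ hg1).congr_fun hconv measurableSet_Ioi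
    have h2 := Integrable.const_mul h1 (τ ^ s * Ct Q τ)⁻¹
    refine h2.congr (Filter.Eventually.of_forall fun v => ?_)
    show (τ ^ s * Ct Q τ)⁻¹ * ((τ ^ s * Ct Q τ) * (v ^ (3 / 2 - s) * D (Real.pi ^ 2 / τ * v))) =
      v ^ (3 / 2 - s) * D (Real.pi ^ 2 / τ * v)
    rw [← mul_assoc, inv_mul_cancel₀ (by positivity), one_mul]
  · have hU : Ioi (0 : ℝ) = Ioc 0 τ ∪ Ioi τ := (Ioc_union_Ioi_eq_Ioi hτ.le).symm
    have h3 : ∫ t in Ioc (0 : ℝ) τ, f t = τ * ∫ t in Ioo (0 : ℝ) 1, f (τ * t) := by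
      rw [← integral_Ioc_eq_integral_Ioo, ← intervalIntegral.integral_of_le hτ.le,
        ← intervalIntegral.integral_of_le zero_le_one,
        intervalIntegral.integral_comp_mul_left f hτ.ne', mul_zero, mul_one, smul_eq_mul,
        ← mul_assoc, mul_inv_cancel₀ hτ.ne', one_mul]
    rw [hU, setIntegral_union (Set.Ioc_disjoint_Ioi le_rfl) measurableSet_Ioi hI0τ hIτ, h3,
      sub_inv (fun t => f (τ * t)), setIntegral_congr_fun measurableSet_Ioi hconv,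
      integral_const_mul, Real.rpow_add hτ, Real.rpow_one]
    ring

end Pool.Agent.Lib.EPT
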