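import Pool.Agent.Lib.EPT.Bnd

/-!
# Monotonicity of `exp t * (Gg t - chi Nn t)` on `[33/10, 9/2]`

PROOF.  Compare increments term by term (`t ≤ t'` in `[33/10, 9/2]`, `d = t' - t ≥ 0`), `e^t e^(-δ t) = e^(-(δ-1) t)`:
* `2 t S2`: increment `2 S2 d`;
* `t e^(-η t)` with `33/10 η ≥ 2`: increment `≥ -((33/10) η - 1) e^(-(33/10) η) d` (the derivative
  `(1 - η t) e^(-η t)` increases for `η t ≥ 2`; mean value inequality); used with `η = 3 - c`
  (`c ≤ 2`), `2 a`, `2 b`;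
* `-pp g t`, `g t = 3 t² + 27 t² (e^(-2at) + e^(-2bt))`: `0 ≤ g' ≤ 6 t ≤ 27`
  (`g' = 6 t - 54 t ((a t - 1) e^(-2at) + (b t - 1) e^(-2bt))`, and `a t ≥ 2.475`, `b t ≥ 3.3`,
  `(y - 1) e^(-2y) ≤ 1/18` for `y ≥ 2.4`), so the increment is `≥ -27 |pp| d`;
* `-chi (t² S2/4) e^(t/12)`: the derivative of `t² e^(t/12)` is `(2t + t²/12) e^(t/12)`, at most its
  value at `9/2`;
* all other terms of `-chi e^t Nn t` are constant or `-chi * (positive) * e^(-δ t)` with `δ ≥ 0`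
  (`c ≥ 1`, `(11/12)(a+c) ≥ 1`, `(11/12)(b+c) ≥ 1`, `11/3 ≥ 1`, `(11/12)(1+2a) ≥ 1`, ...), nondecreasing.
-/

namespace Pool.Agent.Lib.EPT

namespace MonoAux

theorem mvt {f f' : ℝ → ℝ} {C t t' : ℝ} (h : ∀ x, HasDerivAt f (f' x) x)
    (hC : ∀ x, t ≤ x → x ≤ t' → C ≤ f' x) (htt : t ≤ t') : C * (t' - t) ≤ f t' - f t := by
  refine (convex_Icc t t').mul_sub_le_image_sub_of_le_deriv
    (fun x _ => (h x).continuousAt.continuousWithinAt)
    (fun x _ => (h x).differentiableAt.differentiableWithinAt) ?_ t ⟨le_rfl, htt⟩ t'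
    ⟨htt, le_rfl⟩ htt
  intro x hx
  rw [interior_Icc] at hx
  rw [(h x).deriv]
  exact hC x hx.1.le hx.2.le

theorem der_e (η x : ℝ) : HasDerivAt (fun x : ℝ => Real.exp (-(η * x)))
    (-η * Real.exp (-(η * x))) x := by
  have h1 : HasDerivAt (fun x : ℝ => -(η * x)) (-(η * 1)) x :=
    ((hasDerivAt_id x).const_mul η).neg
  exact h1.exp.congr_deriv (by ring)

theorem der_te (η x : ℝ) : HasDerivAt (fun x : ℝ => x * Real.exp (-(η * x)))
    ((1 - η * x) * Real.exp (-(η * x))) x := by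
  exact ((hasDerivAt_id x).mul (der_e η x)).congr_deriv (by simp only [id]; ring)

theorem der_tte (η x : ℝ) : HasDerivAt (fun x : ℝ => x ^ 2 * Real.exp (-(η * x)))
    ((2 * x - η * x ^ 2) * Real.exp (-(η * x))) x := by
  exact ((hasDerivAt_pow 2 x).mul (der_e η x)).congr_deriv (by norm_num; ring)

theorem inc_te {η t t' : ℝ} (hη : 2 ≤ η * (33 / 10)) (ht : 33 / 10 ≤ t) (htt : t ≤ t') :
    -((η * (33 / 10) - 1) * Real.exp (-(η * (33 / 10)))) * (t' - t) ≤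
      t' * Real.exp (-(η * t')) - t * Real.exp (-(η * t)) := by
  refine mvt (fun x => der_te η x) (fun x hx _ => ?_) htt
  have hη0 : 0 < η := by linarith
  have h0 : η * (33 / 10) ≤ η * x := mul_le_mul_of_nonneg_left (by linarith) hη0.le
  have h1 := Real.add_one_le_exp (η * x - η * (33 / 10))
  have h2 : Real.exp (-(η * (33 / 10))) =
      Real.exp (η * x - η * (33 / 10)) * Real.exp (-(η * x)) := by
    rw [← Real.exp_add]; congr 1; ring
  have h3 : η * x - 1 ≤ (η * (33 / 10) - 1) * Real.exp (η * x - η * (33 / 10)) := by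
    nlinarith
  have h4 := mul_le_mul_of_nonneg_right h3 (Real.exp_pos (-(η * x))).le
  rw [h2]
  linarith

theorem small {y : ℝ} (hy : 12 / 5 ≤ y) : (y - 1) * Real.exp (-(2 * y)) ≤ 1 / 18 := by
  have h1 : Real.exp (-(2 * y)) = Real.exp (-(2 * y - 24 / 5)) * Real.exp (-(24 / 5)) := by
    rw [← Real.exp_add]; congr 1; ring
  have h2 := Real.add_one_le_exp (2 * y - 24 / 5)
  have h3 : Real.exp (-(2 * y - 24 / 5)) * Real.exp (2 * y - 24 / 5) = 1 := by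
    rw [← Real.exp_add]; simp
  have h4 : (100 : ℝ) ≤ Real.exp (24 / 5) := by
    have h5 := Real.exp_one_gt_d9
    have h6 : Real.exp (24 / 5) ^ 5 = Real.exp 1 ^ 24 := by
      rw [← Real.exp_nat_mul, ← Real.exp_nat_mul]; norm_num
    refine le_of_pow_le_pow_left₀ (n := 5) (by norm_num) (Real.exp_pos _).le ?_
    rw [h6]
    calc (100 : ℝ) ^ 5 ≤ 2.7 ^ 24 := by norm_num
      _ ≤ Real.exp 1 ^ 24 := pow_le_pow_left₀ (by norm_num) (by linarith) 24
  have h7 : Real.exp (-(24 / 5)) ≤ 1 / 100 := by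
    rw [Real.exp_neg, one_div]
    exact inv_anti₀ (by norm_num) h4
  have h8 : (y - 1) ≤ 7 / 5 * Real.exp (2 * y - 24 / 5) := by linarith
  have h9 := Real.exp_pos (-(2 * y - 24 / 5))
  have h10 : (y - 1) * Real.exp (-(2 * y - 24 / 5)) ≤ 7 / 5 := by
    calc (y - 1) * Real.exp (-(2 * y - 24 / 5)) ≤
          (7 / 5 * Real.exp (2 * y - 24 / 5)) * Real.exp (-(2 * y - 24 / 5)) :=
          mul_le_mul_of_nonneg_right h8 h9.le
      _ = 7 / 5 * (Real.exp (-(2 * y - 24 / 5)) * Real.exp (2 * y - 24 / 5)) := by ring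
      _ = 7 / 5 := by rw [h3, mul_one]
  rw [h1, ← mul_assoc]
  calc (y - 1) * Real.exp (-(2 * y - 24 / 5)) * Real.exp (-(24 / 5)) ≤
        7 / 5 * Real.exp (-(24 / 5)) := mul_le_mul_of_nonneg_right h10 (Real.exp_pos _).le
    _ ≤ 1 / 18 := by linarith

/-- the function multiplying `-pp` -/
noncomputable def gf (a b x : ℝ) : ℝ :=
  3 * x ^ 2 + 27 * (x ^ 2 * Real.exp (-(2 * a * x))) + 27 * (x ^ 2 * Real.exp (-(2 * b * x)))

theorem der_gf (a b x : ℝ) : HasDerivAt (gf a b)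
    (6 * x - 54 * x * ((a * x - 1) * Real.exp (-(2 * a * x)) +
      (b * x - 1) * Real.exp (-(2 * b * x)))) x := by
  have h1 := (hasDerivAt_pow 2 x).const_mul (3 : ℝ)
  have h2 := (der_tte (2 * a) x).const_mul (27 : ℝ)
  have h3 := (der_tte (2 * b) x).const_mul (27 : ℝ)
  exact ((h1.add h2).add h3).congr_deriv (by norm_num; ring)

theorem gf_inc {a b t t' : ℝ} (ha : 3 / 4 ≤ a) (hb : 1 ≤ b) (ht : 33 / 10 ≤ t) (htt : t ≤ t')
    (ht' : t' ≤ 9 / 2) : |gf a b t' - gf a b t| ≤ 27 * (t' - t) := by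
  have key : ∀ x, t ≤ x → x ≤ t' →
      0 ≤ (a * x - 1) * Real.exp (-(2 * a * x)) + (b * x - 1) * Real.exp (-(2 * b * x)) ∧
      (a * x - 1) * Real.exp (-(2 * a * x)) + (b * x - 1) * Real.exp (-(2 * b * x)) ≤ 1 / 9 := by
    intro x hx _
    have hxa : 12 / 5 ≤ a * x := by nlinarith
    have hxb : 12 / 5 ≤ b * x := by nlinarith
    have e1 := small hxa
    have e2 := small hxb
    have e3 : Real.exp (-(2 * (a * x))) = Real.exp (-(2 * a * x)) := by congr 1; ring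
    have e4 : Real.exp (-(2 * (b * x))) = Real.exp (-(2 * b * x)) := by congr 1; ring
    rw [e3] at e1
    rw [e4] at e2
    have p1 : 0 ≤ (a * x - 1) * Real.exp (-(2 * a * x)) :=
      mul_nonneg (by linarith) (Real.exp_pos _).le
    have p2 : 0 ≤ (b * x - 1) * Real.exp (-(2 * b * x)) :=
      mul_nonneg (by linarith) (Real.exp_pos _).le
    exact ⟨by linarith, by linarith⟩
  have h1 : 0 * (t' - t) ≤ gf a b t' - gf a b t := by
    refine mvt (fun x => der_gf a b x) (fun x hx hx' => ?_) htt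
    obtain ⟨k1, k2⟩ := key x hx hx'
    nlinarith
  have h2 : -27 * (t' - t) ≤ -gf a b t' - -gf a b t := by
    refine mvt (f := fun x => -gf a b x) (fun x => (der_gf a b x).neg) (fun x hx hx' => ?_) htt
    obtain ⟨k1, k2⟩ := key x hx hx'
    nlinarith
  rw [abs_le]
  constructor
  · linarith
  · linarith

theorem inc_up {t t' : ℝ} (ht : 33 / 10 ≤ t) (htt : t ≤ t') (ht' : t' ≤ 9 / 2) :
    t' ^ 2 * Real.exp (t' / 12) - t ^ 2 * Real.exp (t / 12) ≤
      171 / 16 * Real.exp (3 / 8) * (t' - t) := by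
  have h2 : -(171 / 16 * Real.exp (3 / 8)) * (t' - t) ≤
      -(t' ^ 2 * Real.exp (-(-(1 / 12) * t'))) - -(t ^ 2 * Real.exp (-(-(1 / 12) * t))) := by
    refine mvt (f := fun x => -(x ^ 2 * Real.exp (-(-(1 / 12) * x))))
      (fun x => (der_tte (-(1 / 12)) x).neg) (fun x hx hx' => ?_) htt
    have h3 : Real.exp (-(-(1 / 12) * x)) ≤ Real.exp (3 / 8) := Real.exp_le_exp.mpr (by linarith)
    have h4 : 2 * x - -(1 / 12) * x ^ 2 ≤ 171 / 16 := by nlinarith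
    have h5 : (2 * x - -(1 / 12) * x ^ 2) * Real.exp (-(-(1 / 12) * x)) ≤
        171 / 16 * Real.exp (3 / 8) :=
      mul_le_mul h4 h3 (Real.exp_pos _).le (by norm_num)
    linarith
  have e1 : ∀ x : ℝ, -(-(1 / 12) * x) = x / 12 := fun x => by ring
  rw [e1, e1] at h2
  linarith

theorem dec {δ t t' : ℝ} (hδ : 0 ≤ δ) (htt : t ≤ t') :
    Real.exp (-(δ * t')) ≤ Real.exp (-(δ * t)) :=
  Real.exp_le_exp.mpr (by nlinarith)

theorem expG (q : Par) (t : ℝ) : Real.exp t * q.Gg t =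
    2 * q.S2 * t + 16 * q.o3 ^ 2 * (t * Real.exp (-((3 - q.c) * t)))
      + (2 * q.o1 ^ 2 + 18 * (q.o2 ^ 2 + q.o3 ^ 2)) * (t * Real.exp (-(2 * q.a * t)))
      + (2 * q.o2 ^ 2 + 18 * (q.o1 ^ 2 + q.o3 ^ 2)) * (t * Real.exp (-(2 * q.b * t)))
      - q.pp * gf q.a q.b t := by
  have e1 : Real.exp t * Real.exp (-t) = 1 := by rw [← Real.exp_add]; simp
  have e2 : Real.exp t * Real.exp (-((4 - q.c) * t)) = Real.exp (-((3 - q.c) * t)) := by
    rw [← Real.exp_add]; congr 1; ring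
  have e3 : Real.exp t * Real.exp (-((1 + 2 * q.a) * t)) = Real.exp (-(2 * q.a * t)) := by
    rw [← Real.exp_add]; congr 1; ring
  have e4 : Real.exp t * Real.exp (-((1 + 2 * q.b) * t)) = Real.exp (-(2 * q.b * t)) := by
    rw [← Real.exp_add]; congr 1; ring
  unfold Par.Gg gf
  linear_combination (2 * t * q.S2 - 3 * t ^ 2 * q.pp) * e1 + 16 * t * q.o3 ^ 2 * e2 +
    (t * (2 * q.o1 ^ 2 + 18 * (q.o2 ^ 2 + q.o3 ^ 2)) - 27 * t ^ 2 * q.pp) * e3 +
    (t * (2 * q.o2 ^ 2 + 18 * (q.o1 ^ 2 + q.o3 ^ 2)) - 27 * t ^ 2 * q.pp) * e4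

theorem expN (q : Par) (t : ℝ) : Real.exp t * q.Nn t =
    2 + q.S2 / 4 * (t ^ 2 * Real.exp (t / 12))
      + 2001 / 1000 * Real.exp (-((q.c - 1) * t))
      + 81 / 20 * Real.exp (-((11 / 12 * (q.a + q.c) - 1) * t))
      + 81 / 20 * Real.exp (-((11 / 12 * (q.b + q.c) - 1) * t))
      + 81 / 10 * Real.exp (-((11 / 3 - 1) * t))
      + 21 / 10 * Real.exp (-((11 / 12 * (1 + 2 * q.a) - 1) * t))
      + 21 / 10 * Real.exp (-((11 / 12 * (1 + 2 * q.b) - 1) * t))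
      + 19 * Real.exp (-((11 / 12 * (1 + 2 * q.c) - 1) * t)) := by
  have e1 : Real.exp t * Real.exp (-t) = 1 := by rw [← Real.exp_add]; simp
  have e2 : Real.exp t * Real.exp (-(11 / 12 * t)) = Real.exp (t / 12) := by
    rw [← Real.exp_add]; congr 1; ring
  have e : ∀ δ : ℝ, Real.exp t * Real.exp (-(δ * t)) = Real.exp (-((δ - 1) * t)) := fun δ => by
    rw [← Real.exp_add]; congr 1; ring
  unfold Par.Nn
  linear_combination 2 * e1 + t ^ 2 * q.S2 / 4 * e2 + 2001 / 1000 * e q.c +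
    81 / 20 * e (11 / 12 * (q.a + q.c)) + 81 / 20 * e (11 / 12 * (q.b + q.c)) +
    81 / 10 * e (11 / 3) + 21 / 10 * e (11 / 12 * (1 + 2 * q.a)) +
    21 / 10 * e (11 / 12 * (1 + 2 * q.b)) + 19 * e (11 / 12 * (1 + 2 * q.c))

end MonoAux

open MonoAux

theorem Reg.mono {q : Par} (h : Reg q)
    (hA : 0 ≤ 2 * q.S2 - 27 * |q.pp|
      - 16 * q.o3 ^ 2 * (((3 - q.c) * (33 / 10) - 1) * Real.exp (-((3 - q.c) * (33 / 10))))
      - (2 * q.o1 ^ 2 + 18 * (q.o2 ^ 2 + q.o3 ^ 2))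
        * ((2 * q.a * (33 / 10) - 1) * Real.exp (-(2 * q.a * (33 / 10))))
      - (2 * q.o2 ^ 2 + 18 * (q.o1 ^ 2 + q.o3 ^ 2))
        * ((2 * q.b * (33 / 10) - 1) * Real.exp (-(2 * q.b * (33 / 10))))
      - q.chi * q.S2 / 4 * (171 / 16 * Real.exp (3 / 8)))
    {t t' : ℝ} (ht : 33 / 10 ≤ t) (htt : t ≤ t') (ht' : t' ≤ 9 / 2) :
    Real.exp t * (q.Gg t - q.chi * q.Nn t) ≤ Real.exp t' * (q.Gg t' - q.chi * q.Nn t') := by
  have ha := h.ha
  have hb := h.b1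
  have hc1 := h.c1
  have hc2 := h.hc
  have hchi := h.chi_nn
  have hS2 : 0 ≤ q.S2 := by unfold Par.S2; positivity
  have i1 := inc_te (η := 3 - q.c) (by linarith) ht htt
  have i2 := inc_te (η := 2 * q.a) (by linarith) ht htt
  have i3 := inc_te (η := 2 * q.b) (by linarith) ht htt
  have i4 := gf_inc (a := q.a) (b := q.b) ha hb ht htt ht'
  have i5 := inc_up ht htt ht'
  have d1 := dec (δ := q.c - 1) (by linarith) htt
  have d2 := dec (δ := 11 / 12 * (q.a + q.c) - 1) (by linarith) htt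
  have d3 := dec (δ := 11 / 12 * (q.b + q.c) - 1) (by linarith) htt
  have d4 := dec (δ := 11 / 3 - 1) (by linarith) htt
  have d5 := dec (δ := 11 / 12 * (1 + 2 * q.a) - 1) (by linarith) htt
  have d6 := dec (δ := 11 / 12 * (1 + 2 * q.b) - 1) (by linarith) htt
  have d7 := dec (δ := 11 / 12 * (1 + 2 * q.c) - 1) (by linarith) htt
  have g1 : -(27 * |q.pp|) * (t' - t) ≤ -(q.pp * (gf q.a q.b t' - gf q.a q.b t)) := by
    have h1 : |q.pp * (gf q.a q.b t' - gf q.a q.b t)| ≤ |q.pp| * (27 * (t' - t)) := by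
      rw [abs_mul]
      exact mul_le_mul_of_nonneg_left i4 (abs_nonneg _)
    have h2 := (abs_le.mp h1).2
    linarith
  have g2 : Real.exp t' * q.Nn t' - Real.exp t * q.Nn t ≤
      q.S2 / 4 * (171 / 16 * Real.exp (3 / 8)) * (t' - t) := by
    rw [expN, expN]
    have h1 := mul_le_mul_of_nonneg_left i5 (by positivity : (0 : ℝ) ≤ q.S2 / 4)
    linarith
  have g3 := mul_le_mul_of_nonneg_left g2 hchi
  have g4 := mul_le_mul_of_nonneg_left i1 (by positivity : (0 : ℝ) ≤ 16 * q.o3 ^ 2)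
  have g5 := mul_le_mul_of_nonneg_left i2
    (by positivity : (0 : ℝ) ≤ 2 * q.o1 ^ 2 + 18 * (q.o2 ^ 2 + q.o3 ^ 2))
  have g6 := mul_le_mul_of_nonneg_left i3
    (by positivity : (0 : ℝ) ≤ 2 * q.o2 ^ 2 + 18 * (q.o1 ^ 2 + q.o3 ^ 2))
  have g7 := mul_nonneg hA (by linarith : 0 ≤ t' - t)
  have g8 : Real.exp t' * (q.Gg t' - q.chi * q.Nn t') - Real.exp t * (q.Gg t - q.chi * q.Nn t) =
      (Real.exp t' * q.Gg t' - Real.exp t * q.Gg t) -
        q.chi * (Real.exp t' * q.Nn t' - Real.exp t * q.Nn t) := by ring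
  have g9 : Real.exp t' * q.Gg t' - Real.exp t * q.Gg t =
      2 * q.S2 * (t' - t) +
      16 * q.o3 ^ 2 * (t' * Real.exp (-((3 - q.c) * t')) - t * Real.exp (-((3 - q.c) * t))) +
      (2 * q.o1 ^ 2 + 18 * (q.o2 ^ 2 + q.o3 ^ 2)) *
        (t' * Real.exp (-(2 * q.a * t')) - t * Real.exp (-(2 * q.a * t))) +
      (2 * q.o2 ^ 2 + 18 * (q.o1 ^ 2 + q.o3 ^ 2)) *
        (t' * Real.exp (-(2 * q.b * t')) - t * Real.exp (-(2 * q.b * t))) +
      -(q.pp * (gf q.a q.b t' - gf q.a q.b t)) := by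
    rw [expG, expG]
    ring
  rw [← sub_nonneg, g8, g9]
  linarith

end Pool.Agent.Lib.EPT
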