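import Pool.Agent.Lib.EPT.PDist
import Pool.Agent.Lib.EPT.BoxJ
import Pool.Agent.Lib.EPT.BoxD
import Pool.Agent.Lib.EPT.Mono
import Pool.Agent.Lib.EPT.Cross
import Pool.Agent.Lib.EPT.Low
import Pool.Agent.Lib.EPT.Dir
import Pool.Agent.Lib.EPT.Dual

/-!
# A good box contains no critical form off the plane

PROOF.  Let `τ = 33/10`, `t1 = 9/2`, `T = Th q.mat q.dir.mat`, `L t = Gg t - chi Nn t`, `σ = s - 3/2`.
If `LocMin s q.mat` then `∫_0^∞ t^s T = 0` (`locMin_zero`, `Reg.pd_mat`, `mat_symm` for `dir.mat`,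
`Reg.trace_dir`).  By `low_int` (with `D = q.Ds`, `Reg.Th_dir_dual`)
 `0 = ∫_τ^∞ t^s T + τ^(s+1) Ct τ ∫_1^∞ v^(3/2 - s) Ds (xx v) dv`.
* `J := JG τ - chi JN τ`, `∫_τ^∞ t^(3/2) L = τ^(5/2) J` (`Reg.int_G`, `Reg.int_N`).
  `J ≥ ∑ (G_k - ch_k JNu) o_k² - (cpp + chp JNu) |pp|` (`JG_ge`, `JN_le`, `chi_box`, `chi ≥ 0`, `JNu ≥ 0`).
* dual integral `≥ -E`, `E = ∑ o_k² max 0 (cost x_k L_k - A_k e^(-x_k)/x_k) + |pp| up`: `boxD`, `Reg.dual_lower`
  (`xx v ≥ 2.9`), `sig_low` (`σ ≥ 0`), `sig_neg` (apply to `Lp.map fun p => (p.1, p.2.2)`), and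
  monotonicity of the integral (integrability from `low_int`, `sig_low`, `sig_neg`).
* `Ct τ ≤ pre`: `Ct τ = (π/τ)^(7/2) (dt/4)^(-1/2)`, its square is `4 (π/τ)^7/dt ≤ 4 (π/τ)^7/dn ≤ pre²`.
* `J - Ct E ≥ J - pre E > 0`: by `condC` and `|pp| ≤ w1 a1 o1² + w2 b1 o2² + w3 c1 o3²` (`pdist`) the coefficient of
  every `o_k²` is positive (`max 0 y` is `0` or `y`: `i_k`, `j_k`), not all `o_k` vanish.
  In particular `J > 0` (`E ≥ 0`).
* `cross` (`hL`: `Reg.dir_lower`; `hb`: `Reg.dir_late` with `boxB`; `hm`: `Reg.mono` with `boxA`):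
  `∫_τ^∞ t^s T ≥ τ^σ τ^(5/2) J = τ^(s+1) J`.
So `0 ≥ τ^(s+1) (J - Ct E) > 0`, a contradiction.
-/

open MeasureTheory Set

namespace Pool.Agent.Lib.EPT

open Pool.Agent.Lib.EpZ Pool.Agent.Lib.EPS Pool.Agent.Lib.EPL

namespace CritAux

variable {B : Bx} {q : Par}

lemma pos0 (h : Reg q) : 0 < q.a ∧ 0 < q.b ∧ 0 < q.c := by
  have h1 := h.ha
  have h2 := h.hab
  have h3 := h.hbc
  exact ⟨by linarith, by linarith, by linarith⟩

lemma JN_nonneg (h : Reg q) {τ : ℝ} (hτ : 0 < τ) : 0 ≤ q.JN τ := by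
  obtain ⟨ha, hb, hc⟩ := pos0 h
  have p : ∀ (s z : ℝ), 0 < z → 0 ≤ phi s z := fun s z _ => phi_nonneg s z
  have h1 := p (5 / 2) τ hτ
  have h2 := p (9 / 2) (11 / 12 * τ) (by positivity)
  have h3 := p (5 / 2) (q.c * τ) (by positivity)
  have h4 := p (5 / 2) (11 / 12 * (q.a + q.c) * τ) (by positivity)
  have h5 := p (5 / 2) (11 / 12 * (q.b + q.c) * τ) (by positivity)
  have h6 := p (5 / 2) (11 / 3 * τ) (by positivity)
  have h7 := p (5 / 2) (11 / 12 * (1 + 2 * q.a) * τ) (by positivity)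
  have h8 := p (5 / 2) (11 / 12 * (1 + 2 * q.b) * τ) (by positivity)
  have h9 := p (5 / 2) (11 / 12 * (1 + 2 * q.c) * τ) (by positivity)
  have hS : 0 ≤ q.S2 := by unfold Par.S2; positivity
  unfold Par.JN
  positivity

lemma JNu_nonneg (h : Reg q) (hB : InB B q) : 0 ≤ B.JNu :=
  (JN_nonneg h (by norm_num)).trans (JN_le h hB)

lemma int_L (h : Reg q) :
    IntegrableOn (fun t : ℝ => t ^ (3 / 2 : ℝ) * (q.Gg t - q.chi * q.Nn t)) (Ioi (33 / 10)) ∧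
      ∫ t in Ioi (33 / 10 : ℝ), t ^ (3 / 2 : ℝ) * (q.Gg t - q.chi * q.Nn t) =
        (33 / 10 : ℝ) ^ (5 / 2 : ℝ) * (q.JG (33 / 10) - q.chi * q.JN (33 / 10)) := by
  obtain ⟨g1, g2⟩ := h.int_G (τ := 33 / 10) (by norm_num)
  obtain ⟨n1, n2⟩ := h.int_N (τ := 33 / 10) (by norm_num)
  have e : (fun t : ℝ => t ^ (3 / 2 : ℝ) * (q.Gg t - q.chi * q.Nn t)) =
      fun t : ℝ => t ^ (3 / 2 : ℝ) * q.Gg t - q.chi * (t ^ (3 / 2 : ℝ) * q.Nn t) := by
    funext t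
    ring
  rw [e]
  have n3 := n1.const_mul q.chi
  refine ⟨g1.sub n3, ?_⟩
  rw [integral_sub g1 n3, integral_const_mul, g2, n2]
  ring

/-- the lower bound of the direct value -/
lemma J_low (h : Reg q) (hB : InB B q) :
    (B.G1 - B.ch1 * B.JNu) * q.o1 ^ 2 + (B.G2 - B.ch2 * B.JNu) * q.o2 ^ 2
      + (B.G3 - B.ch3 * B.JNu) * q.o3 ^ 2 - (B.cpp + B.chp * B.JNu) * |q.pp| ≤
      q.JG (33 / 10) - q.chi * q.JN (33 / 10) := by
  have h1 := JG_ge h hB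
  have h2 := mul_le_mul_of_nonneg_left (JN_le h hB) h.chi_nn
  have h3 := mul_le_mul_of_nonneg_right (chi_box h hB) (JNu_nonneg h hB)
  nlinarith

lemma xx_ge : 29 / 10 ≤ Bx.xx := by
  unfold Bx.xx
  have := Real.pi_gt_d2
  rw [le_div_iff₀ (by norm_num)]
  nlinarith

lemma xx_pos : 0 < Bx.xx := by have := xx_ge; linarith

lemma box_pos (hB : InB B q) : 0 < B.a0 ∧ 0 < B.b0 ∧ 0 < B.c0 := by
  have h1 := hB.ha
  have h2 := hB.hb
  have h3 := hB.hc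
  exact ⟨by linarith, by linarith, by linarith⟩

lemma x_pos (hB : InB B q) : 0 < B.x1 ∧ 0 < B.x2 ∧ 0 < B.x3 := by
  obtain ⟨h1, h2, h3⟩ := box_pos hB
  have := xx_pos
  unfold Bx.x1 Bx.x2 Bx.x3 Bx.h1 Bx.h2 Bx.h3
  exact ⟨by positivity, by positivity, by positivity⟩

lemma A_nonneg (B : Bx) : 0 ≤ B.A1 ∧ 0 ≤ B.A2 ∧ 0 ≤ B.A3 := by
  have := xx_pos
  unfold Bx.A1 Bx.A2 Bx.A3
  exact ⟨by positivity, by positivity, by positivity⟩

/-- the cost of the dual side -/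
noncomputable def EE (B : Bx) (q : Par) : ℝ :=
  q.o1 ^ 2 * max 0 (cost B.x1 B.L1 - B.A1 * (Real.exp (-B.x1) / B.x1))
    + q.o2 ^ 2 * max 0 (cost B.x2 B.L2 - B.A2 * (Real.exp (-B.x2) / B.x2))
    + q.o3 ^ 2 * max 0 (cost B.x3 B.L3 - B.A3 * (Real.exp (-B.x3) / B.x3)) + |q.pp| * B.up

lemma up_nonneg (h : Reg q) (hB : InB B q) : 0 ≤ B.up := by
  obtain ⟨_, _, _, hp⟩ := L_nonneg h hB
  unfold Bx.up
  refine List.sum_nonneg ?_
  intro x hx
  rw [List.mem_map] at hx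
  obtain ⟨p, hp1, rfl⟩ := hx
  obtain ⟨n1, n2⟩ := hp p hp1
  positivity

lemma EE_nonneg (h : Reg q) (hB : InB B q) : 0 ≤ EE B q := by
  have h1 := up_nonneg h hB
  have m1 := le_max_left 0 (cost B.x1 B.L1 - B.A1 * (Real.exp (-B.x1) / B.x1))
  have m2 := le_max_left 0 (cost B.x2 B.L2 - B.A2 * (Real.exp (-B.x2) / B.x2))
  have m3 := le_max_left 0 (cost B.x3 B.L3 - B.A3 * (Real.exp (-B.x3) / B.x3))
  unfold EE
  positivity

/-- the lower bound of the dual integral -/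
lemma dual_low (h : Reg q) (hB : InB B q) {s : ℝ} (hs : 3 / 2 < s)
    (hi : IntegrableOn (fun v : ℝ => v ^ (3 / 2 - s) * q.Ds (Real.pi ^ 2 / (33 / 10) * v))
      (Ioi 1)) :
    -EE B q ≤ ∫ v in Ioi (1 : ℝ), v ^ (3 / 2 - s) * q.Ds (Real.pi ^ 2 / (33 / 10) * v) := by
  obtain ⟨l1, l2, l3, lp⟩ := L_nonneg h hB
  obtain ⟨x1, x2, x3⟩ := x_pos hB
  obtain ⟨a1, a2, a3⟩ := A_nonneg B
  have hσ : 0 ≤ s - 3 / 2 := by linarith
  obtain ⟨i1, j1⟩ := sig_low a1 x1 l1 hσ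
  obtain ⟨i2, j2⟩ := sig_low a2 x2 l2 hσ
  obtain ⟨i3, j3⟩ := sig_low a3 x3 l3 hσ
  obtain ⟨i4, j4⟩ := sig_neg (l := B.Lp.map fun p => (p.1, p.2.2)) (by
    intro p hp
    rw [List.mem_map] at hp
    obtain ⟨p', hp1, rfl⟩ := hp
    exact lp p' hp1) hσ
  simp only [List.map_map, Function.comp_def] at i4 j4
  have e : -(s - 3 / 2) = 3 / 2 - s := by ring
  rw [e] at i1 i2 i3 i4 j1 j2 j3 j4
  have key : ∫ v in Ioi (1 : ℝ), (q.o1 ^ 2 * (v ^ (3 / 2 - s) * FF B.A1 B.x1 B.L1 v)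
      + q.o2 ^ 2 * (v ^ (3 / 2 - s) * FF B.A2 B.x2 B.L2 v)
      + q.o3 ^ 2 * (v ^ (3 / 2 - s) * FF B.A3 B.x3 B.L3 v)
      - |q.pp| * (v ^ (3 / 2 - s) * (B.Lp.map fun p => p.1 * Real.exp (-(p.2.2 * v))).sum)) ≤
      ∫ v in Ioi (1 : ℝ), v ^ (3 / 2 - s) * q.Ds (Real.pi ^ 2 / (33 / 10) * v) := by
    refine setIntegral_mono_on ?_ hi measurableSet_Ioi ?_
    · exact (((i1.const_mul _).add (i2.const_mul _)).add (i3.const_mul _)).sub (i4.const_mul _)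
    · intro v hv
      rw [mem_Ioi] at hv
      have v0 : (0 : ℝ) ≤ v ^ (3 / 2 - s) := Real.rpow_nonneg (by linarith) _
      have b1 := boxD h hB hv.le
      have xv : 29 / 10 ≤ Bx.xx * v := by
        have := xx_ge
        nlinarith
      have b2 := h.dual_lower xv
      have b3 := mul_le_mul_of_nonneg_left (b1.trans b2) v0
      have e2 : Real.pi ^ 2 / (33 / 10) * v = Bx.xx * v := rfl
      rw [e2]
      refine le_trans (le_of_eq ?_) b3
      ring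
  refine le_trans ?_ key
  have s12 : IntegrableOn (fun v : ℝ => q.o1 ^ 2 * (v ^ (3 / 2 - s) * FF B.A1 B.x1 B.L1 v)
      + q.o2 ^ 2 * (v ^ (3 / 2 - s) * FF B.A2 B.x2 B.L2 v)) (Ioi 1) :=
    (i1.const_mul _).add (i2.const_mul _)
  have s123 : IntegrableOn (fun v : ℝ => q.o1 ^ 2 * (v ^ (3 / 2 - s) * FF B.A1 B.x1 B.L1 v)
      + q.o2 ^ 2 * (v ^ (3 / 2 - s) * FF B.A2 B.x2 B.L2 v)
      + q.o3 ^ 2 * (v ^ (3 / 2 - s) * FF B.A3 B.x3 B.L3 v)) (Ioi 1) :=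
    s12.add (i3.const_mul _)
  rw [integral_sub s123 (i4.const_mul _), integral_add s12 (i3.const_mul _),
    integral_add (i1.const_mul _) (i2.const_mul _), integral_const_mul, integral_const_mul,
    integral_const_mul, integral_const_mul]
  have k1 := mul_le_mul_of_nonneg_left j1 (sq_nonneg q.o1)
  have k2 := mul_le_mul_of_nonneg_left j2 (sq_nonneg q.o2)
  have k3 := mul_le_mul_of_nonneg_left j3 (sq_nonneg q.o3)
  have k4 := mul_le_mul_of_nonneg_left j4 (abs_nonneg q.pp)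
  unfold EE Bx.up
  linarith

/-- the constant of the theta transformation -/
lemma Ct_le (h : Reg q) (hB : InB B q) {pre : ℝ} (hp : 0 < pre)
    (hpre : 4 * (Real.pi / (33 / 10)) ^ 7 ≤ pre ^ 2 * B.dn) : Ct q.mat (33 / 10) ≤ pre := by
  have hpi := Real.pi_pos
  obtain ⟨a0, b0, c0⟩ := box_pos hB
  have d0 := h.dt_pos
  have hdn : B.dn ≤ q.dt := by
    refine le_trans ?_ h.dt_lo
    unfold Bx.dn
    have e1 : B.a0 * B.b0 ≤ q.a * q.b := mul_le_mul hB.a0 hB.b0 b0.le (a0.le.trans hB.a0)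
    have e2 : B.a0 * B.b0 * B.c0 ≤ q.a * q.b * q.c :=
      mul_le_mul e1 hB.c0 c0.le (mul_nonneg (a0.le.trans hB.a0) (b0.le.trans hB.b0))
    linarith
  have hC0 : 0 ≤ Ct q.mat (33 / 10) := (Ct_pos h.pd_mat (by norm_num)).le
  have hsq : Ct q.mat (33 / 10) ^ 2 * q.dt = 4 * (Real.pi / (33 / 10)) ^ 7 := by
    have hx : (0 : ℝ) < Real.pi / (33 / 10) := by positivity
    have e1 : ((Real.pi / (33 / 10)) ^ ((3 : ℝ) / 2)) ^ 2 = (Real.pi / (33 / 10)) ^ 3 := by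
      rw [← Real.rpow_natCast, ← Real.rpow_mul hx.le]
      norm_num
    have e2 : ((q.dt / 4) ^ (-(1 : ℝ) / 2)) ^ 2 = (q.dt / 4)⁻¹ := by
      rw [← Real.rpow_natCast, ← Real.rpow_mul (by positivity)]
      norm_num
      rw [Real.rpow_neg_one]
      rw [inv_div]
    unfold Ct
    rw [det_mat, mul_pow, mul_pow, e1, e2]
    field_simp
  have h2 : Ct q.mat (33 / 10) ^ 2 ≤ pre ^ 2 := by
    have h3 : Ct q.mat (33 / 10) ^ 2 * q.dt ≤ pre ^ 2 * q.dt := by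
      rw [hsq]
      exact hpre.trans (mul_le_mul_of_nonneg_left hdn (sq_nonneg _))
    exact le_of_mul_le_mul_right h3 d0
  exact abs_le_of_sq_le_sq' h2 hp.le |>.2

end CritAux

open CritAux in
theorem Bx.Good.notMin {B : Bx} {q : Par} (hG : B.Good) (h : Reg q) (hB : InB B q)
    (ho : ¬(q.o1 = 0 ∧ q.o2 = 0 ∧ q.o3 = 0)) {s : ℝ} (hs : 3 / 2 < s) : ¬ LocMin s q.mat := by
  intro hm
  obtain ⟨pre, u1, u2, u3, v1, v2, v3, w1, w2, w3, hu, hv, hw, hp0, hp1, cA, cB, cC⟩ := hG.ex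
  have h0 := locMin_zero h.pd_mat (mat_symm q.dir) h.trace_dir hs hm
  obtain ⟨lo1, lo2, lo3⟩ := low_int h.pd_mat (D := q.Ds) (fun t ht => h.Th_dir_dual ht)
    (τ := 33 / 10) (by norm_num) hs
  rw [h0] at lo3
  obtain ⟨iL, eL⟩ := int_L h
  have hE0 := EE_nonneg h hB
  have hCt := Ct_le h hB hp0 hp1
  have hCt0 : 0 < Ct q.mat (33 / 10) := Ct_pos h.pd_mat (by norm_num)
  have hdl := dual_low h hB hs lo2
  have hJ := J_low h hB
  set J := q.JG (33 / 10) - q.chi * q.JN (33 / 10) with hJdef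
  -- the final positivity
  have hfin : pre * EE B q < J := by
    refine lt_of_lt_of_le ?_ hJ
    have hpp := pdist h hB hw
    obtain ⟨a0, b0, c0⟩ := box_pos hB
    have hpp2 : |q.pp| ≤ w1 * B.a1 * q.o1 ^ 2 + w2 * B.b1 * q.o2 ^ 2 + w3 * B.c1 * q.o3 ^ 2 := by
      refine hpp.trans ?_
      have e1 := mul_le_mul_of_nonneg_left (mul_le_mul_of_nonneg_right hB.a1 (sq_nonneg q.o1)) hw.n1
      have e2 := mul_le_mul_of_nonneg_left (mul_le_mul_of_nonneg_right hB.b1 (sq_nonneg q.o2)) hw.n2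
      have e3 := mul_le_mul_of_nonneg_left (mul_le_mul_of_nonneg_right hB.c1 (sq_nonneg q.o3)) hw.n3
      nlinarith
    have hCC : 0 ≤ B.CC pre := by
      have e1 := JNu_nonneg h hB
      have e2 := up_nonneg h hB
      have e3 : 0 ≤ B.chp := by unfold Bx.chp; positivity
      have e4 : 0 ≤ B.cpp := by
        unfold Bx.cpp P2u
        positivity
      unfold Bx.CC
      positivity
    have hpp3 := mul_le_mul_of_nonneg_left hpp2 hCC
    have m1 : B.ch1 * B.JNu + B.CC pre * (w1 * B.a1)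
        + pre * max 0 (cost B.x1 B.L1 - B.A1 * (Real.exp (-B.x1) / B.x1)) < B.G1 := by
      rcases max_cases 0 (cost B.x1 B.L1 - B.A1 * (Real.exp (-B.x1) / B.x1)) with hh | hh
      · rw [hh.1]
        have := cC.i1
        linarith
      · rw [hh.1]
        have := cC.j1
        linarith
    have m2 : B.ch2 * B.JNu + B.CC pre * (w2 * B.b1)
        + pre * max 0 (cost B.x2 B.L2 - B.A2 * (Real.exp (-B.x2) / B.x2)) < B.G2 := by
      rcases max_cases 0 (cost B.x2 B.L2 - B.A2 * (Real.exp (-B.x2) / B.x2)) with hh | hh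
      · rw [hh.1]
        have := cC.i2
        linarith
      · rw [hh.1]
        have := cC.j2
        linarith
    have m3 : B.ch3 * B.JNu + B.CC pre * (w3 * B.c1)
        + pre * max 0 (cost B.x3 B.L3 - B.A3 * (Real.exp (-B.x3) / B.x3)) < B.G3 := by
      rcases max_cases 0 (cost B.x3 B.L3 - B.A3 * (Real.exp (-B.x3) / B.x3)) with hh | hh
      · rw [hh.1]
        have := cC.i3
        linarith
      · rw [hh.1]
        have := cC.j3
        linarith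
    unfold EE
    unfold Bx.CC at hpp3 m1 m2 m3
    generalize max 0 (cost B.x1 B.L1 - B.A1 * (Real.exp (-B.x1) / B.x1)) = M1 at *
    generalize max 0 (cost B.x2 B.L2 - B.A2 * (Real.exp (-B.x2) / B.x2)) = M2 at *
    generalize max 0 (cost B.x3 B.L3 - B.A3 * (Real.exp (-B.x3) / B.x3)) = M3 at *
    have n1 := mul_le_mul_of_nonneg_left m1.le (sq_nonneg q.o1)
    have n2 := mul_le_mul_of_nonneg_left m2.le (sq_nonneg q.o2)
    have n3 := mul_le_mul_of_nonneg_left m3.le (sq_nonneg q.o3)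
    by_cases o1 : q.o1 = 0
    · by_cases o2 : q.o2 = 0
      · have o3 : q.o3 ≠ 0 := fun o3 => ho ⟨o1, o2, o3⟩
        have n3' := mul_lt_mul_of_pos_left m3 (by positivity : 0 < q.o3 ^ 2)
        nlinarith
      · have n2' := mul_lt_mul_of_pos_left m2 (by positivity : 0 < q.o2 ^ 2)
        nlinarith
    · have n1' := mul_lt_mul_of_pos_left m1 (by positivity : 0 < q.o1 ^ 2)
      nlinarith
  have hCE : Ct q.mat (33 / 10) * EE B q < J :=
    lt_of_le_of_lt (mul_le_mul_of_nonneg_right hCt hE0) hfin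
  have hJ0 : 0 ≤ J := le_trans (mul_nonneg hCt0.le hE0) hCE.le
  have hcr := cross (T := Th q.mat q.dir.mat) (L := fun t => q.Gg t - q.chi * q.Nn t)
    (τ := 33 / 10) (t1 := 9 / 2) (by norm_num) (by norm_num)
    (fun t ht => h.dir_lower (by linarith))
    (fun t ht => h.dir_late (by norm_num) ht (boxB h hB hv.n1 hv.n2 hv.n3 (pdist h hB hv) cB))
    (fun t t' ht htt ht' => h.mono (boxA h hB hu.n1 hu.n2 hu.n3 (pdist h hB hu) cA) ht htt ht')
    iL (by rw [eL]; positivity) hs lo1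
  rw [eL] at hcr
  have hpow : (33 / 10 : ℝ) ^ (s - 3 / 2) * ((33 / 10 : ℝ) ^ (5 / 2 : ℝ) * J) =
      (33 / 10 : ℝ) ^ (s + 1) * J := by
    rw [← mul_assoc, ← Real.rpow_add (by norm_num)]
    congr 2
    ring
  rw [hpow] at hcr
  have hP : (0 : ℝ) < (33 / 10 : ℝ) ^ (s + 1) := by positivity
  have hd2 := mul_le_mul_of_nonneg_left hdl (mul_pos hP hCt0).le
  have hfin2 := mul_lt_mul_of_pos_left hCE hP
  nlinarith

end Pool.Agent.Lib.EPT
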