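import Pool.Agent.Lib.EPL.Pois

/-!
# Forms near the body centred orthorhombic plane: definitions

A form in centred coordinates is `a n₁² + b n₂² + c n₃² + 2 (o3 n₁ n₂ + o2 n₁ n₃ + o1 n₂ n₃)` on the
vectors `n` with `2 n` integral and `2 n₁ ≡ 2 n₂ ≡ 2 n₃` modulo 2.  The integral coordinates `x`
are those of the basis `(1,1,1)/2, (1,-1,-1)/2, (-1,1,-1)/2`.
-/

namespace Pool.Agent.Lib.EPT

open Matrix Pool.Agent.Lib.EpZ Pool.Agent.Lib.EPS Pool.Agent.Lib.EPL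

/-- the coefficients of a form in centred coordinates -/
structure Par where
  /-- coefficient of `n₁²` -/
  a : ℝ
  /-- coefficient of `n₂²` -/
  b : ℝ
  /-- coefficient of `n₃²` -/
  c : ℝ
  /-- half the coefficient of `n₂ n₃` -/
  o1 : ℝ
  /-- half the coefficient of `n₁ n₃` -/
  o2 : ℝ
  /-- half the coefficient of `n₁ n₂` -/
  o3 : ℝ

/-- twice the first centred coordinate of `x` -/
def u1 (x : Fin 3 → ℤ) : ℤ := x 0 + x 1 - x 2
/-- twice the second centred coordinate of `x` -/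
def u2 (x : Fin 3 → ℤ) : ℤ := x 0 - x 1 + x 2
/-- twice the third centred coordinate of `x` -/
def u3 (x : Fin 3 → ℤ) : ℤ := x 0 - x 1 - x 2

/-- the dual coordinates (integers with even sum) -/
def w1 (y : Fin 3 → ℤ) : ℤ := y 0 + y 1
/-- the second dual coordinate -/
def w2 (y : Fin 3 → ℤ) : ℤ := y 0 + y 2
/-- the third dual coordinate -/
def w3 (y : Fin 3 → ℤ) : ℤ := -(y 1 + y 2)

namespace Par

/-- the diagonal part of the form at `x` -/
noncomputable def Ex (q : Par) (x : Fin 3 → ℤ) : ℝ :=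
  (q.a * (u1 x : ℝ) ^ 2 + q.b * (u2 x : ℝ) ^ 2 + q.c * (u3 x : ℝ) ^ 2) / 4

/-- the off-diagonal part of the form at `x` -/
noncomputable def Kx (q : Par) (x : Fin 3 → ℤ) : ℝ :=
  (q.o3 * (u1 x : ℝ) * (u2 x : ℝ) + q.o2 * (u1 x : ℝ) * (u3 x : ℝ)
    + q.o1 * (u2 x : ℝ) * (u3 x : ℝ)) / 2

/-- the diagonal part of the form at the dual vector `y` -/
noncomputable def Ey (q : Par) (y : Fin 3 → ℤ) : ℝ :=
  q.a * (w1 y : ℝ) ^ 2 + q.b * (w2 y : ℝ) ^ 2 + q.c * (w3 y : ℝ) ^ 2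

/-- the off-diagonal part of the form at the dual vector `y` -/
noncomputable def Ky (q : Par) (y : Fin 3 → ℤ) : ℝ :=
  2 * (q.o3 * (w1 y : ℝ) * (w2 y : ℝ) + q.o2 * (w1 y : ℝ) * (w3 y : ℝ)
    + q.o1 * (w2 y : ℝ) * (w3 y : ℝ))

/-- the matrix of the form in integral coordinates -/
noncomputable def mat (q : Par) : Mx 3 :=
  !![(q.a + q.b + q.c + 2 * (q.o1 + q.o2 + q.o3)) / 4, (q.a - q.b - q.c - 2 * q.o1) / 4,
      (-q.a + q.b - q.c - 2 * q.o2) / 4;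
     (q.a - q.b - q.c - 2 * q.o1) / 4, (q.a + q.b + q.c + 2 * (q.o1 - q.o2 - q.o3)) / 4,
      (-q.a - q.b + q.c + 2 * q.o3) / 4;
     (-q.a + q.b - q.c - 2 * q.o2) / 4, (-q.a - q.b + q.c + 2 * q.o3) / 4,
      (q.a + q.b + q.c + 2 * (-q.o1 + q.o2 - q.o3)) / 4]

/-- the matrix of the form on the dual lattice -/
noncomputable def dmat (q : Par) : Mx 3 :=
  !![q.a + q.b + 2 * q.o3, q.a + q.o3 - q.o2 - q.o1, q.b + q.o3 - q.o2 - q.o1;
     q.a + q.o3 - q.o2 - q.o1, q.a + q.c - 2 * q.o2, q.c + q.o3 - q.o2 - q.o1;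
     q.b + q.o3 - q.o2 - q.o1, q.c + q.o3 - q.o2 - q.o1, q.b + q.c - 2 * q.o1]

/-- `o1² + o2² + o3²` -/
noncomputable def S2 (q : Par) : ℝ := q.o1 ^ 2 + q.o2 ^ 2 + q.o3 ^ 2
/-- `o1 o2 o3` -/
noncomputable def pp (q : Par) : ℝ := q.o1 * q.o2 * q.o3
/-- `a o1² + b o2² + c o3²` -/
noncomputable def W (q : Par) : ℝ := q.a * q.o1 ^ 2 + q.b * q.o2 ^ 2 + q.c * q.o3 ^ 2
/-- `a b - o3²` -/
noncomputable def d0 (q : Par) : ℝ := q.a * q.b - q.o3 ^ 2
/-- the determinant in centred coordinates -/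
noncomputable def dt (q : Par) : ℝ := q.a * q.b * q.c - q.W + 2 * q.pp
/-- the coefficient of `n₃²` in the direction -/
noncomputable def chi (q : Par) : ℝ := 2 * (q.W - 3 * q.pp) / q.d0

/-- the direction: the off-diagonal part is scaled down, `c` restores the determinant -/
noncomputable def dir (q : Par) : Par := ⟨0, 0, -q.chi, -q.o1, -q.o2, -q.o3⟩

/-- the coefficients of the inverse form -/
noncomputable def inv (q : Par) : Par :=
  ⟨(q.b * q.c - q.o1 ^ 2) / q.dt, (q.a * q.c - q.o2 ^ 2) / q.dt, (q.a * q.b - q.o3 ^ 2) / q.dt,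
    (q.o2 * q.o3 - q.a * q.o1) / q.dt, (q.o1 * q.o3 - q.b * q.o2) / q.dt,
    (q.o1 * q.o2 - q.c * q.o3) / q.dt⟩

/-- the derivative of the inverse form along the direction -/
noncomputable def dM (q : Par) : Par :=
  ⟨(2 * q.o1 ^ 2 - q.chi * q.b) / q.dt, (2 * q.o2 ^ 2 - q.chi * q.a) / q.dt, 2 * q.o3 ^ 2 / q.dt,
    (q.a * q.o1 - 2 * q.o2 * q.o3) / q.dt, (q.b * q.o2 - 2 * q.o1 * q.o3) / q.dt,
    (q.c * q.o3 - 2 * q.o1 * q.o2 + q.chi * q.o3) / q.dt⟩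

end Par

/-- the region -/
structure Reg (q : Par) : Prop where
  sum : q.a + q.b + q.c = 4
  ha : 3 / 4 ≤ q.a
  hab : q.a ≤ q.b
  hbc : q.b ≤ q.c
  hc : q.c ≤ 2
  hca : q.c - q.a ≤ 11 / 10
  hT : 200 * q.W ≤ q.a * q.b * q.c
  h3 : |q.o3| ≤ 2 - q.c

end Pool.Agent.Lib.EPT
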