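import Pool.Agent.Lib.EPT.One
import Pool.Agent.Lib.EPT.Tri
import Pool.Agent.Lib.EPT.Bnd

/-!
# The bad part of the direct side: `∑ n₃² exp (-t Q[n]) ≤ Nn t`

Here `n = u/2`, `u = (u1 x, u2 x, u3 x)` three integers of the same parity (`u1 + u2 = 2 x0`, ...),
`Q = Ex x + Kx x`, `Kx ≥ -Ex/12`, so `Q ≥ (11/12) Ex`.  Put `s = 11 t/12 ≥ 11/4`.

PROOF.  Split `∑ x, F x`, `F x = u3²/4 exp (-t Q)`, in
(O1) the eight `x` with `|u1| = |u2| = |u3| = 1`, the list `O1` below (`x0 = (u1+u2)/2`,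
  `x1 = (u1-u3)/2`, `x2 = (u2-u3)/2`).
  There `Ex = (a+b+c)/4 = 1`, `Kx ∈ {(o1+o2+o3)/2, (o1-o2-o3)/2, (-o1+o2-o3)/2, (-o1-o2+o3)/2}`,
  each twice, and `exp (-t K) ≤ 1 - t K + t² K²/2 exp (t/12)` (`|K| ≤ 1/12`), the four `K` sum to `0`
  and their squares sum to `S2`: the eight terms give at most
  `(1/4) * 2 * e^(-t) (4 + t² S2/2 e^(t/12)) = 2 e^(-t) + t² S2/4 e^(-11t/12)`.
(C) `u1 = u2 = 0`, `u3` even nonzero: `Kx = 0`, `F x = (1/4) gE2 (t c/4) u3`; sum at most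
  `(1/4) 8 e^(-tc)/(1 - 4 e^(-3tc)) ≤ 2.001 e^(-tc)`, `tc ≥ 4`.
(R) all others with `u3 ≠ 0`: `F x ≤ (1/4) u3² exp (-s Ex)`, `Ex = (a u1² + b u2² + c u3²)/4`; with
  `A = s a/4 ≥ 33/64`, `B = s b/4 ≥ 11/16`, `C = s c/4 ≥ 11/12` it is at most the sum of the products
  (even) `gE A u1 * (gZ + gE B) u2 * gE2 C u3`, `gZ u1 * gE B u2 * gE2 C u3`,
  (odd)  `gT A u1 * gO B u2 * gO2 C u3`, `gU A u1 * gT B u2 * gO2 C u3`,
         `gU A u1 * gU B u2 * gT2 C u3`, each times `1/4`.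
  Sums (tri_le): even `≤ 4.0092 e^(-s(a+c)) (1 + 2.001 e^(-s b)) + 4.0016 e^(-s(b+c))`, and
  `8.1 e^(-s(a+b+c)) = 8.1 e^(-11t/3)`; odd `≤ 2.0214 e^(-s(1+2a)) + 2.012 e^(-s(1+2b)) +
  18.01 e^(-s(1+2c))` (because `(a+b+c)/4 = 1`, e.g. `9A + B + C = s (1 + 2a)`).
All numerical inequalities have room (constants 81/20, 81/10, 21/10, 19 of `Nn`).
Use `le_of_inj inj_u` for (C)+(R) together (`F` cut off outside O1), and the finite sum for O1.
-/

namespace Pool.Agent.Lib.EPT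

/-- the eight vectors with `|u1| = |u2| = |u3| = 1` -/
def O1 : List (Fin 3 → ℤ) :=
  [![1, 0, 0], ![-1, 0, 0], ![0, 1, 0], ![0, -1, 0], ![0, 0, 1], ![0, 0, -1], ![1, 1, 1],
    ![-1, -1, -1]]

theorem mem_O1 {x : Fin 3 → ℤ} : x ∈ O1 ↔ |u1 x| = 1 ∧ |u2 x| = 1 ∧ |u3 x| = 1 := by
  constructor
  · intro h
    simp only [O1, List.mem_cons, List.not_mem_nil, or_false] at h
    rcases h with h | h | h | h | h | h | h | h <;> subst h <;> simp [u1, u2, u3]
  · rintro ⟨h1, h2, h3⟩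
    have hx : x = ![x 0, x 1, x 2] := by
      funext i
      fin_cases i <;> rfl
    have mk : ∀ a b c : ℤ, x 0 = a → x 1 = b → x 2 = c → ![a, b, c] ∈ O1 → x ∈ O1 := by
      intro a b c ha hb hc hm
      rw [hx, ha, hb, hc]
      exact hm
    have e0 : 2 * x 0 = u1 x + u2 x := by unfold u1 u2; ring
    have e1 : 2 * x 1 = u1 x - u3 x := by unfold u1 u3; ring
    have e2 : 2 * x 2 = u2 x - u3 x := by unfold u2 u3; ring
    rw [abs_eq (zero_le_one)] at h1 h2 h3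
    rcases h1 with h1 | h1 <;> rcases h2 with h2 | h2 <;> rcases h3 with h3 | h3 <;>
      rw [h1, h2] at e0 <;> rw [h1, h3] at e1 <;> rw [h2, h3] at e2
    · exact mk 1 0 0 (by omega) (by omega) (by omega) (by simp [O1])
    · exact mk 1 1 1 (by omega) (by omega) (by omega) (by simp [O1])
    · exact mk 0 0 (-1) (by omega) (by omega) (by omega) (by simp [O1])
    · exact mk 0 1 0 (by omega) (by omega) (by omega) (by simp [O1])
    · exact mk 0 (-1) 0 (by omega) (by omega) (by omega) (by simp [O1])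
    · exact mk 0 0 1 (by omega) (by omega) (by omega) (by simp [O1])
    · exact mk (-1) (-1) (-1) (by omega) (by omega) (by omega) (by simp [O1])
    · exact mk (-1) 0 0 (by omega) (by omega) (by omega) (by simp [O1])

namespace FarNAux

private theorem quad_aux {r : ℝ} (hr : 0 ≤ r) : Real.exp r - 1 - r ≤ r ^ 2 / 2 * Real.exp r := by
  have hm : MonotoneOn (fun r : ℝ => (1 + r) * Real.exp (-r) + r ^ 2 / 2) (Set.Ici 0) := by
    have hd : ∀ x : ℝ, HasDerivAt (fun r : ℝ => (1 + r) * Real.exp (-r) + r ^ 2 / 2)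
        (x * (1 - Real.exp (-x))) x := by
      intro x
      have h1 : HasDerivAt (fun r : ℝ => 1 + r) 1 x := (hasDerivAt_id x).const_add 1
      have h2 : HasDerivAt (fun r : ℝ => Real.exp (-r)) (Real.exp (-x) * (-1)) x :=
        (hasDerivAt_neg x).exp
      have h3 : HasDerivAt (fun r : ℝ => r ^ 2 / 2) x x := by
        have h3' := (hasDerivAt_pow 2 x).div_const 2
        have h3'' : ((2 : ℕ) : ℝ) * x ^ (2 - 1) / 2 = x := by norm_num
        rw [h3''] at h3'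
        exact h3'
      have h4 := (h1.mul h2).add h3
      have h5 : 1 * Real.exp (-x) + (1 + x) * (Real.exp (-x) * (-1)) + x
          = x * (1 - Real.exp (-x)) := by ring
      rw [h5] at h4
      exact h4
    apply monotoneOn_of_deriv_nonneg (convex_Ici 0)
    · exact fun x _ => (hd x).continuousAt.continuousWithinAt
    · exact fun x _ => (hd x).differentiableAt.differentiableWithinAt
    · intro x hx
      rw [(hd x).deriv]
      rw [interior_Ici] at hx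
      have hx' : 0 < x := hx
      have : Real.exp (-x) ≤ 1 := Real.exp_le_one_iff.2 (by linarith)
      exact mul_nonneg hx'.le (by linarith)
  have h0 := hm (Set.mem_Ici.2 le_rfl) (Set.mem_Ici.2 hr) hr
  simp only [add_zero, neg_zero, Real.exp_zero, mul_one] at h0
  have hp : 0 < Real.exp r := Real.exp_pos r
  have he : Real.exp (-r) * Real.exp r = 1 := by
    rw [← Real.exp_add]; simp
  have h1 : (1 + 0 ^ 2 / 2 : ℝ) * Real.exp r ≤
      ((1 + r) * Real.exp (-r) + r ^ 2 / 2) * Real.exp r :=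
    mul_le_mul_of_nonneg_right h0 hp.le
  have h2 : ((1 + r) * Real.exp (-r) + r ^ 2 / 2) * Real.exp r
      = (1 + r) * (Real.exp (-r) * Real.exp r) + r ^ 2 / 2 * Real.exp r := by ring
  rw [h2, he] at h1
  linarith

private theorem exp_quad {y M : ℝ} (h : |y| ≤ M) :
    Real.exp y ≤ 1 + y + y ^ 2 / 2 * Real.exp M := by
  have hr : 0 ≤ |y| := abs_nonneg y
  have h1 := quad_aux hr
  have h2 : Real.exp y - 1 - y ≤ Real.exp |y| - 1 - |y| := by
    rcases le_total 0 y with hy | hy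
    · rw [abs_of_nonneg hy]
    · rw [abs_of_nonpos hy]
      have hs : -y ≤ Real.sinh (-y) := Real.self_le_sinh_iff.2 (by linarith)
      rw [Real.sinh_eq] at hs
      rw [neg_neg] at hs
      linarith
  have h3 : |y| ^ 2 / 2 * Real.exp |y| ≤ y ^ 2 / 2 * Real.exp M := by
    rw [sq_abs]
    exact mul_le_mul_of_nonneg_left (Real.exp_le_exp.2 h) (by positivity)
  linarith

private theorem en (n : ℕ) {x : ℝ} (h : (n : ℝ) ≤ x) :
    Real.exp (-x) ≤ (3679 / 10000 : ℝ) ^ n := by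
  have h1 : Real.exp (-x) ≤ Real.exp (-(n : ℝ)) := Real.exp_le_exp.2 (by linarith)
  have h2 : Real.exp (-(n : ℝ)) = Real.exp (-1) ^ n := by
    rw [← Real.exp_nat_mul]; congr 1; ring
  rw [h2] at h1
  have h3 : Real.exp (-1) ≤ 3679 / 10000 := by
    have := Real.exp_neg_one_lt_d9
    norm_num at this ⊢
    linarith
  exact h1.trans (pow_le_pow_left₀ (Real.exp_pos _).le h3 n)

private theorem frac_le {E d k K : ℝ} (hE : 0 ≤ E) (hd : 0 < d) (h : k ≤ K * d) :
    k * E / d ≤ K * E := by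
  rw [div_le_iff₀ hd]
  nlinarith

private theorem add_le' {f g : ℤ × ℤ × ℤ → ℝ} {F G : ℝ} (hf : Summable f ∧ ∑' m, f m ≤ F)
    (hg : Summable g ∧ ∑' m, g m ≤ G) :
    Summable (fun m => f m + g m) ∧ ∑' m, (f m + g m) ≤ F + G :=
  ⟨hf.1.add hg.1, by rw [hf.1.tsum_add hg.1]; exact add_le_add hf.2 hg.2⟩


private theorem exp_dom {q : Par} (h : Reg q) {t : ℝ} (ht : 3 ≤ t) (x : Fin 3 → ℤ) :
    Real.exp (-(t * (q.Ex x + q.Kx x))) ≤ Real.exp (-(11 / 48 * t * q.a * (u1 x : ℝ) ^ 2)) *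
      Real.exp (-(11 / 48 * t * q.b * (u2 x : ℝ) ^ 2)) *
      Real.exp (-(11 / 48 * t * q.c * (u3 x : ℝ) ^ 2)) := by
  rw [← Real.exp_add, ← Real.exp_add]
  apply Real.exp_le_exp.2
  have h1 := (abs_le.1 (h.Kx_le x)).1
  have h2 : t * (-(q.Ex x / 12)) ≤ t * q.Kx x := mul_le_mul_of_nonneg_left h1 (by linarith)
  have h3 : t * q.Ex x = t * q.a * (u1 x : ℝ) ^ 2 / 4 + t * q.b * (u2 x : ℝ) ^ 2 / 4
      + t * q.c * (u3 x : ℝ) ^ 2 / 4 := by
    unfold Par.Ex; ring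
  have h4 : t * (q.Ex x + q.Kx x) = t * q.Ex x + t * q.Kx x := by ring
  have h5 : t * (-(q.Ex x / 12)) = -(t * q.Ex x) / 12 := by ring
  rw [h4]
  rw [h5] at h2
  linarith

/-- the dominating function -/
private noncomputable def G (A B C D : ℝ) (m : ℤ × ℤ × ℤ) : ℝ :=
  (((((gZ m.1 * gZ m.2.1 * gE2 D m.2.2 + gE A m.1 * (gZ m.2.1 + gE B m.2.1) * gE2 C m.2.2)
    + gZ m.1 * gE B m.2.1 * gE2 C m.2.2) + gT A m.1 * gO B m.2.1 * gO2 C m.2.2)
    + gU A m.1 * gT B m.2.1 * gO2 C m.2.2) + gU A m.1 * gU B m.2.1 * gT2 C m.2.2)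

private theorem nonneg_aux {A B C D : ℝ} (hA : 33 / 64 ≤ A) (hB : 11 / 16 ≤ B) (hC : 11 / 12 ≤ C)
    (hD : 1 ≤ D) (m : ℤ × ℤ × ℤ) :
    0 ≤ gZ m.1 * gZ m.2.1 * gE2 D m.2.2 ∧
    0 ≤ gE A m.1 * (gZ m.2.1 + gE B m.2.1) * gE2 C m.2.2 ∧
    0 ≤ gZ m.1 * gE B m.2.1 * gE2 C m.2.2 ∧
    0 ≤ gT A m.1 * gO B m.2.1 * gO2 C m.2.2 ∧
    0 ≤ gU A m.1 * gT B m.2.1 * gO2 C m.2.2 ∧
    0 ≤ gU A m.1 * gU B m.2.1 * gT2 C m.2.2 := by
  have z := gZ_sum.1
  have eA := (gE_sum (z := A) (by linarith)).1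
  have eB := (gE_sum (z := B) (by linarith)).1
  have e2C := (gE2_sum (z := C) (by linarith)).1
  have e2D := (gE2_sum (z := D) (by linarith)).1
  have tA := (gT_sum (z := A) (by linarith)).1
  have tB := (gT_sum (z := B) (by linarith)).1
  have oB := (gO_sum (z := B) (by linarith)).1
  have o2C := (gO2_sum (z := C) (by linarith)).1
  have uA := (gU_sum (z := A)).1
  have uB := (gU_sum (z := B)).1
  have t2C := (gT2_sum (z := C) (by linarith)).1
  refine ⟨mul_nonneg (mul_nonneg (z _) (z _)) (e2D _),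
    mul_nonneg (mul_nonneg (eA _) (add_nonneg (z _) (eB _))) (e2C _),
    mul_nonneg (mul_nonneg (z _) (eB _)) (e2C _),
    mul_nonneg (mul_nonneg (tA _) (oB _)) (o2C _),
    mul_nonneg (mul_nonneg (uA _) (tB _)) (o2C _),
    mul_nonneg (mul_nonneg (uA _) (uB _)) (t2C _)⟩

private theorem dom {q : Par} (h : Reg q) {t : ℝ} (ht : 3 ≤ t) {A B C D : ℝ}
    (eA : A = 11 / 48 * t * q.a) (eB : B = 11 / 48 * t * q.b) (eC : C = 11 / 48 * t * q.c)
    (eD : D = t * q.c / 4)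
    (hA : 33 / 64 ≤ A) (hB : 11 / 16 ≤ B) (hC : 11 / 12 ≤ C)
    (hD : 1 ≤ D) (x : Fin 3 → ℤ) (hx : x ∉ O1) :
    (u3 x : ℝ) ^ 2 * Real.exp (-(t * (q.Ex x + q.Kx x))) ≤ G A B C D (u1 x, u2 x, u3 x) := by
  obtain ⟨n0, n1, n2, n3, n4, n5⟩ := nonneg_aux hA hB hC hD (u1 x, u2 x, u3 x)
  have hd := exp_dom h ht x
  rw [← eA, ← eB, ← eC] at hd
  have hd2 : (u3 x : ℝ) ^ 2 * Real.exp (-(t * (q.Ex x + q.Kx x))) ≤
      Real.exp (-(A * (u1 x : ℝ) ^ 2)) * Real.exp (-(B * (u2 x : ℝ) ^ 2)) *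
        ((u3 x : ℝ) ^ 2 * Real.exp (-(C * (u3 x : ℝ) ^ 2))) := by
    have := mul_le_mul_of_nonneg_left hd (sq_nonneg (u3 x : ℝ))
    refine this.trans (le_of_eq (by ring))
  have p12 : (u1 x - u2 x) % 2 = 0 := by unfold u1 u2; omega
  have p13 : (u1 x - u3 x) % 2 = 0 := by unfold u1 u3; omega
  simp only at n0 n1 n2 n3 n4 n5
  unfold G
  simp only
  by_cases h3 : u3 x = 0
  · rw [h3]
    rw [h3] at n0 n1 n2 n3 n4 n5
    simp only [Int.cast_zero, ne_eq, OfNat.ofNat_ne_zero, not_false_eq_true, zero_pow, zero_mul]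
    linarith
  rcases Int.emod_two_eq_zero_or_one (u3 x) with e3 | o3
  · have e1 : u1 x % 2 = 0 := by omega
    have e2 : u2 x % 2 = 0 := by omega
    by_cases h1 : u1 x = 0
    · by_cases h2 : u2 x = 0
      · have key : (u3 x : ℝ) ^ 2 * Real.exp (-(t * (q.Ex x + q.Kx x))) =
            gZ (u1 x) * gZ (u2 x) * gE2 D (u3 x) := by
          have hE : t * (q.Ex x + q.Kx x) = D * (u3 x : ℝ) ^ 2 := by
            unfold Par.Ex Par.Kx
            rw [h1, h2, eD]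
            push_cast
            ring
          rw [hE]
          simp only [gZ, gE2, h1, h2, e3, h3, if_true, ne_eq, not_false_eq_true, and_self, one_mul]
        linarith
      · have key : Real.exp (-(A * (u1 x : ℝ) ^ 2)) * Real.exp (-(B * (u2 x : ℝ) ^ 2)) *
            ((u3 x : ℝ) ^ 2 * Real.exp (-(C * (u3 x : ℝ) ^ 2))) =
            gZ (u1 x) * gE B (u2 x) * gE2 C (u3 x) := by
          simp only [gZ, gE, gE2, h1, h2, e2, e3, h3, if_true, ne_eq, not_false_eq_true, and_self,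
            one_mul, Int.cast_zero, OfNat.ofNat_ne_zero, zero_pow, mul_zero, neg_zero,
            Real.exp_zero]
        linarith
    · have key : Real.exp (-(A * (u1 x : ℝ) ^ 2)) * Real.exp (-(B * (u2 x : ℝ) ^ 2)) *
          ((u3 x : ℝ) ^ 2 * Real.exp (-(C * (u3 x : ℝ) ^ 2))) =
          gE A (u1 x) * (gZ (u2 x) + gE B (u2 x)) * gE2 C (u3 x) := by
        by_cases h2 : u2 x = 0
        · simp only [gZ, gE, gE2, h1, h2, e1, e3, h3, if_true, ne_eq, not_false_eq_true, and_self,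
            Int.cast_zero, OfNat.ofNat_ne_zero, zero_pow, mul_zero, neg_zero, not_true_eq_false,
            and_false, if_false, add_zero, Real.exp_zero]
        · simp only [gZ, gE, gE2, h1, h2, e1, e2, e3, h3, if_true, ne_eq, not_false_eq_true,
            and_self, if_false, zero_add]
      linarith
  · have o1 : u1 x % 2 = 1 := by omega
    have o2 : u2 x % 2 = 1 := by omega
    by_cases h1 : |u1 x| = 1
    · have s1 : (u1 x : ℝ) ^ 2 = 1 := by
        have : ((|u1 x| : ℤ) : ℝ) = 1 := by rw [h1]; norm_num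
        rw [← sq_abs, ← Int.cast_abs, this]; norm_num
      by_cases h2 : |u2 x| = 1
      · have s2 : (u2 x : ℝ) ^ 2 = 1 := by
          have : ((|u2 x| : ℤ) : ℝ) = 1 := by rw [h2]; norm_num
          rw [← sq_abs, ← Int.cast_abs, this]; norm_num
        have h3' : ¬ |u3 x| = 1 := fun h3' => hx (mem_O1.2 ⟨h1, h2, h3'⟩)
        have key : Real.exp (-(A * (u1 x : ℝ) ^ 2)) * Real.exp (-(B * (u2 x : ℝ) ^ 2)) *
            ((u3 x : ℝ) ^ 2 * Real.exp (-(C * (u3 x : ℝ) ^ 2))) =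
            gU A (u1 x) * gU B (u2 x) * gT2 C (u3 x) := by
          rw [s1, s2]
          simp only [gU, gT2, h1, h2, h3', o3, if_true, ne_eq, not_false_eq_true, and_self,
            mul_one]
        linarith
      · have key : Real.exp (-(A * (u1 x : ℝ) ^ 2)) * Real.exp (-(B * (u2 x : ℝ) ^ 2)) *
            ((u3 x : ℝ) ^ 2 * Real.exp (-(C * (u3 x : ℝ) ^ 2))) =
            gU A (u1 x) * gT B (u2 x) * gO2 C (u3 x) := by
          rw [s1]
          simp only [gU, gT, gO2, h1, h2, o2, o3, if_true, ne_eq, not_false_eq_true, and_self,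
            mul_one]
        linarith
    · have key : Real.exp (-(A * (u1 x : ℝ) ^ 2)) * Real.exp (-(B * (u2 x : ℝ) ^ 2)) *
          ((u3 x : ℝ) ^ 2 * Real.exp (-(C * (u3 x : ℝ) ^ 2))) =
          gT A (u1 x) * gO B (u2 x) * gO2 C (u3 x) := by
        simp only [gT, gO, gO2, h1, o1, o2, o3, if_true, ne_eq, not_false_eq_true, and_self]
      linarith

private theorem sumG {A B C D : ℝ} (hA : 33 / 64 ≤ A) (hB : 11 / 16 ≤ B) (hC : 11 / 12 ≤ C)
    (hD : 1 ≤ D) : Summable (G A B C D) ∧ ∑' m, G A B C D m ≤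
      (((((1 * 1 * (8001 / 1000 * Real.exp (-(4 * D))) +
        2005 / 1000 * Real.exp (-(4 * A)) * (1 + 2001 / 1000 * Real.exp (-(4 * B))) *
          (8001 / 1000 * Real.exp (-(4 * C)))) +
        1 * (2001 / 1000 * Real.exp (-(4 * B))) * (8001 / 1000 * Real.exp (-(4 * C)))) +
        2001 / 1000 * Real.exp (-(9 * A)) * (2014 / 1000 * Real.exp (-B)) *
          (2017 / 1000 * Real.exp (-C))) +
        2 * Real.exp (-A) * (2001 / 1000 * Real.exp (-(9 * B))) *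
          (2017 / 1000 * Real.exp (-C))) +
        2 * Real.exp (-A) * (2 * Real.exp (-B)) * (18001 / 1000 * Real.exp (-(9 * C)))) := by
  have z := gZ_sum
  have bd : ∀ {E E' k K r : ℝ}, 0 ≤ E → 0 ≤ r → E' ≤ r → k ≤ K * (1 - r) → 0 ≤ K → r < 1 →
      k * E / (1 - E') ≤ K * E := by
    intro E E' k K r hE _ h1 h2 hK hr
    exact frac_le hE (by linarith) (h2.trans (mul_le_mul_of_nonneg_left (by linarith) hK))
  have eA : (∀ m, 0 ≤ gE A m) ∧ Summable (gE A) ∧ ∑' m, gE A m ≤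
      2005 / 1000 * Real.exp (-(4 * A)) := by
    have g := gE_sum (z := A) (by linarith)
    refine ⟨g.1, g.2.1, g.2.2.trans (bd (Real.exp_pos _).le (by positivity)
      (en 6 (by push_cast; linarith)) (by norm_num) (by norm_num) (by norm_num))⟩
  have eB : (∀ m, 0 ≤ gE B m) ∧ Summable (gE B) ∧ ∑' m, gE B m ≤
      2001 / 1000 * Real.exp (-(4 * B)) := by
    have g := gE_sum (z := B) (by linarith)
    refine ⟨g.1, g.2.1, g.2.2.trans (bd (Real.exp_pos _).le (by positivity)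
      (en 8 (by push_cast; linarith)) (by norm_num) (by norm_num) (by norm_num))⟩
  have e2 : ∀ {z : ℝ}, 11 / 12 ≤ z → (∀ m, 0 ≤ gE2 z m) ∧ Summable (gE2 z) ∧ ∑' m, gE2 z m ≤
      8001 / 1000 * Real.exp (-(4 * z)) := by
    intro z hz
    have g := gE2_sum (z := z) (by linarith)
    have h1 := en (x := 12 * z) 11 (by push_cast; linarith)
    refine ⟨g.1, g.2.1, g.2.2.trans (bd (r := 4 * (3679 / 10000 : ℝ) ^ 11) (Real.exp_pos _).le
      (by positivity) (by linarith) (by norm_num) (by norm_num) (by norm_num))⟩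
  have tA : (∀ m, 0 ≤ gT A m) ∧ Summable (gT A) ∧ ∑' m, gT A m ≤
      2001 / 1000 * Real.exp (-(9 * A)) := by
    have g := gT_sum (z := A) (by linarith)
    refine ⟨g.1, g.2.1, g.2.2.trans (bd (Real.exp_pos _).le (by positivity)
      (en 8 (by push_cast; linarith)) (by norm_num) (by norm_num) (by norm_num))⟩
  have tB : (∀ m, 0 ≤ gT B m) ∧ Summable (gT B) ∧ ∑' m, gT B m ≤
      2001 / 1000 * Real.exp (-(9 * B)) := by
    have g := gT_sum (z := B) (by linarith)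
    refine ⟨g.1, g.2.1, g.2.2.trans (bd (Real.exp_pos _).le (by positivity)
      (en 11 (by push_cast; linarith)) (by norm_num) (by norm_num) (by norm_num))⟩
  have oB : (∀ m, 0 ≤ gO B m) ∧ Summable (gO B) ∧ ∑' m, gO B m ≤
      2014 / 1000 * Real.exp (-B) := by
    have g := gO_sum (z := B) (by linarith)
    refine ⟨g.1, g.2.1, g.2.2.trans (bd (Real.exp_pos _).le (by positivity)
      (en 5 (by push_cast; linarith)) (by norm_num) (by norm_num) (by norm_num))⟩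
  have o2C : (∀ m, 0 ≤ gO2 C m) ∧ Summable (gO2 C) ∧ ∑' m, gO2 C m ≤
      2017 / 1000 * Real.exp (-C) := by
    have g := gO2_sum (z := C) (by linarith)
    have h1 := en (x := 8 * C) 7 (by push_cast; linarith)
    refine ⟨g.1, g.2.1, g.2.2.trans (bd (r := 9 * (3679 / 10000 : ℝ) ^ 7) (Real.exp_pos _).le
      (by positivity) (by linarith) (by norm_num) (by norm_num) (by norm_num))⟩
  have t2C : (∀ m, 0 ≤ gT2 C m) ∧ Summable (gT2 C) ∧ ∑' m, gT2 C m ≤
      18001 / 1000 * Real.exp (-(9 * C)) := by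
    have g := gT2_sum (z := C) (by linarith)
    have h1 := en (x := 16 * C) 14 (by push_cast; linarith)
    refine ⟨g.1, g.2.1, g.2.2.trans (bd (r := 3 * (3679 / 10000 : ℝ) ^ 14) (Real.exp_pos _).le
      (by positivity) (by linarith) (by norm_num) (by norm_num) (by norm_num))⟩
  have uA := gU_sum (z := A)
  have uB := gU_sum (z := B)
  have e2C := e2 hC
  have e2D := e2 (z := D) (by linarith)
  have zB : (∀ m, 0 ≤ gZ m + gE B m) ∧ Summable (fun m => gZ m + gE B m) ∧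
      ∑' m, (gZ m + gE B m) ≤ 1 + 2001 / 1000 * Real.exp (-(4 * B)) :=
    ⟨fun m => add_nonneg (z.1 m) (eB.1 m), z.2.1.add eB.2.1,
      by rw [z.2.1.tsum_add eB.2.1]; exact add_le_add z.2.2 eB.2.2⟩
  have r0 := tri_le z.1 z.1 e2D.1 z.2.1 z.2.1 e2D.2.1 z.2.2 z.2.2 e2D.2.2
  have r1 := tri_le eA.1 zB.1 e2C.1 eA.2.1 zB.2.1 e2C.2.1 eA.2.2 zB.2.2 e2C.2.2
  have r2 := tri_le z.1 eB.1 e2C.1 z.2.1 eB.2.1 e2C.2.1 z.2.2 eB.2.2 e2C.2.2
  have r3 := tri_le tA.1 oB.1 o2C.1 tA.2.1 oB.2.1 o2C.2.1 tA.2.2 oB.2.2 o2C.2.2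
  have r4 := tri_le uA.1 tB.1 o2C.1 uA.2.1 tB.2.1 o2C.2.1 uA.2.2 tB.2.2 o2C.2.2
  have r5 := tri_le uA.1 uB.1 t2C.1 uA.2.1 uB.2.1 t2C.2.1 uA.2.2 uB.2.2 t2C.2.2
  have q1 := add_le' r0 r1
  have q2 := add_le' q1 r2
  have q3 := add_le' q2 r3
  have q4 := add_le' q3 r4
  have q5 := add_le' q4 r5
  have hG : G A B C D = fun m : ℤ × ℤ × ℤ =>
      (((((gZ m.1 * gZ m.2.1 * gE2 D m.2.2 + gE A m.1 * (gZ m.2.1 + gE B m.2.1) * gE2 C m.2.2)
      + gZ m.1 * gE B m.2.1 * gE2 C m.2.2) + gT A m.1 * gO B m.2.1 * gO2 C m.2.2)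
      + gU A m.1 * gT B m.2.1 * gO2 C m.2.2) + gU A m.1 * gU B m.2.1 * gT2 C m.2.2) := by
    funext m
    rfl
  rw [hG]
  exact q5

private theorem sum_O1 {q : Par} (h : Reg q) {t : ℝ} (ht : 3 ≤ t) :
    (O1.map fun x => (u3 x : ℝ) ^ 2 / 4 * Real.exp (-(t * (q.Ex x + q.Kx x)))).sum ≤
      2 * Real.exp (-t) + t ^ 2 * q.S2 / 4 * Real.exp (-(11 / 12 * t)) := by
  have hs := h.sum
  have key : ∀ (x : Fin 3 → ℤ) (k : ℝ), x ∈ O1 → q.Kx x = k →
      (u3 x : ℝ) ^ 2 / 4 * Real.exp (-(t * (q.Ex x + q.Kx x))) ≤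
        1 / 4 * (Real.exp (-t) * (1 - t * k + t ^ 2 * k ^ 2 / 2 * Real.exp (t / 12))) := by
    intro x k hx hk
    obtain ⟨h1, h2, h3⟩ := mem_O1.1 hx
    have sq : ∀ {u : ℤ}, |u| = 1 → (u : ℝ) ^ 2 = 1 := by
      intro u hu
      have : ((|u| : ℤ) : ℝ) = 1 := by rw [hu]; norm_num
      rw [← sq_abs, ← Int.cast_abs, this]; norm_num
    have hE : q.Ex x = 1 := by
      unfold Par.Ex
      rw [sq h1, sq h2, sq h3]
      linarith
    have hK := h.Kx_le x
    rw [hE, hk] at hK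
    rw [hE, hk, sq h3]
    have e1 : -(t * (1 + k)) = -t + -(t * k) := by ring
    rw [e1, Real.exp_add]
    have e2 : |-(t * k)| ≤ t / 12 := by
      rw [abs_neg, abs_mul, abs_of_nonneg (by linarith : (0 : ℝ) ≤ t)]
      nlinarith
    have e3 := exp_quad e2
    have e4 := mul_le_mul_of_nonneg_left e3 (Real.exp_pos (-t)).le
    have e5 : 1 + -(t * k) + (-(t * k)) ^ 2 / 2 * Real.exp (t / 12)
        = 1 - t * k + t ^ 2 * k ^ 2 / 2 * Real.exp (t / 12) := by ring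
    rw [e5] at e4
    linarith
  have k1 := key ![1, 0, 0] ((q.o1 + q.o2 + q.o3) / 2) (by simp [O1])
    (by simp [Par.Kx, u1, u2, u3]; ring)
  have k2 := key ![-1, 0, 0] ((q.o1 + q.o2 + q.o3) / 2) (by simp [O1])
    (by simp [Par.Kx, u1, u2, u3]; ring)
  have k3 := key ![0, 1, 0] ((q.o1 - q.o2 - q.o3) / 2) (by simp [O1])
    (by simp [Par.Kx, u1, u2, u3]; ring)
  have k4 := key ![0, -1, 0] ((q.o1 - q.o2 - q.o3) / 2) (by simp [O1])
    (by simp [Par.Kx, u1, u2, u3]; ring)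
  have k5 := key ![0, 0, 1] ((-q.o1 + q.o2 - q.o3) / 2) (by simp [O1])
    (by simp [Par.Kx, u1, u2, u3]; ring)
  have k6 := key ![0, 0, -1] ((-q.o1 + q.o2 - q.o3) / 2) (by simp [O1])
    (by simp [Par.Kx, u1, u2, u3]; ring)
  have k7 := key ![1, 1, 1] ((-q.o1 - q.o2 + q.o3) / 2) (by simp [O1])
    (by simp [Par.Kx, u1, u2, u3]; ring)
  have k8 := key ![-1, -1, -1] ((-q.o1 - q.o2 + q.o3) / 2) (by simp [O1])
    (by simp [Par.Kx, u1, u2, u3]; ring)
  have hT : Real.exp (-(11 / 12 * t)) = Real.exp (-t) * Real.exp (t / 12) := by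
    rw [← Real.exp_add]; congr 1; ring
  simp only [O1, List.map_cons, List.map_nil, List.sum_cons, List.sum_nil]
  have hS : q.S2 = q.o1 ^ 2 + q.o2 ^ 2 + q.o3 ^ 2 := rfl
  rw [hT, hS]
  refine (add_le_add k1 (add_le_add k2 (add_le_add k3 (add_le_add k4 (add_le_add k5
    (add_le_add k6 (add_le_add k7 (add_le_add k8 le_rfl)))))))).trans (le_of_eq ?_)
  ring

end FarNAux

open FarNAux in
theorem Reg.sum_n3 {q : Par} (h : Reg q) {t : ℝ} (ht : 3 ≤ t) :
    Summable (fun x : Fin 3 → ℤ => (u3 x : ℝ) ^ 2 / 4 * Real.exp (-(t * (q.Ex x + q.Kx x)))) ∧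
      ∑' x : Fin 3 → ℤ, (u3 x : ℝ) ^ 2 / 4 * Real.exp (-(t * (q.Ex x + q.Kx x))) ≤ q.Nn t := by
  classical
  have ha := h.ha
  have hb := h.b1
  have hc := h.c1
  have hs := h.sum
  obtain ⟨A, eA⟩ : ∃ A, A = 11 / 48 * t * q.a := ⟨_, rfl⟩
  obtain ⟨B, eB⟩ : ∃ B, B = 11 / 48 * t * q.b := ⟨_, rfl⟩
  obtain ⟨C, eC⟩ : ∃ C, C = 11 / 48 * t * q.c := ⟨_, rfl⟩
  obtain ⟨D, eD⟩ : ∃ D, D = t * q.c / 4 := ⟨_, rfl⟩
  have hA : 33 / 64 ≤ A := by rw [eA]; nlinarith
  have hB : 11 / 16 ≤ B := by rw [eB]; nlinarith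
  have hC : 11 / 12 ≤ C := by rw [eC]; nlinarith
  have hD : 1 ≤ D := by rw [eD]; nlinarith
  obtain ⟨sG, bG⟩ := sumG hA hB hC hD
  obtain ⟨F, hF⟩ : ∃ F : (Fin 3 → ℤ) → ℝ, F = fun x : Fin 3 → ℤ =>
    (u3 x : ℝ) ^ 2 / 4 * Real.exp (-(t * (q.Ex x + q.Kx x))) := ⟨_, rfl⟩
  have hF0 : ∀ x, 0 ≤ F x := by intro x; rw [hF]; positivity
  -- the rest
  have hR : Summable (fun x => if x ∈ O1 then 0 else F x) ∧
      ∑' x, (if x ∈ O1 then 0 else F x) ≤ ∑' m, 1 / 4 * G A B C D m := by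
    refine le_of_inj inj_u (fun x => ?_) (fun m => ?_) (sG.mul_left (1 / 4)) (fun x => ?_)
    · split_ifs
      · exact le_rfl
      · exact hF0 x
    · obtain ⟨n0, n1, n2, n3, n4, n5⟩ := nonneg_aux hA hB hC hD m
      unfold G
      linarith
    · split_ifs with hx
      · obtain ⟨n0, n1, n2, n3, n4, n5⟩ := nonneg_aux hA hB hC hD (u1 x, u2 x, u3 x)
        unfold G
        linarith
      · have hd := dom h ht eA eB eC eD hA hB hC hD x hx
        rw [hF]
        simp only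
        linarith
  -- the eight vectors
  have s1 : Summable (fun x => if x ∈ O1 then F x else 0) := by
    apply summable_of_ne_finset_zero (s := O1.toFinset)
    intro x hx
    rw [List.mem_toFinset] at hx
    rw [if_neg hx]
  have t1 : ∑' x, (if x ∈ O1 then F x else 0) ≤
      2 * Real.exp (-t) + t ^ 2 * q.S2 / 4 * Real.exp (-(11 / 12 * t)) := by
    rw [tsum_eq_sum (s := O1.toFinset)]
    · have hn : O1.Nodup := by simp [O1]
      have e1 : ∑ x ∈ O1.toFinset, (if x ∈ O1 then F x else 0) = ∑ x ∈ O1.toFinset, F x :=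
        Finset.sum_congr rfl fun x hx => if_pos (List.mem_toFinset.1 hx)
      rw [e1, List.sum_toFinset _ hn, hF]
      exact sum_O1 h ht
    · intro x hx
      rw [List.mem_toFinset] at hx
      rw [if_neg hx]
  have hsplit : F = fun x => (if x ∈ O1 then F x else 0) + (if x ∈ O1 then 0 else F x) := by
    funext x
    split_ifs <;> simp
  have sF : Summable F := by rw [hsplit]; exact s1.add hR.1
  rw [← hF]
  refine ⟨sF, ?_⟩
  have tF : ∑' x, F x = ∑' x, (if x ∈ O1 then F x else 0) + ∑' x, (if x ∈ O1 then 0 else F x) := by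
    rw [← s1.tsum_add hR.1]
    exact congrArg tsum hsplit
  have bR : ∑' x, (if x ∈ O1 then 0 else F x) ≤ 1 / 4 * ∑' m, G A B C D m := by
    rw [← tsum_mul_left]; exact hR.2
  have x1 : Real.exp (-(4 * A)) * Real.exp (-(4 * C)) =
      Real.exp (-(11 / 12 * (q.a + q.c) * t)) := by
    rw [← Real.exp_add, eA, eC]; congr 1; ring
  have x2 : Real.exp (-(4 * B)) * Real.exp (-(4 * C)) =
      Real.exp (-(11 / 12 * (q.b + q.c) * t)) := by
    rw [← Real.exp_add, eB, eC]; congr 1; ring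
  have x3 : Real.exp (-(4 * A)) * Real.exp (-(4 * B)) * Real.exp (-(4 * C)) =
      Real.exp (-(11 / 3 * t)) := by
    rw [← Real.exp_add, ← Real.exp_add, eA, eB, eC]; congr 1
    linear_combination (-(11 / 12) * t) * hs
  have x4 : Real.exp (-(9 * A)) * Real.exp (-B) * Real.exp (-C) =
      Real.exp (-(11 / 12 * (1 + 2 * q.a) * t)) := by
    rw [← Real.exp_add, ← Real.exp_add, eA, eB, eC]; congr 1
    linear_combination (-(11 / 48) * t) * hs
  have x5 : Real.exp (-A) * Real.exp (-(9 * B)) * Real.exp (-C) =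
      Real.exp (-(11 / 12 * (1 + 2 * q.b) * t)) := by
    rw [← Real.exp_add, ← Real.exp_add, eA, eB, eC]; congr 1
    linear_combination (-(11 / 48) * t) * hs
  have x6 : Real.exp (-A) * Real.exp (-B) * Real.exp (-(9 * C)) =
      Real.exp (-(11 / 12 * (1 + 2 * q.c) * t)) := by
    rw [← Real.exp_add, ← Real.exp_add, eA, eB, eC]; congr 1
    linear_combination (-(11 / 48) * t) * hs
  have x7 : Real.exp (-(4 * D)) = Real.exp (-(q.c * t)) := by
    rw [eD]; congr 1; ring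
  have p1 := Real.exp_pos (-(11 / 12 * (q.a + q.c) * t))
  have p2 := Real.exp_pos (-(11 / 12 * (q.b + q.c) * t))
  have p3 := Real.exp_pos (-(11 / 3 * t))
  have p4 := Real.exp_pos (-(11 / 12 * (1 + 2 * q.a) * t))
  have p5 := Real.exp_pos (-(11 / 12 * (1 + 2 * q.b) * t))
  have p6 := Real.exp_pos (-(11 / 12 * (1 + 2 * q.c) * t))
  have p7 := Real.exp_pos (-(q.c * t))
  have e : (((((1 * 1 * (8001 / 1000 * Real.exp (-(4 * D))) +
        2005 / 1000 * Real.exp (-(4 * A)) * (1 + 2001 / 1000 * Real.exp (-(4 * B))) *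
          (8001 / 1000 * Real.exp (-(4 * C)))) +
        1 * (2001 / 1000 * Real.exp (-(4 * B))) * (8001 / 1000 * Real.exp (-(4 * C)))) +
        2001 / 1000 * Real.exp (-(9 * A)) * (2014 / 1000 * Real.exp (-B)) *
          (2017 / 1000 * Real.exp (-C))) +
        2 * Real.exp (-A) * (2001 / 1000 * Real.exp (-(9 * B))) *
          (2017 / 1000 * Real.exp (-C))) +
        2 * Real.exp (-A) * (2 * Real.exp (-B)) * (18001 / 1000 * Real.exp (-(9 * C)))) =
      8001 / 1000 * Real.exp (-(4 * D)) +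
      2005 / 1000 * (8001 / 1000) * (Real.exp (-(4 * A)) * Real.exp (-(4 * C))) +
      2005 / 1000 * (8001 / 1000) * (2001 / 1000) *
        (Real.exp (-(4 * A)) * Real.exp (-(4 * B)) * Real.exp (-(4 * C))) +
      2001 / 1000 * (8001 / 1000) * (Real.exp (-(4 * B)) * Real.exp (-(4 * C))) +
      2001 / 1000 * (2014 / 1000) * (2017 / 1000) *
        (Real.exp (-(9 * A)) * Real.exp (-B) * Real.exp (-C)) +
      2 * (2001 / 1000) * (2017 / 1000) *
        (Real.exp (-A) * Real.exp (-(9 * B)) * Real.exp (-C)) +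
      4 * (18001 / 1000) * (Real.exp (-A) * Real.exp (-B) * Real.exp (-(9 * C))) := by
    ring
  rw [e, x1, x2, x3, x4, x5, x6, x7] at bG
  rw [tF]
  unfold Par.Nn
  linarith

end Pool.Agent.Lib.EPT
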