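import Pool.Agent.Lib.EPT.Defs

/-!
# The explicit bounds
-/

namespace Pool.Agent.Lib.EPT

namespace Par

/-- upper bound of `∑ n₃² exp (-t Q[n])`, `t ≥ 3` -/
noncomputable def Nn (q : Par) (t : ℝ) : ℝ :=
  2 * Real.exp (-t) + t ^ 2 * q.S2 / 4 * Real.exp (-(11 / 12 * t))
    + 2001 / 1000 * Real.exp (-(q.c * t))
    + 81 / 20 * Real.exp (-(11 / 12 * (q.a + q.c) * t))
    + 81 / 20 * Real.exp (-(11 / 12 * (q.b + q.c) * t))
    + 81 / 10 * Real.exp (-(11 / 3 * t))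
    + 21 / 10 * Real.exp (-(11 / 12 * (1 + 2 * q.a) * t))
    + 21 / 10 * Real.exp (-(11 / 12 * (1 + 2 * q.b) * t))
    + 19 * Real.exp (-(11 / 12 * (1 + 2 * q.c) * t))

/-- lower bound of `-∑ K[n] exp (-t Q[n])` -/
noncomputable def Gg (q : Par) (t : ℝ) : ℝ :=
  (2 * t * q.S2 - 3 * t ^ 2 * q.pp) * Real.exp (-t)
    + 16 * t * q.o3 ^ 2 * Real.exp (-((4 - q.c) * t))
    + (t * (2 * q.o1 ^ 2 + 18 * (q.o2 ^ 2 + q.o3 ^ 2)) - 27 * t ^ 2 * q.pp)
      * Real.exp (-((1 + 2 * q.a) * t))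
    + (t * (2 * q.o2 ^ 2 + 18 * (q.o1 ^ 2 + q.o3 ^ 2)) - 27 * t ^ 2 * q.pp)
      * Real.exp (-((1 + 2 * q.b) * t))

/-- `1/b + 1/c` -/
noncomputable def e1 (q : Par) : ℝ := 1 / q.b + 1 / q.c
/-- `1/a + 1/c` -/
noncomputable def e2 (q : Par) : ℝ := 1 / q.a + 1 / q.c
/-- `1/a + 1/b` -/
noncomputable def e3 (q : Par) : ℝ := 1 / q.a + 1 / q.b

/-- minus the diagonal value on the dual vectors `(0,±1,±1)`, times the determinant -/
noncomputable def m1 (q : Par) : ℝ := q.chi * q.a - 2 * q.o2 ^ 2 - 2 * q.o3 ^ 2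
/-- the same on `(±1,0,±1)` -/
noncomputable def m2 (q : Par) : ℝ := q.chi * q.b - 2 * q.o1 ^ 2 - 2 * q.o3 ^ 2
/-- the same on `(±1,±1,0)` -/
noncomputable def m3 (q : Par) : ℝ := q.chi * (q.a + q.b) - 2 * q.o1 ^ 2 - 2 * q.o2 ^ 2

/-- bound of the diagonal part of a class: `2 m (e^{-37ze/40} + e^{-43ze/40}) / det` -/
noncomputable def cb (m e dt z : ℝ) : ℝ :=
  2 * max 0 m / dt * (Real.exp (-(37 / 40 * z * e)) + Real.exp (-(43 / 40 * z * e)))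

/-- the gain of a class from its off-diagonal part; `X` the first order, `Q2` the second order -/
noncomputable def cs (X Q2 e dt z : ℝ) : ℝ :=
  16 * z * (19 / 20 * X ^ 2 / dt ^ 2 * Real.exp (-(500 / 497 * z * e))
    - (11 / 200 * X ^ 2 + 1501 / 50 * Q2 ^ 2) / dt ^ 2 * Real.exp (-(37 / 40 * z * e)))

/-- lower bound of the contribution of the twelve dual vectors of the three classes -/
noncomputable def Lc (q : Par) (z : ℝ) : ℝ :=
  -cb q.m1 q.e1 q.dt z + cs (q.a * q.o1) (q.o2 * q.o3) q.e1 q.dt z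
    - cb q.m2 q.e2 q.dt z + cs (q.b * q.o2) (q.o1 * q.o3) q.e2 q.dt z
    - cb q.m3 q.e3 q.dt z + cs (q.c * q.o3) (q.o1 * q.o2) q.e3 q.dt z

/-- upper bound of minus the contribution of the axes -/
noncomputable def La (q : Par) (z : ℝ) : ℝ :=
  801 / 100 * (max 0 (q.chi * q.b - 2 * q.o1 ^ 2) / q.dt * Real.exp (-(4 * z / q.a))
    + max 0 (q.chi * q.a - 2 * q.o2 ^ 2) / q.dt * Real.exp (-(4 * z / q.b)))

/-- upper bound of minus the contribution of all other dual vectors -/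
noncomputable def Lr (q : Par) (z : ℝ) : ℝ :=
  4 * (21 / 10 * Real.exp (-(10 / 3 * z / q.c)) + 1 / 100)
    * (41 / 20 * (q.W + 3 * |q.pp|) / (q.a * q.b * q.c))
    * (Real.exp (-(5 / 6 * z * q.e1)) * (1 / q.b + 1 / (50 * q.c))
      + Real.exp (-(5 / 6 * z * q.e2)) * (1 / q.a + 1 / (50 * q.c))
      + Real.exp (-(5 / 6 * z * q.e3)) * (1 / q.a + 1 / q.b))

/-- lower bound of the dual sum for `z ≥ 29/10` -/
noncomputable def Lw (q : Par) (z : ℝ) : ℝ := q.Lc z - q.La z - q.Lr z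

/-- the dual sum -/
noncomputable def Ds (q : Par) (z : ℝ) : ℝ :=
  ∑' y : Fin 3 → ℤ, (q.dM.Ey y + q.dM.Ky y) * Real.exp (-(z * (q.inv.Ey y + q.inv.Ky y)))

end Par

end Pool.Agent.Lib.EPT
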