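import Pool.Agent.Lib.EPT.FarN
import Pool.Agent.Lib.EPT.Alg

/-!
# The good part of the direct side: `-∑ K[x] exp (-t Q[x]) ≥ Gg t`

PROOF.  `sum_K`: `∑ Kx x exp (-t Ex x) = 0`.  The involution `x ↦ (x2-x1, x2-x0, x2)` changes the
sign of `u1` and keeps `u2, u3`; it kills the terms `u1 u2`, `u1 u3`.  The involution
`x ↦ (x1-x2, x1, x1-x0)` changes the sign of `u2` only; it kills `u2 u3`.  (General lemma: for an
`Equiv` `e` with `f (e x) = - f x`, `∑' f = 0`, by `Equiv.tsum_eq`.)  Summability of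
`u_i u_j exp (-t Ex)`: `Pg.summable`/`summable_Th` for the form with `o1 = o2 = o3 = 0` (positive
definite), or comparison with it.
`good`: put `psi x = -Kx exp (-t (Ex+Kx)) + Kx exp (-t Ex) ≥ 0` (because
`-K (e^(-tK) - 1) ≥ 0`), and for ALL real `K`, `t ≥ 0`:
`-K (e^(-tK) - 1) ≥ t K² - t² K³/2` (with `v = tK`: `v (1 - e^(-v)) ≥ v² - v³/2`, since
`1 - v + v²/2 - e^(-v)` has the sign of `v`).  Hence `∑' psi ≥ ∑_{x ∈ F} (t K² - t² K³/2) e^(-t Ex)`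
for every finite set `F` (`psi ≥ 0` outside).  Take `F = O1 ∪ OC ∪ OA ∪ OB` (lists below, 28 vectors,
no repetitions by `decide`).  With `a + b + c = 4`:
 O1: `Ex = 1`, `∑ K² = 2 S2`, `∑ K³ = 6 pp`  (each of the four values twice);
 OC: `Ex = a + b = 4 - c`, `K = ± 2 o3` (two each), `∑ K² = 16 o3²`, `∑ K³ = 0`;
 OA: `Ex = 1 + 2a`, `∑ K² = 2 o1² + 18 (o2² + o3²)`, `∑ K³ = 54 pp`;
 OB: `Ex = 1 + 2b`, `∑ K² = 2 o2² + 18 (o1² + o3²)`, `∑ K³ = 54 pp`.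
`good_O1`: the same inequality only on `O1`.
-/

namespace Pool.Agent.Lib.EPT

open Pool.Agent.Lib.EpZ Pool.Agent.Lib.EPS Pool.Agent.Lib.EPL

/-- the four vectors with `u = (±2, ±2, 0)` -/
def OC : List (Fin 3 → ℤ) := [![-2, -1, -1], ![0, -1, 1], ![0, 1, -1], ![2, 1, 1]]

/-- the eight vectors with `u = (±3, ±1, ±1)` -/
def OA : List (Fin 3 → ℤ) :=
  [![-2, -2, -1], ![-2, -1, 0], ![-1, -2, 0], ![-1, -1, 1], ![1, 1, -1], ![1, 2, 0], ![2, 1, 0],
    ![2, 2, 1]]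

/-- the eight vectors with `u = (±1, ±3, ±1)` -/
def OB : List (Fin 3 → ℤ) :=
  [![-2, -1, -2], ![-2, 0, -1], ![-1, 0, -2], ![-1, 1, -1], ![1, -1, 1], ![1, 0, 2], ![2, 0, 1],
    ![2, 1, 2]]

namespace GoodAux

/-- the involution changing the sign of `u1` -/
def fl1 (x : Fin 3 → ℤ) : Fin 3 → ℤ := ![x 2 - x 1, x 2 - x 0, x 2]

/-- the involution changing the sign of `u2` -/
def fl2 (x : Fin 3 → ℤ) : Fin 3 → ℤ := ![x 1 - x 2, x 1, x 1 - x 0]

lemma fl1_0 (x : Fin 3 → ℤ) : fl1 x 0 = x 2 - x 1 := rfl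
lemma fl1_1 (x : Fin 3 → ℤ) : fl1 x 1 = x 2 - x 0 := rfl
lemma fl1_2 (x : Fin 3 → ℤ) : fl1 x 2 = x 2 := rfl
lemma fl2_0 (x : Fin 3 → ℤ) : fl2 x 0 = x 1 - x 2 := rfl
lemma fl2_1 (x : Fin 3 → ℤ) : fl2 x 1 = x 1 := rfl
lemma fl2_2 (x : Fin 3 → ℤ) : fl2 x 2 = x 1 - x 0 := rfl

lemma fl1_inv : Function.Involutive fl1 := by
  intro x
  funext i
  fin_cases i
  · show fl1 (fl1 x) 0 = x 0
    rw [fl1_0, fl1_1, fl1_2]; ring
  · show fl1 (fl1 x) 1 = x 1
    rw [fl1_1, fl1_0, fl1_2]; ring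
  · show fl1 (fl1 x) 2 = x 2
    rw [fl1_2, fl1_2]

lemma fl2_inv : Function.Involutive fl2 := by
  intro x
  funext i
  fin_cases i
  · show fl2 (fl2 x) 0 = x 0
    rw [fl2_0, fl2_1, fl2_2]; ring
  · show fl2 (fl2 x) 1 = x 1
    rw [fl2_1, fl2_1]
  · show fl2 (fl2 x) 2 = x 2
    rw [fl2_2, fl2_0, fl2_1]; ring

lemma u1_fl1 (x : Fin 3 → ℤ) : u1 (fl1 x) = -u1 x := by
  unfold u1; rw [fl1_0, fl1_1, fl1_2]; ring
lemma u2_fl1 (x : Fin 3 → ℤ) : u2 (fl1 x) = u2 x := by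
  unfold u2; rw [fl1_0, fl1_1, fl1_2]; ring
lemma u3_fl1 (x : Fin 3 → ℤ) : u3 (fl1 x) = u3 x := by
  unfold u3; rw [fl1_0, fl1_1, fl1_2]; ring
lemma u1_fl2 (x : Fin 3 → ℤ) : u1 (fl2 x) = u1 x := by
  unfold u1; rw [fl2_0, fl2_1, fl2_2]; ring
lemma u2_fl2 (x : Fin 3 → ℤ) : u2 (fl2 x) = -u2 x := by
  unfold u2; rw [fl2_0, fl2_1, fl2_2]; ring
lemma u3_fl2 (x : Fin 3 → ℤ) : u3 (fl2 x) = u3 x := by
  unfold u3; rw [fl2_0, fl2_1, fl2_2]; ring

lemma odd_zero {f : (Fin 3 → ℤ) → ℝ} {e : (Fin 3 → ℤ) → (Fin 3 → ℤ)} (he : Function.Involutive e)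
    (hf : ∀ y, f (e y) = -f y) : ∑' y, f y = 0 := by
  have h1 : ∑' y, f (e y) = ∑' y, f y := Equiv.tsum_eq (Function.Involutive.toPerm e he) f
  have h2 : ∑' y, f (e y) = -∑' y, f y := by
    rw [← tsum_neg]
    exact tsum_congr fun y => hf y
  linarith

/-- a diagonal form -/
def dg (A B C : ℝ) : Par := ⟨A, B, C, 0, 0, 0⟩

/-- an off-diagonal form -/
def od (x y z : ℝ) : Par := ⟨0, 0, 0, x, y, z⟩

lemma dg_reg {q : Par} (h : Reg q) : Reg (dg q.a q.b q.c) := by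
  refine ⟨h.sum, h.ha, h.hab, h.hbc, h.hc, h.hca, ?_, ?_⟩
  · have ha := h.ha
    have hab := h.hab
    have hbc := h.hbc
    have h1 : 0 < q.a := by linarith
    have h2 : 0 < q.b := by linarith
    have h3 : 0 < q.c := by linarith
    have : 0 ≤ q.a * q.b * q.c := by positivity
    simpa [Par.W, dg] using this
  · have := h.hc
    simp only [dg, abs_zero]
    linarith

lemma summ_od {q : Par} (h : Reg q) {t : ℝ} (ht : 0 < t) (x1 x2 x3 : ℝ) :
    Summable fun x : Fin 3 → ℤ => (od x1 x2 x3).Kx x * Real.exp (-(t * q.Ex x)) := by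
  refine (summable_Th (dg_reg h).pd_mat (od x1 x2 x3).mat ht).congr fun x => ?_
  rw [qf_mat, qf_mat]
  have e1 : (od x1 x2 x3).Ex x = 0 := by simp [Par.Ex, od]
  have e2 : (dg q.a q.b q.c).Kx x = 0 := by simp [Par.Kx, dg]
  have e3 : (dg q.a q.b q.c).Ex x = q.Ex x := by simp [Par.Ex, dg]
  rw [e1, e2, e3, zero_add, add_zero]

/-- the summand of the lower bound -/
noncomputable def g (q : Par) (t : ℝ) (x : Fin 3 → ℤ) : ℝ :=
  t * q.Kx x ^ 2 - t ^ 2 * q.Kx x ^ 3 / 2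

lemma lsum {q : Par} {t E : ℝ} (L : List (Fin 3 → ℤ)) (hE : ∀ x ∈ L, q.Ex x = E) :
    (L.map fun x => g q t x * Real.exp (-(t * q.Ex x))).sum =
      (L.map fun x => g q t x).sum * Real.exp (-(t * E)) := by
  induction L with
  | nil => simp
  | cons a l ih =>
    simp only [List.map_cons, List.sum_cons]
    rw [ih fun x hx => hE x (List.mem_cons_of_mem _ hx), hE a List.mem_cons_self]
    ring

lemma sO1 {q : Par} (t : ℝ) : (O1.map fun x => g q t x).sum = 2 * t * q.S2 - 3 * t ^ 2 * q.pp := by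
  simp [O1, g, Par.Kx, Par.S2, Par.pp, u1, u2, u3]
  ring

lemma sOC {q : Par} (t : ℝ) : (OC.map fun x => g q t x).sum = 16 * t * q.o3 ^ 2 := by
  simp [OC, g, Par.Kx, u1, u2, u3]
  ring

lemma sOA {q : Par} (t : ℝ) : (OA.map fun x => g q t x).sum =
    t * (2 * q.o1 ^ 2 + 18 * (q.o2 ^ 2 + q.o3 ^ 2)) - 27 * t ^ 2 * q.pp := by
  simp [OA, g, Par.Kx, Par.pp, u1, u2, u3]
  ring

lemma sOB {q : Par} (t : ℝ) : (OB.map fun x => g q t x).sum =
    t * (2 * q.o2 ^ 2 + 18 * (q.o1 ^ 2 + q.o3 ^ 2)) - 27 * t ^ 2 * q.pp := by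
  simp [OB, g, Par.Kx, Par.pp, u1, u2, u3]
  ring

lemma eO1 {q : Par} (h : Reg q) : ∀ x ∈ O1, q.Ex x = 1 := by
  have hs := h.sum
  simp only [O1, List.forall_mem_cons, List.not_mem_nil, false_implies, implies_true, and_true]
  refine ⟨?_, ?_, ?_, ?_, ?_, ?_, ?_, ?_⟩ <;> simp [Par.Ex, u1, u2, u3] <;> linarith

lemma eOC {q : Par} (h : Reg q) : ∀ x ∈ OC, q.Ex x = 4 - q.c := by
  have hs := h.sum
  simp only [OC, List.forall_mem_cons, List.not_mem_nil, false_implies, implies_true, and_true]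
  refine ⟨?_, ?_, ?_, ?_⟩ <;> simp [Par.Ex, u1, u2, u3] <;> ring_nf <;> linarith

lemma eOA {q : Par} (h : Reg q) : ∀ x ∈ OA, q.Ex x = 1 + 2 * q.a := by
  have hs := h.sum
  simp only [OA, List.forall_mem_cons, List.not_mem_nil, false_implies, implies_true, and_true]
  refine ⟨?_, ?_, ?_, ?_, ?_, ?_, ?_, ?_⟩ <;> simp [Par.Ex, u1, u2, u3] <;> ring_nf <;> linarith

lemma eOB {q : Par} (h : Reg q) : ∀ x ∈ OB, q.Ex x = 1 + 2 * q.b := by
  have hs := h.sum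
  simp only [OB, List.forall_mem_cons, List.not_mem_nil, false_implies, implies_true, and_true]
  refine ⟨?_, ?_, ?_, ?_, ?_, ?_, ?_, ?_⟩ <;> simp [Par.Ex, u1, u2, u3] <;> ring_nf <;> linarith

end GoodAux

theorem Reg.sum_K {q : Par} (h : Reg q) {t : ℝ} (ht : 0 < t) :
    Summable (fun x : Fin 3 → ℤ => q.Kx x * Real.exp (-(t * q.Ex x))) ∧
      ∑' x : Fin 3 → ℤ, q.Kx x * Real.exp (-(t * q.Ex x)) = 0 := by
  have s1 := GoodAux.summ_od h ht 0 q.o2 q.o3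
  have s2 := GoodAux.summ_od h ht q.o1 0 0
  have e : ∀ y : Fin 3 → ℤ, (GoodAux.od 0 q.o2 q.o3).Kx y * Real.exp (-(t * q.Ex y))
      + (GoodAux.od q.o1 0 0).Kx y * Real.exp (-(t * q.Ex y))
      = q.Kx y * Real.exp (-(t * q.Ex y)) := by
    intro y
    rw [← add_mul]
    congr 1
    simp only [Par.Kx, GoodAux.od]
    ring
  have z1 : ∑' y : Fin 3 → ℤ, (GoodAux.od 0 q.o2 q.o3).Kx y * Real.exp (-(t * q.Ex y)) = 0 := by
    refine GoodAux.odd_zero GoodAux.fl1_inv fun y => ?_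
    simp only [Par.Kx, Par.Ex, GoodAux.od, GoodAux.u1_fl1, GoodAux.u2_fl1, GoodAux.u3_fl1]
    push_cast
    ring_nf
  have z2 : ∑' y : Fin 3 → ℤ, (GoodAux.od q.o1 0 0).Kx y * Real.exp (-(t * q.Ex y)) = 0 := by
    refine GoodAux.odd_zero GoodAux.fl2_inv fun y => ?_
    simp only [Par.Kx, Par.Ex, GoodAux.od, GoodAux.u1_fl2, GoodAux.u2_fl2, GoodAux.u3_fl2]
    push_cast
    ring_nf
  refine ⟨(s1.add s2).congr e, ?_⟩
  rw [← tsum_congr e, s1.tsum_add s2, z1, z2, add_zero]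

theorem cubic_low (K t : ℝ) (ht : 0 ≤ t) :
    t * K ^ 2 - t ^ 2 * K ^ 3 / 2 ≤ -K * (Real.exp (-(t * K)) - 1) := by
  rcases le_total 0 K with hK | hK
  · have hv : 0 ≤ t * K := mul_nonneg ht hK
    have h1 := Real.quadratic_le_exp_of_nonneg hv
    have h2 : Real.exp (-(t * K)) * Real.exp (t * K) = 1 := by
      rw [← Real.exp_add]; simp
    have hp := Real.exp_pos (-(t * K))
    have h3 : Real.exp (-(t * K)) * (1 + t * K + (t * K) ^ 2 / 2) ≤ 1 := by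
      exact (mul_le_mul_of_nonneg_left h1 hp.le).trans h2.le
    have h4 : Real.exp (-(t * K)) ≤ 1 - t * K + (t * K) ^ 2 / 2 := by
      have h5 : 1 ≤ (1 - t * K + (t * K) ^ 2 / 2) * (1 + t * K + (t * K) ^ 2 / 2) := by
        nlinarith [sq_nonneg ((t * K) ^ 2)]
      have h6 : 0 < 1 + t * K + (t * K) ^ 2 / 2 := by positivity
      by_contra hcon
      push Not at hcon
      nlinarith
    nlinarith [mul_le_mul_of_nonneg_left h4 hK]
  · have hv : 0 ≤ -(t * K) := by nlinarith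
    have h1 := Real.quadratic_le_exp_of_nonneg hv
    nlinarith [mul_le_mul_of_nonpos_left h1 hK]

namespace GoodAux

lemma psi_low (q : Par) {t : ℝ} (ht : 0 ≤ t) (x : Fin 3 → ℤ) :
    g q t x * Real.exp (-(t * q.Ex x)) ≤
      -q.Kx x * Real.exp (-(t * (q.Ex x + q.Kx x))) + q.Kx x * Real.exp (-(t * q.Ex x)) := by
  have h1 := mul_le_mul_of_nonneg_right (cubic_low (q.Kx x) t ht)
    (Real.exp_pos (-(t * q.Ex x))).le
  have h2 : Real.exp (-(t * (q.Ex x + q.Kx x))) =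
      Real.exp (-(t * q.Kx x)) * Real.exp (-(t * q.Ex x)) := by
    rw [← Real.exp_add]; congr 1; ring
  rw [h2]
  unfold g
  linarith

lemma psi_nn (q : Par) {t : ℝ} (ht : 0 ≤ t) (x : Fin 3 → ℤ) :
    0 ≤ -q.Kx x * Real.exp (-(t * (q.Ex x + q.Kx x))) + q.Kx x * Real.exp (-(t * q.Ex x)) := by
  have h2 : Real.exp (-(t * (q.Ex x + q.Kx x))) =
      Real.exp (-(t * q.Kx x)) * Real.exp (-(t * q.Ex x)) := by
    rw [← Real.exp_add]; congr 1; ring
  have h3 : 0 ≤ q.Kx x * (1 - Real.exp (-(t * q.Kx x))) := by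
    rcases le_total 0 (q.Kx x) with hK | hK
    · apply mul_nonneg hK
      have : Real.exp (-(t * q.Kx x)) ≤ 1 :=
        Real.exp_le_one_iff.2 (by have := mul_nonneg ht hK; linarith)
      linarith
    · apply mul_nonneg_of_nonpos_of_nonpos hK
      have : 1 ≤ Real.exp (-(t * q.Kx x)) :=
        Real.one_le_exp (by have := mul_nonneg ht (neg_nonneg.2 hK); linarith)
      linarith
  have h4 := mul_nonneg h3 (Real.exp_pos (-(t * q.Ex x))).le
  rw [h2]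
  linarith

lemma nodup : (O1 ++ OC ++ OA ++ OB).Nodup := by
  decide

end GoodAux

theorem Reg.good {q : Par} (h : Reg q) {t : ℝ} (ht : 0 < t) :
    Summable (fun x : Fin 3 → ℤ => -q.Kx x * Real.exp (-(t * (q.Ex x + q.Kx x)))) ∧
      q.Gg t ≤ ∑' x : Fin 3 → ℤ, -q.Kx x * Real.exp (-(t * (q.Ex x + q.Kx x))) := by
  classical
  obtain ⟨sK, zK⟩ := h.sum_K ht
  have s1 : Summable (fun x : Fin 3 → ℤ => -q.Kx x * Real.exp (-(t * (q.Ex x + q.Kx x)))) := by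
    refine (summable_Th h.pd_mat (GoodAux.od (-q.o1) (-q.o2) (-q.o3)).mat ht).congr fun x => ?_
    rw [qf_mat, qf_mat]
    congr 1
    simp only [Par.Ex, Par.Kx, GoodAux.od]
    ring
  refine ⟨s1, ?_⟩
  have s2 := s1.add sK
  have e1 : ∑' x : Fin 3 → ℤ, -q.Kx x * Real.exp (-(t * (q.Ex x + q.Kx x))) =
      ∑' x : Fin 3 → ℤ, (-q.Kx x * Real.exp (-(t * (q.Ex x + q.Kx x)))
        + q.Kx x * Real.exp (-(t * q.Ex x))) := by
    rw [s1.tsum_add sK, zK, add_zero]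
  rw [e1]
  have h1 := s2.sum_le_tsum (O1 ++ OC ++ OA ++ OB).toFinset
    fun x _ => GoodAux.psi_nn q ht.le x
  refine le_trans ?_ h1
  rw [List.sum_toFinset _ GoodAux.nodup]
  have h2 : ((O1 ++ OC ++ OA ++ OB).map
      fun x => GoodAux.g q t x * Real.exp (-(t * q.Ex x))).sum ≤
      ((O1 ++ OC ++ OA ++ OB).map fun x => -q.Kx x * Real.exp (-(t * (q.Ex x + q.Kx x)))
        + q.Kx x * Real.exp (-(t * q.Ex x))).sum :=
    List.sum_le_sum fun x _ => GoodAux.psi_low q ht.le x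
  refine le_trans (le_of_eq ?_) h2
  rw [List.map_append, List.map_append, List.map_append, List.sum_append, List.sum_append,
    List.sum_append, GoodAux.lsum O1 (GoodAux.eO1 h), GoodAux.lsum OC (GoodAux.eOC h),
    GoodAux.lsum OA (GoodAux.eOA h), GoodAux.lsum OB (GoodAux.eOB h), GoodAux.sO1, GoodAux.sOC,
    GoodAux.sOA, GoodAux.sOB]
  unfold Par.Gg
  rw [mul_one, mul_comm t (4 - q.c), mul_comm t (1 + 2 * q.a), mul_comm t (1 + 2 * q.b)]

/-- the contribution of the eight short vectors -/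
theorem Reg.good_O1 {q : Par} (h : Reg q) {t : ℝ} (ht : 0 ≤ t) :
    (2 * t * q.S2 - 3 * t ^ 2 * q.pp) * Real.exp (-t) ≤
      (O1.map fun x => -q.Kx x * Real.exp (-(t * (q.Ex x + q.Kx x)))).sum := by
  have h1 : (O1.map fun x => GoodAux.g q t x * Real.exp (-(t * q.Ex x))).sum ≤
      (O1.map fun x => -q.Kx x * Real.exp (-(t * (q.Ex x + q.Kx x)))
        + q.Kx x * Real.exp (-(t * q.Ex x))).sum :=
    List.sum_le_sum fun x _ => GoodAux.psi_low q ht x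
  rw [GoodAux.lsum O1 (GoodAux.eO1 h), GoodAux.sO1, mul_one] at h1
  refine h1.trans (le_of_eq ?_)
  have e : ∀ x ∈ O1, q.Kx x * Real.exp (-(t * q.Ex x)) = q.Kx x * Real.exp (-t) := by
    intro x hx
    rw [GoodAux.eO1 h x hx, mul_one]
  have h3 : (O1.map fun x => q.Kx x * Real.exp (-(t * q.Ex x))).sum = 0 := by
    rw [List.map_congr_left e]
    simp [O1, Par.Kx, u1, u2, u3]
    ring
  rw [List.sum_map_add, h3, add_zero]

end Pool.Agent.Lib.EPT
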