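import Pool.Agent.Lib.EPS.Phi

/-!
# A reflective evaluator for nonnegative real expressions (fixed point, `2 ^ 60`)
-/

namespace Pool.Agent.Lib.EPT

/-- expressions -/
inductive Tm where
  | k (p q : ℕ) : Tm
  | v (i : ℕ) : Tm
  | ad (a b : Tm) : Tm
  | ml (a b : Tm) : Tm
  | dv (a b : Tm) : Tm
  | sb (a b : Tm) : Tm
  | mn (a b : Tm) : Tm
  | ex (a : Tm) : Tm
  | pw (a : Tm) (n : ℕ) : Tm

namespace Tm

/-- the value of an expression -/
noncomputable def val (r : ℕ → ℝ) : Tm → ℝ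
  | k p q => (p : ℝ) / (q : ℝ)
  | v i => r i
  | ad a b => a.val r + b.val r
  | ml a b => a.val r * b.val r
  | dv a b => a.val r / b.val r
  | sb a b => a.val r - b.val r
  | mn a b => min (a.val r) (b.val r)
  | ex a => Real.exp (-(a.val r))
  | pw a n => a.val r ^ n

end Tm

/-- force the evaluation of `n` -/
def frc {α : Type} (n : ℕ) (f : ℕ → α) : α :=
  Nat.rec (motive := fun _ => α) (f 0) (fun m _ => f (Nat.succ m)) n

theorem frc_eq {α : Type} (n : ℕ) (f : ℕ → α) : frc n f = f n := by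
  cases n <;> rfl

/-- the scale -/
abbrev sc : ℕ := 1152921504606846976

/-- an interval with forced end points -/
def mk2 (l h : ℕ) : Option (ℕ × ℕ) := frc l fun l => frc h fun h => some (l, h)

theorem mk2_eq (l h : ℕ) : mk2 l h = some (l, h) := by
  simp [mk2, frc_eq]

/-- one rounding up of a sixteenth power -/
def up16 (t : ℕ) : ℕ := t ^ 16 / sc ^ 15 + 1
/-- one rounding down of a sixteenth power -/
def dn16 (t : ℕ) : ℕ := t ^ 16 / sc ^ 15

/-- upper bound of `exp (-n/sc)` -/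
def exU (n : ℕ) : ℕ :=
  frc (n / 65536) fun y => frc (up16 (sc - y + y * y / (2 * sc) + 1)) fun t =>
    frc (up16 t) fun t => frc (up16 t) fun t => up16 t

/-- lower bound of `exp (-n/sc)` -/
def exL (n : ℕ) : ℕ :=
  frc (n / 65536 + 1) fun y => if sc < y then 0 else
    frc (dn16 (sc - y + y * y / (2 * sc) - (y ^ 3 / (6 * sc ^ 2) + 1))) fun t =>
    frc (dn16 t) fun t => frc (dn16 t) fun t => dn16 t

/-- binary operation on intervals -/
def op2 (f : ℕ → ℕ → ℕ → ℕ → Option (ℕ × ℕ)) (x y : Option (ℕ × ℕ)) : Option (ℕ × ℕ) :=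
  match x with
  | none => none
  | some (l1, h1) => match y with
    | none => none
    | some (l2, h2) => f l1 h1 l2 h2

/-- unary operation -/
def op1 (f : ℕ → ℕ → Option (ℕ × ℕ)) (x : Option (ℕ × ℕ)) : Option (ℕ × ℕ) :=
  match x with
  | none => none
  | some (l1, h1) => f l1 h1

/-- a rational constant -/
def ik (p q : ℕ) : Option (ℕ × ℕ) :=
  if q = 0 then none else mk2 (p * sc / q) (p * sc / q + 1)
/-- sum -/
def iad (l1 h1 l2 h2 : ℕ) : Option (ℕ × ℕ) := mk2 (l1 + l2) (h1 + h2)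
/-- product -/
def iml (l1 h1 l2 h2 : ℕ) : Option (ℕ × ℕ) := mk2 (l1 * l2 / sc) (h1 * h2 / sc + 1)
/-- quotient -/
def idv (l1 h1 l2 h2 : ℕ) : Option (ℕ × ℕ) :=
  if l2 = 0 then none else mk2 (l1 * sc / h2) (h1 * sc / l2 + 1)
/-- difference -/
def isb (l1 h1 l2 h2 : ℕ) : Option (ℕ × ℕ) :=
  if h2 ≤ l1 then mk2 (l1 - h2) (h1 - l2) else none
/-- minimum -/
def imn (l1 h1 l2 h2 : ℕ) : Option (ℕ × ℕ) := mk2 (min l1 l2) (min h1 h2)
/-- exponential of minus -/
def iex (l1 h1 : ℕ) : Option (ℕ × ℕ) := mk2 (exL h1) (exU l1)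
/-- power -/
def ipw (n l1 h1 : ℕ) : Option (ℕ × ℕ) :=
  if n = 0 then none else mk2 (l1 ^ n / sc ^ (n - 1)) (h1 ^ n / sc ^ (n - 1) + 1)

/-- evaluation -/
def Tm.ev (e : List (ℕ × ℕ)) : Tm → Option (ℕ × ℕ)
  | .k p q => ik p q
  | .v i => e[i]?
  | .ad a b => op2 iad (a.ev e) (b.ev e)
  | .ml a b => op2 iml (a.ev e) (b.ev e)
  | .dv a b => op2 idv (a.ev e) (b.ev e)
  | .sb a b => op2 isb (a.ev e) (b.ev e)
  | .mn a b => op2 imn (a.ev e) (b.ev e)
  | .ex a => op1 iex (a.ev e)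
  | .pw a n => op1 (ipw n) (a.ev e)

/-- an interval for a nonnegative real number -/
def In (x : ℝ) (i : ℕ × ℕ) : Prop := (i.1 : ℝ) ≤ x * sc ∧ x * sc ≤ (i.2 : ℝ)

theorem In.nonneg {x : ℝ} {i : ℕ × ℕ} (h : In x i) : 0 ≤ x := by
  have h1 : (0 : ℝ) ≤ i.1 := Nat.cast_nonneg _
  have h2 : 0 ≤ x * sc := h1.trans h.1
  exact nonneg_of_mul_nonneg_left h2 (by norm_num [sc])

theorem scp : (0 : ℝ) < (sc : ℝ) := by norm_num [sc]

theorem cast_div_up (m n : ℕ) (hn : 0 < n) : (m : ℝ) / n ≤ ((m / n : ℕ) : ℝ) + 1 := by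
  have h1 := Nat.div_add_mod m n
  have h2 := Nat.mod_lt m hn
  have h3 : (m : ℝ) = n * ((m / n : ℕ) : ℝ) + ((m % n : ℕ) : ℝ) := by exact_mod_cast h1.symm
  have h4 : ((m % n : ℕ) : ℝ) ≤ n := by exact_mod_cast h2.le
  have hn' : (0 : ℝ) < n := by exact_mod_cast hn
  rw [div_le_iff₀ hn']
  nlinarith

theorem ik_in {p q : ℕ} {i : ℕ × ℕ} (h : ik p q = some i) : In ((p : ℝ) / q) i := by
  unfold ik at h
  split_ifs at h with hq
  rw [mk2_eq, Option.some.injEq] at h
  subst h
  have hq' : 0 < q := Nat.pos_of_ne_zero hq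
  constructor
  · refine (Nat.cast_div_le).trans (le_of_eq ?_)
    push_cast
    ring
  · refine le_trans (le_of_eq ?_) ((cast_div_up (p * sc) q hq').trans (le_of_eq ?_))
    · push_cast
      ring
    · push_cast
      ring

theorem iad_in {x y : ℝ} {i j r : ℕ × ℕ} (hx : In x i) (hy : In y j)
    (h : iad i.1 i.2 j.1 j.2 = some r) : In (x + y) r := by
  unfold iad at h
  rw [mk2_eq, Option.some.injEq] at h
  subst h
  obtain ⟨a1, a2⟩ := hx
  obtain ⟨b1, b2⟩ := hy
  constructor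
  · rw [Nat.cast_add, add_mul]
    linarith
  · rw [Nat.cast_add, add_mul]
    linarith

theorem iml_in {x y : ℝ} {i j r : ℕ × ℕ} (hx : In x i) (hy : In y j)
    (h : iml i.1 i.2 j.1 j.2 = some r) : In (x * y) r := by
  unfold iml at h
  rw [mk2_eq, Option.some.injEq] at h
  subst h
  have hs := scp
  have x0 := hx.nonneg
  have y0 := hy.nonneg
  obtain ⟨a1, a2⟩ := hx
  obtain ⟨b1, b2⟩ := hy
  have i1 : (0 : ℝ) ≤ i.1 := Nat.cast_nonneg _
  have j1 : (0 : ℝ) ≤ j.1 := Nat.cast_nonneg _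
  have e : x * y * sc * sc = (x * sc) * (y * sc) := by ring
  constructor
  · refine (Nat.cast_div_le).trans ?_
    rw [div_le_iff₀ hs, e]
    push_cast
    exact mul_le_mul a1 b1 j1 (by positivity)
  · refine le_trans ?_ ((cast_div_up (i.2 * j.2) sc (by norm_num [sc])).trans (le_of_eq (by push_cast; ring)))
    rw [le_div_iff₀ hs, e]
    push_cast
    exact mul_le_mul a2 b2 (by positivity) (by positivity)

theorem idv_in {x y : ℝ} {i j r : ℕ × ℕ} (hx : In x i) (hy : In y j)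
    (h : idv i.1 i.2 j.1 j.2 = some r) : In (x / y) r := by
  unfold idv at h
  split_ifs at h with hj
  rw [mk2_eq, Option.some.injEq] at h
  subst h
  have hs := scp
  have x0 := hx.nonneg
  obtain ⟨a1, a2⟩ := hx
  obtain ⟨b1, b2⟩ := hy
  have j1 : (0 : ℝ) < j.1 := by exact_mod_cast Nat.pos_of_ne_zero hj
  have ys : 0 < y * sc := j1.trans_le b1
  have y0 : 0 < y := pos_of_mul_pos_left ys hs.le
  have j2 : (0 : ℝ) < j.2 := ys.trans_le b2
  have j2' : 0 < j.2 := by exact_mod_cast j2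
  have i1 : (0 : ℝ) ≤ i.1 := Nat.cast_nonneg _
  have e : x / y * sc = (x * sc) * sc / (y * sc) := by field_simp
  constructor
  · refine (Nat.cast_div_le).trans ?_
    rw [e, div_le_div_iff₀ j2 ys]
    push_cast
    exact mul_le_mul (mul_le_mul_of_nonneg_right a1 hs.le) b2 ys.le (by positivity)
  · refine le_trans ?_ ((cast_div_up (i.2 * sc) j.1 (Nat.pos_of_ne_zero hj)).trans
      (le_of_eq (by push_cast; ring)))
    rw [e, div_le_div_iff₀ ys j1]
    push_cast
    exact mul_le_mul (mul_le_mul_of_nonneg_right a2 hs.le) b1 j1.le (by positivity)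

theorem isb_in {x y : ℝ} {i j r : ℕ × ℕ} (hx : In x i) (hy : In y j)
    (h : isb i.1 i.2 j.1 j.2 = some r) : In (x - y) r := by
  unfold isb at h
  split_ifs at h with hj
  rw [mk2_eq, Option.some.injEq] at h
  subst h
  obtain ⟨a1, a2⟩ := hx
  obtain ⟨b1, b2⟩ := hy
  have h3 : (j.1 : ℝ) ≤ i.2 := by
    have : (j.2 : ℝ) ≤ i.1 := by exact_mod_cast hj
    linarith
  have h4 : j.1 ≤ i.2 := by exact_mod_cast h3
  constructor
  · rw [Nat.cast_sub hj]
    nlinarith
  · rw [Nat.cast_sub h4]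
    nlinarith

theorem imn_in {x y : ℝ} {i j r : ℕ × ℕ} (hx : In x i) (hy : In y j)
    (h : imn i.1 i.2 j.1 j.2 = some r) : In (min x y) r := by
  unfold imn at h
  rw [mk2_eq, Option.some.injEq] at h
  subst h
  obtain ⟨a1, a2⟩ := hx
  obtain ⟨b1, b2⟩ := hy
  have hs := scp
  have e : min x y * sc = min (x * sc) (y * sc) := min_mul_of_nonneg _ _ hs.le
  constructor
  · rw [e]
    push_cast
    exact min_le_min a1 b1
  · rw [e]
    push_cast
    exact min_le_min a2 b2

theorem ipw_in {x : ℝ} {n : ℕ} {i r : ℕ × ℕ} (hx : In x i)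
    (h : ipw n i.1 i.2 = some r) : In (x ^ n) r := by
  unfold ipw at h
  split_ifs at h with hn
  rw [mk2_eq, Option.some.injEq] at h
  subst h
  obtain ⟨m, rfl⟩ : ∃ m, n = m + 1 := ⟨n - 1, by omega⟩
  have hs := scp
  have x0 := hx.nonneg
  obtain ⟨a1, a2⟩ := hx
  have i1 : (0 : ℝ) ≤ i.1 := Nat.cast_nonneg _
  have e : x ^ (m + 1) * sc * (sc : ℝ) ^ m = (x * sc) ^ (m + 1) := by ring
  have hm : m + 1 - 1 = m := by omega
  rw [hm]
  constructor
  · refine (Nat.cast_div_le).trans ?_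
    push_cast
    rw [div_le_iff₀ (by positivity)]
    have := pow_le_pow_left₀ i1 a1 (m + 1)
    push_cast at e
    rw [e]
    exact this
  · refine le_trans ?_ ((cast_div_up (i.2 ^ (m + 1)) (sc ^ m) (by positivity)).trans
      (le_of_eq (by push_cast; ring)))
    push_cast
    rw [le_div_iff₀ (by positivity)]
    have := pow_le_pow_left₀ (by positivity) a2 (m + 1)
    push_cast at e
    rw [e]
    exact this

theorem up16_in {X : ℝ} {t : ℕ} (hX : 0 ≤ X) (h : X * sc ≤ t) : X ^ 16 * sc ≤ (up16 t : ℕ) := by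
  have hs := scp
  have e : X ^ 16 * sc * (sc : ℝ) ^ 15 = (X * sc) ^ 16 := by ring
  unfold up16
  refine le_trans ?_ ((cast_div_up (t ^ 16) (sc ^ 15) (by positivity)).trans
    (le_of_eq (by push_cast; ring)))
  push_cast
  rw [le_div_iff₀ (by positivity)]
  have := pow_le_pow_left₀ (by positivity) h 16
  push_cast at e
  rw [e]
  exact this

theorem dn16_in {X : ℝ} {t : ℕ} (h : (t : ℝ) ≤ X * sc) : ((dn16 t : ℕ) : ℝ) ≤ X ^ 16 * sc := by
  have hs := scp
  have e : X ^ 16 * sc * (sc : ℝ) ^ 15 = (X * sc) ^ 16 := by ring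
  unfold dn16
  refine (Nat.cast_div_le).trans ?_
  push_cast
  rw [div_le_iff₀ (by positivity)]
  have := pow_le_pow_left₀ (Nat.cast_nonneg t) h 16
  push_cast at e
  rw [e]
  exact this

theorem exp_neg_le {y : ℝ} (hy : 0 ≤ y) : Real.exp (-y) ≤ 1 - y + y ^ 2 / 2 := by
  have h1 := Real.quadratic_le_exp_of_nonneg hy
  have h2 : Real.exp (-y) * Real.exp y = 1 := by rw [← Real.exp_add]; simp
  have h3 := Real.exp_pos (-y)
  have h4 : (1 - y + y ^ 2 / 2) * (1 + y + y ^ 2 / 2) = 1 + y ^ 4 / 4 := by ring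
  have h5 : 0 < 1 + y + y ^ 2 / 2 := by positivity
  by_contra hc
  push Not at hc
  have h6 : 1 < Real.exp (-y) * Real.exp y := by
    calc 1 ≤ 1 + y ^ 4 / 4 := by nlinarith [sq_nonneg (y ^ 2)]
      _ = (1 - y + y ^ 2 / 2) * (1 + y + y ^ 2 / 2) := h4.symm
      _ < Real.exp (-y) * (1 + y + y ^ 2 / 2) := mul_lt_mul_of_pos_right hc h5
      _ ≤ Real.exp (-y) * Real.exp y := mul_le_mul_of_nonneg_left h1 h3.le
  linarith

theorem exp_root (x : ℝ) : Real.exp (-x) = (((Real.exp (-(x / 65536)) ^ 16) ^ 16) ^ 16) ^ 16 := by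
  rw [← pow_mul, ← pow_mul, ← pow_mul, ← Real.exp_nat_mul]
  congr 1
  push_cast
  ring

theorem exU_in {x : ℝ} {n : ℕ} (h : (n : ℝ) ≤ x * sc) : Real.exp (-x) * sc ≤ (exU n : ℕ) := by
  have hs := scp
  unfold exU
  simp only [frc_eq]
  rw [exp_root]
  have hp : 0 < Real.exp (-(x / 65536)) := Real.exp_pos _
  refine up16_in (by positivity) (up16_in (by positivity) (up16_in (by positivity)
    (up16_in hp.le ?_)))
  set y : ℕ := n / 65536 with hy
  have hy1 : (y : ℝ) ≤ n / 65536 := by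
    have := Nat.cast_div_le (α := ℝ) (m := n) (n := 65536)
    exact_mod_cast this
  have hy2 : (y : ℝ) / sc ≤ x / 65536 := by
    rw [div_le_div_iff₀ hs (by norm_num)]
    linarith
  have h1 : Real.exp (-(x / 65536)) ≤ Real.exp (-((y : ℝ) / sc)) :=
    Real.exp_le_exp.mpr (by linarith)
  have h2 := exp_neg_le (y := (y : ℝ) / sc) (by positivity)
  have h3 : (sc : ℝ) - y ≤ ((sc - y : ℕ) : ℝ) := by
    rcases le_total y sc with hle | hle
    · rw [Nat.cast_sub hle]
    · have : ((sc - y : ℕ) : ℝ) = 0 := by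
        rw [Nat.sub_eq_zero_of_le hle]; simp
      rw [this]
      have : (sc : ℝ) ≤ y := by exact_mod_cast hle
      linarith
  have h4 : (y : ℝ) * y / (2 * sc) ≤ ((y * y / (2 * sc) : ℕ) : ℝ) + 1 := by
    have := cast_div_up (y * y) (2 * sc) (by norm_num [sc])
    push_cast at this ⊢
    exact this
  have h5 : (1 - (y : ℝ) / sc + ((y : ℝ) / sc) ^ 2 / 2) * sc = (sc - y) + y * y / (2 * sc) := by
    field_simp
  have h6 : Real.exp (-(x / 65536)) * sc ≤ (1 - (y : ℝ) / sc + ((y : ℝ) / sc) ^ 2 / 2) * sc :=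
    mul_le_mul_of_nonneg_right (h1.trans h2) hs.le
  rw [h5] at h6
  push_cast at h3 h4 ⊢
  linarith

theorem exL_in {x : ℝ} {n : ℕ} (h : x * sc ≤ (n : ℝ)) :
    ((exL n : ℕ) : ℝ) ≤ Real.exp (-x) * sc := by
  have hs := scp
  unfold exL
  simp only [frc_eq]
  split_ifs with hc
  · rw [Nat.cast_zero]
    positivity
  rw [exp_root]
  refine dn16_in (dn16_in (dn16_in (dn16_in ?_)))
  set y : ℕ := n / 65536 + 1 with hy
  have hle : y ≤ sc := by omega
  have hy1 : (n : ℝ) / 65536 ≤ y := by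
    have := cast_div_up n 65536 (by norm_num)
    push_cast [hy]
    exact_mod_cast this
  have hy2 : x / 65536 ≤ (y : ℝ) / sc := by
    rw [div_le_div_iff₀ (by norm_num) hs]
    linarith
  have h1 : Real.exp (-((y : ℝ) / sc)) ≤ Real.exp (-(x / 65536)) :=
    Real.exp_le_exp.mpr (by linarith)
  have h2 := Pool.Agent.Lib.EPS.cubic_le_exp (-((y : ℝ) / sc))
  have h4 : ((y * y / (2 * sc) : ℕ) : ℝ) ≤ (y : ℝ) * y / (2 * sc) := by
    have := Nat.cast_div_le (α := ℝ) (m := y * y) (n := 2 * sc)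
    push_cast at this ⊢
    exact this
  have h4' : (y : ℝ) ^ 3 / (6 * sc ^ 2) ≤ ((y ^ 3 / (6 * sc ^ 2) : ℕ) : ℝ) + 1 := by
    have := cast_div_up (y ^ 3) (6 * sc ^ 2) (by norm_num [sc])
    push_cast at this ⊢
    exact this
  have h5 : (1 + -((y : ℝ) / sc) + (-((y : ℝ) / sc)) ^ 2 / 2 + (-((y : ℝ) / sc)) ^ 3 / 6) * sc =
      (sc - y) + y * y / (2 * sc) - y ^ 3 / (6 * sc ^ 2) := by
    field_simp
    ring
  have h6 : (1 + -((y : ℝ) / sc) + (-((y : ℝ) / sc)) ^ 2 / 2 + (-((y : ℝ) / sc)) ^ 3 / 6) * sc ≤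
      Real.exp (-(x / 65536)) * sc := mul_le_mul_of_nonneg_right (h2.trans h1) hs.le
  rw [h5] at h6
  set t : ℕ := sc - y + y * y / (2 * sc) with ht
  set u : ℕ := y ^ 3 / (6 * sc ^ 2) + 1 with hu
  have h7 : ((t : ℕ) : ℝ) ≤ (sc - y) + y * y / (2 * sc) := by
    rw [ht, Nat.cast_add, Nat.cast_sub hle]
    push_cast at h4 ⊢
    linarith
  have h8 : (y : ℝ) ^ 3 / (6 * sc ^ 2) ≤ (u : ℕ) := by
    rw [hu]
    push_cast at h4' ⊢
    linarith
  rcases le_total u t with hut | hut
  · rw [Nat.cast_sub hut]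
    push_cast at h6 h7 h8 ⊢
    linarith
  · have : ((t - u : ℕ) : ℝ) = 0 := by rw [Nat.sub_eq_zero_of_le hut]; simp
    rw [this]
    positivity

theorem iex_in {x : ℝ} {i r : ℕ × ℕ} (hx : In x i) (h : iex i.1 i.2 = some r) :
    In (Real.exp (-x)) r := by
  unfold iex at h
  rw [mk2_eq, Option.some.injEq] at h
  subst h
  exact ⟨exL_in hx.2, exU_in hx.1⟩

/-- soundness of the evaluation -/
theorem Tm.ev_in {r : ℕ → ℝ} {e : List (ℕ × ℕ)} (he : ∀ i j, e[i]? = some j → In (r i) j)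
    (t : Tm) : ∀ {j : ℕ × ℕ}, t.ev e = some j → In (t.val r) j := by
  have key2 : ∀ {f : ℕ → ℕ → ℕ → ℕ → Option (ℕ × ℕ)} {x y : Option (ℕ × ℕ)} {j : ℕ × ℕ},
      op2 f x y = some j → ∃ a b, x = some a ∧ y = some b ∧ f a.1 a.2 b.1 b.2 = some j := by
    intro f x y j h
    unfold op2 at h
    rcases x with _ | ⟨l1, h1⟩
    · simp at h
    · rcases y with _ | ⟨l2, h2⟩
      · simp at h
      · exact ⟨_, _, rfl, rfl, h⟩
  have key1 : ∀ {f : ℕ → ℕ → Option (ℕ × ℕ)} {x : Option (ℕ × ℕ)} {j : ℕ × ℕ},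
      op1 f x = some j → ∃ a, x = some a ∧ f a.1 a.2 = some j := by
    intro f x j h
    unfold op1 at h
    rcases x with _ | ⟨l1, h1⟩
    · simp at h
    · exact ⟨_, rfl, h⟩
  induction t with
  | k p q => intro j h; exact ik_in h
  | v i => intro j h; exact he i j h
  | ad a b iha ihb =>
    intro j h
    obtain ⟨x, y, hx, hy, hj⟩ := key2 h
    exact iad_in (iha hx) (ihb hy) hj
  | ml a b iha ihb =>
    intro j h
    obtain ⟨x, y, hx, hy, hj⟩ := key2 h
    exact iml_in (iha hx) (ihb hy) hj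
  | dv a b iha ihb =>
    intro j h
    obtain ⟨x, y, hx, hy, hj⟩ := key2 h
    exact idv_in (iha hx) (ihb hy) hj
  | sb a b iha ihb =>
    intro j h
    obtain ⟨x, y, hx, hy, hj⟩ := key2 h
    exact isb_in (iha hx) (ihb hy) hj
  | mn a b iha ihb =>
    intro j h
    obtain ⟨x, y, hx, hy, hj⟩ := key2 h
    exact imn_in (iha hx) (ihb hy) hj
  | ex a iha =>
    intro j h
    obtain ⟨x, hx, hj⟩ := key1 h
    exact iex_in (iha hx) hj
  | pw a n iha =>
    intro j h
    obtain ⟨x, hx, hj⟩ := key1 h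
    exact ipw_in (iha hx) hj

/-- strict comparison -/
def Tm.lt (e : List (ℕ × ℕ)) (a b : Tm) : Bool :=
  match a.ev e with
  | none => false
  | some (_, h1) => match b.ev e with
    | none => false
    | some (l2, _) => Nat.blt h1 l2

theorem Tm.lt_sound {r : ℕ → ℝ} {e : List (ℕ × ℕ)} (he : ∀ i j, e[i]? = some j → In (r i) j)
    {a b : Tm} (h : Tm.lt e a b = true) : a.val r < b.val r := by
  unfold Tm.lt at h
  rcases ha : a.ev e with _ | ⟨l1, h1⟩
  · rw [ha] at h; simp at h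
  · rcases hb : b.ev e with _ | ⟨l2, h2⟩
    · rw [ha, hb] at h; simp at h
    · rw [ha, hb] at h
      have h3 : h1 < l2 := by simpa [Nat.blt] using h
      have h4 : (h1 : ℝ) < l2 := by exact_mod_cast h3
      have h5 := (Tm.ev_in he a ha).2
      have h6 := (Tm.ev_in he b hb).1
      have h7 : a.val r * sc < b.val r * sc := lt_of_le_of_lt h5 (lt_of_lt_of_le h4 h6)
      exact lt_of_mul_lt_mul_right h7 scp.le

/-- evaluate a list of expressions, appending the results to the environment -/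
def runT : List Tm → List (ℕ × ℕ) → Option (List (ℕ × ℕ))
  | [], e => some e
  | t :: p, e => match t.ev e with
    | none => none
    | some i => runT p (e ++ [i])

theorem runT_sound {r : ℕ → ℝ} : ∀ {p : List Tm} {e e' : List (ℕ × ℕ)},
    (∀ i j, e[i]? = some j → In (r i) j) →
    (∀ j t, p[j]? = some t → t.val r = r (e.length + j)) → runT p e = some e' →
    ∀ i j, e'[i]? = some j → In (r i) j := by
  intro p
  induction p with
  | nil =>
    intro e e' he _ h
    simp only [runT, Option.some.injEq] at h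
    subst h
    exact he
  | cons t p ih =>
    intro e e' he hp h
    simp only [runT] at h
    rcases ht : t.ev e with _ | w
    · rw [ht] at h; simp at h
    · rw [ht] at h
      simp only at h
      refine ih (e := e ++ [w]) ?_ ?_ h
      · intro i j hi
        rw [List.getElem?_append] at hi
        split_ifs at hi with hlt
        · exact he i j hi
        · have : i - e.length = 0 := by
            by_contra hne
            obtain ⟨m, hm⟩ : ∃ m, i - e.length = m + 1 := ⟨i - e.length - 1, by omega⟩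
            rw [hm] at hi
            simp at hi
          rw [this] at hi
          simp only [List.getElem?_cons_zero, Option.some.injEq] at hi
          subst hi
          have e1 := hp 0 t (by simp)
          have e2 : i = e.length + 0 := by omega
          rw [e2, ← e1]
          exact Tm.ev_in he t ht
      · intro j s hj
        have := hp (j + 1) s (by simpa using hj)
        rw [this]
        congr 1
        rw [List.length_append, List.length_singleton]
        omega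

end Pool.Agent.Lib.EPT
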