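import Pool.Agent.Lib.EPT.Fun

/-!
# One-dimensional Gaussian sums over integers of given parity

PROOF. `one_sum`: the function `phi : Bool × ℕ → ℤ`, `phi (s, k) = ± (m0 + 2 k)` is injective
(`m0 ≥ 1`) and its range contains the support of `f`.  The composite `f ∘ phi` is bounded by
`C r ^ k`, whose sum over `Bool × ℕ` is `2 C / (1 - r)`; `Function.Injective.summable_iff`,
`Function.Injective.tsum_eq` (support in the range), `Summable.tsum_le_tsum`.
The eight instances: with `|m| = m0 + 2 k`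
 gE  (even, nonzero):      `m² = 4 (k+1)² ≥ 4 + 12 k`, so `C = e^(-4z)`, `r = e^(-12z)`;
 gE2 (the same, weight m²): `4 (k+1)² ≤ 4 * 4^k`, `C = 4 e^(-4z)`, `r = 4 e^(-12z)`;
 gU  (`|m| = 1`): two terms (or `C = e^(-z)`, `r = 0`);
 gO  (odd): `m² = 1 + 4k(k+1) ≥ 1 + 8k`, `C = e^(-z)`, `r = e^(-8z)`;
 gO2 (odd, weight m²): `(1+2k)² ≤ 9^k`, `r = 9 e^(-8z)`;
 gT  (odd, `|m| ≥ 3`): `m² = 9 + 12k + 4k² ≥ 9 + 16k`, `C = e^(-9z)`, `r = e^(-16z)`;
 gT2 (the same, weight m²): `(3+2k)² ≤ 9 * 3^k`, `C = 9 e^(-9z)`, `r = 3 e^(-16z)`.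
-/

namespace Pool.Agent.Lib.EPT

namespace OneAux

/-- the parametrisation `± (m0 + 2 k)` -/
private def phi (m0 : ℕ) : Bool × ℕ → ℤ := fun p =>
  if p.1 then ((m0 : ℤ) + 2 * (p.2 : ℤ)) else -((m0 : ℤ) + 2 * (p.2 : ℤ))

private theorem phi_inj {m0 : ℕ} (hm : 1 ≤ m0) : Function.Injective (phi m0) := by
  rintro ⟨s, k⟩ ⟨t, l⟩ h
  cases s <;> cases t <;> simp only [phi, if_true, Bool.false_eq_true, if_false] at h
  · have : k = l := by omega
    rw [this]
  · exfalso; omega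
  · exfalso; omega
  · have : k = l := by omega
    rw [this]

private theorem phi_abs (m0 : ℕ) (p : Bool × ℕ) : |phi m0 p| = (m0 : ℤ) + 2 * (p.2 : ℤ) := by
  obtain ⟨s, k⟩ := p
  have h0 : (0 : ℤ) ≤ (m0 : ℤ) + 2 * (k : ℤ) := by positivity
  cases s <;> simp only [phi, if_true, Bool.false_eq_true, if_false]
  · rw [abs_neg, abs_of_nonneg h0]
  · rw [abs_of_nonneg h0]

private theorem mem_range {m0 : ℕ} {m : ℤ} {k : ℕ} (h : |m| = (m0 : ℤ) + 2 * k) :
    m ∈ Set.range (phi m0) := by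
  rcases abs_choice m with h1 | h1
  · refine ⟨(true, k), ?_⟩
    simp only [phi, if_true]
    rw [← h, h1]
  · refine ⟨(false, k), ?_⟩
    simp only [phi, Bool.false_eq_true, if_false]
    rw [← h, h1]; ring

private theorem sum_geo {C r : ℝ} (hC : 0 ≤ C) (hr0 : 0 ≤ r) (hr1 : r < 1) :
    HasSum (fun p : Bool × ℕ => C * r ^ p.2) (2 * C / (1 - r)) := by
  have h1 : HasSum (fun k : ℕ => C * r ^ k) (C * (1 - r)⁻¹) :=
    (hasSum_geometric_of_lt_one hr0 hr1).mul_left C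
  have hB : HasSum (fun _ : Bool => (1 : ℝ)) 2 := by
    have := hasSum_fintype (fun _ : Bool => (1 : ℝ))
    simpa using this
  have h2 : HasSum (fun p : Bool × ℕ => (1 : ℝ) * (C * r ^ p.2))
      ((2 : ℝ) * (C * (1 - r)⁻¹)) := by
    refine HasSum.mul hB h1 ?_
    refine Summable.mul_of_nonneg hB.summable h1.summable (fun _ => zero_le_one) ?_
    intro k
    exact mul_nonneg hC (pow_nonneg hr0 k)
  have e : (2 : ℝ) * (C * (1 - r)⁻¹) = 2 * C / (1 - r) := by
    rw [div_eq_mul_inv, mul_assoc]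
  rw [e] at h2
  simpa using h2

end OneAux

open OneAux


theorem one_sum {f : ℤ → ℝ} {m0 : ℕ} (hm : 1 ≤ m0) {C r : ℝ} (hC : 0 ≤ C) (hr0 : 0 ≤ r)
    (hr1 : r < 1) (h0 : ∀ m, 0 ≤ f m) (hs : ∀ m, f m ≠ 0 → ∃ k : ℕ, |m| = m0 + 2 * k)
    (hb : ∀ (m : ℤ) (k : ℕ), |m| = m0 + 2 * k → f m ≤ C * r ^ k) :
    Summable f ∧ ∑' m, f m ≤ 2 * C / (1 - r) := by
  have hinj := phi_inj hm
  have hsupp : Function.support f ⊆ Set.range (phi m0) := by
    intro m h
    obtain ⟨k, hk⟩ := hs m h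
    exact mem_range hk
  have hle : ∀ p : Bool × ℕ, f (phi m0 p) ≤ C * r ^ p.2 := fun p => hb _ _ (phi_abs m0 p)
  have hg := sum_geo hC hr0 hr1
  have hsum : Summable (f ∘ phi m0) :=
    Summable.of_nonneg_of_le (fun p => h0 _) hle hg.summable
  refine ⟨(hinj.summable_iff ?_).1 hsum, ?_⟩
  · intro m h
    by_contra h'
    exact h (hsupp h')
  · rw [← hinj.tsum_eq hsupp, ← hg.tsum_eq]
    exact Summable.tsum_le_tsum hle hsum hg.summable

/-- indicator of zero -/
noncomputable def gZ : ℤ → ℝ := fun m => if m = 0 then 1 else 0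
/-- even nonzero integers -/
noncomputable def gE (z : ℝ) : ℤ → ℝ := fun m =>
  if m % 2 = 0 ∧ m ≠ 0 then Real.exp (-(z * (m : ℝ) ^ 2)) else 0
/-- even nonzero integers, weight `m²` -/
noncomputable def gE2 (z : ℝ) : ℤ → ℝ := fun m =>
  if m % 2 = 0 ∧ m ≠ 0 then (m : ℝ) ^ 2 * Real.exp (-(z * (m : ℝ) ^ 2)) else 0
/-- `m = ± 1` -/
noncomputable def gU (z : ℝ) : ℤ → ℝ := fun m => if |m| = 1 then Real.exp (-z) else 0
/-- odd integers -/
noncomputable def gO (z : ℝ) : ℤ → ℝ := fun m =>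
  if m % 2 = 1 then Real.exp (-(z * (m : ℝ) ^ 2)) else 0
/-- odd integers, weight `m²` -/
noncomputable def gO2 (z : ℝ) : ℤ → ℝ := fun m =>
  if m % 2 = 1 then (m : ℝ) ^ 2 * Real.exp (-(z * (m : ℝ) ^ 2)) else 0
/-- odd integers of absolute value at least `3` -/
noncomputable def gT (z : ℝ) : ℤ → ℝ := fun m =>
  if m % 2 = 1 ∧ |m| ≠ 1 then Real.exp (-(z * (m : ℝ) ^ 2)) else 0
/-- the same, weight `m²` -/
noncomputable def gT2 (z : ℝ) : ℤ → ℝ := fun m =>
  if m % 2 = 1 ∧ |m| ≠ 1 then (m : ℝ) ^ 2 * Real.exp (-(z * (m : ℝ) ^ 2)) else 0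

namespace OneAux

private theorem even_rep {m : ℤ} (h : m % 2 = 0 ∧ m ≠ 0) : ∃ k : ℕ, |m| = ((2 : ℕ) : ℤ) + 2 * k := by
  refine ⟨(|m| / 2 - 1).toNat, ?_⟩
  have h1 : 0 < |m| := abs_pos.2 h.2
  have h2 : |m| % 2 = 0 := by
    rcases abs_choice m with h3 | h3 <;> rw [h3] <;> omega
  omega

private theorem odd_rep {m : ℤ} (h : m % 2 = 1) : ∃ k : ℕ, |m| = ((1 : ℕ) : ℤ) + 2 * k := by
  refine ⟨(|m| / 2).toNat, ?_⟩
  have h2 : |m| % 2 = 1 := by
    rcases abs_choice m with h3 | h3 <;> rw [h3] <;> omega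
  have h1 : 0 ≤ |m| := abs_nonneg m
  omega

private theorem three_rep {m : ℤ} (h : m % 2 = 1 ∧ |m| ≠ 1) :
    ∃ k : ℕ, |m| = ((3 : ℕ) : ℤ) + 2 * k := by
  refine ⟨(|m| / 2 - 1).toNat, ?_⟩
  have h2 : |m| % 2 = 1 := by
    rcases abs_choice m with h3 | h3 <;> rw [h3] <;> omega
  have h1 : 0 ≤ |m| := abs_nonneg m
  have h4 := h.2
  omega

private theorem sq_of_abs {m : ℤ} {a k : ℕ} (h : |m| = (a : ℤ) + 2 * k) :
    (m : ℝ) ^ 2 = ((a : ℝ) + 2 * k) ^ 2 := by
  have h1 : (m : ℤ) ^ 2 = ((a : ℤ) + 2 * k) ^ 2 := by rw [← sq_abs, h]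
  exact_mod_cast congrArg (Int.cast : ℤ → ℝ) h1

private theorem exp_le {z q a b : ℝ} (hz : 0 ≤ z) {k : ℕ} (h : a + b * k ≤ q) :
    Real.exp (-(z * q)) ≤ Real.exp (-(a * z)) * Real.exp (-(b * z)) ^ k := by
  rw [← Real.exp_nat_mul, ← Real.exp_add]
  apply Real.exp_le_exp.2
  nlinarith [mul_le_mul_of_nonneg_left h hz]

private theorem two_pow (k : ℕ) : ((k : ℝ) + 1) ≤ 2 ^ k := by
  induction k with
  | zero => norm_num
  | succ n ih =>
    push_cast
    rw [pow_succ]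
    have : (1 : ℝ) ≤ 2 ^ n := one_le_pow₀ (by norm_num)
    linarith

private theorem three_pow (k : ℕ) : ((1 : ℝ) + 2 * k) ≤ 3 ^ k := by
  induction k with
  | zero => norm_num
  | succ n ih =>
    push_cast
    rw [pow_succ]
    have : (1 : ℝ) ≤ 3 ^ n := one_le_pow₀ (by norm_num)
    linarith

private theorem nine_three (k : ℕ) : ((3 : ℝ) + 2 * k) ^ 2 ≤ 9 * 3 ^ k := by
  induction k with
  | zero => norm_num
  | succ n ih =>
    have e : (9 : ℝ) * 3 ^ (n + 1) = 3 * (9 * 3 ^ n) := by rw [pow_succ]; ring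
    rw [e]
    push_cast
    have h0 : (0 : ℝ) ≤ n := Nat.cast_nonneg n
    nlinarith

end OneAux

theorem gZ_sum : (∀ m, 0 ≤ gZ m) ∧ Summable gZ ∧ ∑' m, gZ m ≤ 1 := by
  have h0 : ∀ m, 0 ≤ gZ m := by
    intro m; unfold gZ; split_ifs <;> norm_num
  have h1 : HasSum gZ 1 := by
    have := hasSum_ite_eq (0 : ℤ) (1 : ℝ)
    exact this
  exact ⟨h0, h1.summable, h1.tsum_eq.le⟩

theorem gE_sum {z : ℝ} (hz : 0 < z) : (∀ m, 0 ≤ gE z m) ∧ Summable (gE z) ∧
    ∑' m, gE z m ≤ 2 * Real.exp (-(4 * z)) / (1 - Real.exp (-(12 * z))) := by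
  have h0 : ∀ m, 0 ≤ gE z m := by
    intro m; unfold gE; split_ifs
    · positivity
    · exact le_rfl
  have h := one_sum (f := gE z) (m0 := 2) (by norm_num) (C := Real.exp (-(4 * z)))
    (r := Real.exp (-(12 * z))) (by positivity) (by positivity)
    (Real.exp_lt_one_iff.2 (by linarith)) h0 ?_ ?_
  · exact ⟨h0, h⟩
  · intro m hm
    refine even_rep ?_
    by_contra hc
    exact hm (by unfold gE; rw [if_neg hc])
  · intro m k hk
    unfold gE
    split_ifs with hc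
    · refine exp_le hz.le ?_
      rw [sq_of_abs hk]
      push_cast
      have hk0 : (0 : ℝ) ≤ (k : ℝ) := Nat.cast_nonneg k
      have hk1 : (k : ℝ) ≤ (k : ℝ) ^ 2 := by
        have : k ≤ k ^ 2 := Nat.le_self_pow (by norm_num) k
        exact_mod_cast this
      nlinarith
    · positivity

theorem gE2_sum {z : ℝ} (hz : 1 / 4 ≤ z) : (∀ m, 0 ≤ gE2 z m) ∧ Summable (gE2 z) ∧
    ∑' m, gE2 z m ≤ 8 * Real.exp (-(4 * z)) / (1 - 4 * Real.exp (-(12 * z))) := by
  have h0 : ∀ m, 0 ≤ gE2 z m := by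
    intro m; unfold gE2; split_ifs
    · positivity
    · exact le_rfl
  have hz0 : 0 ≤ z := by linarith
  have h := one_sum (f := gE2 z) (m0 := 2) (by norm_num) (C := 4 * Real.exp (-(4 * z)))
    (r := 4 * Real.exp (-(12 * z))) (by positivity) (by positivity) ?_ h0 ?_ ?_
  · refine ⟨h0, h.1, h.2.trans (le_of_eq ?_)⟩
    ring
  · have h1 : Real.exp (-(12 * z)) ≤ Real.exp (-(3 : ℝ)) := Real.exp_le_exp.2 (by linarith)
    have h2 : Real.exp (-(3 : ℝ)) < 1 / 4 := by
      rw [Real.exp_neg, inv_lt_comm₀ (Real.exp_pos _) (by norm_num)]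
      have := Real.add_one_lt_exp (x := (3 : ℝ)) (by norm_num)
      linarith
    linarith
  · intro m hm
    refine even_rep ?_
    by_contra hc
    exact hm (by unfold gE2; rw [if_neg hc])
  · intro m k hk
    unfold gE2
    have hk0 : (0 : ℝ) ≤ (k : ℝ) := Nat.cast_nonneg k
    split_ifs with hc
    · have e1 : Real.exp (-(z * (m : ℝ) ^ 2))
          ≤ Real.exp (-(4 * z)) * Real.exp (-(12 * z)) ^ k := by
        refine exp_le hz0 ?_
        rw [sq_of_abs hk]
        push_cast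
        have hk1 : (k : ℝ) ≤ (k : ℝ) ^ 2 := by
          have : k ≤ k ^ 2 := Nat.le_self_pow (by norm_num) k
          exact_mod_cast this
        nlinarith
      have e2 : (m : ℝ) ^ 2 ≤ 4 * 4 ^ k := by
        rw [sq_of_abs hk]
        push_cast
        have h2 := two_pow k
        have h3 : ((k : ℝ) + 1) ^ 2 ≤ (2 ^ k) ^ 2 := pow_le_pow_left₀ (by linarith) h2 2
        have h4 : ((2 : ℝ) ^ k) ^ 2 = 4 ^ k := by
          rw [← pow_mul, mul_comm, pow_mul]; norm_num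
        nlinarith
      calc (m : ℝ) ^ 2 * Real.exp (-(z * (m : ℝ) ^ 2))
          ≤ (4 * 4 ^ k) * (Real.exp (-(4 * z)) * Real.exp (-(12 * z)) ^ k) :=
            mul_le_mul e2 e1 (by positivity) (by positivity)
        _ = 4 * Real.exp (-(4 * z)) * (4 * Real.exp (-(12 * z))) ^ k := by
            rw [mul_pow]; ring
    · positivity

theorem gU_sum {z : ℝ} : (∀ m, 0 ≤ gU z m) ∧ Summable (gU z) ∧
    ∑' m, gU z m ≤ 2 * Real.exp (-z) := by
  have h0 : ∀ m, 0 ≤ gU z m := by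
    intro m; unfold gU; split_ifs
    · positivity
    · exact le_rfl
  have h := one_sum (f := gU z) (m0 := 1) (by norm_num) (C := Real.exp (-z))
    (r := 0) (by positivity) le_rfl (by norm_num) h0 ?_ ?_
  · refine ⟨h0, h.1, h.2.trans (le_of_eq ?_)⟩
    simp
  · intro m hm
    refine ⟨0, ?_⟩
    by_contra hc
    refine hm ?_
    unfold gU
    rw [if_neg]
    intro h1
    exact hc (by rw [h1]; norm_num)
  · intro m k hk
    unfold gU
    split_ifs with hc
    · have hk' : k = 0 := by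
        rw [hc] at hk
        omega
      subst hk'
      simp
    · positivity

theorem gO_sum {z : ℝ} (hz : 0 < z) : (∀ m, 0 ≤ gO z m) ∧ Summable (gO z) ∧
    ∑' m, gO z m ≤ 2 * Real.exp (-z) / (1 - Real.exp (-(8 * z))) := by
  have h0 : ∀ m, 0 ≤ gO z m := by
    intro m; unfold gO; split_ifs
    · positivity
    · exact le_rfl
  have h := one_sum (f := gO z) (m0 := 1) (by norm_num) (C := Real.exp (-z))
    (r := Real.exp (-(8 * z))) (by positivity) (by positivity)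
    (Real.exp_lt_one_iff.2 (by linarith)) h0 ?_ ?_
  · exact ⟨h0, h⟩
  · intro m hm
    refine odd_rep ?_
    by_contra hc
    exact hm (by unfold gO; rw [if_neg hc])
  · intro m k hk
    unfold gO
    split_ifs with hc
    · have := exp_le (z := z) (q := (m : ℝ) ^ 2) (a := 1) (b := 8) hz.le (k := k) (by
        rw [sq_of_abs hk]
        push_cast
        have hk0 : (0 : ℝ) ≤ (k : ℝ) := Nat.cast_nonneg k
        have hk1 : (k : ℝ) ≤ (k : ℝ) ^ 2 := by
          have : k ≤ k ^ 2 := Nat.le_self_pow (by norm_num) k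
          exact_mod_cast this
        nlinarith)
      rwa [one_mul] at this
    · positivity

theorem gO2_sum {z : ℝ} (hz : 1 / 3 ≤ z) : (∀ m, 0 ≤ gO2 z m) ∧ Summable (gO2 z) ∧
    ∑' m, gO2 z m ≤ 2 * Real.exp (-z) / (1 - 9 * Real.exp (-(8 * z))) := by
  have h0 : ∀ m, 0 ≤ gO2 z m := by
    intro m; unfold gO2; split_ifs
    · positivity
    · exact le_rfl
  have hz0 : 0 ≤ z := by linarith
  have h := one_sum (f := gO2 z) (m0 := 1) (by norm_num) (C := Real.exp (-z))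
    (r := 9 * Real.exp (-(8 * z))) (by positivity) (by positivity) ?_ h0 ?_ ?_
  · exact ⟨h0, h⟩
  · have h1 : Real.exp (-(8 * z)) ≤ Real.exp (-(8 / 3 : ℝ)) := Real.exp_le_exp.2 (by linarith)
    have h2 : Real.exp (-(8 / 3 : ℝ)) < 1 / 9 := by
      rw [Real.exp_neg, inv_lt_comm₀ (Real.exp_pos _) (by norm_num)]
      have h3 : (1 : ℝ) / 3 + 1 ≤ Real.exp (1 / 3) := Real.add_one_le_exp _
      have h4 : Real.exp (8 / 3 : ℝ) = Real.exp (1 / 3) ^ 8 := by
        rw [← Real.exp_nat_mul]; norm_num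
      rw [h4]
      have h5 : ((1 : ℝ) / 3 + 1) ^ 8 ≤ Real.exp (1 / 3) ^ 8 :=
        pow_le_pow_left₀ (by norm_num) h3 8
      have h6 : (9 : ℝ) < ((1 : ℝ) / 3 + 1) ^ 8 := by norm_num
      have h7 : (1 / 9 : ℝ)⁻¹ = 9 := by norm_num
      rw [h7]
      linarith
    linarith
  · intro m hm
    refine odd_rep ?_
    by_contra hc
    exact hm (by unfold gO2; rw [if_neg hc])
  · intro m k hk
    unfold gO2
    have hk0 : (0 : ℝ) ≤ (k : ℝ) := Nat.cast_nonneg k
    split_ifs with hc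
    · have e1 : Real.exp (-(z * (m : ℝ) ^ 2))
          ≤ Real.exp (-(1 * z)) * Real.exp (-(8 * z)) ^ k := by
        refine exp_le hz0 ?_
        rw [sq_of_abs hk]
        push_cast
        have hk1 : (k : ℝ) ≤ (k : ℝ) ^ 2 := by
          have : k ≤ k ^ 2 := Nat.le_self_pow (by norm_num) k
          exact_mod_cast this
        nlinarith
      rw [one_mul] at e1
      have e2 : (m : ℝ) ^ 2 ≤ 9 ^ k := by
        rw [sq_of_abs hk]
        push_cast
        have h2 := three_pow k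
        have h3 : ((1 : ℝ) + 2 * k) ^ 2 ≤ (3 ^ k) ^ 2 := pow_le_pow_left₀ (by linarith) h2 2
        have h4 : ((3 : ℝ) ^ k) ^ 2 = 9 ^ k := by
          rw [← pow_mul, mul_comm, pow_mul]; norm_num
        linarith
      calc (m : ℝ) ^ 2 * Real.exp (-(z * (m : ℝ) ^ 2))
          ≤ (9 ^ k) * (Real.exp (-z) * Real.exp (-(8 * z)) ^ k) :=
            mul_le_mul e2 e1 (by positivity) (by positivity)
        _ = Real.exp (-z) * (9 * Real.exp (-(8 * z))) ^ k := by
            rw [mul_pow]; ring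
    · positivity

theorem gT_sum {z : ℝ} (hz : 0 < z) : (∀ m, 0 ≤ gT z m) ∧ Summable (gT z) ∧
    ∑' m, gT z m ≤ 2 * Real.exp (-(9 * z)) / (1 - Real.exp (-(16 * z))) := by
  have h0 : ∀ m, 0 ≤ gT z m := by
    intro m; unfold gT; split_ifs
    · positivity
    · exact le_rfl
  have h := one_sum (f := gT z) (m0 := 3) (by norm_num) (C := Real.exp (-(9 * z)))
    (r := Real.exp (-(16 * z))) (by positivity) (by positivity)
    (Real.exp_lt_one_iff.2 (by linarith)) h0 ?_ ?_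
  · exact ⟨h0, h⟩
  · intro m hm
    refine three_rep ?_
    by_contra hc
    exact hm (by unfold gT; rw [if_neg hc])
  · intro m k hk
    unfold gT
    split_ifs with hc
    · refine exp_le hz.le ?_
      rw [sq_of_abs hk]
      push_cast
      have hk0 : (0 : ℝ) ≤ (k : ℝ) := Nat.cast_nonneg k
      have hk1 : (k : ℝ) ≤ (k : ℝ) ^ 2 := by
        have : k ≤ k ^ 2 := Nat.le_self_pow (by norm_num) k
        exact_mod_cast this
      nlinarith
    · positivity

theorem gT2_sum {z : ℝ} (hz : 1 / 4 ≤ z) : (∀ m, 0 ≤ gT2 z m) ∧ Summable (gT2 z) ∧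
    ∑' m, gT2 z m ≤ 18 * Real.exp (-(9 * z)) / (1 - 3 * Real.exp (-(16 * z))) := by
  have h0 : ∀ m, 0 ≤ gT2 z m := by
    intro m; unfold gT2; split_ifs
    · positivity
    · exact le_rfl
  have hz0 : 0 ≤ z := by linarith
  have h := one_sum (f := gT2 z) (m0 := 3) (by norm_num) (C := 9 * Real.exp (-(9 * z)))
    (r := 3 * Real.exp (-(16 * z))) (by positivity) (by positivity) ?_ h0 ?_ ?_
  · refine ⟨h0, h.1, h.2.trans (le_of_eq ?_)⟩
    ring
  · have h1 : Real.exp (-(16 * z)) ≤ Real.exp (-(4 : ℝ)) := Real.exp_le_exp.2 (by linarith)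
    have h2 : Real.exp (-(4 : ℝ)) < 1 / 3 := by
      rw [Real.exp_neg, inv_lt_comm₀ (Real.exp_pos _) (by norm_num)]
      have := Real.add_one_lt_exp (x := (4 : ℝ)) (by norm_num)
      linarith
    linarith
  · intro m hm
    refine three_rep ?_
    by_contra hc
    exact hm (by unfold gT2; rw [if_neg hc])
  · intro m k hk
    unfold gT2
    have hk0 : (0 : ℝ) ≤ (k : ℝ) := Nat.cast_nonneg k
    split_ifs with hc
    · have e1 : Real.exp (-(z * (m : ℝ) ^ 2))
          ≤ Real.exp (-(9 * z)) * Real.exp (-(16 * z)) ^ k := by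
        refine exp_le hz0 ?_
        rw [sq_of_abs hk]
        push_cast
        have hk1 : (k : ℝ) ≤ (k : ℝ) ^ 2 := by
          have : k ≤ k ^ 2 := Nat.le_self_pow (by norm_num) k
          exact_mod_cast this
        nlinarith
      have e2 : (m : ℝ) ^ 2 ≤ 9 * 3 ^ k := by
        rw [sq_of_abs hk]
        push_cast
        exact nine_three k
      calc (m : ℝ) ^ 2 * Real.exp (-(z * (m : ℝ) ^ 2))
          ≤ (9 * 3 ^ k) * (Real.exp (-(9 * z)) * Real.exp (-(16 * z)) ^ k) :=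
            mul_le_mul e2 e1 (by positivity) (by positivity)
        _ = 9 * Real.exp (-(9 * z)) * (3 * Real.exp (-(16 * z))) ^ k := by
            rw [mul_pow]; ring
    · positivity

end Pool.Agent.Lib.EPT
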