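import Pool.Agent.Lib.EPT.BoxDefs

/-!
# The weights dominate `|pp|`

PROOF.  Let `X = a o1²`, `Y = b o2²`, `Z = c o3²`, `W = X + Y + Z ≤ abc/200`, `X Y Z = abc pp²`,
`M = w1 X + w2 Y + w3 Z`, `K = 27 w1 w2 w3`.  AM-GM: `M³ ≥ 27 w1 w2 w3 X Y Z = K abc pp²`.
(1) If `1 ≤ 216000000 K²`: `27 X Y Z ≤ W³ ≤ (abc)³/8000000` gives `216000000 pp² ≤ (abc)²`, so
`|pp| ≤ abc K`, and `|pp|³ = |pp| pp² ≤ K abc pp² ≤ M³`, `|pp| ≤ M`.
(2) If `(2 - c0)² ≤ (400 K)² a0 b0`: `|o3| ≤ 2 - c ≤ 2 - c0`, `2 |o1 o2| √(ab) ≤ X + Y ≤ abc/200`; squared: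
`4 a b o1² o2² ≤ (abc/200)²`, so `pp² = o3² o1² o2² ≤ (2 - c0)² (abc)²/(160000 ab) ≤ K² (abc)²`
(`a0 b0 ≤ ab`); conclude as in (1).
-/

namespace Pool.Agent.Lib.EPT

namespace PDistAux

theorem amgm3 {x y z : ℝ} (hx : 0 ≤ x) (hy : 0 ≤ y) (hz : 0 ≤ z) :
    27 * (x * y * z) ≤ (x + y + z) ^ 3 := by
  nlinarith [mul_nonneg hx (sq_nonneg (y - z)), mul_nonneg hy (sq_nonneg (x - z)),
    mul_nonneg hz (sq_nonneg (x - y)), mul_nonneg hx (sq_nonneg (x - y)),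
    mul_nonneg hx (sq_nonneg (x - z)), mul_nonneg hy (sq_nonneg (y - x)),
    mul_nonneg hy (sq_nonneg (y - z)), mul_nonneg hz (sq_nonneg (z - x)),
    mul_nonneg hz (sq_nonneg (z - y))]

theorem fin {P K M p : ℝ} (hM : 0 ≤ M) (h1 : |p| ≤ P * K)
    (h2 : K * (P * p ^ 2) ≤ M ^ 3) : |p| ≤ M := by
  refine le_of_pow_le_pow_left₀ (n := 3) (by norm_num) hM ?_
  calc |p| ^ 3 = |p| * p ^ 2 := by rw [← sq_abs p]; ring
    _ ≤ (P * K) * p ^ 2 := mul_le_mul_of_nonneg_right h1 (sq_nonneg p)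
    _ = K * (P * p ^ 2) := by ring
    _ ≤ M ^ 3 := h2

end PDistAux

open PDistAux

theorem pdist {B : Bx} {q : Par} (h : Reg q) (hB : InB B q) {w1 w2 w3 : ℝ}
    (hw : B.wOk w1 w2 w3) :
    |q.pp| ≤ w1 * (q.a * q.o1 ^ 2) + w2 * (q.b * q.o2 ^ 2) + w3 * (q.c * q.o3 ^ 2) := by
  obtain ⟨hw1, hw2, hw3, hbig⟩ := hw
  have ha0 := h.ha
  have hb0 := h.b1
  have hc0 := h.c1
  have ha : 0 < q.a := by linarith
  have hb : 0 < q.b := by linarith
  have hc : 0 < q.c := by linarith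
  have hP : 0 < q.a * q.b * q.c := by positivity
  have hT := h.hT
  unfold Par.W at hT
  have hX : 0 ≤ q.a * q.o1 ^ 2 := by positivity
  have hY : 0 ≤ q.b * q.o2 ^ 2 := by positivity
  have hZ : 0 ≤ q.c * q.o3 ^ 2 := by positivity
  have hM : 0 ≤ w1 * (q.a * q.o1 ^ 2) + w2 * (q.b * q.o2 ^ 2) + w3 * (q.c * q.o3 ^ 2) := by
    positivity
  have hK : 0 ≤ 27 * (w1 * w2 * w3) := by positivity
  refine fin (P := q.a * q.b * q.c) (K := 27 * (w1 * w2 * w3)) hM ?_ ?_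
  · refine abs_le_of_sq_le_sq ?_ (mul_nonneg hP.le hK)
    rcases hbig with h1 | h1
    · have h2 := amgm3 hX hY hZ
      have h3 : (q.a * q.o1 ^ 2 + q.b * q.o2 ^ 2 + q.c * q.o3 ^ 2) ^ 3 ≤
          (q.a * q.b * q.c / 200) ^ 3 :=
        pow_le_pow_left₀ (by positivity) (by linarith) 3
      have h4 : 216000000 * q.pp ^ 2 ≤ (q.a * q.b * q.c) ^ 2 := by
        have h5 : (q.a * q.b * q.c) * (216000000 * q.pp ^ 2) ≤
            (q.a * q.b * q.c) * (q.a * q.b * q.c) ^ 2 := by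
          have h6 : (q.a * q.b * q.c) * (216000000 * q.pp ^ 2) =
              8000000 * (27 * (q.a * q.o1 ^ 2 * (q.b * q.o2 ^ 2) * (q.c * q.o3 ^ 2))) := by
            unfold Par.pp; ring
          have h7 : (q.a * q.b * q.c) * (q.a * q.b * q.c) ^ 2 =
              8000000 * (q.a * q.b * q.c / 200) ^ 3 := by ring
          rw [h6, h7]
          linarith
        exact le_of_mul_le_mul_left h5 hP
      have h8 := mul_le_mul_of_nonneg_left h1 (sq_nonneg (q.a * q.b * q.c))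
      nlinarith
    · have h2 : q.o3 ^ 2 ≤ (2 - B.c0) ^ 2 := by
        have h3 := h.h3
        have h4 := hB.c0
        have h5 : |q.o3| ≤ 2 - B.c0 := by linarith
        rw [← sq_abs q.o3]
        exact pow_le_pow_left₀ (abs_nonneg _) h5 2
      have h3 : 4 * ((q.a * q.o1 ^ 2) * (q.b * q.o2 ^ 2)) ≤ (q.a * q.b * q.c / 200) ^ 2 := by
        have h4 : (q.a * q.o1 ^ 2 + q.b * q.o2 ^ 2) ^ 2 ≤ (q.a * q.b * q.c / 200) ^ 2 :=
          pow_le_pow_left₀ (by positivity) (by linarith) 2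
        nlinarith [sq_nonneg (q.a * q.o1 ^ 2 - q.b * q.o2 ^ 2)]
      have h4 : B.a0 * B.b0 ≤ q.a * q.b :=
        mul_le_mul hB.a0 hB.b0 (by linarith [hB.hb]) ha.le
      have hab : 0 < 160000 * (q.a * q.b) := by positivity
      have h5 : 160000 * (q.a * q.b) * q.pp ^ 2 ≤
          160000 * (q.a * q.b) * (q.a * q.b * q.c * (27 * (w1 * w2 * w3))) ^ 2 := by
        calc 160000 * (q.a * q.b) * q.pp ^ 2 =
              q.o3 ^ 2 * (40000 * (4 * ((q.a * q.o1 ^ 2) * (q.b * q.o2 ^ 2)))) := by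
              unfold Par.pp; ring
          _ ≤ q.o3 ^ 2 * (40000 * (q.a * q.b * q.c / 200) ^ 2) :=
              mul_le_mul_of_nonneg_left (by linarith) (sq_nonneg _)
          _ = q.o3 ^ 2 * (q.a * q.b * q.c) ^ 2 := by ring
          _ ≤ ((400 * (27 * (w1 * w2 * w3))) ^ 2 * (B.a0 * B.b0)) * (q.a * q.b * q.c) ^ 2 :=
              mul_le_mul_of_nonneg_right (h2.trans h1) (sq_nonneg _)
          _ ≤ ((400 * (27 * (w1 * w2 * w3))) ^ 2 * (q.a * q.b)) * (q.a * q.b * q.c) ^ 2 :=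
              mul_le_mul_of_nonneg_right (mul_le_mul_of_nonneg_left h4 (sq_nonneg _))
                (sq_nonneg _)
          _ = _ := by ring
      exact le_of_mul_le_mul_left h5 hab
  · have h1 := amgm3 (mul_nonneg hw1 hX) (mul_nonneg hw2 hY) (mul_nonneg hw3 hZ)
    refine le_trans (le_of_eq ?_) h1
    unfold Par.pp
    ring

end Pool.Agent.Lib.EPT
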