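import Pool.Agent.Lib.EPT.Cls

/-!
# The dual side: the pointwise bound of the remaining vectors

PROOF.  Write `R = inv.Ey y`, `Ro = inv.Ky y`, `Md = dM.Ey y`, `Mo = dM.Ky y`, `d = Mo + Ro`,
`E = w1²/a + w2²/b + w3²/c`, `T = W/(abc)`, `T' = (W + 3|pp|)/(abc)`; `R ≥ E` (`Reg.inv_a` ...),
`|Ro| ≤ (9/100) E` (`Reg.Ky_le`).
 `val = Md e^(-z(R+Ro)) + Mo (e^(-z Ro) - 1) e^(-zR)`.
 * `Md ≥ -(chi/dt)(b w1² + a w2²)`, so the first term is `≥ -(chi/dt)(b w1² + a w2²) e^(-(91/100) z E)`,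
   and `chi b/dt ≤ 2 T' abc b/(d0 dt) ≤ 2 (200/199)(500/497) T'/a ≤ 2.0223 T'/a`; the same with `a`: `T'/b`.
 * `Mo (e^(-zRo) - 1) = (Ro - d)(1 - e^(-zRo)) = (Ro² - d Ro) g`, `g = (1 - e^(-zRo))/Ro ≥ 0`,
   `g ≤ z e^(z|Ro|)`, `Ro² - d Ro ≥ -d²/4`; so it is `≥ -(z/4) d² e^(z|Ro|)`, times `e^(-zR)`:
   `≥ -(z/4) d² e^(-(91/100) z E)`.
 * `d = 2 (d3 w1 w2 + d2 w1 w3 + d1 w2 w3)` with `d1 = -o2 o3/dt`, `d2 = -o1 o3/dt`,
   `d3 = (-o1 o2 + chi o3)/dt`; Cauchy-Schwarz: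
   `d² ≤ (4/3) D E²`, `D = d3² ab + d2² ac + d1² bc`, and `D ≤ 0.0036 T`:
   with `x = o1²/(bc)` etc. (`x + y + w = T ≤ 1/200`), `dt ≥ (497/500) abc`:
   `d1² bc ≤ 1.0122 y w`, `d2² ac ≤ 1.0122 x w`, `d3² ab ≤ 1.0122 (2 x y + 2 (chi/c)² w)`, `chi/c ≤ 0.0105`
   (`chi ≤ 2 (1 + 3/73) W/d0 ≤ 0.0105 c`), `xy + xw + yw ≤ T²/3 ≤ T/600`.
 * `z E e^(-(91/100 - 5/6) z E) ≤ 1/((91/100 - 5/6) e) ≤ 4.81`
   (`y e^(-y) ≤ 1/e`, `e ≥ 2.718`), so `(z/4) d² e^(-(91/100)zE) ≤ 0.0058 T E e^(-(5/6) z E)`.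
 Total weight: `w1²`: `(2.0223 + 0.0058) T'/a ≤ (41/20) T'/a`; `w2²` the same with `b`;
 `w3²`: `0.0058 T/c ≤ (41/20) T'/(200 c)`.
-/

namespace Pool.Agent.Lib.EPT

namespace RstAAux

open BndAux

lemma real1 {u d z : ℝ} (hz : 0 < z) :
    -(z / 4 * d ^ 2 * Real.exp (z * |u|)) ≤ (d - u) * (Real.exp (-(z * u)) - 1) := by
  have hp := Real.exp_pos (z * |u|)
  by_cases hu : u = 0
  · subst hu
    simp only [mul_zero, neg_zero, Real.exp_zero, sub_self, abs_zero, mul_one]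
    have : 0 ≤ z / 4 * d ^ 2 := by positivity
    linarith
  · obtain ⟨g, hg⟩ : ∃ g, g = (1 - Real.exp (-(z * u))) / u := ⟨_, rfl⟩
    have h1 : 1 - Real.exp (-(z * u)) = g * u := by
      rw [hg]; field_simp
    have h2 : 0 ≤ g ∧ g ≤ z * Real.exp (z * |u|) := by
      rcases lt_or_gt_of_ne hu with h | h
      · have hn : 0 < -u := by linarith
        have hzu : 0 < z * -u := mul_pos hz hn
        rw [abs_of_neg h]
        have h3 : g = (Real.exp (z * -u) - 1) / -u := by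
          rw [hg, ← neg_div_neg_eq]
          congr 1
          rw [neg_sub]
          congr 2
          ring
        have h4 : Real.exp (z * -u) * (1 - z * -u) ≤ 1 := by
          have h5 := Real.add_one_le_exp (-(z * -u))
          have h6 : Real.exp (z * -u) * Real.exp (-(z * -u)) = 1 := by
            rw [← Real.exp_add]; simp
          have h7 := mul_le_mul_of_nonneg_left h5 (Real.exp_pos (z * -u)).le
          rw [h6] at h7
          linarith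
        constructor
        · rw [h3]
          have := Real.one_le_exp hzu.le
          exact div_nonneg (by linarith) hn.le
        · rw [h3, div_le_iff₀ hn]
          linarith
      · have hzu : 0 < z * u := mul_pos hz h
        rw [abs_of_pos h]
        constructor
        · rw [hg]
          have : Real.exp (-(z * u)) ≤ 1 := Real.exp_le_one_iff.2 (by linarith)
          exact div_nonneg (by linarith) h.le
        · rw [hg, div_le_iff₀ h]
          have h5 := Real.add_one_le_exp (-(z * u))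
          have h6 := Real.one_le_exp hzu.le
          have h7 := mul_le_mul_of_nonneg_left h6 hzu.le
          linarith
    have h3 : (d - u) * (Real.exp (-(z * u)) - 1) = (u ^ 2 - d * u) * g := by
      have : Real.exp (-(z * u)) - 1 = -(g * u) := by linarith
      rw [this]; ring
    rw [h3]
    have h4 : -(d ^ 2 / 4) ≤ u ^ 2 - d * u := by nlinarith [sq_nonneg (u - d / 2)]
    have h5 := mul_le_mul_of_nonneg_right h4 h2.1
    have h6 := mul_le_mul_of_nonneg_left h2.2 (by positivity : 0 ≤ d ^ 2 / 4)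
    linarith

lemma real2 {s : ℝ} : s * Real.exp (-(91 / 100 * s)) ≤
    481 / 100 * Real.exp (-(5 / 6 * s)) := by
  have h1 := Real.add_one_le_exp (23 / 300 * s - 1)
  have h2 : Real.exp (23 / 300 * s - 1) = Real.exp (23 / 300 * s) * Real.exp (-1) := by
    rw [← Real.exp_add]; congr 1
  have h3 : Real.exp (-1) ≤ 0.36788 := by
    have := Real.exp_neg_one_lt_d9
    linarith
  have h4 : s ≤ 481 / 100 * Real.exp (23 / 300 * s) := by
    have h5 := mul_le_mul_of_nonneg_left h3 (Real.exp_pos (23 / 300 * s)).le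
    rw [h2] at h1
    have h6 := Real.exp_pos (23 / 300 * s)
    linarith
  have h5 : Real.exp (-(5 / 6 * s)) = Real.exp (23 / 300 * s) * Real.exp (-(91 / 100 * s)) := by
    rw [← Real.exp_add]; congr 1; ring
  rw [h5]
  have h6 := mul_le_mul_of_nonneg_right h4 (Real.exp_pos (-(91 / 100 * s))).le
  linarith

/-- `chi ≤ 21/2000 c` -/
lemma chi_c {q : Par} (h : Reg q) : q.chi ≤ 21 / 2000 * q.c := by
  obtain ⟨ha, hb, hc⟩ := pos_of h
  have h1 := h.chi_le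
  have h2 := h.pp_le
  have h3 := h.d0_lo
  have h4 := h.hT
  have hab : 0 < q.a * q.b := by positivity
  have hd : 0 < q.d0 := by linarith
  refine h1.trans ?_
  rw [div_le_iff₀ hd]
  have h5 := mul_le_mul_of_nonneg_left h3 (by positivity : 0 ≤ 21 / 2000 * q.c)
  have h6 := h.W_nn
  nlinarith [abs_nonneg q.pp]

/-- the sum of the squares of the differences -/
lemma Dsum {q : Par} (h : Reg q) :
    q.b * q.c * (q.o2 * q.o3) ^ 2 + q.a * q.c * (q.o1 * q.o3) ^ 2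
      + q.a * q.b * (-(q.o1 * q.o2) + q.chi * q.o3) ^ 2 ≤
      35 / 10000 * (q.a * q.b * q.c) * q.W := by
  obtain ⟨ha, hb, hc⟩ := pos_of h
  have hA : 0 < q.a * q.b * q.c := by positivity
  have h1 := chi_c h
  have h0 := h.chi_nn
  have hT := h.hT
  have hWn := h.W_nn
  obtain ⟨X, hX⟩ : ∃ X, X = q.a * q.o1 ^ 2 := ⟨_, rfl⟩
  obtain ⟨Y, hY⟩ : ∃ Y, Y = q.b * q.o2 ^ 2 := ⟨_, rfl⟩
  obtain ⟨Z, hZ⟩ : ∃ Z, Z = q.c * q.o3 ^ 2 := ⟨_, rfl⟩
  have hX0 : 0 ≤ X := by rw [hX]; positivity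
  have hY0 : 0 ≤ Y := by rw [hY]; positivity
  have hZ0 : 0 ≤ Z := by rw [hZ]; positivity
  have hW : q.W = X + Y + Z := by rw [hX, hY, hZ]; rfl
  have h2 : (-(q.o1 * q.o2) + q.chi * q.o3) ^ 2 ≤
      2 * (q.o1 * q.o2) ^ 2 + 2 * (q.chi * q.o3) ^ 2 := by
    nlinarith [sq_nonneg (q.o1 * q.o2 + q.chi * q.o3)]
  have h3 : q.a * q.b * (q.chi * q.o3) ^ 2 ≤ (21 / 2000) ^ 2 * (q.a * q.b * q.c) * Z := by
    have h4 : q.chi ^ 2 ≤ (21 / 2000 * q.c) ^ 2 := pow_le_pow_left₀ h0 h1 2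
    have h5 := mul_le_mul_of_nonneg_left h4 (by positivity : 0 ≤ q.a * q.b * q.o3 ^ 2)
    rw [hZ]
    calc q.a * q.b * (q.chi * q.o3) ^ 2 = q.a * q.b * q.o3 ^ 2 * q.chi ^ 2 := by ring
      _ ≤ q.a * q.b * q.o3 ^ 2 * (21 / 2000 * q.c) ^ 2 := h5
      _ = _ := by ring
  have h6 := mul_le_mul_of_nonneg_left h2 (by positivity : 0 ≤ q.a * q.b)
  have h7 : q.b * q.c * (q.o2 * q.o3) ^ 2 = Y * Z := by rw [hY, hZ]; ring
  have h8 : q.a * q.c * (q.o1 * q.o3) ^ 2 = X * Z := by rw [hX, hZ]; ring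
  have h9 : q.a * q.b * (2 * (q.o1 * q.o2) ^ 2 + 2 * (q.chi * q.o3) ^ 2) =
      2 * (X * Y) + 2 * (q.a * q.b * (q.chi * q.o3) ^ 2) := by rw [hX, hY]; ring
  rw [h9] at h6
  rw [h7, h8]
  have h10 : Y * Z + X * Z + 2 * (X * Y) ≤ (X + Y + Z) ^ 2 / 2 := by
    nlinarith [sq_nonneg (X - Y), sq_nonneg Z]
  have h11 : (X + Y + Z) ^ 2 ≤ (X + Y + Z) * (q.a * q.b * q.c / 200) := by
    rw [hW] at hT
    have : 0 ≤ X + Y + Z := by positivity
    nlinarith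
  have h12 : q.a * q.b * q.c * Z ≤ q.a * q.b * q.c * (X + Y + Z) :=
    mul_le_mul_of_nonneg_left (by linarith) hA.le
  have h13 : 0 ≤ q.a * q.b * q.c * (X + Y + Z) := by positivity
  rw [hW]
  linarith

/-- the off-diagonal parts add up to a small number -/
lemma dsq {q : Par} (h : Reg q) (y : Fin 3 → ℤ) :
    (q.dM.Ky y + q.inv.Ky y) ^ 2 ≤ 48 / 10000 * (q.W / (q.a * q.b * q.c)) *
      ((w1 y : ℝ) ^ 2 / q.a + (w2 y : ℝ) ^ 2 / q.b + (w3 y : ℝ) ^ 2 / q.c) ^ 2 := by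
  obtain ⟨ha, hb, hc⟩ := pos_of h
  have hA : 0 < q.a * q.b * q.c := by positivity
  have hlo := h.dt_lo
  have hD : 0 < q.dt := by linarith
  have hWn := h.W_nn
  have hS := Dsum h
  have h1 : q.dM.Ky y + q.inv.Ky y =
      2 * ((-(q.o1 * q.o2) + q.chi * q.o3) / q.dt * (w1 y : ℝ) * (w2 y : ℝ)
        + -(q.o1 * q.o3) / q.dt * (w1 y : ℝ) * (w3 y : ℝ)
        + -(q.o2 * q.o3) / q.dt * (w2 y : ℝ) * (w3 y : ℝ)) := by
    simp only [Par.Ky, Par.dM, Par.inv]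
    field_simp
    ring
  have h2 := cs (a := 1 / q.a) (b := 1 / q.b) (c := 1 / q.c)
    (o1 := -(q.o2 * q.o3) / q.dt) (o2 := -(q.o1 * q.o3) / q.dt)
    (o3 := (-(q.o1 * q.o2) + q.chi * q.o3) / q.dt)
    (k := 36 / 10000 * (q.W / (q.a * q.b * q.c))) (by positivity) (by positivity) (by positivity)
    (by
      have e1 : 1 / q.a * (-(q.o2 * q.o3) / q.dt) ^ 2 + 1 / q.b * (-(q.o1 * q.o3) / q.dt) ^ 2
          + 1 / q.c * ((-(q.o1 * q.o2) + q.chi * q.o3) / q.dt) ^ 2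
          = (q.b * q.c * (q.o2 * q.o3) ^ 2 + q.a * q.c * (q.o1 * q.o3) ^ 2
      + q.a * q.b * (-(q.o1 * q.o2) + q.chi * q.o3) ^ 2) / ((q.a * q.b * q.c) * q.dt ^ 2) := by
        field_simp
      have e2 : 36 / 10000 * (q.W / (q.a * q.b * q.c)) * (1 / q.a * (1 / q.b) * (1 / q.c))
          = 36 / 10000 * q.W * (q.a * q.b * q.c) * q.dt ^ 2 /
            ((q.a * q.b * q.c) ^ 2 * ((q.a * q.b * q.c) * q.dt ^ 2)) := by
        field_simp
      rw [e1, e2]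
      rw [div_le_div_iff₀ (by positivity) (by positivity)]
      have e3 : (497 / 500 * (q.a * q.b * q.c)) ^ 2 ≤ q.dt ^ 2 :=
        pow_le_pow_left₀ (by positivity) hlo 2
      have e4 : (q.b * q.c * (q.o2 * q.o3) ^ 2 + q.a * q.c * (q.o1 * q.o3) ^ 2
          + q.a * q.b * (-(q.o1 * q.o2) + q.chi * q.o3) ^ 2) * (q.a * q.b * q.c) ^ 2 ≤
          36 / 10000 * q.W * (q.a * q.b * q.c) * q.dt ^ 2 := by
        have f1 := mul_le_mul_of_nonneg_right hS (by positivity : 0 ≤ (q.a * q.b * q.c) ^ 2)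
        have f2 := mul_le_mul_of_nonneg_left e3
          (by positivity : 0 ≤ 36 / 10000 * q.W * (q.a * q.b * q.c))
        have f3 : 0 ≤ q.W * (q.a * q.b * q.c) ^ 3 := by positivity
        nlinarith
      have e5 := mul_le_mul_of_nonneg_right e4
        (by positivity : 0 ≤ (q.a * q.b * q.c) * q.dt ^ 2)
      linarith)
    (w1 y : ℝ) (w2 y : ℝ) (w3 y : ℝ)
  rw [h1]
  have h3 : (1 / q.a * (w1 y : ℝ) ^ 2 + 1 / q.b * (w2 y : ℝ) ^ 2 + 1 / q.c * (w3 y : ℝ) ^ 2)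
      = (w1 y : ℝ) ^ 2 / q.a + (w2 y : ℝ) ^ 2 / q.b + (w3 y : ℝ) ^ 2 / q.c := by ring
  rw [h3] at h2
  linarith

end RstAAux

open BndAux RstAAux

theorem Reg.rst_point {q : Par} (h : Reg q) {z : ℝ} (hz : 0 < z) (y : Fin 3 → ℤ) :
    -(41 / 20 * (q.W + 3 * |q.pp|) / (q.a * q.b * q.c)
        * ((w1 y : ℝ) ^ 2 / q.a + (w2 y : ℝ) ^ 2 / q.b + (w3 y : ℝ) ^ 2 / (200 * q.c))
        * Real.exp (-(5 / 6 * z * ((w1 y : ℝ) ^ 2 / q.a + (w2 y : ℝ) ^ 2 / q.b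
          + (w3 y : ℝ) ^ 2 / q.c)))) ≤ q.val z y := by
  obtain ⟨ha, hb, hc⟩ := pos_of h
  have hA : 0 < q.a * q.b * q.c := by positivity
  have hlo := h.dt_lo
  have hD : 0 < q.dt := by linarith
  have hd0 := h.d0_lo
  have hab : 0 < q.a * q.b := by positivity
  have hd : 0 < q.d0 := by linarith
  have hWn := h.W_nn
  have hchi := h.chi_nn
  have hchi' := h.chi_le
  obtain ⟨p1, hp1⟩ : ∃ p1, p1 = (w1 y : ℝ) ^ 2 / q.a := ⟨_, rfl⟩
  obtain ⟨p2, hp2⟩ : ∃ p2, p2 = (w2 y : ℝ) ^ 2 / q.b := ⟨_, rfl⟩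
  obtain ⟨p3, hp3⟩ : ∃ p3, p3 = (w3 y : ℝ) ^ 2 / q.c := ⟨_, rfl⟩
  have n1 : 0 ≤ p1 := by rw [hp1]; positivity
  have n2 : 0 ≤ p2 := by rw [hp2]; positivity
  have n3 : 0 ≤ p3 := by rw [hp3]; positivity
  have v1 : (w1 y : ℝ) ^ 2 = q.a * p1 := by rw [hp1]; field_simp
  have v2 : (w2 y : ℝ) ^ 2 = q.b * p2 := by rw [hp2]; field_simp
  have v3 : (w3 y : ℝ) ^ 2 = q.c * p3 := by rw [hp3]; field_simp
  have v4 : (w3 y : ℝ) ^ 2 / (200 * q.c) = p3 / 200 := by rw [hp3]; field_simp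
  have hK := h.Ky_le y
  have hdsq := dsq h y
  rw [← hp1, ← hp2, ← hp3] at hK hdsq
  rw [v4, ← hp1, ← hp2, ← hp3]
  obtain ⟨E, hE⟩ : ∃ E, E = p1 + p2 + p3 := ⟨_, rfl⟩
  have hE0 : 0 ≤ E := by rw [hE]; positivity
  rw [← hE] at hK hdsq ⊢
  -- the diagonal part of the inverse
  obtain ⟨R, hR⟩ : ∃ R, R = q.inv.Ey y := ⟨_, rfl⟩
  obtain ⟨Ro, hRo⟩ : ∃ Ro, Ro = q.inv.Ky y := ⟨_, rfl⟩
  obtain ⟨Md, hMd⟩ : ∃ Md, Md = q.dM.Ey y := ⟨_, rfl⟩
  obtain ⟨d, hdd⟩ : ∃ d, d = q.dM.Ky y + q.inv.Ky y := ⟨_, rfl⟩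
  have hRE : E ≤ R := by
    have i1 := mul_le_mul_of_nonneg_right h.inv_a.1 (sq_nonneg (w1 y : ℝ))
    have i2 := mul_le_mul_of_nonneg_right h.inv_b.1 (sq_nonneg (w2 y : ℝ))
    have i3 := mul_le_mul_of_nonneg_right h.inv_c.1 (sq_nonneg (w3 y : ℝ))
    rw [hR, hE, hp1, hp2, hp3]
    unfold Par.Ey
    calc (w1 y : ℝ) ^ 2 / q.a + (w2 y : ℝ) ^ 2 / q.b + (w3 y : ℝ) ^ 2 / q.c
        = 1 / q.a * (w1 y : ℝ) ^ 2 + 1 / q.b * (w2 y : ℝ) ^ 2 + 1 / q.c * (w3 y : ℝ) ^ 2 := by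
          ring
      _ ≤ _ := by linarith
  -- the diagonal part of the derivative
  have hMdP : -(q.chi / q.dt * (q.a * q.b) * (p1 + p2)) ≤ Md := by
    have e1 : Md = (2 * q.o1 ^ 2 * (w1 y : ℝ) ^ 2 + 2 * q.o2 ^ 2 * (w2 y : ℝ) ^ 2
        + 2 * q.o3 ^ 2 * (w3 y : ℝ) ^ 2) / q.dt
        - q.chi / q.dt * (q.b * (w1 y : ℝ) ^ 2 + q.a * (w2 y : ℝ) ^ 2) := by
      rw [hMd]
      simp only [Par.Ey, Par.dM]
      field_simp
      ring
    have e2 : 0 ≤ (2 * q.o1 ^ 2 * (w1 y : ℝ) ^ 2 + 2 * q.o2 ^ 2 * (w2 y : ℝ) ^ 2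
        + 2 * q.o3 ^ 2 * (w3 y : ℝ) ^ 2) / q.dt := by positivity
    have e3 : q.chi / q.dt * (q.b * (w1 y : ℝ) ^ 2 + q.a * (w2 y : ℝ) ^ 2) =
        q.chi / q.dt * (q.a * q.b) * (p1 + p2) := by
      rw [v1, v2]; ring
    linarith
  -- the coefficient
  obtain ⟨T, hTd⟩ : ∃ T, T = (q.W + 3 * |q.pp|) / (q.a * q.b * q.c) := ⟨_, rfl⟩
  obtain ⟨T0, hT0⟩ : ∃ T0, T0 = q.W / (q.a * q.b * q.c) := ⟨_, rfl⟩
  have hT0n : 0 ≤ T0 := by rw [hT0]; positivity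
  have hT0T : T0 ≤ T := by
    rw [hT0, hTd]
    apply div_le_div_of_nonneg_right _ hA.le
    have := abs_nonneg q.pp
    linarith
  have hcoef : q.chi / q.dt * (q.a * q.b) ≤ 20223 / 10000 * T := by
    have e1 : q.chi * q.d0 ≤ 2 * (q.W + 3 * |q.pp|) := by
      rwa [le_div_iff₀ hd] at hchi'
    have e2 := mul_le_mul_of_nonneg_left hd0 hchi
    have e3 : q.chi * (q.a * q.b) ≤ 400 / 199 * (q.W + 3 * |q.pp|) := by linarith
    have e4 : q.chi / q.dt * (q.a * q.b) = q.chi * (q.a * q.b) / q.dt := by ring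
    have e5 : 0 ≤ 400 / 199 * (q.W + 3 * |q.pp|) := by
      have := abs_nonneg q.pp
      positivity
    have e6 : 20223 / 10000 * ((q.W + 3 * |q.pp|) / (q.a * q.b * q.c))
        = (20223 / 10000 * (q.W + 3 * |q.pp|)) / (q.a * q.b * q.c) := by ring
    rw [e4, hTd, e6, div_le_div_iff₀ hD hA]
    have e7 := mul_le_mul_of_nonneg_right e3 hA.le
    have e8 : 0 ≤ q.W + 3 * |q.pp| := by linarith
    have e9 := mul_le_mul_of_nonneg_left hlo (by positivity : 0 ≤ 20223 / 10000 * (q.W + 3 * |q.pp|))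
    have e10 : 0 ≤ (q.W + 3 * |q.pp|) * (q.a * q.b * q.c) := by positivity
    linarith
  -- the exponentials
  have x1 : Real.exp (-(z * (R + Ro))) ≤ Real.exp (-(91 / 100 * (z * E))) := by
    apply Real.exp_le_exp.2
    have := (abs_le.1 hK).1
    rw [← hRo] at this
    nlinarith
  have x2 : Real.exp (-(z * R)) * Real.exp (z * |Ro|) ≤ Real.exp (-(91 / 100 * (z * E))) := by
    rw [← Real.exp_add]
    apply Real.exp_le_exp.2
    rw [← hRo] at hK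
    nlinarith
  have x3 : Real.exp (-(91 / 100 * (z * E))) ≤ Real.exp (-(5 / 6 * (z * E))) := by
    apply Real.exp_le_exp.2
    have : 0 ≤ z * E := mul_nonneg hz.le hE0
    linarith
  have x4 : -(5 / 6 * z * E) = -(5 / 6 * (z * E)) := by ring
  rw [x4]
  have hval : q.val z y = Md * Real.exp (-(z * (R + Ro)))
      + ((d - Ro) * (Real.exp (-(z * Ro)) - 1)) * Real.exp (-(z * R)) := by
    have e1 : Real.exp (-(z * (R + Ro))) = Real.exp (-(z * Ro)) * Real.exp (-(z * R)) := by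
      rw [← Real.exp_add]; congr 1; ring
    unfold Par.val
    rw [← hR, ← hRo, ← hMd, e1]
    have : q.dM.Ky y = d - Ro := by rw [hdd, hRo]; ring
    rw [this]
    ring
  rw [hval]
  obtain ⟨F, hF⟩ : ∃ F, F = Real.exp (-(5 / 6 * (z * E))) := ⟨_, rfl⟩
  have hF0 : 0 < F := by rw [hF]; exact Real.exp_pos _
  -- first term
  have t1 : -(20223 / 10000 * T * (p1 + p2) * F) ≤ Md * Real.exp (-(z * (R + Ro))) := by
    have e0 := Real.exp_pos (-(z * (R + Ro)))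
    have e1 := mul_le_mul_of_nonneg_right hMdP e0.le
    have e2 : 0 ≤ q.chi / q.dt * (q.a * q.b) * (p1 + p2) := by positivity
    have e3 := mul_le_mul_of_nonneg_left (x1.trans x3) e2
    have e4 := mul_le_mul_of_nonneg_right
      (mul_le_mul_of_nonneg_right hcoef (by linarith : 0 ≤ p1 + p2)) hF0.le
    rw [← hF] at e3
    linarith
  -- second term
  have t2 : -(58 / 10000 * T * E * F) ≤
      ((d - Ro) * (Real.exp (-(z * Ro)) - 1)) * Real.exp (-(z * R)) := by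
    have e1 := mul_le_mul_of_nonneg_right (real1 (u := Ro) (d := d) hz)
      (Real.exp_pos (-(z * R))).le
    have e2 := mul_le_mul_of_nonneg_left x2 (by positivity : 0 ≤ z / 4 * d ^ 2)
    have e3 : z / 4 * d ^ 2 * Real.exp (-(91 / 100 * (z * E))) ≤ 58 / 10000 * T * E * F := by
      rw [← hdd, ← hT0] at hdsq
      have f1 : z / 4 * d ^ 2 ≤ 12 / 10000 * T0 * E * (z * E) := by
        have := mul_le_mul_of_nonneg_left hdsq (by positivity : 0 ≤ z / 4)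
        linarith
      have f2 := mul_le_mul_of_nonneg_right f1 (Real.exp_pos (-(91 / 100 * (z * E)))).le
      have f3 := mul_le_mul_of_nonneg_left (real2 (s := z * E))
        (by positivity : 0 ≤ 12 / 10000 * T0 * E)
      rw [← hF] at f3
      have f4 : T0 * (E * F) ≤ T * (E * F) := mul_le_mul_of_nonneg_right hT0T (by positivity)
      have f5 : 0 ≤ T0 * (E * F) := by positivity
      linarith
    linarith
  have hTn : 0 ≤ T := hT0n.trans hT0T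
  have e0 : 41 / 20 * (q.W + 3 * |q.pp|) / (q.a * q.b * q.c) = 41 / 20 * T := by
    rw [hTd]; ring
  rw [e0, ← hF]
  have k1 : 0 ≤ T * p1 * F := by positivity
  have k2 : 0 ≤ T * p2 * F := by positivity
  have k3 : 0 ≤ T * p3 * F := by positivity
  have k4 : T * E * F = T * p1 * F + T * p2 * F + T * p3 * F := by rw [hE]; ring
  have k5 : 41 / 20 * T * (p1 + p2 + p3 / 200) * F = 41 / 20 * (T * p1 * F) +
      41 / 20 * (T * p2 * F) + 41 / 4000 * (T * p3 * F) := by ring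
  have k6 : 20223 / 10000 * T * (p1 + p2) * F = 20223 / 10000 * (T * p1 * F) +
      20223 / 10000 * (T * p2 * F) := by ring
  have k7 : 58 / 10000 * T * E * F = 58 / 10000 * (T * E * F) := by ring
  rw [k5]
  rw [k6] at t1
  rw [k7, k4] at t2
  linarith

end Pool.Agent.Lib.EPT
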