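import Pool.Agent.Lib.EPT.Cover
import Pool.Agent.Lib.EPT.SReg
import Pool.Agent.Lib.FCC.Perm
import Pool.Agent.Lib.EpZ.Gram

/-!
# The S-lemma in Selling parameters

PROOF.  `e = Se l > 0`, `D_k = e - SP l k`.  `parOf l = ⟨2 D_0/e, 2 D_1/e, 2 D_2/e, 2 (l0-l1)/e, 2 (l2-l3)/e,
2 (l4-l5)/e⟩`; `(parOf l).mat = (2/e) • formOf l` (entry by entry, `D_0 = l2+l3+l4+l5`,
`D_1 = l0+l1+l4+l5`, `D_2 = l0+l1+l2+l3`).
If `D_0 ≤ D_1 ≤ D_2` then `Reg (parOf l)`: `sum`: `D_0 + D_1 + D_2 = 2e`; `ha` from `d1`; `hc`: `D_2 ≤ e`;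
`hca` from `d2`; `hT` from `off`; `h3`: `|l4 - l5| ≤ l4 + l5 = e - D_2`.
In general a permutation of the three pairs `(l0,l1), (l2,l3), (l4,l5)` sorts the `D_k`; it is a product of
the transpositions `(23)` and `(24)`, `(34)` of FCC.Perm (`rel23`, `rel24`, `rel34`: `Eqv` of the forms, invariance of
`dt` and of nonnegativity; `SReg` is invariant, the conclusion is invariant).
`LocMin` is invariant under `Eqv` (`Eqv.locMin`) and under scaling (`LocMin.smul`).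
`formOf l` is positive definite from `0 < dt l` and `l ≥ 0` (or from `Reg.pd_mat` and scaling).
-/

open Matrix
open scoped Matrix.Norms.Elementwise

namespace Pool.Agent.Lib.EPT

open Pool.Agent.Lib.EpZ Pool.Agent.Lib.FCC

namespace SlemAux

open PermAux

/-- the parameters of the form -/
noncomputable def parOf (l : Fin 6 → ℝ) : Par :=
  ⟨2 * (Se l - SP l 0) / Se l, 2 * (Se l - SP l 1) / Se l, 2 * (Se l - SP l 2) / Se l,
    2 * (l 0 - l 1) / Se l, 2 * (l 2 - l 3) / Se l, 2 * (l 4 - l 5) / Se l⟩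

lemma sp0 (l : Fin 6 → ℝ) : SP l 0 = l 0 + l 1 := rfl
lemma sp1 (l : Fin 6 → ℝ) : SP l 1 = l 2 + l 3 := rfl
lemma sp2 (l : Fin 6 → ℝ) : SP l 2 = l 4 + l 5 := rfl

lemma Se_pos {l : Fin 6 → ℝ} (h0 : ∀ i, 0 ≤ l i) (hd : 0 < dt l) : 0 < Se l := by
  by_contra hcon
  have h1 : Se l ≤ 0 := not_lt.mp hcon
  unfold Se at h1
  have e0 : l 0 = 0 := by linarith [h0 0, h0 1, h0 2, h0 3, h0 4, h0 5]
  have e1 : l 1 = 0 := by linarith [h0 0, h0 1, h0 2, h0 3, h0 4, h0 5]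
  have e2 : l 2 = 0 := by linarith [h0 0, h0 1, h0 2, h0 3, h0 4, h0 5]
  have e3 : l 3 = 0 := by linarith [h0 0, h0 1, h0 2, h0 3, h0 4, h0 5]
  have e4 : l 4 = 0 := by linarith [h0 0, h0 1, h0 2, h0 3, h0 4, h0 5]
  have e5 : l 5 = 0 := by linarith [h0 0, h0 1, h0 2, h0 3, h0 4, h0 5]
  have h2 : dt l = 0 := by simp [dt, e0, e1, e2, e3, e4, e5]
  linarith

lemma mat_parOf {l : Fin 6 → ℝ} (he : 0 < Se l) : (parOf l).mat = (2 / Se l) • formOf l := by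
  have he' : l 0 + l 1 + l 2 + l 3 + l 4 + l 5 ≠ 0 := by unfold Se at he; exact he.ne'
  ext i j
  fin_cases i <;> fin_cases j <;>
    simp [Par.mat, parOf, formOf, Se, sp0, sp1, sp2] <;> field_simp <;> ring

lemma reg {l : Fin 6 → ℝ} (h0 : ∀ i, 0 ≤ l i) (he : 0 < Se l) (hr : SReg l)
    (h1 : SP l 1 ≤ SP l 0) (h2 : SP l 2 ≤ SP l 1) : Reg (parOf l) := by
  have hsum : SP l 0 + SP l 1 + SP l 2 = Se l := by
    rw [sp0, sp1, sp2]; unfold Se; ring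
  have hd1 := hr.d1 0
  have hd2 := hr.d2 0 2
  have hoff := hr.off
  refine ⟨?_, ?_, ?_, ?_, ?_, ?_, ?_, ?_⟩
  · show 2 * (Se l - SP l 0) / Se l + 2 * (Se l - SP l 1) / Se l + 2 * (Se l - SP l 2) / Se l = 4
    rw [← add_div, ← add_div, div_eq_iff he.ne']
    linarith
  · show 3 / 4 ≤ 2 * (Se l - SP l 0) / Se l
    rw [le_div_iff₀ he]
    linarith
  · show 2 * (Se l - SP l 0) / Se l ≤ 2 * (Se l - SP l 1) / Se l
    exact div_le_div_of_nonneg_right (by linarith) he.le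
  · show 2 * (Se l - SP l 1) / Se l ≤ 2 * (Se l - SP l 2) / Se l
    exact div_le_div_of_nonneg_right (by linarith) he.le
  · show 2 * (Se l - SP l 2) / Se l ≤ 2
    rw [div_le_iff₀ he, sp2]
    linarith [h0 4, h0 5]
  · show 2 * (Se l - SP l 2) / Se l - 2 * (Se l - SP l 0) / Se l ≤ 11 / 10
    rw [← sub_div, div_le_iff₀ he]
    linarith
  · show 200 * (2 * (Se l - SP l 0) / Se l * (2 * (l 0 - l 1) / Se l) ^ 2 +
        2 * (Se l - SP l 1) / Se l * (2 * (l 2 - l 3) / Se l) ^ 2 +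
        2 * (Se l - SP l 2) / Se l * (2 * (l 4 - l 5) / Se l) ^ 2) ≤
      2 * (Se l - SP l 0) / Se l * (2 * (Se l - SP l 1) / Se l) * (2 * (Se l - SP l 2) / Se l)
    have h3 : 0 ≤ 8 / Se l ^ 3 := by positivity
    have h4 := mul_le_mul_of_nonneg_left hoff h3
    calc _ = 8 / Se l ^ 3 * (200 * ((l 0 - l 1) ^ 2 * (Se l - SP l 0) +
          (l 2 - l 3) ^ 2 * (Se l - SP l 1) + (l 4 - l 5) ^ 2 * (Se l - SP l 2))) := by
          field_simp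
          ring
      _ ≤ _ := h4
      _ = _ := by
          field_simp
          ring
  · show |2 * (l 4 - l 5) / Se l| ≤ 2 - 2 * (Se l - SP l 2) / Se l
    have h3 : 2 - 2 * (Se l - SP l 2) / Se l = 2 * (l 4 + l 5) / Se l := by
      rw [sp2]
      field_simp
      ring
    rw [h3, abs_div, abs_of_pos he]
    refine div_le_div_of_nonneg_right ?_ he.le
    rw [abs_le]
    constructor <;> linarith [h0 4, h0 5]

lemma core {l : Fin 6 → ℝ} (h0 : ∀ i, 0 ≤ l i) (hd : 0 < dt l) (hr : SReg l)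
    (h1 : SP l 1 ≤ SP l 0) (h2 : SP l 2 ≤ SP l 1) {s : ℝ}
    (hs : 3 / 2 < s) (hm : LocMin s (formOf l)) : l 0 = l 1 ∧ l 2 = l 3 ∧ l 4 = l 5 := by
  have he := Se_pos h0 hd
  have hR := reg h0 he hr h1 h2
  by_contra hcon
  have hne : ¬((parOf l).o1 = 0 ∧ (parOf l).o2 = 0 ∧ (parOf l).o3 = 0) := by
    rintro ⟨k1, k2, k3⟩
    apply hcon
    have k : ∀ u v : ℝ, 2 * (u - v) / Se l = 0 → u = v := by
      intro u v h
      rw [div_eq_zero_iff] at h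
      rcases h with h | h
      · linarith
      · exact absurd h he.ne'
    exact ⟨k _ _ k1, k _ _ k2, k _ _ k3⟩
  refine hR.notMin hne hs ?_
  have hpd : PD (formOf l) := by
    have h3 := hR.pd_mat.smul (c := Se l / 2) (by positivity)
    rw [mat_parOf he, smul_smul] at h3
    have h4 : Se l / 2 * (2 / Se l) = 1 := by field_simp
    rwa [h4, one_smul] at h3
  rw [mat_parOf he]
  exact hm.smul (by norm_num) hpd (by positivity)

/-- the statement for one set of parameters -/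
def P (s : ℝ) (l : Fin 6 → ℝ) : Prop :=
  (∀ i, 0 ≤ l i) → 0 < dt l → SReg l → LocMin s (formOf l) → l 0 = l 1 ∧ l 2 = l 3 ∧ l 4 = l 5

lemma se23 (l : Fin 6 → ℝ) : Se (s23 l) = Se l := by simp [Se, s23]; ring
lemma se24 (l : Fin 6 → ℝ) : Se (s24 l) = Se l := by simp [Se, s24]; ring
lemma se34 (l : Fin 6 → ℝ) : Se (s34 l) = Se l := by simp [Se, s34]; ring

lemma sreg23 {l : Fin 6 → ℝ} (h : SReg l) : SReg (s23 l) := by
  refine ⟨fun k => ?_, fun j k => ?_, ?_⟩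
  · rw [se23]
    fin_cases k
    exacts [h.d1 1, h.d1 0, h.d1 2]
  · rw [se23]
    fin_cases j <;> fin_cases k
    exacts [h.d2 1 1, h.d2 1 0, h.d2 1 2, h.d2 0 1, h.d2 0 0, h.d2 0 2, h.d2 2 1, h.d2 2 0,
      h.d2 2 2]
  · rw [se23]
    show 200 * ((l 2 - l 3) ^ 2 * (Se l - SP l 1) + (l 0 - l 1) ^ 2 * (Se l - SP l 0)
      + (l 4 - l 5) ^ 2 * (Se l - SP l 2)) ≤ (Se l - SP l 1) * (Se l - SP l 0) * (Se l - SP l 2)
    have := h.off
    linarith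

lemma sreg24 {l : Fin 6 → ℝ} (h : SReg l) : SReg (s24 l) := by
  refine ⟨fun k => ?_, fun j k => ?_, ?_⟩
  · rw [se24]
    fin_cases k
    exacts [h.d1 2, h.d1 1, h.d1 0]
  · rw [se24]
    fin_cases j <;> fin_cases k
    exacts [h.d2 2 2, h.d2 2 1, h.d2 2 0, h.d2 1 2, h.d2 1 1, h.d2 1 0, h.d2 0 2, h.d2 0 1,
      h.d2 0 0]
  · rw [se24]
    show 200 * ((l 4 - l 5) ^ 2 * (Se l - SP l 2) + (l 2 - l 3) ^ 2 * (Se l - SP l 1)
      + (l 0 - l 1) ^ 2 * (Se l - SP l 0)) ≤ (Se l - SP l 2) * (Se l - SP l 1) * (Se l - SP l 0)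
    have := h.off
    linarith

lemma sreg34 {l : Fin 6 → ℝ} (h : SReg l) : SReg (s34 l) := by
  refine ⟨fun k => ?_, fun j k => ?_, ?_⟩
  · rw [se34]
    fin_cases k
    exacts [h.d1 0, h.d1 2, h.d1 1]
  · rw [se34]
    fin_cases j <;> fin_cases k
    exacts [h.d2 0 0, h.d2 0 2, h.d2 0 1, h.d2 2 0, h.d2 2 2, h.d2 2 1, h.d2 1 0, h.d2 1 2,
      h.d2 1 1]
  · rw [se34]
    show 200 * ((l 0 - l 1) ^ 2 * (Se l - SP l 0) + (l 4 - l 5) ^ 2 * (Se l - SP l 2)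
      + (l 2 - l 3) ^ 2 * (Se l - SP l 1)) ≤ (Se l - SP l 0) * (Se l - SP l 2) * (Se l - SP l 1)
    have := h.off
    linarith

lemma step {s : ℝ} {l l' : Fin 6 → ℝ} (hr : Rel l l') (hS : SReg l → SReg l')
    (hc : (l' 0 = l' 1 ∧ l' 2 = l' 3 ∧ l' 4 = l' 5) → l 0 = l 1 ∧ l 2 = l 3 ∧ l 4 = l 5)
    (hP : P s l') : P s l := by
  intro h0 hd hS' hm
  refine hc (hP (hr.2.2 h0) ?_ (hS hS') (hr.1.locMin hm))
  rw [hr.2.1]
  exact hd

lemma P23 {s : ℝ} {l : Fin 6 → ℝ} (h : P s (s23 l)) : P s l :=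
  step (rel23 l) sreg23 (fun ⟨h1, h2, h3⟩ => ⟨h2, h1, h3⟩) h

lemma P24 {s : ℝ} {l : Fin 6 → ℝ} (h : P s (s24 l)) : P s l :=
  step (rel24 l) sreg24 (fun ⟨h1, h2, h3⟩ => ⟨h3, h2, h1⟩) h

lemma P34 {s : ℝ} {l : Fin 6 → ℝ} (h : P s (s34 l)) : P s l :=
  step (rel34 l) sreg34 (fun ⟨h1, h2, h3⟩ => ⟨h1, h3, h2⟩) h

lemma P0 {s : ℝ} (hs : 3 / 2 < s) {l : Fin 6 → ℝ} (h1 : SP l 1 ≤ SP l 0)
    (h2 : SP l 2 ≤ SP l 1) : P s l :=
  fun h0 hd hr hm => core h0 hd hr h1 h2 hs hm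

end SlemAux

theorem slem (l : Fin 6 → ℝ) (h0 : ∀ i, 0 ≤ l i) (hd : 0 < dt l) (hr : SReg l) (s : ℝ)
    (hs : 3 / 2 < s) (hm : LocMin s (formOf l)) : l 0 = l 1 ∧ l 2 = l 3 ∧ l 4 = l 5 := by
  suffices h : SlemAux.P s l from h h0 hd hr hm
  rcases le_total (SP l 1) (SP l 0) with h10 | h10 <;>
    rcases le_total (SP l 2) (SP l 1) with h21 | h21 <;>
    rcases le_total (SP l 2) (SP l 0) with h20 | h20
  · exact SlemAux.P0 hs h10 h21
  · exact SlemAux.P0 hs h10 h21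
  · exact SlemAux.P34 (SlemAux.P0 hs (l := PermAux.s34 l) h20 h21)
  · exact SlemAux.P24 (SlemAux.P34 (SlemAux.P0 hs (l := PermAux.s34 (PermAux.s24 l)) h20 h10))
  · exact SlemAux.P23 (SlemAux.P0 hs (l := PermAux.s23 l) h10 h20)
  · exact SlemAux.P23 (SlemAux.P34 (SlemAux.P0 hs (l := PermAux.s34 (PermAux.s23 l)) h21 h20))
  · exact SlemAux.P24 (SlemAux.P0 hs (l := PermAux.s24 l) h21 h10)
  · exact SlemAux.P24 (SlemAux.P0 hs (l := PermAux.s24 l) h21 h10)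

end Pool.Agent.Lib.EPT
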