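import Pool.Agent.Lib.EPT.BSnd
import Pool.Agent.Lib.EPT.Crit

/-!
# Trees of rectangles in the plane of `(a, c)`
-/

namespace Pool.Agent.Lib.EPT

open Pool.Agent.Lib.EpZ Pool.Agent.Lib.EPS Pool.Agent.Lib.EPL

/-- a tree: nothing to do, a box, a cut of `a`, a cut of `c` -/
inductive Tr where
  | em : Tr
  | bx (l : List ℕ) : Tr
  | ca (m : ℕ) (x y : Tr) : Tr
  | cc (m : ℕ) (x y : Tr) : Tr

/-- the unit -/
abbrev un : ℕ := 1048576

/-- the rectangle contains no point of the region -/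
def emp (A0 A1 C0 C1 : ℕ) : Bool :=
  Nat.blt (4 * A1) (3 * un) || Nat.blt (2 * un) C0 || Nat.blt (10 * A1 + 11 * un) (10 * C0)
    || Nat.blt (4 * un) (2 * A0 + C0) || Nat.blt (2 * C1 + A1) (4 * un)

/-- the box contains the part of the region above the rectangle -/
def fit (A0 A1 C0 C1 a0 a1 b0 b1 c0 c1 : ℕ) : Bool :=
  (Nat.ble a0 A0 || Nat.ble (4 * a0) (3 * un) || Nat.ble (10 * a0 + 11 * un) (10 * C0)
      || Nat.ble (a0 + 2 * C1) (4 * un)) &&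
    (Nat.ble A1 a1 || Nat.ble (4 * un) (2 * a1 + C0) || Nat.ble (4 * un) (3 * a1)) &&
    (Nat.ble c0 C0 || Nat.ble (3 * c0) (4 * un) || Nat.ble (2 * c0 + A1) (4 * un)) &&
    (Nat.ble C1 c1 || Nat.ble (2 * un) c1 || Nat.ble (10 * A1 + 11 * un) (10 * c1)
      || Nat.ble (4 * un) (c1 + 2 * A0)) &&
    (Nat.ble (b0 + a1 + c1) (4 * un) || Nat.ble b0 a0 || Nat.ble b0 un) &&
    (Nat.ble (4 * un) (b1 + a0 + c0) || Nat.ble c1 b1 || Nat.ble (13 * un) (8 * b1)) &&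
    (Nat.ble (3 * un) (4 * a0) && Nat.ble (3 * un) (4 * b0) && Nat.ble (3 * un) (4 * c0)
      && Nat.ble c1 (2 * un) && Nat.ble c0 (2 * un) && Nat.ble a1 (3 * un) && Nat.ble b1 (3 * un))

/-- the check of a box -/
def chkB (A0 A1 C0 C1 : ℕ) (l : List ℕ) : Bool :=
  fit A0 A1 C0 C1 (l.getD 0 0) (l.getD 1 0) (l.getD 2 0) (l.getD 3 0) (l.getD 4 0) (l.getD 5 0)
    && Nat.beq l.length 16 && BT.chkN l

/-- the check of a tree -/
def Tr.chk : Tr → ℕ → ℕ → ℕ → ℕ → Bool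
  | .em, A0, A1, C0, C1 => emp A0 A1 C0 C1
  | .bx l, A0, A1, C0, C1 => chkB A0 A1 C0 C1 l
  | .ca m x y, A0, A1, C0, C1 => x.chk A0 m C0 C1 && y.chk m A1 C0 C1
  | .cc m x y, A0, A1, C0, C1 => x.chk A0 A1 C0 m && y.chk A0 A1 m C1

/-- the conclusion for a rectangle -/
def Done (A0 A1 C0 C1 : ℕ) : Prop :=
  ∀ q : Par, Reg q → (A0 : ℝ) / 1048576 ≤ q.a → q.a ≤ (A1 : ℝ) / 1048576 →
    (C0 : ℝ) / 1048576 ≤ q.c → q.c ≤ (C1 : ℝ) / 1048576 →
    ¬(q.o1 = 0 ∧ q.o2 = 0 ∧ q.o3 = 0) → ∀ s : ℝ, 3 / 2 < s → ¬ LocMin s q.mat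

theorem emp_done {A0 A1 C0 C1 : ℕ} (h : emp A0 A1 C0 C1 = true) : Done A0 A1 C0 C1 := by
  intro q hq h1 h2 h3 h4 _ s _
  exfalso
  have g1 := hq.sum
  have g2 := hq.ha
  have g3 := hq.hab
  have g4 := hq.hbc
  have g5 := hq.hc
  have g6 := hq.hca
  rw [div_le_iff₀ (by norm_num)] at h1 h3
  rw [le_div_iff₀ (by norm_num)] at h2 h4
  simp only [emp, Nat.blt, Nat.ble_eq, Bool.or_eq_true, un] at h
  rcases h with (((h | h) | h) | h) | h
  · have : (4 * A1 + 1 : ℝ) ≤ 3 * 1048576 := by exact_mod_cast h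
    linarith
  · have : (2 * 1048576 + 1 : ℝ) ≤ C0 := by exact_mod_cast h
    linarith
  · have : (10 * A1 + 11 * 1048576 + 1 : ℝ) ≤ 10 * C0 := by exact_mod_cast h
    linarith
  · have : (4 * 1048576 + 1 : ℝ) ≤ 2 * A0 + C0 := by exact_mod_cast h
    linarith
  · have : (2 * C1 + A1 + 1 : ℝ) ≤ 4 * 1048576 := by exact_mod_cast h
    linarith

theorem fit_in {A0 A1 C0 C1 a0 a1 b0 b1 c0 c1 : ℕ}
    (h : fit A0 A1 C0 C1 a0 a1 b0 b1 c0 c1 = true) {q : Par} (hq : Reg q)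
    (h1 : (A0 : ℝ) / 1048576 ≤ q.a) (h2 : q.a ≤ (A1 : ℝ) / 1048576)
    (h3 : (C0 : ℝ) / 1048576 ≤ q.c) (h4 : q.c ≤ (C1 : ℝ) / 1048576) :
    InB ⟨(a0 : ℝ) / 1048576, (a1 : ℝ) / 1048576, (b0 : ℝ) / 1048576, (b1 : ℝ) / 1048576,
      (c0 : ℝ) / 1048576, (c1 : ℝ) / 1048576⟩ q := by
  have g1 := hq.sum
  have g2 := hq.ha
  have g3 := hq.hab
  have g4 := hq.hbc
  have g5 := hq.hc
  have g6 := hq.hca
  have g7 := hq.b1
  have g8 := hq.b2
  have g9 := hq.c1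
  have g10 := hq.a2
  rw [div_le_iff₀ (by norm_num)] at h1 h3
  rw [le_div_iff₀ (by norm_num)] at h2 h4
  simp only [fit, Bool.and_eq_true, Bool.or_eq_true, Nat.ble_eq, un] at h
  obtain ⟨⟨⟨⟨⟨⟨e1, e2⟩, e3⟩, e4⟩, e5⟩, e6⟩, ⟨⟨⟨⟨⟨⟨f1, f2⟩, f3⟩, f4⟩, f5⟩, f6⟩, f7⟩⟩ := h
  have r1 : (a0 : ℝ) ≤ q.a * 1048576 := by
    rcases e1 with ((h | h) | h) | h
    · have : (a0 : ℝ) ≤ A0 := by exact_mod_cast h
      linarith
    · have : (4 * a0 : ℝ) ≤ 3 * 1048576 := by exact_mod_cast h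
      linarith
    · have : (10 * a0 + 11 * 1048576 : ℝ) ≤ 10 * C0 := by exact_mod_cast h
      linarith
    · have : (a0 + 2 * C1 : ℝ) ≤ 4 * 1048576 := by exact_mod_cast h
      linarith
  have r2 : q.a * 1048576 ≤ a1 := by
    rcases e2 with (h | h) | h
    · have : (A1 : ℝ) ≤ a1 := by exact_mod_cast h
      linarith
    · have : (4 * 1048576 : ℝ) ≤ 2 * a1 + C0 := by exact_mod_cast h
      linarith
    · have : (4 * 1048576 : ℝ) ≤ 3 * a1 := by exact_mod_cast h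
      linarith
  have r3 : (c0 : ℝ) ≤ q.c * 1048576 := by
    rcases e3 with (h | h) | h
    · have : (c0 : ℝ) ≤ C0 := by exact_mod_cast h
      linarith
    · have : (3 * c0 : ℝ) ≤ 4 * 1048576 := by exact_mod_cast h
      linarith
    · have : (2 * c0 + A1 : ℝ) ≤ 4 * 1048576 := by exact_mod_cast h
      linarith
  have r4 : q.c * 1048576 ≤ c1 := by
    rcases e4 with ((h | h) | h) | h
    · have : (C1 : ℝ) ≤ c1 := by exact_mod_cast h
      linarith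
    · have : (2 * 1048576 : ℝ) ≤ c1 := by exact_mod_cast h
      linarith
    · have : (10 * A1 + 11 * 1048576 : ℝ) ≤ 10 * c1 := by exact_mod_cast h
      linarith
    · have : (4 * 1048576 : ℝ) ≤ c1 + 2 * A0 := by exact_mod_cast h
      linarith
  have r5 : (b0 : ℝ) ≤ q.b * 1048576 := by
    rcases e5 with (h | h) | h
    · have : (b0 + a1 + c1 : ℝ) ≤ 4 * 1048576 := by exact_mod_cast h
      linarith
    · have : (b0 : ℝ) ≤ a0 := by exact_mod_cast h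
      linarith
    · have : (b0 : ℝ) ≤ 1048576 := by exact_mod_cast h
      linarith
  have r6 : q.b * 1048576 ≤ b1 := by
    rcases e6 with (h | h) | h
    · have : (4 * 1048576 : ℝ) ≤ b1 + a0 + c0 := by exact_mod_cast h
      linarith
    · have : (c1 : ℝ) ≤ b1 := by exact_mod_cast h
      linarith
    · have : (13 * 1048576 : ℝ) ≤ 8 * b1 := by exact_mod_cast h
      linarith
  have s1 : (3 * 1048576 : ℝ) ≤ 4 * a0 := by exact_mod_cast f1
  have s2 : (3 * 1048576 : ℝ) ≤ 4 * b0 := by exact_mod_cast f2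
  have s3 : (3 * 1048576 : ℝ) ≤ 4 * c0 := by exact_mod_cast f3
  have s4 : (c1 : ℝ) ≤ 2 * 1048576 := by exact_mod_cast f4
  have s5 : (c0 : ℝ) ≤ 2 * 1048576 := by exact_mod_cast f5
  have s6 : (a1 : ℝ) ≤ 3 * 1048576 := by exact_mod_cast f6
  have s7 : (b1 : ℝ) ≤ 3 * 1048576 := by exact_mod_cast f7
  refine ⟨?_, ?_, ?_, ?_, ?_, ?_, ?_, ?_, ?_, ?_, ?_, ?_, ?_⟩ <;> simp only
  · rw [div_le_iff₀ (by norm_num)]; exact r1
  · rw [le_div_iff₀ (by norm_num)]; exact r2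
  · rw [div_le_iff₀ (by norm_num)]; exact r5
  · rw [le_div_iff₀ (by norm_num)]; exact r6
  · rw [div_le_iff₀ (by norm_num)]; exact r3
  · rw [le_div_iff₀ (by norm_num)]; exact r4
  · rw [le_div_iff₀ (by norm_num)]; linarith
  · rw [le_div_iff₀ (by norm_num)]; linarith
  · rw [le_div_iff₀ (by norm_num)]; linarith
  · rw [div_le_iff₀ (by norm_num)]; linarith
  · rw [div_le_iff₀ (by norm_num)]; linarith
  · rw [div_le_iff₀ (by norm_num)]; linarith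
  · rw [div_le_iff₀ (by norm_num)]; linarith

theorem box_done {A0 A1 C0 C1 : ℕ} {l : List ℕ} (h : chkB A0 A1 C0 C1 l = true) :
    Done A0 A1 C0 C1 := by
  simp only [chkB, Bool.and_eq_true] at h
  obtain ⟨⟨h1, h2⟩, h3⟩ := h
  have h2' : l.length = 16 := Nat.eq_of_beq_eq_true h2
  intro q hq g1 g2 g3 g4 ho s hs
  exact (BT.chkN_sound h2' h3).notMin hq (fit_in h1 hq g1 g2 g3 g4) ho hs

theorem Tr.done : ∀ (t : Tr) (A0 A1 C0 C1 : ℕ), t.chk A0 A1 C0 C1 = true → Done A0 A1 C0 C1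
  | .em, _, _, _, _, h => emp_done h
  | .bx _, _, _, _, _, h => box_done h
  | .ca m x y, A0, A1, C0, C1, h => by
    simp only [Tr.chk, Bool.and_eq_true] at h
    have hx := Tr.done x _ _ _ _ h.1
    have hy := Tr.done y _ _ _ _ h.2
    intro q hq g1 g2 g3 g4
    rcases le_total q.a ((m : ℝ) / 1048576) with hm | hm
    · exact hx q hq g1 hm g3 g4
    · exact hy q hq hm g2 g3 g4
  | .cc m x y, A0, A1, C0, C1, h => by
    simp only [Tr.chk, Bool.and_eq_true] at h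
    have hx := Tr.done x _ _ _ _ h.1
    have hy := Tr.done y _ _ _ _ h.2
    intro q hq g1 g2 g3 g4
    rcases le_total q.c ((m : ℝ) / 1048576) with hm | hm
    · exact hx q hq g1 g2 g3 hm
    · exact hy q hq g1 g2 hm g4

/-- cut of `a` -/
theorem Done.ca {A0 A1 C0 C1 : ℕ} (m : ℕ) (hx : Done A0 m C0 C1) (hy : Done m A1 C0 C1) :
    Done A0 A1 C0 C1 := by
  intro q hq g1 g2 g3 g4
  rcases le_total q.a ((m : ℝ) / 1048576) with hm | hm
  · exact hx q hq g1 hm g3 g4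
  · exact hy q hq hm g2 g3 g4

/-- cut of `c` -/
theorem Done.cc {A0 A1 C0 C1 : ℕ} (m : ℕ) (hx : Done A0 A1 C0 m) (hy : Done A0 A1 m C1) :
    Done A0 A1 C0 C1 := by
  intro q hq g1 g2 g3 g4
  rcases le_total q.c ((m : ℝ) / 1048576) with hm | hm
  · exact hx q hq g1 g2 g3 hm
  · exact hy q hq g1 g2 hm g4

end Pool.Agent.Lib.EPT
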